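import Mathlib

set_option autoImplicit false

/-!
# Orbits of the standard map: derivatives along vertical... (x_0 fixed, x_1 = t)
-/

namespace Pool.Agent.TH705.SM

open Real

/-- lifts of the orbit with `x_0 = s`, `x_1 = t` -/
noncomputable def X (a s : ℝ) : ℕ → ℝ → ℝ
  | 0, _ => s
  | 1, t => t
  | k + 2, t => 2 * X a s (k + 1) t - X a s k t + a * sin (2 * π * X a s (k + 1) t)

/-- the derivative of `2 x + a sin 2 π x` -/
noncomputable def L (a x : ℝ) : ℝ := 2 + 2 * π * a * cos (2 * π * x)

/-- first derivatives -/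
noncomputable def D (a s : ℝ) : ℕ → ℝ → ℝ
  | 0, _ => 0
  | 1, _ => 1
  | k + 2, t => L a (X a s (k + 1) t) * D a s (k + 1) t - D a s k t

/-- second derivatives -/
noncomputable def B (a s : ℝ) : ℕ → ℝ → ℝ
  | 0, _ => 0
  | 1, _ => 0
  | k + 2, t => L a (X a s (k + 1) t) * B a s (k + 1) t
      - 4 * π ^ 2 * a * sin (2 * π * X a s (k + 1) t) * D a s (k + 1) t ^ 2 - B a s k t

theorem X_hasDeriv (a s : ℝ) (k : ℕ) (t : ℝ) : HasDerivAt (X a s k) (D a s k t) t := by
  induction k using Nat.strong_induction_on with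
  | _ k ih =>
    match k with
    | 0 => exact hasDerivAt_const t s
    | 1 => exact hasDerivAt_id t
    | k + 2 =>
      have h1 := ih (k + 1) (by omega)
      have h0 := ih k (by omega)
      have h2 := (h1.const_mul (2 * π)).sin
      have h3 := ((h1.const_mul 2).sub h0).add (h2.const_mul a)
      refine HasDerivAt.congr_deriv (f := X a s (k + 2)) h3 ?_
      show _ = L a (X a s (k + 1) t) * D a s (k + 1) t - D a s k t
      unfold L
      ring

theorem L_hasDeriv (a s : ℝ) (k : ℕ) (t : ℝ) : HasDerivAt (fun t => L a (X a s k t))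
    (-(4 * π ^ 2 * a * sin (2 * π * X a s k t)) * D a s k t) t := by
  have h1 := ((X_hasDeriv a s k t).const_mul (2 * π)).cos
  have h2 := (h1.const_mul (2 * π * a)).const_add 2
  refine HasDerivAt.congr_deriv (f := fun t => L a (X a s k t)) h2 ?_
  ring

theorem D_hasDeriv (a s : ℝ) (k : ℕ) (t : ℝ) : HasDerivAt (D a s k) (B a s k t) t := by
  induction k using Nat.strong_induction_on with
  | _ k ih =>
    match k with
    | 0 => exact hasDerivAt_const t 0
    | 1 => exact hasDerivAt_const t 1
    | k + 2 =>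
      have h1 := ih (k + 1) (by omega)
      have h0 := ih k (by omega)
      have h3 := ((L_hasDeriv a s (k + 1) t).mul h1).sub h0
      refine HasDerivAt.congr_deriv (f := D a s (k + 2)) h3 ?_
      show _ = L a (X a s (k + 1) t) * B a s (k + 1) t
        - 4 * π ^ 2 * a * sin (2 * π * X a s (k + 1) t) * D a s (k + 1) t ^ 2 - B a s k t
      ring

theorem X_cont (a : ℝ) (k : ℕ) : Continuous (fun p : ℝ × ℝ => X a p.1 k p.2) := by
  induction k using Nat.strong_induction_on with
  | _ k ih =>
    match k with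
    | 0 => exact continuous_fst
    | 1 => exact continuous_snd
    | k + 2 =>
      have h1 := ih (k + 1) (by omega)
      have h0 := ih k (by omega)
      show Continuous (fun p : ℝ × ℝ => 2 * X a p.1 (k + 1) p.2 - X a p.1 k p.2 +
          a * sin (2 * π * X a p.1 (k + 1) p.2))
      fun_prop

theorem L_cont (a : ℝ) : Continuous (L a) := by
  unfold L
  fun_prop

theorem Xt_cont (a s : ℝ) (k : ℕ) : Continuous (X a s k) :=
  (X_cont a k).comp (by fun_prop : Continuous (fun t : ℝ => (s, t)))

theorem D_cont (a s : ℝ) (k : ℕ) : Continuous (D a s k) :=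
  continuous_iff_continuousAt.2 fun t => (D_hasDeriv a s k t).continuousAt

theorem B_cont (a s : ℝ) (k : ℕ) : Continuous (B a s k) := by
  induction k using Nat.strong_induction_on with
  | _ k ih =>
    match k with
    | 0 => exact continuous_const
    | 1 => exact continuous_const
    | k + 2 =>
      have h1 := ih (k + 1) (by omega)
      have h0 := ih k (by omega)
      have h2 := Xt_cont a s (k + 1)
      have h3 := D_cont a s (k + 1)
      have h4 := (L_cont a).comp h2
      show Continuous (fun t => L a (X a s (k + 1) t) * B a s (k + 1) t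
        - 4 * π ^ 2 * a * sin (2 * π * X a s (k + 1) t) * D a s (k + 1) t ^ 2 - B a s k t)
      have h5 : Continuous (fun t => L a (X a s (k + 1) t)) := h4
      fun_prop

/-- periodicity -/
theorem X_period (a s : ℝ) (k : ℕ) (t : ℝ) : X a s k (t + 1) = X a s k t + k := by
  induction k using Nat.strong_induction_on with
  | _ k ih =>
    match k with
    | 0 => simp [X]
    | 1 => simp [X]
    | k + 2 =>
      have h1 := ih (k + 1) (by omega)
      have h0 := ih k (by omega)
      show 2 * X a s (k + 1) (t + 1) - X a s k (t + 1) + a * sin (2 * π * X a s (k + 1) (t + 1)) =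
        2 * X a s (k + 1) t - X a s k t + a * sin (2 * π * X a s (k + 1) t) + ((k + 2 : ℕ) : ℝ)
      have h2 : sin (2 * π * X a s (k + 1) (t + 1)) = sin (2 * π * X a s (k + 1) t) := by
        rw [h1]
        have e : 2 * π * (X a s (k + 1) t + ((k + 1 : ℕ) : ℝ)) =
            2 * π * X a s (k + 1) t + ((k + 1 : ℕ) : ℝ) * (2 * π) := by ring
        rw [e, sin_add_nat_mul_two_pi]
      rw [h2, h1, h0]
      push_cast
      ring

theorem L_period (a x : ℝ) (k : ℕ) : L a (x + k) = L a x := by
  unfold L
  have e : 2 * π * (x + (k : ℝ)) = 2 * π * x + (k : ℝ) * (2 * π) := by ring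
  rw [e, cos_add_nat_mul_two_pi]

theorem D_period (a s : ℝ) (k : ℕ) (t : ℝ) : D a s k (t + 1) = D a s k t := by
  induction k using Nat.strong_induction_on with
  | _ k ih =>
    match k with
    | 0 => rfl
    | 1 => rfl
    | k + 2 =>
      have h1 := ih (k + 1) (by omega)
      have h0 := ih k (by omega)
      show L a (X a s (k + 1) (t + 1)) * D a s (k + 1) (t + 1) - D a s k (t + 1) =
        L a (X a s (k + 1) t) * D a s (k + 1) t - D a s k t
      rw [X_period, L_period, h1, h0]

/-- the good times -/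
def Good (a l s : ℝ) (m : ℕ) (t : ℝ) : Prop := ∀ j, 1 ≤ j → j ≤ m → l ≤ |L a (X a s j t)|

theorem Good.mono {a l s : ℝ} {m n : ℕ} {t : ℝ} (h : Good a l s n t) (hmn : m ≤ n) :
    Good a l s m t := fun j h1 h2 => h j h1 (h2.trans hmn)

theorem growth {a l s t : ℝ} (hl : 16 ≤ l) {m : ℕ} (hg : Good a l s m t) :
    ∀ k, k ≤ m → l * |D a s k t| ≤ 2 * |D a s (k + 1) t| ∧
      (1 ≤ k → |L a (X a s k t)| * |D a s k t| ≤ 2 * |D a s (k + 1) t|) ∧
      1 ≤ |D a s (k + 1) t| := by
  intro k
  induction k with
  | zero =>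
    intro _
    refine ⟨?_, by omega, ?_⟩
    · show l * |(0:ℝ)| ≤ 2 * |(1:ℝ)|
      simp
    · show 1 ≤ |(1:ℝ)|
      simp
  | succ k ih =>
    intro hk
    obtain ⟨h1, _, h3⟩ := ih (by omega)
    have hL := hg (k + 1) (by omega) hk
    have e : D a s (k + 1 + 1) t = L a (X a s (k + 1) t) * D a s (k + 1) t - D a s k t := rfl
    have h4 : |L a (X a s (k + 1) t)| * |D a s (k + 1) t| - |D a s k t| ≤
        |D a s (k + 1 + 1) t| := by
      rw [e, ← abs_mul]
      exact abs_sub_abs_le_abs_sub _ _
    have h5 : |D a s k t| ≤ |D a s (k + 1) t| := by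
      have h0 := abs_nonneg (D a s k t)
      nlinarith
    have h6 : |L a (X a s (k + 1) t)| * |D a s (k + 1) t| ≤ 2 * |D a s (k + 1 + 1) t| := by
      have : 16 * |D a s (k + 1) t| ≤ |L a (X a s (k + 1) t)| * |D a s (k + 1) t| :=
        mul_le_mul_of_nonneg_right (hl.trans hL) (abs_nonneg _)
      linarith
    refine ⟨?_, fun _ => h6, ?_⟩
    · exact (mul_le_mul_of_nonneg_right hL (abs_nonneg _)).trans h6
    · have : 16 * |D a s (k + 1) t| ≤ |L a (X a s (k + 1) t)| * |D a s (k + 1) t| :=
        mul_le_mul_of_nonneg_right (hl.trans hL) (abs_nonneg _)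
      linarith

/-- the sum of the derivatives -/
noncomputable def SD (a s : ℝ) (m : ℕ) (t : ℝ) : ℝ := ∑ k ∈ Finset.range m, |D a s (k + 1) t|

theorem SD_le {a l s t : ℝ} (hl : 16 ≤ l) {m : ℕ} (hg : Good a l s m t) :
    SD a s m t ≤ 2 * |D a s m t| := by
  induction m with
  | zero => simp [SD]
  | succ m ih =>
    have h1 := ih (hg.mono (Nat.le_succ m))
    have h2 := (growth hl hg m (Nat.le_succ m)).1
    unfold SD at h1 ⊢
    rw [Finset.sum_range_succ]
    have h0 := abs_nonneg (D a s m t)
    nlinarith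

/-- second derivatives against first derivatives -/
theorem B_le {a l s t : ℝ} (hl : 16 ≤ l) {m : ℕ} (hg : Good a l s m t) :
    ∀ k, k ≤ m + 1 → |B a s k t| ≤ 32 * π ^ 2 * |a| / l ^ 2 * D a s k t ^ 2 := by
  intro k
  have hl0 : 0 < l := by linarith
  set R : ℝ := 32 * π ^ 2 * |a| / l ^ 2 with hR
  have hR0 : 0 ≤ R := by positivity
  induction k using Nat.strong_induction_on with
  | _ k ih =>
    match k with
    | 0 => intro _; simp [B, D]
    | 1 => intro _; simp [B, D]; exact hR0
    | k + 2 =>
      intro hk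
      have h1 := ih (k + 1) (by omega) (by omega)
      have h0 := ih k (by omega) (by omega)
      have hL := hg (k + 1) (by omega) (by omega)
      obtain ⟨_, h6, _⟩ := growth hl hg (k + 1) (by omega)
      have h6 := h6 (by omega)
      have h5 := (growth hl hg k (by omega)).1
      set Lk := |L a (X a s (k + 1) t)| with hLk
      have hB : |B a s (k + 2) t| ≤ Lk * |B a s (k + 1) t| +
          4 * π ^ 2 * |a| * D a s (k + 1) t ^ 2 + |B a s k t| := by
        show |L a (X a s (k + 1) t) * B a s (k + 1) t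
          - 4 * π ^ 2 * a * sin (2 * π * X a s (k + 1) t) * D a s (k + 1) t ^ 2 - B a s k t| ≤ _
        have e1 : |L a (X a s (k + 1) t) * B a s (k + 1) t| = Lk * |B a s (k + 1) t| := abs_mul _ _
        have e2 : |4 * π ^ 2 * a * sin (2 * π * X a s (k + 1) t) * D a s (k + 1) t ^ 2| ≤
            4 * π ^ 2 * |a| * D a s (k + 1) t ^ 2 := by
          rw [abs_mul, abs_mul, abs_mul, abs_mul]
          have h7 := abs_sin_le_one (2 * π * X a s (k + 1) t)
          have e3 : |(4:ℝ)| * |π ^ 2| = 4 * π ^ 2 := by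
            rw [abs_of_pos (by norm_num : (0:ℝ) < 4), abs_of_pos (by positivity : 0 < π ^ 2)]
          rw [e3, abs_of_nonneg (sq_nonneg (D a s (k + 1) t))]
          apply mul_le_mul_of_nonneg_right _ (sq_nonneg _)
          calc 4 * π ^ 2 * |a| * |sin (2 * π * X a s (k + 1) t)| ≤ 4 * π ^ 2 * |a| * 1 :=
                mul_le_mul_of_nonneg_left h7 (by positivity)
            _ = _ := mul_one _
        calc _ ≤ |L a (X a s (k + 1) t) * B a s (k + 1) t
              - 4 * π ^ 2 * a * sin (2 * π * X a s (k + 1) t) * D a s (k + 1) t ^ 2| +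
              |B a s k t| := abs_sub _ _
          _ ≤ |L a (X a s (k + 1) t) * B a s (k + 1) t| +
              |4 * π ^ 2 * a * sin (2 * π * X a s (k + 1) t) * D a s (k + 1) t ^ 2| +
              |B a s k t| := by
              have := abs_sub (L a (X a s (k + 1) t) * B a s (k + 1) t)
                (4 * π ^ 2 * a * sin (2 * π * X a s (k + 1) t) * D a s (k + 1) t ^ 2)
              linarith
          _ ≤ _ := by rw [e1]; linarith
      set d := |D a s (k + 1) t| with hd
      have hd2 : D a s (k + 1) t ^ 2 = d ^ 2 := (sq_abs _).symm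
      have hd0 : 0 ≤ d := abs_nonneg _
      have h8 : |D a s k t| ≤ d := by
        have := abs_nonneg (D a s k t)
        nlinarith
      have h9 : D a s k t ^ 2 ≤ d ^ 2 := by
        rw [← sq_abs (D a s k t)]
        exact pow_le_pow_left₀ (abs_nonneg _) h8 2
      have h10 : Lk ^ 2 * d ^ 2 ≤ 4 * D a s (k + 2) t ^ 2 := by
        have := pow_le_pow_left₀ (by positivity) h6 2
        rw [mul_pow, mul_pow, sq_abs (D a s (k + 1 + 1) t)] at this
        show Lk ^ 2 * d ^ 2 ≤ 4 * D a s (k + 1 + 1) t ^ 2
        linarith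
      have h11 : 4 * π ^ 2 * |a| ≤ R * Lk ^ 2 / 8 := by
        have e : 4 * π ^ 2 * |a| = R * l ^ 2 / 8 := by
          rw [hR]; field_simp; ring
        rw [e]
        have := pow_le_pow_left₀ hl0.le hL 2
        have := mul_le_mul_of_nonneg_left this hR0
        linarith
      rw [hd2] at hB h1
      have hLk16 : 16 ≤ Lk := hl.trans hL
      have h12 : R * (Lk + 1) ≤ R * Lk ^ 2 / 8 := by
        have : Lk + 1 ≤ Lk ^ 2 / 8 := by nlinarith
        have := mul_le_mul_of_nonneg_left this hR0
        linarith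
      have hd20 : 0 ≤ d ^ 2 := sq_nonneg d
      calc |B a s (k + 2) t| ≤ Lk * (R * d ^ 2) + 4 * π ^ 2 * |a| * d ^ 2 + R * d ^ 2 := by
            have q1 : Lk * |B a s (k + 1) t| ≤ Lk * (R * d ^ 2) :=
              mul_le_mul_of_nonneg_left h1 (by positivity)
            have q2 : |B a s k t| ≤ R * d ^ 2 :=
              h0.trans (mul_le_mul_of_nonneg_left h9 hR0)
            linarith
        _ = (R * (Lk + 1) + 4 * π ^ 2 * |a|) * d ^ 2 := by ring
        _ ≤ (R * Lk ^ 2 / 8 + R * Lk ^ 2 / 8) * d ^ 2 := by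
            apply mul_le_mul_of_nonneg_right _ hd20
            linarith
        _ = R * (Lk ^ 2 * d ^ 2) / 4 := by ring
        _ ≤ R * (4 * D a s (k + 2) t ^ 2) / 4 := by
            have := mul_le_mul_of_nonneg_left h10 hR0
            linarith
        _ = R * D a s (k + 2) t ^ 2 := by ring

end Pool.Agent.TH705.SM
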