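import Mathlib
import Pool.Agent.TH705.SM.Chain

set_option autoImplicit false

/-!
# Cutoffs and integration by parts
-/

namespace Pool.Agent.TH705.SM

open Real MeasureTheory

theorem sT_deriv_zero {w : ℝ} (h : w < 0 ∨ 1 < w) : deriv smoothTransition w = 0 := by
  rcases h with h | h
  · have : smoothTransition =ᶠ[nhds w] fun _ => 0 := by
      filter_upwards [gt_mem_nhds h] with z hz
      exact smoothTransition.zero_of_nonpos hz.le
    rw [this.deriv_eq, deriv_const]
  · have : smoothTransition =ᶠ[nhds w] fun _ => 1 := by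
      filter_upwards [lt_mem_nhds h] with z hz
      exact smoothTransition.one_of_one_le hz.le
    rw [this.deriv_eq, deriv_const]

theorem sT_deriv_cont : Continuous (deriv smoothTransition) :=
  (smoothTransition.contDiff (n := 1)).continuous_deriv le_rfl

theorem sT_bound : ∃ K : ℝ, 1 ≤ K ∧ ∀ w, |deriv smoothTransition w| ≤ K := by
  obtain ⟨C, hC⟩ := (isCompact_Icc (a := (0:ℝ)) (b := 1)).exists_bound_of_continuousOn
    sT_deriv_cont.continuousOn
  refine ⟨max 1 C, le_max_left _ _, fun w => ?_⟩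
  by_cases h : w ∈ Set.Icc (0:ℝ) 1
  · exact (hC w h).trans (le_max_right _ _)
  · rw [Set.mem_Icc, not_and_or, not_le, not_le] at h
    rw [sT_deriv_zero h, abs_zero]
    exact le_trans zero_le_one (le_max_left _ _)

/-- the bound of the derivative -/
noncomputable def KK : ℝ := sT_bound.choose

theorem KK_one : 1 ≤ KK := sT_bound.choose_spec.1

theorem KK_spec (w : ℝ) : |deriv smoothTransition w| ≤ KK := sT_bound.choose_spec.2 w

/-- the cutoff -/
noncomputable def rho (z : ℝ) : ℝ := smoothTransition (z ^ 2 - 1)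

/-- its derivative -/
noncomputable def rho' (z : ℝ) : ℝ := deriv smoothTransition (z ^ 2 - 1) * (2 * z)

theorem rho_nonneg (z : ℝ) : 0 ≤ rho z := smoothTransition.nonneg _

theorem rho_le_one (z : ℝ) : rho z ≤ 1 := smoothTransition.le_one _

theorem rho_zero {z : ℝ} (h : |z| < 1) : rho z = 0 := by
  unfold rho
  apply smoothTransition.zero_of_nonpos
  have : z ^ 2 < 1 := by rwa [sq_lt_one_iff_abs_lt_one]
  linarith

theorem rho_one {z : ℝ} (h : 2 ≤ z ^ 2) : rho z = 1 := by
  unfold rho
  apply smoothTransition.one_of_one_le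
  linarith

theorem rho'_zero {z : ℝ} (h : |z| < 1) : rho' z = 0 := by
  unfold rho'
  rw [sT_deriv_zero, zero_mul]
  left
  have : z ^ 2 < 1 := by rwa [sq_lt_one_iff_abs_lt_one]
  linarith

theorem rho'_le (z : ℝ) : |rho' z| ≤ 3 * KK := by
  have hK := KK_one
  unfold rho'
  by_cases h : z ^ 2 ≤ 2
  · rw [abs_mul, abs_mul, abs_of_pos (by norm_num : (0:ℝ) < 2)]
    have h1 : |z| ≤ 3 / 2 := by
      rw [← sq_abs] at h
      nlinarith [abs_nonneg z]
    have := mul_le_mul (KK_spec (z ^ 2 - 1)) (by linarith : 2 * |z| ≤ 3) (by positivity)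
      (by linarith)
    linarith
  · rw [sT_deriv_zero (Or.inr (by linarith)), zero_mul, abs_zero]
    linarith

theorem rho_hasDeriv (z : ℝ) : HasDerivAt rho (rho' z) z := by
  have h1 : HasDerivAt (fun z : ℝ => z ^ 2 - 1) (2 * z) z := by
    have := (hasDerivAt_pow 2 z).sub_const 1
    simpa using this
  have h2 : HasDerivAt smoothTransition (deriv smoothTransition (z ^ 2 - 1)) (z ^ 2 - 1) :=
    ((smoothTransition.contDiff (n := 1)).differentiable one_ne_zero _).hasDerivAt
  exact h2.comp z h1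

theorem rho_cont : Continuous rho :=
  continuous_iff_continuousAt.2 fun z => (rho_hasDeriv z).continuousAt

theorem rho'_cont : Continuous rho' := by
  unfold rho'
  have h := sT_deriv_cont
  have h1 : Continuous (fun z : ℝ => deriv smoothTransition (z ^ 2 - 1)) :=
    h.comp (by fun_prop)
  fun_prop

/-- the cutoff at a time -/
noncomputable def rk (a l s : ℝ) (k : ℕ) (t : ℝ) : ℝ := rho (L a (X a s k t) / l)

/-- its derivative -/
noncomputable def rk' (a l s : ℝ) (k : ℕ) (t : ℝ) : ℝ :=
  rho' (L a (X a s k t) / l) * (-(4 * π ^ 2 * a * sin (2 * π * X a s k t)) * D a s k t / l)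

theorem rk_hasDeriv (a l s : ℝ) (k : ℕ) (t : ℝ) :
    HasDerivAt (rk a l s k) (rk' a l s k t) t := by
  have h1 := (L_hasDeriv a s k t).div_const l
  exact (rho_hasDeriv (L a (X a s k t) / l)).comp t h1

theorem rk_cont (a l s : ℝ) (k : ℕ) : Continuous (rk a l s k) :=
  continuous_iff_continuousAt.2 fun z => (rk_hasDeriv a l s k z).continuousAt

theorem rk'_cont (a l s : ℝ) (k : ℕ) : Continuous (rk' a l s k) := by
  have h1 := Xt_cont a s k
  have h2 := D_cont a s k
  have h3 : Continuous (fun t => L a (X a s k t)) := (L_cont a).comp h1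
  have h4 : Continuous (fun t => rho' (L a (X a s k t) / l)) :=
    rho'_cont.comp (h3.div_const l)
  unfold rk'
  fun_prop

theorem rk'_le (a : ℝ) {l : ℝ} (hl : 0 < l) (s : ℝ) (k : ℕ) (t : ℝ) :
    |rk' a l s k t| ≤ 12 * KK * π ^ 2 * |a| / l * |D a s k t| := by
  have hK := KK_one
  unfold rk'
  rw [abs_mul, abs_div, abs_mul, abs_neg, abs_mul, abs_mul, abs_mul, abs_of_pos hl,
    abs_of_pos (by norm_num : (0:ℝ) < 4), abs_of_pos (by positivity : 0 < π ^ 2)]
  have h1 := rho'_le (L a (X a s k t) / l)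
  have h2 := abs_sin_le_one (2 * π * X a s k t)
  have h3 : 4 * π ^ 2 * |a| * |sin (2 * π * X a s k t)| * |D a s k t| / l ≤
      4 * π ^ 2 * |a| * |D a s k t| / l := by
    apply div_le_div_of_nonneg_right _ hl.le
    apply mul_le_mul_of_nonneg_right _ (abs_nonneg _)
    calc _ ≤ 4 * π ^ 2 * |a| * 1 := mul_le_mul_of_nonneg_left h2 (by positivity)
      _ = _ := mul_one _
  refine (mul_le_mul h1 h3 (by positivity) (by positivity)).trans (le_of_eq ?_)
  ring

/-- the product of the cutoffs -/
noncomputable def chi (a l s : ℝ) : ℕ → ℝ → ℝ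
  | 0, _ => 1
  | m + 1, t => chi a l s m t * rk a l s (m + 1) t

/-- its derivative -/
noncomputable def chi' (a l s : ℝ) : ℕ → ℝ → ℝ
  | 0, _ => 0
  | m + 1, t => chi' a l s m t * rk a l s (m + 1) t + chi a l s m t * rk' a l s (m + 1) t

theorem chi_hasDeriv (a l s : ℝ) (m : ℕ) (t : ℝ) :
    HasDerivAt (chi a l s m) (chi' a l s m t) t := by
  induction m with
  | zero => exact hasDerivAt_const t 1
  | succ m ih => exact ih.mul (rk_hasDeriv a l s (m + 1) t)

theorem chi_cont (a l s : ℝ) (m : ℕ) : Continuous (chi a l s m) :=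
  continuous_iff_continuousAt.2 fun z => (chi_hasDeriv a l s m z).continuousAt

theorem chi'_cont (a l s : ℝ) (m : ℕ) : Continuous (chi' a l s m) := by
  induction m with
  | zero => exact continuous_const
  | succ m ih =>
    exact (ih.mul (rk_cont a l s (m + 1))).add ((chi_cont a l s m).mul (rk'_cont a l s (m + 1)))

theorem chi_mem (a l s : ℝ) (m : ℕ) (t : ℝ) : 0 ≤ chi a l s m t ∧ chi a l s m t ≤ 1 := by
  induction m with
  | zero => exact ⟨zero_le_one, le_rfl⟩
  | succ m ih =>
    have h0 := rho_nonneg (L a (X a s (m + 1) t) / l)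
    have h1 := rho_le_one (L a (X a s (m + 1) t) / l)
    exact ⟨mul_nonneg ih.1 h0, mul_le_one₀ ih.2 h0 h1⟩

theorem chi_bad {a l s : ℝ} (hl : 0 < l) {m : ℕ} {t : ℝ} (h : ¬ Good a l s m t) :
    chi a l s m t = 0 ∧ chi' a l s m t = 0 := by
  induction m with
  | zero =>
    exfalso
    apply h
    intro j h1 h2
    omega
  | succ m ih =>
    by_cases h1 : Good a l s m t
    · have h2 : ¬ l ≤ |L a (X a s (m + 1) t)| := by
        intro h3
        apply h
        intro j hj1 hj2
        rcases Nat.lt_or_ge j (m + 1) with h4 | h4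
        · exact h1 j hj1 (by omega)
        · have : j = m + 1 := by omega
          rw [this]
          exact h3
      have h3 : |L a (X a s (m + 1) t) / l| < 1 := by
        rw [abs_div, abs_of_pos hl, div_lt_one hl]
        exact not_le.1 h2
      have h4 : rk a l s (m + 1) t = 0 := rho_zero h3
      have h5 : rk' a l s (m + 1) t = 0 := by
        unfold rk'
        rw [rho'_zero h3, zero_mul]
      constructor
      · show chi a l s m t * rk a l s (m + 1) t = 0
        rw [h4, mul_zero]
      · show chi' a l s m t * rk a l s (m + 1) t + chi a l s m t * rk' a l s (m + 1) t = 0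
        rw [h4, h5, mul_zero, mul_zero, add_zero]
    · obtain ⟨h2, h3⟩ := ih h1
      constructor
      · show chi a l s m t * rk a l s (m + 1) t = 0
        rw [h2, zero_mul]
      · show chi' a l s m t * rk a l s (m + 1) t + chi a l s m t * rk' a l s (m + 1) t = 0
        rw [h2, h3, zero_mul, zero_mul, add_zero]

theorem chi'_le (a : ℝ) {l : ℝ} (hl : 0 < l) (s : ℝ) (m : ℕ) (t : ℝ) :
    |chi' a l s m t| ≤ 12 * KK * π ^ 2 * |a| / l * SD a s m t := by
  have hK := KK_one
  induction m with
  | zero => simp [chi', SD]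
  | succ m ih =>
    have h0 := rho_nonneg (L a (X a s (m + 1) t) / l)
    have h1 := rho_le_one (L a (X a s (m + 1) t) / l)
    have h2 := chi_mem a l s m t
    have h3 := rk'_le a hl s (m + 1) t
    have hSD : SD a s (m + 1) t = SD a s m t + |D a s (m + 1) t| := by
      unfold SD
      rw [Finset.sum_range_succ]
    show |chi' a l s m t * rk a l s (m + 1) t + chi a l s m t * rk' a l s (m + 1) t| ≤ _
    rw [hSD, mul_add]
    refine (abs_add_le _ _).trans (add_le_add ?_ ?_)
    · rw [abs_mul]
      have : |rk a l s (m + 1) t| ≤ 1 := by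
        unfold rk
        rw [abs_of_nonneg h0]
        exact h1
      calc |chi' a l s m t| * |rk a l s (m + 1) t| ≤ |chi' a l s m t| * 1 :=
            mul_le_mul_of_nonneg_left this (abs_nonneg _)
        _ ≤ _ := by rw [mul_one]; exact ih
    · rw [abs_mul, abs_of_nonneg h2.1]
      calc chi a l s m t * |rk' a l s (m + 1) t| ≤ 1 * |rk' a l s (m + 1) t| :=
            mul_le_mul_of_nonneg_right h2.2 (abs_nonneg _)
        _ ≤ _ := by rw [one_mul]; exact h3

theorem one_sub_chi (a l s : ℝ) (m : ℕ) (t : ℝ) :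
    1 - chi a l s m t ≤ ∑ k ∈ Finset.range m, (1 - rk a l s (k + 1) t) := by
  induction m with
  | zero => simp [chi]
  | succ m ih =>
    rw [Finset.sum_range_succ]
    have h0 : 0 ≤ rk a l s (m + 1) t := rho_nonneg _
    have h1 : rk a l s (m + 1) t ≤ 1 := rho_le_one _
    have h2 := chi_mem a l s m t
    show 1 - chi a l s m t * rk a l s (m + 1) t ≤ _
    nlinarith

theorem rk_period (a l s : ℝ) (k : ℕ) (t : ℝ) : rk a l s k (t + 1) = rk a l s k t := by
  unfold rk
  rw [X_period, L_period]

theorem chi_period (a l s : ℝ) (m : ℕ) (t : ℝ) : chi a l s m (t + 1) = chi a l s m t := by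
  induction m with
  | zero => rfl
  | succ m ih =>
    show chi a l s m (t + 1) * rk a l s (m + 1) (t + 1) = chi a l s m t * rk a l s (m + 1) t
    rw [ih, rk_period]

/-- the weight -/
noncomputable def W (a l s : ℝ) (m : ℕ) (P : ℝ → ℝ) (t : ℝ) : ℝ :=
  chi a l s m t * P t / D a s (m + 1) t

/-- its derivative -/
noncomputable def W' (a l s : ℝ) (m : ℕ) (P P' : ℝ → ℝ) (t : ℝ) : ℝ :=
  (chi' a l s m t * P t + chi a l s m t * P' t) / D a s (m + 1) t -
    chi a l s m t * P t * B a s (m + 1) t / D a s (m + 1) t ^ 2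

theorem D_ne {a l s : ℝ} (hl : 16 ≤ l) {m : ℕ} {t : ℝ} (h : Good a l s m t) :
    D a s (m + 1) t ≠ 0 := by
  have := (growth hl h m le_rfl).2.2
  intro h0
  rw [h0, abs_zero] at this
  linarith

theorem W_hasDeriv {a l s : ℝ} (hl : 16 ≤ l) (m : ℕ) {P P' : ℝ → ℝ}
    (hP : ∀ t, HasDerivAt P (P' t) t) (t : ℝ) :
    HasDerivAt (W a l s m P) (W' a l s m P P' t) t := by
  have hl0 : 0 < l := by linarith
  by_cases hD : D a s (m + 1) t = 0
  · have hbad : ¬ Good a l s m t := fun h => D_ne hl h hD
    have h1 : ∃ j, 1 ≤ j ∧ j ≤ m ∧ |L a (X a s j t)| < l := by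
      unfold Good at hbad
      push Not at hbad
      exact hbad
    obtain ⟨j, hj1, hj2, hj⟩ := h1
    have hc : Continuous (fun t => |L a (X a s j t)|) :=
      ((L_cont a).comp (Xt_cont a s j)).abs
    have h2 : ∀ᶠ u in nhds t, |L a (X a s j u)| < l := hc.continuousAt.eventually_lt_const hj
    have h3 : W a l s m P =ᶠ[nhds t] fun _ => 0 := by
      filter_upwards [h2] with u hu
      have : ¬ Good a l s m u := fun h => absurd (h j hj1 hj2) (not_le.2 hu)
      unfold W
      rw [(chi_bad hl0 this).1, zero_mul, zero_div]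
    have h4 : W' a l s m P P' t = 0 := by
      unfold W'
      rw [hD]
      simp
    rw [h4]
    exact (hasDerivAt_const t 0).congr_of_eventuallyEq h3
  · have h1 := ((chi_hasDeriv a l s m t).mul (hP t)).div (D_hasDeriv a s (m + 1) t) hD
    refine HasDerivAt.congr_deriv (f := W a l s m P) h1 ?_
    unfold W'
    rw [Pi.mul_apply]
    field_simp

theorem W'_le {a l s : ℝ} (hl : 16 ≤ l) {m : ℕ} (hm : 1 ≤ m) {P P' : ℝ → ℝ} {t q1 q2 : ℝ}
    (hP : |P t| ≤ 1) (hq1 : 0 ≤ q1) (hq2 : 0 ≤ q2) (hP' : |P' t| ≤ q1 * |D a s m t| + q2) :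
    |W' a l s m P P' t| ≤ 80 * KK * π ^ 2 * |a| / l ^ 2 + 2 / l * (q1 + q2) := by
  have hl0 : 0 < l := by linarith
  have hK := KK_one
  by_cases hg : Good a l s m t
  · have hD := D_ne hl hg
    have hD0 : 0 < |D a s (m + 1) t| := abs_pos.2 hD
    have h1 := (growth hl hg m le_rfl).1
    have h1' : 1 ≤ |D a s m t| := by
      have := (growth hl hg (m - 1) (by omega)).2.2
      rwa [Nat.sub_add_cancel hm] at this
    have h2 := SD_le hl hg
    have h3 := chi'_le a hl0 s m t
    have h4 := chi_mem a l s m t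
    have h5 := B_le hl hg (m + 1) le_rfl
    set d := |D a s m t| with hd
    set e := |D a s (m + 1) t| with he
    set M : ℝ := 12 * KK * π ^ 2 * |a| / l with hM
    have hM0 : 0 ≤ M := by positivity
    have h6 : |chi' a l s m t * P t + chi a l s m t * P' t| ≤ 2 * M * d + (q1 * d + q2) := by
      refine (abs_add_le _ _).trans (add_le_add ?_ ?_)
      · rw [abs_mul]
        calc |chi' a l s m t| * |P t| ≤ |chi' a l s m t| * 1 :=
              mul_le_mul_of_nonneg_left hP (abs_nonneg _)
          _ ≤ M * SD a s m t := by rw [mul_one]; exact h3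
          _ ≤ M * (2 * d) := mul_le_mul_of_nonneg_left h2 hM0
          _ = _ := by ring
      · rw [abs_mul, abs_of_nonneg h4.1]
        calc chi a l s m t * |P' t| ≤ 1 * |P' t| :=
              mul_le_mul_of_nonneg_right h4.2 (abs_nonneg _)
          _ ≤ _ := by rw [one_mul]; exact hP'
    have h7 : |(chi' a l s m t * P t + chi a l s m t * P' t) / D a s (m + 1) t| ≤
        2 / l * (2 * M + q1 + q2) := by
      rw [abs_div, div_le_iff₀ hD0]
      refine h6.trans ?_
      have e1 : 2 * M * d + (q1 * d + q2) ≤ (2 * M + q1 + q2) * d := by nlinarith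
      refine e1.trans ?_
      have e2 : d ≤ 2 / l * e := by
        rw [div_mul_eq_mul_div, le_div_iff₀ hl0]
        linarith
      have := mul_le_mul_of_nonneg_left e2 (by positivity : 0 ≤ 2 * M + q1 + q2)
      linarith
    have h8 : |chi a l s m t * P t * B a s (m + 1) t / D a s (m + 1) t ^ 2| ≤
        32 * π ^ 2 * |a| / l ^ 2 := by
      have hD2 : 0 < D a s (m + 1) t ^ 2 := by positivity
      rw [abs_div, abs_of_pos hD2, div_le_iff₀ hD2, abs_mul, abs_mul, abs_of_nonneg h4.1]
      have : chi a l s m t * |P t| ≤ 1 := mul_le_one₀ h4.2 (abs_nonneg _) hP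
      calc chi a l s m t * |P t| * |B a s (m + 1) t| ≤ 1 * |B a s (m + 1) t| :=
            mul_le_mul_of_nonneg_right this (abs_nonneg _)
        _ ≤ _ := by rw [one_mul]; exact h5
    unfold W'
    refine (abs_sub _ _).trans ((add_le_add h7 h8).trans ?_)
    have e3 : 2 / l * (2 * M + q1 + q2) + 32 * π ^ 2 * |a| / l ^ 2 =
        (48 * KK + 32) * π ^ 2 * |a| / l ^ 2 + 2 / l * (q1 + q2) := by
      rw [hM]
      field_simp
      ring
    rw [e3]
    have e4 : (48 * KK + 32) * π ^ 2 * |a| / l ^ 2 ≤ 80 * KK * π ^ 2 * |a| / l ^ 2 := by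
      apply div_le_div_of_nonneg_right _ (by positivity)
      apply mul_le_mul_of_nonneg_right _ (abs_nonneg _)
      apply mul_le_mul_of_nonneg_right _ (by positivity)
      linarith
    linarith
  · obtain ⟨h1, h2⟩ := chi_bad hl0 hg
    unfold W'
    rw [h1, h2]
    simp only [zero_mul, add_zero, zero_div, sub_zero, abs_zero]
    positivity

/-- **integration by parts** -/
theorem ibp {a l s : ℝ} (hl : 16 ≤ l) {m : ℕ} (hm : 1 ≤ m) {P P' q1 : ℝ → ℝ} {q2 : ℝ → ℝ}
    (hP : ∀ t, HasDerivAt P (P' t) t) (hP'c : Continuous P') (hP1 : ∀ t, |P t| ≤ 1)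
    (hPp : ∀ t, P (t + 1) = P t)
    (hq1 : ∀ t, 0 ≤ q1 t) (hq2 : ∀ t, 0 ≤ q2 t) (hq1c : Continuous q1) (hq2c : Continuous q2)
    (hP' : ∀ t, |P' t| ≤ q1 t * |D a s m t| + q2 t)
    {G g : ℝ → ℝ} (hG : ∀ u, HasDerivAt G (g u) u) (hg : Continuous g)
    (hGp : ∀ u, ∀ n : ℕ, G (u + n) = G u) (hG1 : ∀ u, |G u| ≤ 1) :
    |∫ t in (0:ℝ)..1, chi a l s m t * P t * g (X a s (m + 1) t)| ≤
      80 * KK * π ^ 2 * |a| / l ^ 2 + 2 / l * ∫ t in (0:ℝ)..1, (q1 t + q2 t) := by
  have hl0 : 0 < l := by linarith
  have hK := KK_one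
  set F : ℝ → ℝ := fun t => W a l s m P t * G (X a s (m + 1) t) with hF
  set f : ℝ → ℝ := fun t => W' a l s m P P' t * G (X a s (m + 1) t) with hf
  set f2 : ℝ → ℝ := fun t => chi a l s m t * P t * g (X a s (m + 1) t) with hf2
  have hPc : Continuous P := continuous_iff_continuousAt.2 fun t => (hP t).continuousAt
  have hGc : Continuous G := continuous_iff_continuousAt.2 fun t => (hG t).continuousAt
  have hXc := Xt_cont a s (m + 1)
  have hFd : ∀ t, HasDerivAt F (f t + f2 t) t := by
    intro t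
    have h1 := (W_hasDeriv (a := a) (s := s) hl m hP t).mul
      ((hG (X a s (m + 1) t)).comp t (X_hasDeriv a s (m + 1) t))
    refine HasDerivAt.congr_deriv (f := F) h1 ?_
    show W' a l s m P P' t * G (X a s (m + 1) t) +
      W a l s m P t * (g (X a s (m + 1) t) * D a s (m + 1) t) = f t + f2 t
    have e : W a l s m P t * D a s (m + 1) t = chi a l s m t * P t := by
      unfold W
      by_cases hgd : Good a l s m t
      · exact div_mul_cancel₀ _ (D_ne hl hgd)
      · rw [(chi_bad hl0 hgd).1]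
        simp
    rw [hf, hf2]
    simp only
    rw [← e]
    ring
  have hW'm : Measurable (W' a l s m P P') := by
    have c1 := (chi'_cont a l s m).measurable
    have c2 := (chi_cont a l s m).measurable
    have c3 := hPc.measurable
    have c4 := hP'c.measurable
    have c5 := (D_cont a s (m + 1)).measurable
    have c6 := (B_cont a s (m + 1)).measurable
    unfold W'
    exact (((c1.mul c3).add (c2.mul c4)).div c5).sub (((c2.mul c3).mul c6).div (c5.pow_const 2))
  have hfm : Measurable f := hW'm.mul (hGc.comp hXc).measurable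
  have hf2c : Continuous f2 := ((chi_cont a l s m).mul hPc).mul (hg.comp hXc)
  set bd : ℝ → ℝ := fun t => 80 * KK * π ^ 2 * |a| / l ^ 2 + 2 / l * (q1 t + q2 t) with hbd
  have hbdc : Continuous bd := by rw [hbd]; fun_prop
  have hfb : ∀ t, |f t| ≤ bd t := by
    intro t
    rw [hf]
    simp only
    rw [abs_mul]
    have h1 := W'_le (a := a) (s := s) hl hm (hP1 t) (hq1 t) (hq2 t) (hP' t)
    calc |W' a l s m P P' t| * |G (X a s (m + 1) t)| ≤ |W' a l s m P P' t| * 1 :=
          mul_le_mul_of_nonneg_left (hG1 _) (abs_nonneg _)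
      _ ≤ _ := by rw [mul_one]; exact h1
  have hfi : IntervalIntegrable f volume 0 1 :=
    (hbdc.intervalIntegrable 0 1).mono_fun hfm.aestronglyMeasurable
      (Filter.Eventually.of_forall fun t => by
        show ‖f t‖ ≤ ‖bd t‖
        rw [norm_eq_abs, norm_eq_abs]
        exact (hfb t).trans (le_abs_self _))
  have hf2i : IntervalIntegrable f2 volume 0 1 := hf2c.intervalIntegrable 0 1
  have hFTC := intervalIntegral.integral_eq_sub_of_hasDerivAt (fun t _ => hFd t)
    (hfi.add hf2i)
  have hper : F 1 = F 0 := by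
    rw [hF]
    simp only
    have e1 : W a l s m P 1 = W a l s m P 0 := by
      unfold W
      have h1 := chi_period a l s m 0
      have h2 := hPp 0
      have h3 := D_period a s (m + 1) 0
      rw [zero_add] at h1 h2 h3
      rw [h1, h2, h3]
    have e2 : G (X a s (m + 1) 1) = G (X a s (m + 1) 0) := by
      have h1 := X_period a s (m + 1) 0
      rw [zero_add] at h1
      rw [h1, hGp]
    rw [e1, e2]
  rw [hper, sub_self, intervalIntegral.integral_add hfi hf2i] at hFTC
  have h2 : ∫ t in (0:ℝ)..1, f2 t = -∫ t in (0:ℝ)..1, f t := by linarith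
  have h3 : |∫ t in (0:ℝ)..1, f2 t| ≤ ∫ t in (0:ℝ)..1, bd t := by
    rw [h2, abs_neg]
    have h4 : ‖∫ t in (0:ℝ)..1, f t‖ ≤ |∫ t in (0:ℝ)..1, bd t| :=
      intervalIntegral.norm_integral_le_abs_of_norm_le
        (Filter.Eventually.of_forall fun t => hfb t) (hbdc.intervalIntegrable 0 1)
    rw [norm_eq_abs] at h4
    have h5 : 0 ≤ ∫ t in (0:ℝ)..1, bd t :=
      intervalIntegral.integral_nonneg zero_le_one fun t _ => (abs_nonneg _).trans (hfb t)
    rwa [abs_of_nonneg h5] at h4
  refine h3.trans (le_of_eq ?_)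
  rw [hbd, intervalIntegral.integral_add (by simp) (by
      apply Continuous.intervalIntegrable; fun_prop), intervalIntegral.integral_const,
    intervalIntegral.integral_const_mul]
  simp

end Pool.Agent.TH705.SM
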