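import Mathlib
import Pool.Agent.TH705.SM.Cut

set_option autoImplicit false

/-!
# Densities of the orbit, uniformly in time
-/

namespace Pool.Agent.TH705.SM

open Real MeasureTheory Function

/-- the kernel -/
noncomputable def ee (a l x : ℝ) : ℝ := |a| / (L a x ^ 2 + l ^ 2)

theorem ee_nonneg (a l x : ℝ) : 0 ≤ ee a l x := by
  unfold ee
  positivity

theorem ee_cont (a : ℝ) {l : ℝ} (hl : 0 < l) : Continuous (ee a l) := by
  have := L_cont a
  unfold ee
  apply Continuous.div continuous_const (by fun_prop)
  intro x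
  positivity

theorem ee_period (a l x : ℝ) (n : ℕ) : ee a l (x + n) = ee a l x := by
  unfold ee
  rw [L_period]

theorem arctan_abs (z : ℝ) : |arctan z| < π / 2 :=
  abs_lt.2 ⟨neg_pi_div_two_lt_arctan z, arctan_lt_pi_div_two z⟩

/-- the integral of the kernel -/
theorem ee_int {a l : ℝ} (hl : 16 ≤ l) (hla : l ≤ |a|) : ∫ x in (0:ℝ)..1, ee a l x ≤ 1 / (4 * l) := by
  have hl0 : 0 < l := by linarith
  have ha0 : 0 < |a| := by linarith
  have hpi := pi_pos
  have hpi3 := pi_gt_three
  set q : ℝ → ℝ := fun x => sin (2 * π * x) / (L a x ^ 2 + l ^ 2) with hq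
  set A : ℝ → ℝ := fun x => arctan (L a x / l) / l with hA
  have hden : ∀ x, 0 < L a x ^ 2 + l ^ 2 := fun x => by positivity
  have hLc := L_cont a
  have hqc : Continuous q := by
    rw [hq]
    apply Continuous.div (by fun_prop) (by fun_prop)
    intro x
    exact (hden x).ne'
  have hAd : ∀ x, HasDerivAt A (-(4 * π ^ 2) * a * q x) x := by
    intro x
    have h1 : HasDerivAt (L a) (-(4 * π ^ 2 * a * sin (2 * π * x))) x := by
      have h := (((hasDerivAt_id x).const_mul (2 * π)).cos.const_mul (2 * π * a)).const_add 2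
      refine HasDerivAt.congr_deriv (f := L a) h ?_
      simp only [id]
      ring
    have h2 := ((h1.div_const l).arctan).div_const l
    refine HasDerivAt.congr_deriv (f := A) h2 ?_
    have := hden x
    rw [hq]
    simp only
    field_simp
    ring
  have hcont : Continuous (fun x => -(4 * π ^ 2) * a * q x) := continuous_const.mul hqc
  have hAb : ∀ x y, |A x - A y| ≤ π / l := by
    intro x y
    have h1 := arctan_abs (L a x / l)
    have h2 := arctan_abs (L a y / l)
    have h3 := abs_sub (arctan (L a x / l)) (arctan (L a y / l))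
    rw [hA]
    simp only
    rw [← sub_div, abs_div, abs_of_pos hl0]
    apply div_le_div_of_nonneg_right _ hl0.le
    linarith
  have hI1 : ∀ u v : ℝ, |a| * |∫ x in u..v, q x| ≤ 1 / (4 * π * l) := by
    intro u v
    have h1 := intervalIntegral.integral_eq_sub_of_hasDerivAt (a := u) (b := v)
      (fun x _ => hAd x) (hcont.intervalIntegrable _ _)
    rw [intervalIntegral.integral_const_mul] at h1
    have h2 := hAb v u
    rw [← h1, abs_mul, abs_mul, abs_neg, abs_of_pos (by positivity : 0 < 4 * π ^ 2)] at h2
    rw [le_div_iff₀ (by positivity)]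
    have h3 : π / l * l = π := div_mul_cancel₀ _ hl0.ne'
    have h4 := mul_le_mul_of_nonneg_right h2 hl0.le
    rw [h3] at h4
    have h5 : 4 * π ^ 2 * |a| * |∫ x in u..v, q x| * l =
        π * (|a| * |∫ x in u..v, q x| * (4 * π * l)) := by ring
    rw [h5] at h4
    have h6 : π * (|a| * |∫ x in u..v, q x| * (4 * π * l)) ≤ π * 1 := by linarith
    exact le_of_mul_le_mul_left h6 hpi
  -- pointwise
  have hcos : ∀ x, |a| * cos (2 * π * x) ^ 2 / (L a x ^ 2 + l ^ 2) ≤ 1 / (18 * l) := by
    intro x
    have h1 : (2 * π * |a| * cos (2 * π * x)) ^ 2 = (L a x - 2) ^ 2 := by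
      unfold L
      have : 2 + 2 * π * a * cos (2 * π * x) - 2 = 2 * π * a * cos (2 * π * x) := by ring
      rw [this, mul_pow, mul_pow, mul_pow (2 * π * a), mul_pow (2 * π) a, sq_abs]
    have h2 : (L a x - 2) ^ 2 ≤ 2 * (L a x ^ 2 + l ^ 2) := by nlinarith [sq_nonneg (L a x + 2)]
    rw [div_le_div_iff₀ (hden x) (by positivity)]
    have h3 : |a| * (|a| * cos (2 * π * x) ^ 2 * (18 * l)) ≤ |a| * (1 * (L a x ^ 2 + l ^ 2)) := by
      have e1 : |a| * (|a| * cos (2 * π * x) ^ 2 * (18 * l)) =
          (2 * π * |a| * cos (2 * π * x)) ^ 2 * (18 * l) / (4 * π ^ 2) := by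
        field_simp
        ring
      rw [e1, h1, div_le_iff₀ (by positivity)]
      have h4 : (L a x - 2) ^ 2 * (18 * l) ≤ 2 * (L a x ^ 2 + l ^ 2) * (18 * |a|) :=
        mul_le_mul h2 (by linarith) (by positivity) (by positivity)
      have h5 : 36 ≤ 4 * π ^ 2 := by nlinarith
      have h6 : 0 ≤ |a| * (L a x ^ 2 + l ^ 2) := by positivity
      nlinarith
    exact le_of_mul_le_mul_left h3 ha0
  have hpt : ∀ σ : ℝ, ∀ x, |σ| = 1 → 0 ≤ σ * sin (2 * π * x) →
      ee a l x ≤ |a| * (σ * q x) + 1 / (18 * l) := by
    intro σ x hσ hx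
    have h1 := hcos x
    have h2 : σ * sin (2 * π * x) ≤ 1 := by
      refine (le_abs_self _).trans ?_
      rw [abs_mul, hσ, one_mul]
      exact abs_sin_le_one _
    have hσ2 : σ ^ 2 = 1 := by rw [← sq_abs, hσ, one_pow]
    have h3 : sin (2 * π * x) ^ 2 ≤ σ * sin (2 * π * x) := by
      have : sin (2 * π * x) ^ 2 = (σ * sin (2 * π * x)) ^ 2 := by rw [mul_pow, hσ2, one_mul]
      rw [this]
      nlinarith
    have e1 : ee a l x = |a| * sin (2 * π * x) ^ 2 / (L a x ^ 2 + l ^ 2) +
        |a| * cos (2 * π * x) ^ 2 / (L a x ^ 2 + l ^ 2) := by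
      unfold ee
      rw [← add_div, ← mul_add, sin_sq_add_cos_sq, mul_one]
    have e2 : |a| * (σ * q x) = |a| * (σ * sin (2 * π * x)) / (L a x ^ 2 + l ^ 2) := by
      rw [hq]
      ring
    rw [e1, e2]
    have h4 : |a| * sin (2 * π * x) ^ 2 / (L a x ^ 2 + l ^ 2) ≤
        |a| * (σ * sin (2 * π * x)) / (L a x ^ 2 + l ^ 2) := by
      apply div_le_div_of_nonneg_right _ (hden x).le
      exact mul_le_mul_of_nonneg_left h3 ha0.le
    linarith
  have hec := ee_cont a hl0
  have half1 : ∫ x in (0:ℝ)..(1 / 2), ee a l x ≤ 1 / (4 * π * l) + 1 / (36 * l) := by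
    calc ∫ x in (0:ℝ)..(1 / 2), ee a l x ≤
        ∫ x in (0:ℝ)..(1 / 2), (|a| * (1 * q x) + 1 / (18 * l)) := by
          apply intervalIntegral.integral_mono_on (by norm_num) (hec.intervalIntegrable _ _)
            ((continuous_const.mul (continuous_const.mul hqc)).add
              continuous_const |>.intervalIntegrable _ _)
          intro x hx
          apply hpt 1 x (by simp)
          rw [one_mul]
          apply sin_nonneg_of_nonneg_of_le_pi
          · have := hx.1
            positivity
          · have := hx.2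
            nlinarith
      _ = |a| * (∫ x in (0:ℝ)..(1 / 2), q x) + 1 / (36 * l) := by
          simp only [one_mul]
          rw [intervalIntegral.integral_add (f := fun x => |a| * q x) (g := fun _ => 1 / (18 * l))
            ((continuous_const.mul hqc).intervalIntegrable _ _)
            intervalIntegrable_const, intervalIntegral.integral_const_mul,
            intervalIntegral.integral_const]
          simp only [smul_eq_mul, sub_zero]
          congr 1
          field_simp
          norm_num
      _ ≤ _ := by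
          have h1 := hI1 0 (1 / 2)
          have h2 := mul_le_mul_of_nonneg_left (le_abs_self (∫ x in (0:ℝ)..(1 / 2), q x)) ha0.le
          linarith
  have half2 : ∫ x in (1 / 2 : ℝ)..1, ee a l x ≤ 1 / (4 * π * l) + 1 / (36 * l) := by
    calc ∫ x in (1 / 2 : ℝ)..1, ee a l x ≤
        ∫ x in (1 / 2 : ℝ)..1, (|a| * (-1 * q x) + 1 / (18 * l)) := by
          apply intervalIntegral.integral_mono_on (by norm_num) (hec.intervalIntegrable _ _)
            ((continuous_const.mul (continuous_const.mul hqc)).add
              continuous_const |>.intervalIntegrable _ _)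
          intro x hx
          apply hpt (-1) x (by simp)
          have e2 : sin (2 * π * x) = -sin (2 * π * x - π) := by
            rw [sin_sub_pi]
            ring
          have : 0 ≤ sin (2 * π * x - π) := by
            apply sin_nonneg_of_nonneg_of_le_pi
            · have := hx.1
              nlinarith
            · have := hx.2
              nlinarith
          rw [e2]
          linarith
      _ = |a| * (-∫ x in (1 / 2 : ℝ)..1, q x) + 1 / (36 * l) := by
          simp only [neg_mul, one_mul, mul_neg]
          rw [intervalIntegral.integral_add (f := fun x => -(|a| * q x))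
            (g := fun _ => 1 / (18 * l)) ((continuous_const.mul hqc).neg.intervalIntegrable _ _)
            intervalIntegrable_const, intervalIntegral.integral_neg,
            intervalIntegral.integral_const_mul, intervalIntegral.integral_const]
          simp only [smul_eq_mul]
          congr 1
          field_simp
          norm_num
      _ ≤ _ := by
          have h1 := hI1 (1 / 2) 1
          have h2 := mul_le_mul_of_nonneg_left (neg_le_abs (∫ x in (1 / 2 : ℝ)..1, q x)) ha0.le
          linarith
  have hsplit := intervalIntegral.integral_add_adjacent_intervals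
    (hec.intervalIntegrable (μ := volume) 0 (1 / 2)) (hec.intervalIntegrable (1 / 2) 1)
  rw [← hsplit]
  have hfin : 2 * (1 / (4 * π * l) + 1 / (36 * l)) ≤ 1 / (4 * l) := by
    have e1 : 1 / (4 * π * l) ≤ 1 / (12 * l) := by
      apply one_div_le_one_div_of_le (by positivity)
      nlinarith
    have e2 : 2 * (1 / (12 * l) + 1 / (36 * l)) ≤ 1 / (4 * l) := by
      have : 2 * (1 / (12 * l) + 1 / (36 * l)) = (8 / 9) * (1 / (4 * l)) := by
        field_simp
        norm_num
      rw [this]
      have : 0 < 1 / (4 * l) := by positivity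
      linarith
    linarith
  linarith

/-- sums of kernels along the orbit -/
noncomputable def UU (a l s : ℝ) : ℕ → ℝ → ℝ
  | 0, _ => 0
  | m + 1, t => UU a l s m t / 2 + ee a l (X a s (m + 1) t)

/-- the same with cutoffs -/
noncomputable def VV (a l s : ℝ) : ℕ → ℝ → ℝ
  | 0, _ => 0
  | m + 1, t => VV a l s m t / 2 + chi a l s m t * ee a l (X a s (m + 1) t)

theorem UU_nonneg (a l s : ℝ) (m : ℕ) (t : ℝ) : 0 ≤ UU a l s m t := by
  induction m with
  | zero => exact le_rfl
  | succ m ih =>
    show 0 ≤ UU a l s m t / 2 + ee a l (X a s (m + 1) t)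
    have := ee_nonneg a l (X a s (m + 1) t)
    positivity

theorem VV_nonneg (a l s : ℝ) (m : ℕ) (t : ℝ) : 0 ≤ VV a l s m t := by
  induction m with
  | zero => exact le_rfl
  | succ m ih =>
    show 0 ≤ VV a l s m t / 2 + chi a l s m t * ee a l (X a s (m + 1) t)
    have := ee_nonneg a l (X a s (m + 1) t)
    have := (chi_mem a l s m t).1
    positivity

theorem VV_cont (a : ℝ) {l : ℝ} (hl : 0 < l) (s : ℝ) (m : ℕ) : Continuous (VV a l s m) := by
  induction m with
  | zero => exact continuous_const
  | succ m ih =>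
    exact (ih.div_const 2).add ((chi_cont a l s m).mul ((ee_cont a hl).comp (Xt_cont a s (m + 1))))

theorem chi_succ_le (a l s : ℝ) (m : ℕ) (t : ℝ) : chi a l s (m + 1) t ≤ chi a l s m t := by
  show chi a l s m t * rk a l s (m + 1) t ≤ chi a l s m t
  have h1 : rk a l s (m + 1) t ≤ 1 := rho_le_one _
  have h2 := (chi_mem a l s m t).1
  nlinarith

theorem chi_UU (a l s : ℝ) (m : ℕ) (t : ℝ) : chi a l s m t * UU a l s m t ≤ VV a l s m t := by
  induction m with
  | zero => simp [UU, VV]
  | succ m ih =>
    show chi a l s (m + 1) t * (UU a l s m t / 2 + ee a l (X a s (m + 1) t)) ≤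
      VV a l s m t / 2 + chi a l s m t * ee a l (X a s (m + 1) t)
    have h1 := chi_succ_le a l s m t
    have h2 := UU_nonneg a l s m t
    have h3 := ee_nonneg a l (X a s (m + 1) t)
    have h4 := mul_le_mul_of_nonneg_right h1 h2
    have h5 := mul_le_mul_of_nonneg_right h1 h3
    nlinarith

theorem rho'_le2 (z : ℝ) : |rho' z| ≤ 9 * KK / (z ^ 2 + 1) := by
  have hK := KK_one
  rw [le_div_iff₀ (by positivity)]
  by_cases h : z ^ 2 ≤ 2
  · have := rho'_le z
    have h1 := abs_nonneg (rho' z)
    nlinarith
  · have h0 : rho' z = 0 := by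
      unfold rho'
      rw [sT_deriv_zero (Or.inr (by linarith)), zero_mul]
    rw [h0, abs_zero, zero_mul]
    linarith

theorem rk'_le2 (a : ℝ) {l : ℝ} (hl : 0 < l) (s : ℝ) (k : ℕ) (t : ℝ) :
    |rk' a l s k t| ≤ 36 * KK * π ^ 2 * l * ee a l (X a s k t) * |D a s k t| := by
  have hK := KK_one
  unfold rk'
  rw [abs_mul, abs_div, abs_mul, abs_neg, abs_mul, abs_mul, abs_mul, abs_of_pos hl,
    abs_of_pos (by norm_num : (0:ℝ) < 4), abs_of_pos (by positivity : 0 < π ^ 2)]
  have h1 := rho'_le2 (L a (X a s k t) / l)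
  have h2 := abs_sin_le_one (2 * π * X a s k t)
  have h3 : 4 * π ^ 2 * |a| * |sin (2 * π * X a s k t)| * |D a s k t| / l ≤
      4 * π ^ 2 * |a| * |D a s k t| / l := by
    apply div_le_div_of_nonneg_right _ hl.le
    apply mul_le_mul_of_nonneg_right _ (abs_nonneg _)
    calc _ ≤ 4 * π ^ 2 * |a| * 1 := mul_le_mul_of_nonneg_left h2 (by positivity)
      _ = _ := mul_one _
  refine (mul_le_mul h1 h3 (by positivity) (by positivity)).trans (le_of_eq ?_)
  unfold ee
  have : L a (X a s k t) ^ 2 + l ^ 2 ≠ 0 := by positivity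
  have : (L a (X a s k t) / l) ^ 2 + 1 ≠ 0 := by positivity
  field_simp
  ring

theorem chi'_le2 {a l s : ℝ} (hl : 16 ≤ l) (m : ℕ) (t : ℝ) :
    |chi' a l s m t| ≤ 72 * KK * π ^ 2 * |D a s (m + 1) t| * VV a l s m t := by
  have hl0 : 0 < l := by linarith
  have hK := KK_one
  induction m with
  | zero => simp [chi', VV]
  | succ m ih =>
    by_cases hg : Good a l s (m + 1) t
    · have h1 := (growth hl hg (m + 1) le_rfl).1
      have h2 := chi_mem a l s m t
      have h3 := rk'_le2 a hl0 s (m + 1) t
      have h4 : |rk a l s (m + 1) t| ≤ 1 := by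
        show |rho (L a (X a s (m + 1) t) / l)| ≤ 1
        rw [abs_of_nonneg (rho_nonneg _)]
        exact rho_le_one _
      set d := |D a s (m + 1) t| with hd
      set e := |D a s (m + 1 + 1) t| with he
      set E := ee a l (X a s (m + 1) t) with hE
      have hE0 : 0 ≤ E := ee_nonneg _ _ _
      have hd0 : 0 ≤ d := abs_nonneg _
      have hV := VV_nonneg a l s m t
      show |chi' a l s m t * rk a l s (m + 1) t + chi a l s m t * rk' a l s (m + 1) t| ≤
        72 * KK * π ^ 2 * e * (VV a l s m t / 2 + chi a l s m t * E)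
      have h5 : |chi' a l s m t * rk a l s (m + 1) t + chi a l s m t * rk' a l s (m + 1) t| ≤
          72 * KK * π ^ 2 * d * VV a l s m t + chi a l s m t * (36 * KK * π ^ 2 * l * E * d) := by
        refine (abs_add_le _ _).trans (add_le_add ?_ ?_)
        · rw [abs_mul]
          calc |chi' a l s m t| * |rk a l s (m + 1) t| ≤ |chi' a l s m t| * 1 :=
                mul_le_mul_of_nonneg_left h4 (abs_nonneg _)
            _ ≤ _ := by rw [mul_one]; exact ih
        · rw [abs_mul, abs_of_nonneg h2.1]
          exact mul_le_mul_of_nonneg_left h3 h2.1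
      refine h5.trans ?_
      have h6 : d ≤ e / 2 := by nlinarith
      have h7 : l * d ≤ 2 * e := h1
      have h8 : 72 * KK * π ^ 2 * d * VV a l s m t ≤ 72 * KK * π ^ 2 * (e / 2) * VV a l s m t := by
        apply mul_le_mul_of_nonneg_right _ hV
        exact mul_le_mul_of_nonneg_left h6 (by positivity)
      have h9 : chi a l s m t * (36 * KK * π ^ 2 * l * E * d) ≤
          chi a l s m t * (72 * KK * π ^ 2 * E * e) := by
        apply mul_le_mul_of_nonneg_left _ h2.1
        have := mul_le_mul_of_nonneg_left h7 (by positivity : 0 ≤ 36 * KK * π ^ 2 * E)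
        linarith
      linarith
    · rw [(chi_bad hl0 hg).2, abs_zero]
      have := VV_nonneg a l s (m + 1) t
      positivity

theorem B_le2 {a l s : ℝ} (hl : 16 ≤ l) (m : ℕ) (t : ℝ) (hg : Good a l s m t) :
    |B a s (m + 1) t| ≤ 32 * π ^ 2 * D a s (m + 1) t ^ 2 * UU a l s m t := by
  have hl0 : 0 < l := by linarith
  induction m using Nat.strong_induction_on with
  | _ m ih =>
    match m with
    | 0 => simp [B, UU]
    | k + 1 =>
      have h1 := ih k (by omega) (hg.mono (by omega))
      have h0 : |B a s k t| ≤ 32 * π ^ 2 * D a s k t ^ 2 * (2 * UU a l s k t) := by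
        match k, ih, hg with
        | 0, _, _ => simp [B, UU]
        | k + 1, ih, hg =>
          have h := ih k (by omega) (hg.mono (by omega))
          refine h.trans ?_
          apply mul_le_mul_of_nonneg_left _ (by positivity)
          have := ee_nonneg a l (X a s (k + 1) t)
          show UU a l s k t ≤ 2 * (UU a l s k t / 2 + ee a l (X a s (k + 1) t))
          linarith
      have hL := hg (k + 1) (by omega) le_rfl
      obtain ⟨_, h6, _⟩ := growth hl hg (k + 1) le_rfl
      have h6 := h6 (by omega)
      have h5 := (growth hl hg k (by omega)).1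
      set Lk := |L a (X a s (k + 1) t)| with hLk
      have hB : |B a s (k + 1 + 1) t| ≤ Lk * |B a s (k + 1) t| +
          4 * π ^ 2 * |a| * D a s (k + 1) t ^ 2 + |B a s k t| := by
        show |L a (X a s (k + 1) t) * B a s (k + 1) t
          - 4 * π ^ 2 * a * sin (2 * π * X a s (k + 1) t) * D a s (k + 1) t ^ 2 - B a s k t| ≤ _
        have e1 : |L a (X a s (k + 1) t) * B a s (k + 1) t| = Lk * |B a s (k + 1) t| := abs_mul _ _
        have e2 : |4 * π ^ 2 * a * sin (2 * π * X a s (k + 1) t) * D a s (k + 1) t ^ 2| ≤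
            4 * π ^ 2 * |a| * D a s (k + 1) t ^ 2 := by
          rw [abs_mul, abs_mul, abs_mul, abs_mul]
          have h7 := abs_sin_le_one (2 * π * X a s (k + 1) t)
          have e3 : |(4:ℝ)| * |π ^ 2| = 4 * π ^ 2 := by
            rw [abs_of_pos (by norm_num : (0:ℝ) < 4), abs_of_pos (by positivity : 0 < π ^ 2)]
          rw [e3, abs_of_nonneg (sq_nonneg (D a s (k + 1) t))]
          apply mul_le_mul_of_nonneg_right _ (sq_nonneg _)
          calc 4 * π ^ 2 * |a| * |sin (2 * π * X a s (k + 1) t)| ≤ 4 * π ^ 2 * |a| * 1 :=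
                mul_le_mul_of_nonneg_left h7 (by positivity)
            _ = _ := mul_one _
        calc _ ≤ |L a (X a s (k + 1) t) * B a s (k + 1) t
              - 4 * π ^ 2 * a * sin (2 * π * X a s (k + 1) t) * D a s (k + 1) t ^ 2| +
              |B a s k t| := abs_sub _ _
          _ ≤ |L a (X a s (k + 1) t) * B a s (k + 1) t| +
              |4 * π ^ 2 * a * sin (2 * π * X a s (k + 1) t) * D a s (k + 1) t ^ 2| +
              |B a s k t| := by
              have := abs_sub (L a (X a s (k + 1) t) * B a s (k + 1) t)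
                (4 * π ^ 2 * a * sin (2 * π * X a s (k + 1) t) * D a s (k + 1) t ^ 2)
              linarith
          _ ≤ _ := by rw [e1]; linarith
      set d := |D a s (k + 1) t| with hd
      have hd2 : D a s (k + 1) t ^ 2 = d ^ 2 := (sq_abs _).symm
      have hd0 : 0 ≤ d := abs_nonneg _
      have h8 : |D a s k t| ≤ d := by
        have := abs_nonneg (D a s k t)
        nlinarith
      have h9 : D a s k t ^ 2 ≤ d ^ 2 := by
        rw [← sq_abs (D a s k t)]
        exact pow_le_pow_left₀ (abs_nonneg _) h8 2
      set e2 := D a s (k + 1 + 1) t ^ 2 with he2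
      have he20 : 0 ≤ e2 := sq_nonneg _
      have h10 : Lk ^ 2 * d ^ 2 ≤ 4 * e2 := by
        have := pow_le_pow_left₀ (by positivity) h6 2
        rw [mul_pow, mul_pow, sq_abs (D a s (k + 1 + 1) t)] at this
        linarith
      have hLk16 : 16 ≤ Lk := hl.trans hL
      have hLk0 : 0 < Lk := by linarith
      set U := UU a l s k t with hU
      have hU0 : 0 ≤ U := UU_nonneg a l s k t
      set E := ee a l (X a s (k + 1) t) with hE
      have hE0 : 0 ≤ E := ee_nonneg _ _ _
      -- `|a| d ^ 2 ≤ 8 E e2`
      have h11 : |a| * d ^ 2 ≤ 8 * E * e2 := by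
        have hx : |a| ≤ 2 * E * Lk ^ 2 := by
          have hden : 0 < L a (X a s (k + 1) t) ^ 2 + l ^ 2 := by positivity
          have e3 : |a| = E * (L a (X a s (k + 1) t) ^ 2 + l ^ 2) := by
            rw [hE]
            unfold ee
            field_simp
          have e4 : L a (X a s (k + 1) t) ^ 2 + l ^ 2 ≤ 2 * Lk ^ 2 := by
            rw [hLk, sq_abs]
            have := pow_le_pow_left₀ hl0.le hL 2
            rw [hLk, sq_abs] at this
            linarith
          calc |a| = E * (L a (X a s (k + 1) t) ^ 2 + l ^ 2) := e3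
            _ ≤ E * (2 * Lk ^ 2) := mul_le_mul_of_nonneg_left e4 hE0
            _ = _ := by ring
        calc |a| * d ^ 2 ≤ 2 * E * Lk ^ 2 * d ^ 2 := mul_le_mul_of_nonneg_right hx (sq_nonneg _)
          _ = 2 * E * (Lk ^ 2 * d ^ 2) := by ring
          _ ≤ 2 * E * (4 * e2) := mul_le_mul_of_nonneg_left h10 (by positivity)
          _ = _ := by ring
      have h12 : Lk * d ^ 2 ≤ e2 / 4 := by nlinarith
      have h13 : d ^ 2 ≤ e2 / 64 := by nlinarith
      rw [hd2] at hB h1
      show |B a s (k + 1 + 1) t| ≤ 32 * π ^ 2 * e2 * (U / 2 + E)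
      have q1 : Lk * |B a s (k + 1) t| ≤ Lk * (32 * π ^ 2 * d ^ 2 * U) :=
        mul_le_mul_of_nonneg_left h1 hLk0.le
      have q2 : |B a s k t| ≤ 32 * π ^ 2 * d ^ 2 * (2 * U) := by
        refine h0.trans ?_
        apply mul_le_mul_of_nonneg_right _ (by positivity)
        exact mul_le_mul_of_nonneg_left h9 (by positivity)
      have q3 : Lk * (32 * π ^ 2 * d ^ 2 * U) ≤ 32 * π ^ 2 * U * (e2 / 4) := by
        have := mul_le_mul_of_nonneg_left h12 (by positivity : 0 ≤ 32 * π ^ 2 * U)
        linarith
      have q4 : 32 * π ^ 2 * d ^ 2 * (2 * U) ≤ 32 * π ^ 2 * U * (e2 / 32) := by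
        have := mul_le_mul_of_nonneg_left h13 (by positivity : 0 ≤ 64 * π ^ 2 * U)
        linarith
      have q5 : 4 * π ^ 2 * |a| * d ^ 2 ≤ 32 * π ^ 2 * e2 * E := by
        have := mul_le_mul_of_nonneg_left h11 (by positivity : 0 ≤ 4 * π ^ 2)
        linarith
      have q6 : 0 ≤ 32 * π ^ 2 * U * e2 := by positivity
      linarith

theorem W'_le2 {a l s : ℝ} (hl : 16 ≤ l) (m : ℕ) {P P' : ℝ → ℝ} {t : ℝ} (hP : |P t| ≤ 1) :
    |W' a l s m P P' t| ≤ 104 * KK * π ^ 2 * VV a l s m t +
      chi a l s m t * |P' t| / |D a s (m + 1) t| := by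
  have hl0 : 0 < l := by linarith
  have hK := KK_one
  have hV := VV_nonneg a l s m t
  have h4 := chi_mem a l s m t
  by_cases hg : Good a l s m t
  · have hD := D_ne hl hg
    have hD0 : 0 < |D a s (m + 1) t| := abs_pos.2 hD
    have h3 := chi'_le2 (a := a) (s := s) hl m t
    have h5 := B_le2 hl m t hg
    have h6 := chi_UU a l s m t
    have h7 : |(chi' a l s m t * P t + chi a l s m t * P' t) / D a s (m + 1) t| ≤
        72 * KK * π ^ 2 * VV a l s m t + chi a l s m t * |P' t| / |D a s (m + 1) t| := by
      rw [abs_div, div_le_iff₀ hD0, add_mul, div_mul_cancel₀ _ hD0.ne']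
      refine (abs_add_le _ _).trans (add_le_add ?_ ?_)
      · rw [abs_mul]
        calc |chi' a l s m t| * |P t| ≤ |chi' a l s m t| * 1 :=
              mul_le_mul_of_nonneg_left hP (abs_nonneg _)
          _ ≤ 72 * KK * π ^ 2 * |D a s (m + 1) t| * VV a l s m t := by rw [mul_one]; exact h3
          _ = _ := by ring
      · rw [abs_mul, abs_of_nonneg h4.1]
    have h8 : |chi a l s m t * P t * B a s (m + 1) t / D a s (m + 1) t ^ 2| ≤
        32 * π ^ 2 * VV a l s m t := by
      have hD2 : 0 < D a s (m + 1) t ^ 2 := by positivity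
      rw [abs_div, abs_of_pos hD2, div_le_iff₀ hD2, abs_mul, abs_mul, abs_of_nonneg h4.1]
      calc chi a l s m t * |P t| * |B a s (m + 1) t| ≤
          chi a l s m t * 1 * (32 * π ^ 2 * D a s (m + 1) t ^ 2 * UU a l s m t) := by
            apply mul_le_mul _ h5 (abs_nonneg _) (by rw [mul_one]; exact h4.1)
            exact mul_le_mul_of_nonneg_left hP h4.1
        _ = 32 * π ^ 2 * D a s (m + 1) t ^ 2 * (chi a l s m t * UU a l s m t) := by ring
        _ ≤ 32 * π ^ 2 * D a s (m + 1) t ^ 2 * VV a l s m t :=
            mul_le_mul_of_nonneg_left h6 (by positivity)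
        _ = _ := by ring
    unfold W'
    refine (abs_sub _ _).trans ((add_le_add h7 h8).trans ?_)
    have : 32 * π ^ 2 * VV a l s m t ≤ 32 * KK * π ^ 2 * VV a l s m t := by
      apply mul_le_mul_of_nonneg_right _ hV
      apply mul_le_mul_of_nonneg_right _ (by positivity)
      linarith
    linarith
  · obtain ⟨h1, h2⟩ := chi_bad hl0 hg
    unfold W'
    rw [h1, h2]
    simp only [zero_mul, add_zero, zero_div, sub_zero, abs_zero]
    positivity

/-- **integration by parts**, general bound -/
theorem ibp2 {a l s : ℝ} (hl : 16 ≤ l) (m : ℕ) {P P' : ℝ → ℝ}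
    (hP : ∀ t, HasDerivAt P (P' t) t) (hP'c : Continuous P')
    (hPp : ∀ t, P (t + 1) = P t) {bd : ℝ → ℝ} (hbdc : Continuous bd)
    (hbd : ∀ t, |W' a l s m P P' t| ≤ bd t)
    {G g : ℝ → ℝ} (hG : ∀ u, HasDerivAt G (g u) u) (hg : Continuous g)
    (hGp : ∀ u, ∀ n : ℕ, G (u + n) = G u) {A : ℝ} (hG1 : ∀ u, |G u| ≤ A) :
    |∫ t in (0:ℝ)..1, chi a l s m t * P t * g (X a s (m + 1) t)| ≤
      A * ∫ t in (0:ℝ)..1, bd t := by
  have hl0 : 0 < l := by linarith
  have hK := KK_one
  have hA0 : 0 ≤ A := (abs_nonneg _).trans (hG1 0)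
  set F : ℝ → ℝ := fun t => W a l s m P t * G (X a s (m + 1) t) with hF
  set f : ℝ → ℝ := fun t => W' a l s m P P' t * G (X a s (m + 1) t) with hf
  set f2 : ℝ → ℝ := fun t => chi a l s m t * P t * g (X a s (m + 1) t) with hf2
  have hPc : Continuous P := continuous_iff_continuousAt.2 fun t => (hP t).continuousAt
  have hGc : Continuous G := continuous_iff_continuousAt.2 fun t => (hG t).continuousAt
  have hXc := Xt_cont a s (m + 1)
  have hFd : ∀ t, HasDerivAt F (f t + f2 t) t := by
    intro t
    have h1 := (W_hasDeriv (a := a) (s := s) hl m hP t).mul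
      ((hG (X a s (m + 1) t)).comp t (X_hasDeriv a s (m + 1) t))
    refine HasDerivAt.congr_deriv (f := F) h1 ?_
    show W' a l s m P P' t * G (X a s (m + 1) t) +
      W a l s m P t * (g (X a s (m + 1) t) * D a s (m + 1) t) = f t + f2 t
    have e : W a l s m P t * D a s (m + 1) t = chi a l s m t * P t := by
      unfold W
      by_cases hgd : Good a l s m t
      · exact div_mul_cancel₀ _ (D_ne hl hgd)
      · rw [(chi_bad hl0 hgd).1]
        simp
    rw [hf, hf2]
    simp only
    rw [← e]
    ring
  have hW'm : Measurable (W' a l s m P P') := by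
    have c1 := (chi'_cont a l s m).measurable
    have c2 := (chi_cont a l s m).measurable
    have c3 := hPc.measurable
    have c4 := hP'c.measurable
    have c5 := (D_cont a s (m + 1)).measurable
    have c6 := (B_cont a s (m + 1)).measurable
    unfold W'
    exact (((c1.mul c3).add (c2.mul c4)).div c5).sub (((c2.mul c3).mul c6).div (c5.pow_const 2))
  have hfm : Measurable f := hW'm.mul (hGc.comp hXc).measurable
  have hf2c : Continuous f2 := ((chi_cont a l s m).mul hPc).mul (hg.comp hXc)
  have hbdc' : Continuous (fun t => A * bd t) := continuous_const.mul hbdc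
  have hfb : ∀ t, |f t| ≤ A * bd t := by
    intro t
    rw [hf]
    simp only
    rw [abs_mul, mul_comm A]
    exact mul_le_mul (hbd t) (hG1 _) (abs_nonneg _) ((abs_nonneg _).trans (hbd t))
  have hfi : IntervalIntegrable f volume 0 1 :=
    (hbdc'.intervalIntegrable 0 1).mono_fun hfm.aestronglyMeasurable
      (Filter.Eventually.of_forall fun t => by
        show ‖f t‖ ≤ ‖A * bd t‖
        rw [norm_eq_abs, norm_eq_abs]
        exact (hfb t).trans (le_abs_self _))
  have hf2i : IntervalIntegrable f2 volume 0 1 := hf2c.intervalIntegrable 0 1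
  have hFTC := intervalIntegral.integral_eq_sub_of_hasDerivAt (fun t _ => hFd t)
    (hfi.add hf2i)
  have hper : F 1 = F 0 := by
    rw [hF]
    simp only
    have e1 : W a l s m P 1 = W a l s m P 0 := by
      unfold W
      have h1 := chi_period a l s m 0
      have h2 := hPp 0
      have h3 := D_period a s (m + 1) 0
      rw [zero_add] at h1 h2 h3
      rw [h1, h2, h3]
    have e2 : G (X a s (m + 1) 1) = G (X a s (m + 1) 0) := by
      have h1 := X_period a s (m + 1) 0
      rw [zero_add] at h1
      rw [h1, hGp]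
    rw [e1, e2]
  rw [hper, sub_self, intervalIntegral.integral_add hfi hf2i] at hFTC
  have h2 : ∫ t in (0:ℝ)..1, f2 t = -∫ t in (0:ℝ)..1, f t := by linarith
  rw [h2, abs_neg]
  have h4 : ‖∫ t in (0:ℝ)..1, f t‖ ≤ |∫ t in (0:ℝ)..1, A * bd t| :=
    intervalIntegral.norm_integral_le_abs_of_norm_le
      (Filter.Eventually.of_forall fun t => hfb t) (hbdc'.intervalIntegrable 0 1)
  rw [norm_eq_abs] at h4
  have h5 : 0 ≤ ∫ t in (0:ℝ)..1, A * bd t :=
    intervalIntegral.integral_nonneg zero_le_one fun t _ => (abs_nonneg _).trans (hfb t)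
  rw [abs_of_nonneg h5, intervalIntegral.integral_const_mul] at h4
  exact h4

/-- the threshold -/
noncomputable def l0 : ℝ := 104 * KK * π ^ 2

theorem l0_ge : 16 ≤ l0 := by
  unfold l0
  have hK := KK_one
  have := pi_gt_three
  have h1 : 9 ≤ π ^ 2 := by nlinarith
  have h2 : 104 * 1 * 9 ≤ 104 * KK * π ^ 2 := by
    apply mul_le_mul _ h1 (by norm_num) (by positivity)
    linarith
  linarith

/-- **uniform bound of the densities** -/
theorem dens {a l : ℝ} (hl : l0 ≤ l) (hla : l ≤ |a|) (s : ℝ) (m : ℕ) {f : ℝ → ℝ}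
    (hf : Continuous f) (hp : Periodic f 1) (h0 : ∀ x, 0 ≤ f x) :
    ∫ t in (0:ℝ)..1, chi a l s m t * f (X a s (m + 1) t) ≤ 2 * ∫ x in (0:ℝ)..1, f x := by
  have hl16 : 16 ≤ l := l0_ge.trans hl
  have hl0' : 0 < l := by linarith
  have hK := KK_one
  induction m using Nat.strong_induction_on generalizing f with
  | _ m ih =>
    set fb := ∫ x in (0:ℝ)..1, f x with hfb
    have hfb0 : 0 ≤ fb := intervalIntegral.integral_nonneg zero_le_one fun x _ => h0 x
    -- integral of `VV`
    have hVV : ∀ k, k ≤ m → ∫ t in (0:ℝ)..1, VV a l s k t ≤ 1 / l := by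
      intro k
      induction k with
      | zero =>
        intro _
        show ∫ t in (0:ℝ)..1, (0:ℝ) ≤ 1 / l
        simp only [intervalIntegral.integral_zero]
        positivity
      | succ k ihk =>
        intro hk
        have h1 := ihk (by omega)
        have h2 := ih k (by omega) (ee_cont a hl0') (fun x => by
          have := ee_period a l x 1
          rwa [Nat.cast_one] at this) (ee_nonneg a l)
        have h3 := ee_int hl16 hla
        have h4 : ∫ t in (0:ℝ)..1, VV a l s (k + 1) t = (∫ t in (0:ℝ)..1, VV a l s k t) / 2 +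
            ∫ t in (0:ℝ)..1, chi a l s k t * ee a l (X a s (k + 1) t) := by
          rw [← intervalIntegral.integral_div, ← intervalIntegral.integral_add]
          · rfl
          · exact ((VV_cont a hl0' s k).div_const 2).intervalIntegrable _ _
          · exact ((chi_cont a l s k).mul
              ((ee_cont a hl0').comp (Xt_cont a s (k + 1)))).intervalIntegrable _ _
        rw [h4]
        have h5 : 2 * (1 / (4 * l)) = 1 / l / 2 := by field_simp; norm_num
        linarith
    -- primitive
    set G : ℝ → ℝ := fun u => ∫ x in (0:ℝ)..u, (f x - fb) with hG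
    have hgc : Continuous (fun x => f x - fb) := hf.sub continuous_const
    have hGd : ∀ u, HasDerivAt G (f u - fb) u := fun u =>
      intervalIntegral.integral_hasDerivAt_right (hgc.intervalIntegrable _ _)
        (hgc.stronglyMeasurableAtFilter _ _) hgc.continuousAt
    have hGp : Periodic G 1 := by
      intro u
      rw [hG]
      simp only
      have h1 : ∫ x in (0:ℝ)..(u + 1), (f x - fb) = (∫ x in (0:ℝ)..u, (f x - fb)) +
          ∫ x in u..(u + 1), (f x - fb) :=
        (intervalIntegral.integral_add_adjacent_intervals (hgc.intervalIntegrable _ _)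
          (hgc.intervalIntegrable _ _)).symm
      have h2 : Periodic (fun x => f x - fb) 1 := by
        intro x
        simp only
        rw [hp]
      have h3 := h2.intervalIntegral_add_eq u 0
      have h4 : ∫ x in (0:ℝ)..1, (f x - fb) = 0 := by
        rw [intervalIntegral.integral_sub (hf.intervalIntegrable _ _)
          intervalIntegrable_const, intervalIntegral.integral_const, ← hfb]
        simp
      rw [zero_add, h4] at h3
      rw [h1, h3, add_zero]
    have hG1 : ∀ u, |G u| ≤ fb := by
      intro u
      obtain ⟨y, hy, hy2⟩ := hGp.exists_mem_Ico₀ one_pos u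
      rw [hy2]
      have h1 : G y = (∫ x in (0:ℝ)..y, f x) - y * fb := by
        rw [hG]
        simp only
        rw [intervalIntegral.integral_sub (hf.intervalIntegrable _ _)
          intervalIntegrable_const, intervalIntegral.integral_const]
        simp
      have h2 : 0 ≤ ∫ x in (0:ℝ)..y, f x :=
        intervalIntegral.integral_nonneg hy.1 fun x _ => h0 x
      have h3 : ∫ x in (0:ℝ)..y, f x ≤ fb := by
        have h4 := intervalIntegral.integral_add_adjacent_intervals
          (hf.intervalIntegrable (μ := volume) 0 y) (hf.intervalIntegrable y 1)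
        have h5 : 0 ≤ ∫ x in y..1, f x :=
          intervalIntegral.integral_nonneg hy.2.le fun x _ => h0 x
        linarith
      rw [h1, abs_le]
      have := hy.1
      have := hy.2
      constructor <;> nlinarith
    have hb := ibp2 (a := a) (s := s) hl16 m (P := fun _ => 1) (P' := fun _ => 0)
      (fun t => hasDerivAt_const t 1) continuous_const (fun _ => rfl)
      (bd := fun t => 104 * KK * π ^ 2 * VV a l s m t)
      (continuous_const.mul (VV_cont a hl0' s m)) (by
        intro t
        have h := W'_le2 (a := a) (s := s) hl16 m (P := fun _ => 1) (P' := fun _ => 0) (t := t)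
          (by simp)
        simpa using h) hGd hgc (fun u n => by
          have := hGp.nat_mul n u
          rwa [mul_one] at this) hG1
    rw [intervalIntegral.integral_const_mul] at hb
    have h1 : 104 * KK * π ^ 2 * ∫ t in (0:ℝ)..1, VV a l s m t ≤ 1 := by
      have h2 := mul_le_mul_of_nonneg_left (hVV m le_rfl)
        (by positivity : 0 ≤ 104 * KK * π ^ 2)
      have h3 : 104 * KK * π ^ 2 * (1 / l) ≤ 1 := by
        rw [mul_one_div, div_le_one hl0']
        exact hl
      linarith
    have h2 := mul_le_mul_of_nonneg_left h1 hfb0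
    have h3 : ∫ t in (0:ℝ)..1, chi a l s m t * 1 * (f (X a s (m + 1) t) - fb) =
        (∫ t in (0:ℝ)..1, chi a l s m t * f (X a s (m + 1) t)) -
          fb * ∫ t in (0:ℝ)..1, chi a l s m t := by
      have hcc := chi_cont a l s m
      have hfx : Continuous (fun t => f (X a s (m + 1) t)) := hf.comp (Xt_cont a s (m + 1))
      rw [← intervalIntegral.integral_const_mul, ← intervalIntegral.integral_sub
        (f := fun t => chi a l s m t * f (X a s (m + 1) t)) (g := fun t => fb * chi a l s m t)
        ((hcc.mul hfx).intervalIntegrable _ _) ((continuous_const.mul hcc).intervalIntegrable _ _)]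
      apply intervalIntegral.integral_congr
      intro t _
      simp only
      ring
    have h4 : ∫ t in (0:ℝ)..1, chi a l s m t ≤ 1 := by
      have h5 : ∫ t in (0:ℝ)..1, chi a l s m t ≤ ∫ t in (0:ℝ)..1, (1:ℝ) :=
        intervalIntegral.integral_mono_on zero_le_one
          ((chi_cont a l s m).intervalIntegrable _ _) intervalIntegrable_const
          (fun t _ => (chi_mem a l s m t).2)
      simpa using h5
    have h5 := mul_le_mul_of_nonneg_left h4 hfb0
    have h6 := le_abs_self (∫ t in (0:ℝ)..1, chi a l s m t * 1 * (f (X a s (m + 1) t) - fb))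
    linarith

/-- the integral of the weights -/
theorem VV_int {a l : ℝ} (hl : l0 ≤ l) (hla : l ≤ |a|) (s : ℝ) (m : ℕ) :
    ∫ t in (0:ℝ)..1, VV a l s m t ≤ 1 / l := by
  have hl16 : 16 ≤ l := l0_ge.trans hl
  have hl0' : 0 < l := by linarith
  induction m with
  | zero =>
    show ∫ t in (0:ℝ)..1, (0:ℝ) ≤ 1 / l
    simp only [intervalIntegral.integral_zero]
    positivity
  | succ k h1 =>
    have h2 := dens hl hla s k (ee_cont a hl0') (fun x => by
      have := ee_period a l x 1
      rwa [Nat.cast_one] at this) (ee_nonneg a l)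
    have h3 := ee_int hl16 hla
    have h4 : ∫ t in (0:ℝ)..1, VV a l s (k + 1) t = (∫ t in (0:ℝ)..1, VV a l s k t) / 2 +
        ∫ t in (0:ℝ)..1, chi a l s k t * ee a l (X a s (k + 1) t) := by
      rw [← intervalIntegral.integral_div, ← intervalIntegral.integral_add]
      · rfl
      · exact ((VV_cont a hl0' s k).div_const 2).intervalIntegrable _ _
      · exact ((chi_cont a l s k).mul
          ((ee_cont a hl0').comp (Xt_cont a s (k + 1)))).intervalIntegrable _ _
    rw [h4]
    have h5 : 2 * (1 / (4 * l)) = 1 / l / 2 := by field_simp; norm_num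
    linarith

end Pool.Agent.TH705.SM
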