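import Mathlib
import Pool.Agent.TH705.SM.Cut

set_option autoImplicit false

/-!
# The standard map on the torus
-/

namespace Pool.Agent.TH705.SM

open Real MeasureTheory Function

instance instProbCircle : IsProbabilityMeasure (volume : Measure UnitAddCircle) :=
  ⟨UnitAddCircle.measure_univ⟩

/-- the torus -/
abbrev T2 := UnitAddCircle × UnitAddCircle

theorem vol_T2 : (volume : Measure T2) =
    (volume : Measure UnitAddCircle).prod (volume : Measure UnitAddCircle) := rfl

instance instProbTorus : IsProbabilityMeasure (volume : Measure T2) := by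
  rw [vol_T2]
  infer_instance

/-- the real function `2 x + a sin 2 π x` modulo one -/
noncomputable def phiR (a x : ℝ) : UnitAddCircle := ((2 * x + a * sin (2 * π * x) : ℝ) : UnitAddCircle)

theorem phiR_periodic (a : ℝ) : Periodic (phiR a) 1 := by
  intro x
  unfold phiR
  have e1 : 2 * π * (x + 1) = 2 * π * x + 2 * π := by ring
  rw [e1, sin_add_two_pi]
  have e2 : 2 * (x + 1) + a * sin (2 * π * x) = (2 * x + a * sin (2 * π * x)) + 1 + 1 := by ring
  rw [e2, AddCircle.coe_add, AddCircle.coe_add, AddCircle.coe_period, add_zero, add_zero]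

/-- on the circle -/
noncomputable def phi (a : ℝ) : UnitAddCircle → UnitAddCircle := (phiR_periodic a).lift

theorem phi_coe (a x : ℝ) : phi a (x : UnitAddCircle) =
    ((2 * x + a * sin (2 * π * x) : ℝ) : UnitAddCircle) := (phiR_periodic a).lift_coe x

theorem phi_cont (a : ℝ) : Continuous (phi a) := by
  unfold phi Periodic.lift
  apply Continuous.quotient_liftOn'
  unfold phiR
  exact (AddCircle.continuous_mk' 1).comp (by fun_prop)

/-- the map -/
noncomputable def S (a : ℝ) (p : T2) : T2 := (phi a p.1 - p.2, p.1)

/-- its inverse -/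
noncomputable def Si (a : ℝ) (p : T2) : T2 := (p.2, phi a p.2 - p.1)

theorem Si_S (a : ℝ) (p : T2) : Si a (S a p) = p := by
  unfold Si S
  simp

theorem S_cont (a : ℝ) : Continuous (S a) := by
  have := phi_cont a
  unfold S
  fun_prop

theorem Si_cont (a : ℝ) : Continuous (Si a) := by
  have := phi_cont a
  unfold Si
  fun_prop

theorem S_coe (a x y : ℝ) : S a ((x : UnitAddCircle), (y : UnitAddCircle)) =
    (((2 * x - y + a * sin (2 * π * x) : ℝ) : UnitAddCircle), (x : UnitAddCircle)) := by
  unfold S
  simp only [phi_coe]
  rw [← AddCircle.coe_sub]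
  congr 2
  ring

theorem Si_coe (a x y : ℝ) : Si a ((x : UnitAddCircle), (y : UnitAddCircle)) =
    ((y : UnitAddCircle), ((2 * y - x + a * sin (2 * π * y) : ℝ) : UnitAddCircle)) := by
  unfold Si
  simp only [phi_coe]
  rw [← AddCircle.coe_sub]
  congr 2
  ring

/-- any map with the property in the problem is `S` -/
theorem eq_S (a : ℝ) (T : T2 → T2) (hT : ∀ x y : ℝ, T ((x : UnitAddCircle), (y : UnitAddCircle)) =
    (((2 * x - y + a * sin (2 * π * x) : ℝ) : UnitAddCircle), (x : UnitAddCircle))) : T = S a := by
  funext p
  obtain ⟨p1, p2⟩ := p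
  induction p1 using QuotientAddGroup.induction_on with
  | H x =>
    induction p2 using QuotientAddGroup.induction_on with
    | H y => exact (hT x y).trans (S_coe a x y).symm

theorem S_mp (a : ℝ) : MeasurePreserving (S a) volume volume := by
  have h1 : MeasurePreserving (fun p : T2 => (p.1, phi a p.1 - p.2))
      ((volume : Measure UnitAddCircle).prod volume) ((volume : Measure UnitAddCircle).prod volume) := by
    refine MeasurePreserving.skew_product (f := id)
      (g := fun (x : UnitAddCircle) (y : UnitAddCircle) => phi a x - y) (MeasurePreserving.id _) ?_ ?_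
    · have := phi_cont a
      apply Continuous.measurable
      unfold Function.uncurry
      fun_prop
    · refine Filter.Eventually.of_forall fun x => ?_
      exact (Measure.measurePreserving_sub_left volume (phi a x)).map_eq
  have h2 : MeasurePreserving (Prod.swap : T2 → T2)
      ((volume : Measure UnitAddCircle).prod volume) ((volume : Measure UnitAddCircle).prod volume) :=
    Measure.measurePreserving_swap
  exact h2.comp h1

theorem iter_mp (a : ℝ) (k : ℕ) : MeasurePreserving ((S a)^[k]) volume volume :=
  (S_mp a).iterate k

theorem iter_coe (a s t : ℝ) (k : ℕ) : (S a)^[k] ((t : UnitAddCircle), (s : UnitAddCircle)) =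
    ((X a s (k + 1) t : UnitAddCircle), (X a s k t : UnitAddCircle)) := by
  induction k with
  | zero => rfl
  | succ k ih =>
    rw [iterate_succ_apply', ih, S_coe]
    rfl

/-- integrals over the torus -/
theorem int_T2 (F : T2 → ℝ) (hF : Integrable F) :
    ∫ p, F p = ∫ s in (0:ℝ)..1, ∫ t in (0:ℝ)..1, F ((t : UnitAddCircle), (s : UnitAddCircle)) := by
  have h1 : ∫ p, F p = ∫ y : UnitAddCircle, ∫ x : UnitAddCircle, F (x, y) :=
    integral_prod_symm F hF
  rw [h1, ← UnitAddCircle.intervalIntegral_preimage 0]
  rw [zero_add]
  apply intervalIntegral.integral_congr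
  intro s _
  simp only
  have h2 := UnitAddCircle.intervalIntegral_preimage 0 (fun x => F (x, (s : UnitAddCircle)))
  rw [zero_add] at h2
  exact h2.symm

/-- lift of a real periodic function -/
theorem lift_cont {f : ℝ → ℝ} (hf : Periodic f 1) (hc : Continuous f) : Continuous hf.lift := by
  unfold Periodic.lift
  exact hc.quotient_liftOn' _

theorem integrable_cont {F : T2 → ℝ} (hF : Continuous F) : Integrable F := by
  have := hF.continuousOn (s := Set.univ)
  exact (integrableOn_univ.1 (this.integrableOn_compact isCompact_univ))

/-- equidistribution of a single coordinate -/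
theorem int_X (a : ℝ) {f : ℝ → ℝ} (hf : Periodic f 1) (hc : Continuous f) {k : ℕ} (hk : 1 ≤ k) :
    ∫ s in (0:ℝ)..1, ∫ t in (0:ℝ)..1, f (X a s k t) = ∫ x in (0:ℝ)..1, f x := by
  obtain ⟨k, rfl⟩ := Nat.exists_eq_add_of_le' hk
  have hcl := lift_cont hf hc
  have hF : Continuous (fun p : T2 => hf.lift (((S a)^[k] p).1)) :=
    hcl.comp (continuous_fst.comp ((S_cont a).iterate k))
  have h1 := int_T2 _ (integrable_cont hF)
  have h2 : ∀ s t : ℝ, hf.lift (((S a)^[k] ((t : UnitAddCircle), (s : UnitAddCircle))).1) =
      f (X a s (k + 1) t) := by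
    intro s t
    rw [iter_coe]
    exact hf.lift_coe _
  simp only [h2] at h1
  rw [← h1]
  have h3 : ∫ p : T2, hf.lift (((S a)^[k] p).1) = ∫ p : T2, hf.lift p.1 := by
    have h4 := (iter_mp a k).map_eq
    have h5 : Continuous (fun p : T2 => hf.lift p.1) := hcl.comp continuous_fst
    calc ∫ p : T2, hf.lift (((S a)^[k] p).1) = ∫ p, hf.lift p.1 ∂(Measure.map ((S a)^[k]) volume) := by
          rw [integral_map (iter_mp a k).measurable.aemeasurable h5.aestronglyMeasurable]
      _ = _ := by rw [h4]
  rw [h3]
  have h6 : ∫ p : T2, hf.lift p.1 = ∫ x : UnitAddCircle, hf.lift x := by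
    have h7 : MeasurePreserving (Prod.fst : T2 → UnitAddCircle)
        ((volume : Measure UnitAddCircle).prod volume) volume := measurePreserving_fst
    calc ∫ p : T2, hf.lift p.1 = ∫ x, hf.lift x ∂(Measure.map (Prod.fst : T2 → UnitAddCircle)
          ((volume : Measure UnitAddCircle).prod volume)) := by
          rw [integral_map h7.measurable.aemeasurable hcl.aestronglyMeasurable]
          rfl
      _ = _ := by rw [h7.map_eq]
  rw [h6]
  have h8 := UnitAddCircle.intervalIntegral_preimage 0 hf.lift
  rw [zero_add] at h8
  rw [← h8]
  rfl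

/-- the measure of the critical strip -/
theorem kappa_le {a l : ℝ} (ha : 0 < |a|) (hl : 16 ≤ l) :
    ∫ x in (0:ℝ)..1, (1 - rho (L a x / l)) ≤ l / |a| := by
  have hl0 : 0 < l := by linarith
  have hpi := pi_pos
  have hpi3 := pi_gt_three
  set η : ℝ := 1.7 * l / (2 * π * |a|) with hη
  have hη0 : 0 < η := by positivity
  have hcont : Continuous (fun x => 1 - rho (L a x / l)) := by
    have h1 := rho_cont.comp ((L_cont a).div_const l)
    exact continuous_const.sub h1
  set A : Set ℝ := Set.Icc (1 / 4 - η / 4) (1 / 4 + η / 4) ∪ Set.Icc (3 / 4 - η / 4) (3 / 4 + η / 4)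
    with hA
  have hAm : MeasurableSet A := measurableSet_Icc.union measurableSet_Icc
  have hvol : volume A ≤ ENNReal.ofReal η := by
    refine (measure_union_le _ _).trans ?_
    rw [Real.volume_Icc, Real.volume_Icc, ← ENNReal.ofReal_add (by linarith) (by linarith)]
    apply ENNReal.ofReal_le_ofReal
    linarith
  have hpt : ∀ x ∈ Set.Icc (0:ℝ) 1, 1 - rho (L a x / l) ≤ A.indicator (fun _ => (1:ℝ)) x := by
    intro x hx
    by_cases hxA : x ∈ A
    · rw [Set.indicator_of_mem hxA]
      have := rho_nonneg (L a x / l)
      linarith
    · rw [Set.indicator_of_notMem hxA]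
      have : rho (L a x / l) = 1 := by
        apply rho_one
        by_contra hcon
        rw [not_le] at hcon
        apply hxA
        -- `|L| < 1.5 l`
        have h1 : |L a x| < 1.5 * l := by
          have h2 : (L a x) ^ 2 < 2 * l ^ 2 := by
            rw [div_pow, div_lt_iff₀ (by positivity)] at hcon
            exact hcon
          by_contra h3
          rw [not_lt] at h3
          have h4 := pow_le_pow_left₀ (by positivity) h3 2
          rw [sq_abs] at h4
          nlinarith
        have h2 : |cos (2 * π * x)| * (2 * π * |a|) < 1.7 * l := by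
          have h3 : |cos (2 * π * x)| * (2 * π * |a|) = |L a x - 2| := by
            unfold L
            rw [add_sub_cancel_left, abs_mul, abs_mul, abs_of_pos (by positivity : 0 < 2 * π)]
            ring
          rw [h3]
          have := abs_sub (L a x) 2
          rw [abs_of_pos (by norm_num : (0:ℝ) < 2)] at this
          nlinarith
        have h3 : |cos (2 * π * x)| < η := by
          rw [hη, lt_div_iff₀ (by positivity)]
          exact h2
        rcases le_total x (1 / 2) with hx2 | hx2
        · left
          have h4 : |2 * π * (x - 1 / 4)| ≤ π / 2 := by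
            rw [abs_le]
            constructor <;> nlinarith [hx.1]
          have h5 := mul_abs_le_abs_sin h4
          have h6 : |sin (2 * π * (x - 1 / 4))| = |cos (2 * π * x)| := by
            have : 2 * π * (x - 1 / 4) = -(π / 2 - 2 * π * x) := by ring
            rw [this, sin_neg, sin_pi_div_two_sub, abs_neg]
          rw [h6, abs_mul, abs_of_pos (by positivity : 0 < 2 * π)] at h5
          have h7 : 4 * |x - 1 / 4| ≤ |cos (2 * π * x)| := by
            have e : 2 / π * (2 * π * |x - 1 / 4|) = 4 * |x - 1 / 4| := by
              field_simp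
              ring
            rw [← e]
            exact h5
          have h8 : |x - 1 / 4| ≤ η / 4 := by linarith
          rw [abs_le] at h8
          exact ⟨by linarith, by linarith⟩
        · right
          have h4 : |2 * π * (x - 3 / 4)| ≤ π / 2 := by
            rw [abs_le]
            constructor <;> nlinarith [hx.2]
          have h5 := mul_abs_le_abs_sin h4
          have h6 : |sin (2 * π * (x - 3 / 4))| = |cos (2 * π * x)| := by
            have : 2 * π * (x - 3 / 4) = 2 * π * x + π / 2 - 2 * π := by ring
            rw [this, sin_sub_two_pi, sin_add_pi_div_two]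
          rw [h6, abs_mul, abs_of_pos (by positivity : 0 < 2 * π)] at h5
          have h7 : 4 * |x - 3 / 4| ≤ |cos (2 * π * x)| := by
            have e : 2 / π * (2 * π * |x - 3 / 4|) = 4 * |x - 3 / 4| := by
              field_simp
              ring
            rw [← e]
            exact h5
          have h8 : |x - 3 / 4| ≤ η / 4 := by linarith
          rw [abs_le] at h8
          exact ⟨by linarith, by linarith⟩
      rw [this]
      simp
  have hind : IntegrableOn (A.indicator (fun _ => (1:ℝ))) (Set.Icc 0 1) volume := by
    apply IntegrableOn.indicator _ hAm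
    exact integrableOn_const (by simp)
  calc ∫ x in (0:ℝ)..1, (1 - rho (L a x / l)) = ∫ x in Set.Icc (0:ℝ) 1, (1 - rho (L a x / l)) := by
        rw [intervalIntegral.integral_of_le zero_le_one, integral_Icc_eq_integral_Ioc]
    _ ≤ ∫ x in Set.Icc (0:ℝ) 1, A.indicator (fun _ => (1:ℝ)) x :=
        setIntegral_mono_on hcont.continuousOn.integrableOn_Icc hind measurableSet_Icc hpt
    _ ≤ ∫ x, A.indicator (fun _ => (1:ℝ)) x := by
        apply setIntegral_le_integral
        · rw [integrable_indicator_iff hAm]
          exact integrableOn_const (ne_of_lt (hvol.trans_lt ENNReal.ofReal_lt_top))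
        · exact Filter.Eventually.of_forall fun x => Set.indicator_nonneg (fun _ _ => zero_le_one) x
    _ = (volume A).toReal := by
        rw [integral_indicator hAm]
        simp [Measure.real]
    _ ≤ η := by
        apply ENNReal.toReal_le_of_le_ofReal hη0.le hvol
    _ ≤ l / |a| := by
        rw [hη, div_le_div_iff₀ (by positivity) ha]
        have : 0 < l * |a| := by positivity
        nlinarith

end Pool.Agent.TH705.SM
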