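import Mathlib
import Pool.Agent.TH705.SM.Torus
import Pool.Agent.TH705.SM.Dens

set_option autoImplicit false

/-!
# Decay of correlations
-/

namespace Pool.Agent.TH705.SM

open Real MeasureTheory Function

/-- primitives -/
theorem prim {f : ℝ → ℝ} (hf : Continuous f) (hp : Periodic f 1) (h0 : ∫ x in (0:ℝ)..1, f x = 0)
    (hb : ∀ x, |f x| ≤ 2) :
    ∃ G : ℝ → ℝ, (∀ u, HasDerivAt G (f u / 2) u) ∧ Periodic G 1 ∧ ∀ u, |G u| ≤ 1 := by
  refine ⟨fun u => (∫ x in (0:ℝ)..u, f x) / 2, ?_, ?_, ?_⟩
  · intro u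
    exact (intervalIntegral.integral_hasDerivAt_right (hf.intervalIntegrable _ _)
      (hf.stronglyMeasurableAtFilter _ _) hf.continuousAt).div_const 2
  · intro u
    simp only
    have h1 : ∫ x in (0:ℝ)..(u + 1), f x = (∫ x in (0:ℝ)..u, f x) + ∫ x in u..(u + 1), f x :=
      (intervalIntegral.integral_add_adjacent_intervals (hf.intervalIntegrable _ _)
        (hf.intervalIntegrable _ _)).symm
    have h2 := hp.intervalIntegral_add_eq u 0
    rw [zero_add, h0] at h2
    rw [h1, h2, add_zero]
  · have hper : Periodic (fun u => (∫ x in (0:ℝ)..u, f x) / 2) 1 := by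
      intro u
      simp only
      have h1 : ∫ x in (0:ℝ)..(u + 1), f x = (∫ x in (0:ℝ)..u, f x) + ∫ x in u..(u + 1), f x :=
        (intervalIntegral.integral_add_adjacent_intervals (hf.intervalIntegrable _ _)
          (hf.intervalIntegrable _ _)).symm
      have h2 := hp.intervalIntegral_add_eq u 0
      rw [zero_add, h0] at h2
      rw [h1, h2, add_zero]
    intro u
    obtain ⟨y, hy, hy2⟩ := hper.exists_mem_Ico₀ one_pos u
    show |(∫ x in (0:ℝ)..u, f x) / 2| ≤ 1
    have hy2 : (∫ x in (0:ℝ)..u, f x) / 2 = (∫ x in (0:ℝ)..y, f x) / 2 := hy2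
    rw [hy2, abs_div, abs_of_pos (by norm_num : (0:ℝ) < 2)]
    have h3 : |∫ x in (0:ℝ)..y, f x| ≤ 2 * |y - 0| := by
      have := intervalIntegral.norm_integral_le_of_norm_le_const (a := 0) (b := y) (f := f) (C := 2)
        (fun x _ => hb x)
      exact this
    rw [sub_zero, abs_of_nonneg hy.1] at h3
    have := hy.2
    linarith

theorem chiP_le {a l s : ℝ} (hl : 16 ≤ l) {m : ℕ} (hm : 1 ≤ m) {t q1 q2 p : ℝ}
    (hq1 : 0 ≤ q1) (hq2 : 0 ≤ q2) (hp : |p| ≤ q1 * |D a s m t| + q2) :
    chi a l s m t * |p| / |D a s (m + 1) t| ≤ 2 / l * (q1 + q2) := by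
  have hl0 : 0 < l := by linarith
  by_cases hg : Good a l s m t
  · have hD0 : 0 < |D a s (m + 1) t| := abs_pos.2 (D_ne hl hg)
    have h1 := (growth hl hg m le_rfl).1
    have h1' : 1 ≤ |D a s m t| := by
      have := (growth hl hg (m - 1) (by omega)).2.2
      rwa [Nat.sub_add_cancel hm] at this
    have h4 := chi_mem a l s m t
    rw [div_le_iff₀ hD0]
    calc chi a l s m t * |p| ≤ 1 * |p| := mul_le_mul_of_nonneg_right h4.2 (abs_nonneg _)
      _ ≤ q1 * |D a s m t| + q2 := by rw [one_mul]; exact hp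
      _ ≤ (q1 + q2) * |D a s m t| := by nlinarith
      _ ≤ (q1 + q2) * (2 / l * |D a s (m + 1) t|) := by
          apply mul_le_mul_of_nonneg_left _ (by positivity)
          rw [div_mul_eq_mul_div, le_div_iff₀ hl0]
          linarith
      _ = _ := by ring
  · rw [(chi_bad hl0 hg).1, zero_mul, zero_div]
    positivity

/-- the integral over the fibres -/
theorem fibre {a l : ℝ} (hl' : l0 ≤ l) (hla : l ≤ |a|) {m : ℕ} (hm : 1 ≤ m) {f : ℝ → ℝ} (hf : Continuous f)
    (hp : Periodic f 1) (h0 : ∫ x in (0:ℝ)..1, f x = 0) (hb : ∀ x, |f x| ≤ 2)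
    {H1 H1' H2 H2' : ℝ → ℝ} (d1 : ∀ x, HasDerivAt H1 (H1' x) x) (c1 : Continuous H1')
    (p1 : Periodic H1 1) (b1 : ∀ x, |H1 x| ≤ 1)
    (d2 : ∀ x, HasDerivAt H2 (H2' x) x) (c2 : Continuous H2')
    (p2 : Periodic H2 1) (b2 : ∀ x, |H2 x| ≤ 1) (s : ℝ) :
    |∫ t in (0:ℝ)..1, f (X a s (m + 1) t) *
      (H1 (X a s m t) * H2 (2 * s - t + a * sin (2 * π * s)))| ≤
      2 * (104 * KK * π ^ 2 / l + 2 / l * ∫ t in (0:ℝ)..1,
        (|H1' (X a s m t)| + |H2' (2 * s - t + a * sin (2 * π * s))|)) +
      2 * ∑ k ∈ Finset.range m, ∫ t in (0:ℝ)..1, (1 - rk a l s (k + 1) t) := by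
  obtain ⟨G, hG, hGp, hG1⟩ := prim hf hp h0 hb
  have hl : 16 ≤ l := l0_ge.trans hl'
  have hl0 : 0 < l := by linarith
  have hK := KK_one
  have hH1c : Continuous H1 := continuous_iff_continuousAt.2 fun t => (d1 t).continuousAt
  have hH2c : Continuous H2 := continuous_iff_continuousAt.2 fun t => (d2 t).continuousAt
  set y : ℝ → ℝ := fun t => 2 * s - t + a * sin (2 * π * s) with hy
  have hyd : ∀ t, HasDerivAt y (-1) t := by
    intro t
    have := ((hasDerivAt_id t).const_sub (2 * s)).add_const (a * sin (2 * π * s))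
    exact this
  have hyc : Continuous y := by rw [hy]; fun_prop
  set P : ℝ → ℝ := fun t => H1 (X a s m t) * H2 (y t) with hP
  set P' : ℝ → ℝ := fun t => H1' (X a s m t) * D a s m t * H2 (y t) +
    H1 (X a s m t) * (H2' (y t) * (-1)) with hP'
  have hXc := Xt_cont a s m
  have hXc' := Xt_cont a s (m + 1)
  have hDc := D_cont a s m
  have hPd : ∀ t, HasDerivAt P (P' t) t := by
    intro t
    exact ((d1 _).comp t (X_hasDeriv a s m t)).mul ((d2 _).comp t (hyd t))
  have e1 : Continuous (fun t => H1 (X a s m t)) := hH1c.comp hXc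
  have e2 : Continuous (fun t => H2 (y t)) := hH2c.comp hyc
  have e3 : Continuous (fun t => H1' (X a s m t)) := c1.comp hXc
  have e4 : Continuous (fun t => H2' (y t)) := c2.comp hyc
  have hPc : Continuous P := e1.mul e2
  have hP'c : Continuous P' := ((e3.mul hDc).mul e2).add (e1.mul (e4.mul continuous_const))
  have hP1 : ∀ t, |P t| ≤ 1 := by
    intro t
    rw [hP]
    simp only
    rw [abs_mul]
    exact mul_le_one₀ (b1 _) (abs_nonneg _) (b2 _)
  have hPp : ∀ t, P (t + 1) = P t := by
    intro t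
    rw [hP]
    simp only
    have q1 : H1 (X a s m (t + 1)) = H1 (X a s m t) := by
      rw [X_period]
      have := p1.nat_mul m (X a s m t)
      rwa [mul_one] at this
    have q2 : H2 (y (t + 1)) = H2 (y t) := by
      have : y (t + 1) = y t - 1 := by rw [hy]; ring
      rw [this]
      exact p2.sub_eq (y t)
    rw [q1, q2]
  have hP'b : ∀ t, |P' t| ≤ |H1' (X a s m t)| * |D a s m t| + |H2' (y t)| := by
    intro t
    rw [hP']
    simp only
    refine (abs_add_le _ _).trans (add_le_add ?_ ?_)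
    · rw [abs_mul, abs_mul]
      calc _ ≤ |H1' (X a s m t)| * |D a s m t| * 1 :=
            mul_le_mul_of_nonneg_left (b2 _) (by positivity)
        _ = _ := mul_one _
    · rw [abs_mul, abs_mul, abs_neg, abs_one, mul_one]
      calc _ ≤ 1 * |H2' (y t)| := mul_le_mul_of_nonneg_right (b1 _) (abs_nonneg _)
        _ = _ := one_mul _
  have hVc := VV_cont a hl0 s m
  have hibp := ibp2 (a := a) (s := s) hl m hPd hP'c hPp
    (bd := fun t => 104 * KK * π ^ 2 * VV a l s m t +
      2 / l * (|H1' (X a s m t)| + |H2' (y t)|)) (by fun_prop) (fun t =>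
      (W'_le2 hl m (hP1 t)).trans (add_le_add le_rfl (chiP_le hl hm (abs_nonneg _) (abs_nonneg _)
        (hP'b t)))) hG (hf.div_const 2) (fun u n => by
      have := hGp.nat_mul n u
      rwa [mul_one] at this) hG1
  rw [one_mul, intervalIntegral.integral_add (f := fun t => 104 * KK * π ^ 2 * VV a l s m t)
    (g := fun t => 2 / l * (|H1' (X a s m t)| + |H2' (y t)|)) ((continuous_const.mul hVc).intervalIntegrable _ _)
    ((continuous_const.mul (e3.abs.add e4.abs)).intervalIntegrable _ _),
    intervalIntegral.integral_const_mul, intervalIntegral.integral_const_mul] at hibp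
  have hVV := mul_le_mul_of_nonneg_left (VV_int hl' hla s m)
    (by positivity : 0 ≤ 104 * KK * π ^ 2)
  rw [mul_one_div] at hVV
  have hcc := chi_cont a l s m
  have hfc : Continuous (fun t => f (X a s (m + 1) t)) := hf.comp hXc'
  have hA : ∫ t in (0:ℝ)..1, chi a l s m t * P t * (f (X a s (m + 1) t) / 2) =
      (∫ t in (0:ℝ)..1, chi a l s m t * P t * f (X a s (m + 1) t)) / 2 := by
    rw [← intervalIntegral.integral_div]
    apply intervalIntegral.integral_congr
    intro t _
    simp only
    ring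
  rw [hA, abs_div, abs_of_pos (by norm_num : (0:ℝ) < 2), div_le_iff₀ (by norm_num)] at hibp
  simp only [hy] at hibp
  have hsplit : ∫ t in (0:ℝ)..1, f (X a s (m + 1) t) *
      (H1 (X a s m t) * H2 (2 * s - t + a * sin (2 * π * s))) =
      (∫ t in (0:ℝ)..1, chi a l s m t * P t * f (X a s (m + 1) t)) +
      ∫ t in (0:ℝ)..1, (1 - chi a l s m t) * P t * f (X a s (m + 1) t) := by
    rw [← intervalIntegral.integral_add (by
      apply Continuous.intervalIntegrable; fun_prop) (by
      apply Continuous.intervalIntegrable; fun_prop)]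
    apply intervalIntegral.integral_congr
    intro t _
    simp only [hP, hy]
    ring
  rw [hsplit]
  have hsum : Continuous (fun t : ℝ => ∑ k ∈ Finset.range m, (1 - rk a l s (k + 1) t)) := by
    apply continuous_finsetSum
    intro k _
    exact continuous_const.sub (rk_cont a l s (k + 1))
  have h2 : |∫ t in (0:ℝ)..1, (1 - chi a l s m t) * P t * f (X a s (m + 1) t)| ≤
      2 * ∑ k ∈ Finset.range m, ∫ t in (0:ℝ)..1, (1 - rk a l s (k + 1) t) := by
    rw [← intervalIntegral.integral_finsetSum (by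
      intro k _
      apply Continuous.intervalIntegrable
      exact continuous_const.sub (rk_cont a l s (k + 1))), ← intervalIntegral.integral_const_mul]
    have h3 : ∀ t, |(1 - chi a l s m t) * P t * f (X a s (m + 1) t)| ≤
        2 * ∑ k ∈ Finset.range m, (1 - rk a l s (k + 1) t) := by
      intro t
      have q1 := one_sub_chi a l s m t
      have q2 := chi_mem a l s m t
      rw [abs_mul, abs_mul, abs_of_nonneg (by linarith : 0 ≤ 1 - chi a l s m t)]
      have q3 := hP1 t
      have q4 := hb (X a s (m + 1) t)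
      calc (1 - chi a l s m t) * |P t| * |f (X a s (m + 1) t)| ≤ (1 - chi a l s m t) * 1 * 2 := by
            apply mul_le_mul _ q4 (abs_nonneg _) (by linarith)
            exact mul_le_mul_of_nonneg_left q3 (by linarith)
        _ ≤ _ := by linarith
    have h4 := intervalIntegral.norm_integral_le_abs_of_norm_le (a := 0) (b := 1) (μ := volume)
      (f := fun t => (1 - chi a l s m t) * P t * f (X a s (m + 1) t))
      (g := fun t => 2 * ∑ k ∈ Finset.range m, (1 - rk a l s (k + 1) t))
      (Filter.Eventually.of_forall fun t => h3 t)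
      ((continuous_const.mul hsum).intervalIntegrable 0 1)
    rw [norm_eq_abs] at h4
    refine h4.trans (le_of_eq (abs_of_nonneg ?_))
    exact intervalIntegral.integral_nonneg zero_le_one fun t _ => (abs_nonneg _).trans (h3 t)
  refine (abs_add_le _ _).trans (add_le_add ?_ h2)
  linarith

theorem int_y {f : ℝ → ℝ} (hp : Periodic f 1) (c : ℝ) :
    ∫ t in (0:ℝ)..1, f (c - t) = ∫ x in (0:ℝ)..1, f x := by
  rw [intervalIntegral.integral_comp_sub_left]
  have := hp.intervalIntegral_add_eq (c - 1) 0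
  rw [zero_add, sub_add_cancel] at this
  rw [sub_zero]
  exact this

/-- **decay of correlations**, smooth version -/
theorem corr {a l : ℝ} (hl' : l0 ≤ l) (hla : l ≤ |a|) {m : ℕ} (hm : 1 ≤ m)
    {g g2 : UnitAddCircle → ℝ} (hg : Continuous g) (hg2 : Continuous g2)
    (hg1 : ∀ x, |g x| ≤ 1) (hg21 : ∀ x, |g2 x| ≤ 1)
    {H1 H1' H2 H2' : ℝ → ℝ} (d1 : ∀ x, HasDerivAt H1 (H1' x) x) (c1 : Continuous H1')
    (p1 : Periodic H1 1) (p1' : Periodic H1' 1) (b1 : ∀ x, |H1 x| ≤ 1)
    (d2 : ∀ x, HasDerivAt H2 (H2' x) x) (c2 : Continuous H2')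
    (p2 : Periodic H2 1) (p2' : Periodic H2' 1) (b2 : ∀ x, |H2 x| ≤ 1) :
    |∫ p : T2, (g (((S a)^[m + 1] p).1) - ∫ x, g x) * p1.lift (((S a)^[m + 1] p).2) *
      (g2 p.1 * p2.lift p.2)| ≤
      208 * KK * π ^ 2 / l +
        4 / l * ((∫ x in (0:ℝ)..1, |H1' x|) + ∫ x in (0:ℝ)..1, |H2' x|) + 2 * m * (l / |a|) := by
  have hl : 16 ≤ l := l0_ge.trans hl'
  have ha : 0 < |a| := by linarith
  have hH1c : Continuous H1 := continuous_iff_continuousAt.2 fun t => (d1 t).continuousAt
  have hH2c : Continuous H2 := continuous_iff_continuousAt.2 fun t => (d2 t).continuousAt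
  have hl1 := lift_cont p1 hH1c
  have hl2 := lift_cont p2 hH2c
  have hl0 : 0 < l := by linarith
  set gb : ℝ := ∫ x, g x with hgb
  have hgb1 : |gb| ≤ 1 := by
    have := norm_integral_le_of_norm_le_const (μ := (volume : Measure UnitAddCircle)) (f := g)
      (C := 1) (Filter.Eventually.of_forall fun x => by rw [norm_eq_abs]; exact hg1 x)
    simpa using this
  -- change of variables
  set F : T2 → ℝ := fun q => (g (((S a)^[m] q).1) - gb) * p1.lift (((S a)^[m] q).2) *
    (g2 ((Si a q).1) * p2.lift ((Si a q).2)) with hF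
  have hit := (S_cont a).iterate m
  have hSi := Si_cont a
  have hFc : Continuous F := by
    have k1 : Continuous (fun q : T2 => g (((S a)^[m] q).1)) := hg.comp (continuous_fst.comp hit)
    have k2 : Continuous (fun q : T2 => p1.lift (((S a)^[m] q).2)) :=
      hl1.comp (continuous_snd.comp hit)
    have k3 : Continuous (fun q : T2 => g2 ((Si a q).1)) := hg2.comp (continuous_fst.comp hSi)
    have k4 : Continuous (fun q : T2 => p2.lift ((Si a q).2)) := hl2.comp (continuous_snd.comp hSi)
    exact ((k1.sub continuous_const).mul k2).mul (k3.mul k4)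
  have h1 : ∫ p : T2, (g (((S a)^[m + 1] p).1) - gb) * p1.lift (((S a)^[m + 1] p).2) *
      (g2 p.1 * p2.lift p.2) = ∫ q : T2, F q := by
    have h2 : ∫ q, F q ∂(Measure.map (S a) volume) = ∫ p : T2, F (S a p) :=
      integral_map (S_mp a).measurable.aemeasurable hFc.aestronglyMeasurable
    rw [(S_mp a).map_eq] at h2
    rw [h2]
    apply integral_congr_ae
    refine Filter.Eventually.of_forall fun p => ?_
    simp only [hF]
    rw [Si_S, iterate_succ_apply]
  rw [h1, int_T2 F (integrable_cont hFc)]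
  -- pointwise form
  set f : ℝ → ℝ := fun x => g (x : UnitAddCircle) - gb with hf
  have hfc : Continuous f := (hg.comp (AddCircle.continuous_mk' 1)).sub continuous_const
  have hfp : Periodic f 1 := by
    intro x
    rw [hf]
    simp only
    rw [AddCircle.coe_add, AddCircle.coe_period, add_zero]
  have hf0 : ∫ x in (0:ℝ)..1, f x = 0 := by
    rw [hf]
    have k1 := UnitAddCircle.intervalIntegral_preimage 0 g
    rw [zero_add] at k1
    rw [intervalIntegral.integral_sub, k1, intervalIntegral.integral_const]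
    · simp [hgb]
    · exact (hg.comp (AddCircle.continuous_mk' 1)).intervalIntegrable _ _
    · exact intervalIntegrable_const
  have hfb : ∀ x, |f x| ≤ 2 := by
    intro x
    have := abs_sub (g (x : UnitAddCircle)) gb
    have := hg1 (x : UnitAddCircle)
    rw [hf]
    simp only
    linarith
  have hFst : ∀ s t : ℝ, F ((t : UnitAddCircle), (s : UnitAddCircle)) =
      g2 (s : UnitAddCircle) * (f (X a s (m + 1) t) *
        (H1 (X a s m t) * H2 (2 * s - t + a * sin (2 * π * s)))) := by
    intro s t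
    rw [hF]
    simp only
    rw [iter_coe, Si_coe, p1.lift_coe, p2.lift_coe]
    simp only [hf]
    ring
  simp only [hFst]
  -- bound function
  set bd : ℝ → ℝ := fun s => 2 * (104 * KK * π ^ 2 / l + 2 / l * ∫ t in (0:ℝ)..1,
        (|H1' (X a s m t)| + |H2' (2 * s - t + a * sin (2 * π * s))|)) +
      2 * ∑ k ∈ Finset.range m, ∫ t in (0:ℝ)..1, (1 - rk a l s (k + 1) t) with hbd
  have hpt : ∀ s : ℝ, |∫ t in (0:ℝ)..1, g2 (s : UnitAddCircle) * (f (X a s (m + 1) t) *
        (H1 (X a s m t) * H2 (2 * s - t + a * sin (2 * π * s))))| ≤ bd s := by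
    intro s
    rw [intervalIntegral.integral_const_mul, abs_mul]
    have k1 := fibre (a := a) hl' hla hm hfc hfp hf0 hfb d1 c1 p1 b1 d2 c2 p2 b2 s
    calc _ ≤ 1 * _ := mul_le_mul_of_nonneg_right (hg21 _) (abs_nonneg _)
      _ ≤ _ := by rw [one_mul]; exact k1
  -- continuity in `s`
  have hXj := X_cont a
  have j1 : Continuous (fun p : ℝ × ℝ => |H1' (X a p.1 m p.2)|) := (c1.comp (hXj m)).abs
  have j2 : Continuous (fun p : ℝ × ℝ => |H2' (2 * p.1 - p.2 + a * sin (2 * π * p.1))|) := by
    have : Continuous (fun p : ℝ × ℝ => 2 * p.1 - p.2 + a * sin (2 * π * p.1)) := by fun_prop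
    exact (c2.comp this).abs
  have j3 : ∀ k, Continuous (fun p : ℝ × ℝ => 1 - rk a l p.1 (k + 1) p.2) := by
    intro k
    unfold rk
    exact continuous_const.sub (rho_cont.comp (((L_cont a).comp (hXj (k + 1))).div_const l))
  have i1 : Continuous (fun s : ℝ => ∫ t in (0:ℝ)..1, |H1' (X a s m t)|) :=
    intervalIntegral.continuous_parametric_intervalIntegral_of_continuous' (f := fun s t =>
      |H1' (X a s m t)|) j1 0 1
  have i2 : Continuous (fun s : ℝ => ∫ t in (0:ℝ)..1, |H2' (2 * s - t + a * sin (2 * π * s))|) :=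
    intervalIntegral.continuous_parametric_intervalIntegral_of_continuous' (f := fun s t =>
      |H2' (2 * s - t + a * sin (2 * π * s))|) j2 0 1
  have i3 : ∀ k, Continuous (fun s : ℝ => ∫ t in (0:ℝ)..1, (1 - rk a l s (k + 1) t)) := fun k =>
    intervalIntegral.continuous_parametric_intervalIntegral_of_continuous' (f := fun s t =>
      1 - rk a l s (k + 1) t) (j3 k) 0 1
  have sl : ∀ s : ℝ, Continuous (fun t : ℝ => (s, t)) := fun s => by fun_prop
  have hsplit : ∀ s : ℝ, ∫ t in (0:ℝ)..1,
      (|H1' (X a s m t)| + |H2' (2 * s - t + a * sin (2 * π * s))|) =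
      (∫ t in (0:ℝ)..1, |H1' (X a s m t)|) +
        ∫ t in (0:ℝ)..1, |H2' (2 * s - t + a * sin (2 * π * s))| := by
    intro s
    exact intervalIntegral.integral_add ((j1.comp (sl s)).intervalIntegrable 0 1)
      ((j2.comp (sl s)).intervalIntegrable 0 1)
  have hbdc : Continuous bd := by
    rw [hbd]
    simp only [hsplit]
    have : Continuous (fun s : ℝ => ∑ k ∈ Finset.range m, ∫ t in (0:ℝ)..1, (1 - rk a l s (k + 1) t)) :=
      continuous_finsetSum _ fun k _ => i3 k
    fun_prop
  have h3 := intervalIntegral.norm_integral_le_abs_of_norm_le (a := 0) (b := 1) (μ := volume)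
    (f := fun s : ℝ => ∫ t in (0:ℝ)..1, g2 (s : UnitAddCircle) * (f (X a s (m + 1) t) *
        (H1 (X a s m t) * H2 (2 * s - t + a * sin (2 * π * s)))))
    (g := bd) (Filter.Eventually.of_forall fun s => hpt s) (hbdc.intervalIntegrable 0 1)
  rw [norm_eq_abs] at h3
  refine h3.trans ?_
  have hnn : 0 ≤ ∫ s in (0:ℝ)..1, bd s :=
    intervalIntegral.integral_nonneg zero_le_one fun s _ => (abs_nonneg _).trans (hpt s)
  rw [abs_of_nonneg hnn]
  -- evaluation
  have v1 : ∫ s in (0:ℝ)..1, ∫ t in (0:ℝ)..1, |H1' (X a s m t)| = ∫ x in (0:ℝ)..1, |H1' x| :=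
    int_X a (f := fun x => |H1' x|) (fun x => by simp only; rw [p1' x]) c1.abs hm
  have v2 : ∫ s in (0:ℝ)..1, ∫ t in (0:ℝ)..1, |H2' (2 * s - t + a * sin (2 * π * s))| =
      ∫ x in (0:ℝ)..1, |H2' x| := by
    have : ∀ s : ℝ, ∫ t in (0:ℝ)..1, |H2' (2 * s - t + a * sin (2 * π * s))| =
        ∫ x in (0:ℝ)..1, |H2' x| := by
      intro s
      have k1 := int_y (f := fun x => |H2' x|) (fun x => by simp only; rw [p2' x])
        (2 * s + a * sin (2 * π * s))
      rw [← k1]
      apply intervalIntegral.integral_congr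
      intro t _
      simp only
      congr 2
      ring
    simp only [this]
    simp
  have v3 : ∀ k, ∫ s in (0:ℝ)..1, ∫ t in (0:ℝ)..1, (1 - rk a l s (k + 1) t) ≤ l / |a| := by
    intro k
    have k1 := int_X a (f := fun x => 1 - rho (L a x / l)) (fun x => by
      simp only
      have := L_period a x 1
      rw [Nat.cast_one] at this
      rw [this]) (continuous_const.sub (rho_cont.comp ((L_cont a).div_const l)))
      (k := k + 1) (by omega)
    have k2 : ∫ s in (0:ℝ)..1, ∫ t in (0:ℝ)..1, (1 - rk a l s (k + 1) t) =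
        ∫ x in (0:ℝ)..1, (1 - rho (L a x / l)) := k1
    rw [k2]
    exact kappa_le ha hl
  have hint : ∫ s in (0:ℝ)..1, bd s = 208 * KK * π ^ 2 / l +
        4 / l * ((∫ x in (0:ℝ)..1, |H1' x|) + ∫ x in (0:ℝ)..1, |H2' x|) +
        2 * ∑ k ∈ Finset.range m, ∫ s in (0:ℝ)..1, ∫ t in (0:ℝ)..1, (1 - rk a l s (k + 1) t) := by
    rw [hbd]
    simp only [hsplit]
    rw [intervalIntegral.integral_add, intervalIntegral.integral_const_mul,
      intervalIntegral.integral_add, intervalIntegral.integral_const_mul,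
      intervalIntegral.integral_add, v1, v2, intervalIntegral.integral_const_mul,
      intervalIntegral.integral_finsetSum, intervalIntegral.integral_const]
    · simp only [sub_zero, one_smul]
      ring
    · intro k _
      exact (i3 k).intervalIntegrable 0 1
    · exact i1.intervalIntegrable 0 1
    · exact i2.intervalIntegrable 0 1
    · exact intervalIntegrable_const
    · exact (continuous_const.mul (i1.add i2)).intervalIntegrable 0 1
    · exact (continuous_const.mul (continuous_const.add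
        (continuous_const.mul (i1.add i2)))).intervalIntegrable 0 1
    · exact (continuous_const.mul (continuous_finsetSum _ fun k _ => i3 k)).intervalIntegrable 0 1
  rw [hint]
  have hsum : ∑ k ∈ Finset.range m, ∫ s in (0:ℝ)..1, ∫ t in (0:ℝ)..1, (1 - rk a l s (k + 1) t) ≤
      m * (l / |a|) := by
    calc _ ≤ ∑ k ∈ Finset.range m, l / |a| := Finset.sum_le_sum fun k _ => v3 k
      _ = _ := by rw [Finset.sum_const, Finset.card_range, nsmul_eq_mul]
  linarith

end Pool.Agent.TH705.SM
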