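import Mathlib
import Pool.Agent.TH705.SM.Corr

set_option autoImplicit false

/-!
# Arcs and rough functions
-/

namespace Pool.Agent.TH705.SM

open Real MeasureTheory Function Filter
open scoped Topology

/-- `cos (2 π (x - c))` -/
noncomputable def cc (c x : ℝ) : ℝ := cos (2 * π * (x - c))

theorem cc_periodic (c : ℝ) : Periodic (cc c) 1 := by
  intro x
  unfold cc
  have e : 2 * π * (x + 1 - c) = 2 * π * (x - c) + 2 * π := by ring
  rw [e, cos_add_two_pi]

theorem cc_cont (c : ℝ) : Continuous (cc c) := by
  unfold cc
  fun_prop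

/-- smoothed indicator function -/
noncomputable def HH (c κ δ x : ℝ) : ℝ := smoothTransition ((cc c x - κ) / δ)

/-- its derivative -/
noncomputable def HH' (c κ δ x : ℝ) : ℝ :=
  deriv smoothTransition ((cc c x - κ) / δ) * (-(2 * π * sin (2 * π * (x - c))) / δ)

theorem HH_hasDeriv (c κ δ x : ℝ) : HasDerivAt (HH c κ δ) (HH' c κ δ x) x := by
  have h1 : HasDerivAt (cc c) (-(2 * π * sin (2 * π * (x - c)))) x := by
    have h := (((hasDerivAt_id x).sub_const c).const_mul (2 * π)).cos
    refine HasDerivAt.congr_deriv (f := cc c) h ?_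
    simp only [id]
    ring
  have h2 : HasDerivAt (fun x => (cc c x - κ) / δ) (-(2 * π * sin (2 * π * (x - c))) / δ) x :=
    (h1.sub_const κ).div_const δ
  have h3 : HasDerivAt smoothTransition (deriv smoothTransition ((cc c x - κ) / δ))
      ((cc c x - κ) / δ) :=
    ((smoothTransition.contDiff (n := 1)).differentiable one_ne_zero _).hasDerivAt
  exact h3.comp x h2

theorem HH'_cont (c κ δ : ℝ) : Continuous (HH' c κ δ) := by
  unfold HH'
  have h := sT_deriv_cont
  have h1 : Continuous (fun x : ℝ => deriv smoothTransition ((cc c x - κ) / δ)) := by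
    have := cc_cont c
    exact h.comp (by fun_prop)
  fun_prop

theorem HH_periodic (c κ δ : ℝ) : Periodic (HH c κ δ) 1 := by
  intro x
  unfold HH
  rw [cc_periodic]

theorem HH'_periodic (c κ δ : ℝ) : Periodic (HH' c κ δ) 1 := by
  intro x
  unfold HH'
  rw [cc_periodic]
  have e : 2 * π * (x + 1 - c) = 2 * π * (x - c) + 2 * π := by ring
  rw [e, sin_add_two_pi]

theorem HH_le (c κ δ x : ℝ) : |HH c κ δ x| ≤ 1 := by
  unfold HH
  rw [abs_of_nonneg (smoothTransition.nonneg _)]
  exact smoothTransition.le_one _

theorem sT_deriv_nonneg (w : ℝ) : 0 ≤ deriv smoothTransition w :=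
  smoothTransition.monotone.deriv_nonneg

/-- the total variation -/
theorem HH'_tv (c κ : ℝ) {δ : ℝ} (hδ : 0 < δ) : ∫ x in (0:ℝ)..1, |HH' c κ δ x| ≤ 2 := by
  have hcont := HH'_cont c κ δ
  have hper : Periodic (fun x => |HH' c κ δ x|) 1 := by
    intro x
    simp only
    rw [HH'_periodic]
  have h1 := hper.intervalIntegral_add_eq 0 c
  rw [zero_add] at h1
  rw [h1, ← intervalIntegral.integral_add_adjacent_intervals (b := c + 1 / 2)
    (hcont.abs.intervalIntegrable _ _) (hcont.abs.intervalIntegrable _ _)]
  have hb := HH_le c κ δ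
  have h0 : ∀ x, 0 ≤ HH c κ δ x := fun x => smoothTransition.nonneg _
  have h1' : ∀ x, HH c κ δ x ≤ 1 := fun x => smoothTransition.le_one _
  have hpi := pi_pos
  have hA : ∫ x in c..(c + 1 / 2), |HH' c κ δ x| ≤ 1 := by
    have e : ∫ x in c..(c + 1 / 2), |HH' c κ δ x| = ∫ x in c..(c + 1 / 2), -HH' c κ δ x := by
      apply intervalIntegral.integral_congr
      intro x hx
      rw [Set.uIcc_of_le (by linarith)] at hx
      simp only
      apply abs_of_nonpos
      unfold HH'
      apply mul_nonpos_of_nonneg_of_nonpos (sT_deriv_nonneg _)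
      apply div_nonpos_of_nonpos_of_nonneg _ hδ.le
      have : 0 ≤ sin (2 * π * (x - c)) := by
        apply sin_nonneg_of_nonneg_of_le_pi
        · have := hx.1
          have : 0 ≤ x - c := by linarith
          positivity
        · have := hx.2
          nlinarith
      have : 0 ≤ 2 * π * sin (2 * π * (x - c)) := by positivity
      linarith
    rw [e, intervalIntegral.integral_neg,
      intervalIntegral.integral_eq_sub_of_hasDerivAt (fun x _ => HH_hasDeriv c κ δ x)
        (hcont.intervalIntegrable _ _)]
    have := h0 (c + 1 / 2)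
    have := h1' c
    linarith
  have hB : ∫ x in (c + 1 / 2)..(c + 1), |HH' c κ δ x| ≤ 1 := by
    have e : ∫ x in (c + 1 / 2)..(c + 1), |HH' c κ δ x| = ∫ x in (c + 1 / 2)..(c + 1), HH' c κ δ x := by
      apply intervalIntegral.integral_congr
      intro x hx
      rw [Set.uIcc_of_le (by linarith)] at hx
      simp only
      apply abs_of_nonneg
      unfold HH'
      apply mul_nonneg (sT_deriv_nonneg _)
      apply div_nonneg _ hδ.le
      have : sin (2 * π * (x - c)) ≤ 0 := by
        have e2 : sin (2 * π * (x - c)) = -sin (2 * π * (x - c) - π) := by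
          rw [sin_sub_pi]
          ring
        rw [e2, neg_nonpos]
        apply sin_nonneg_of_nonneg_of_le_pi
        · have := hx.1
          nlinarith
        · have := hx.2
          nlinarith
      have : 2 * π * sin (2 * π * (x - c)) ≤ 0 :=
        mul_nonpos_of_nonneg_of_nonpos (by positivity) this
      linarith
    rw [e, intervalIntegral.integral_eq_sub_of_hasDerivAt (fun x _ => HH_hasDeriv c κ δ x)
        (hcont.intervalIntegrable _ _)]
    have := h0 (c + 1 / 2)
    have := h1' (c + 1)
    linarith
  linarith

/-- the arc -/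
def arc (c κ : ℝ) : Set UnitAddCircle := {y | κ < (cc_periodic c).lift y}

theorem arc_open (c κ : ℝ) : IsOpen (arc c κ) :=
  isOpen_lt continuous_const (lift_cont (cc_periodic c) (cc_cont c))

theorem arc_meas (c κ : ℝ) : MeasurableSet (arc c κ) := (arc_open c κ).measurableSet

/-- indicator function of the arc -/
noncomputable def ai (c κ : ℝ) : UnitAddCircle → ℝ := (arc c κ).indicator (fun _ => 1)

theorem ai_meas (c κ : ℝ) : Measurable (ai c κ) := measurable_const.indicator (arc_meas c κ)

theorem ai_mem (c κ : ℝ) (y : UnitAddCircle) : 0 ≤ ai c κ y ∧ ai c κ y ≤ 1 := by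
  unfold ai
  by_cases h : y ∈ arc c κ
  · rw [Set.indicator_of_mem h]; exact ⟨zero_le_one, le_rfl⟩
  · rw [Set.indicator_of_notMem h]; exact ⟨le_rfl, zero_le_one⟩

/-- pointwise limit -/
theorem HH_tendsto (c κ : ℝ) (y : UnitAddCircle) :
    Tendsto (fun n : ℕ => (HH_periodic c κ (1 / ((n : ℝ) + 1))).lift y) atTop (𝓝 (ai c κ y)) := by
  induction y using QuotientAddGroup.induction_on with
  | H x =>
    have e1 : ∀ n : ℕ, (HH_periodic c κ (1 / ((n : ℝ) + 1))).lift (x : UnitAddCircle) =
        HH c κ (1 / ((n : ℝ) + 1)) x := fun n => Periodic.lift_coe _ _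
    have e2 : ∀ n : ℕ, HH c κ (1 / ((n : ℝ) + 1)) x = smoothTransition ((cc c x - κ) * (n + 1)) := by
      intro n
      unfold HH
      congr 1
      rw [div_div_eq_mul_div, div_one]
    have e3 : (((x : ℝ) : UnitAddCircle) ∈ arc c κ) ↔ κ < cc c x := by
      unfold arc
      rw [Set.mem_setOf_eq, Periodic.lift_coe]
    show Tendsto (fun n : ℕ => (HH_periodic c κ (1 / ((n : ℝ) + 1))).lift ((x : ℝ) : UnitAddCircle))
      atTop (𝓝 (ai c κ ((x : ℝ) : UnitAddCircle)))
    simp only [e1, e2]
    by_cases h : κ < cc c x
    · have h1 : ai c κ ((x : ℝ) : UnitAddCircle) = 1 := by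
        unfold ai
        rw [Set.indicator_of_mem (e3.2 h)]
      rw [h1]
      apply tendsto_const_nhds.congr'
      have hpos : 0 < cc c x - κ := by linarith
      have h2 : Tendsto (fun n : ℕ => (cc c x - κ) * ((n : ℝ) + 1)) atTop atTop :=
        (tendsto_natCast_atTop_atTop.atTop_add tendsto_const_nhds).const_mul_atTop hpos
      filter_upwards [h2.eventually_ge_atTop 1] with n hn
      exact (smoothTransition.one_of_one_le hn).symm
    · have h1 : ai c κ ((x : ℝ) : UnitAddCircle) = 0 := by
        unfold ai
        rw [Set.indicator_of_notMem (fun h' => h (e3.1 h'))]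
      rw [h1]
      apply tendsto_const_nhds.congr
      intro n
      refine (smoothTransition.zero_of_nonpos ?_).symm
      have : cc c x - κ ≤ 0 := by linarith [not_lt.1 h]
      exact mul_nonpos_of_nonpos_of_nonneg this (by positivity)

/-- balls are arcs -/
theorem ball_arc (c : ℝ) (r : ℝ) : ∃ κ : ℝ, Metric.ball (c : UnitAddCircle) r = arc c κ := by
  have hpi := pi_pos
  rcases le_or_gt r 0 with hr | hr
  · refine ⟨1, ?_⟩
    rw [Metric.ball_eq_empty.2 hr]
    symm
    rw [Set.eq_empty_iff_forall_notMem]
    intro y
    induction y using QuotientAddGroup.induction_on with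
    | H x =>
      intro h
      have h1 : 1 < cc c x := by
        have : (1:ℝ) < (cc_periodic c).lift ((x : ℝ) : UnitAddCircle) := h
        rwa [Periodic.lift_coe] at this
      have := cos_le_one (2 * π * (x - c))
      unfold cc at h1
      linarith
  · rcases le_or_gt r (1 / 2) with hr2 | hr2
    · refine ⟨cos (2 * π * r), ?_⟩
      ext y
      induction y using QuotientAddGroup.induction_on with
      | H x =>
        show dist ((x : ℝ) : UnitAddCircle) (c : UnitAddCircle) < r ↔
          cos (2 * π * r) < (cc_periodic c).lift ((x : ℝ) : UnitAddCircle)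
        rw [Periodic.lift_coe, dist_eq_norm, ← AddCircle.coe_sub, UnitAddCircle.norm_eq]
        set z : ℝ := x - c with hz
        set w : ℝ := |z - round z| with hw
        have hw1 : w ≤ 1 / 2 := abs_sub_round z
        have hw0 : 0 ≤ w := abs_nonneg _
        have e : cc c x = cos (2 * π * w) := by
          unfold cc
          rw [← hz]
          have e1 : cos (2 * π * z) = cos (2 * π * (z - round z)) := by
            have : 2 * π * (z - round z) = 2 * π * z - (round z : ℤ) * (2 * π) := by ring
            rw [this, cos_sub_int_mul_two_pi]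
          rw [e1]
          rw [hw]
          rcases abs_choice (z - round z) with h | h
          · rw [h]
          · rw [h]
            have : 2 * π * -(z - round z) = -(2 * π * (z - round z)) := by ring
            rw [this, cos_neg]
        rw [e]
        have m1 : 2 * π * w ∈ Set.Icc 0 π := ⟨by positivity, by nlinarith⟩
        have m2 : 2 * π * r ∈ Set.Icc 0 π := ⟨by positivity, by nlinarith⟩
        rw [strictAntiOn_cos.lt_iff_gt m2 m1]
        constructor
        · intro h
          exact mul_lt_mul_of_pos_left h (by positivity)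
        · intro h
          exact lt_of_mul_lt_mul_left h (by positivity)
    · refine ⟨-2, ?_⟩
      have h1 : Metric.ball (c : UnitAddCircle) r = Set.univ := by
        rw [Set.eq_univ_iff_forall]
        intro y
        induction y using QuotientAddGroup.induction_on with
        | H x =>
          show dist ((x : ℝ) : UnitAddCircle) (c : UnitAddCircle) < r
          rw [dist_eq_norm, ← AddCircle.coe_sub, UnitAddCircle.norm_eq]
          exact (abs_sub_round _).trans_lt hr2
      rw [h1]
      symm
      rw [Set.eq_univ_iff_forall]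
      intro y
      induction y using QuotientAddGroup.induction_on with
      | H x =>
        show (-2 : ℝ) < (cc_periodic c).lift ((x : ℝ) : UnitAddCircle)
        rw [Periodic.lift_coe]
        have := neg_one_le_cos (2 * π * (x - c))
        unfold cc
        linarith

theorem arc_univ (c : ℝ) : arc c (-2) = Set.univ := by
  rw [Set.eq_univ_iff_forall]
  intro y
  induction y using QuotientAddGroup.induction_on with
  | H x =>
    show (-2 : ℝ) < (cc_periodic c).lift ((x : ℝ) : UnitAddCircle)
    rw [Periodic.lift_coe]
    have := neg_one_le_cos (2 * π * (x - c))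
    unfold cc
    linarith

end Pool.Agent.TH705.SM
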