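import Mathlib
import Pool.Agent.TH705.SM.Arc

set_option autoImplicit false

/-!
# Correlations of rough functions
-/

namespace Pool.Agent.TH705.SM

open Real MeasureTheory Function Filter
open scoped Topology

/-- the bound -/
noncomputable def Bd (a l : ℝ) (m : ℕ) : ℝ :=
  208 * KK * π ^ 2 / l + 16 / l + 2 * m * (l / |a|)

/-- the integrand -/
noncomputable def Psi (a : ℝ) (m : ℕ) (g g2 h h2 : UnitAddCircle → ℝ) (p : T2) : ℝ :=
  (g (((S a)^[m + 1] p).1) - ∫ x, g x) * h (((S a)^[m + 1] p).2) * (g2 p.1 * h2 p.2)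

theorem S_iter_meas (a : ℝ) (n : ℕ) : Measurable ((S a)^[n]) := ((S_cont a).iterate n).measurable

theorem Psi_meas (a : ℝ) (m : ℕ) {g g2 h h2 : UnitAddCircle → ℝ} (hg : Measurable g)
    (hg2 : Measurable g2) (hh : Measurable h) (hh2 : Measurable h2) :
    Measurable (Psi a m g g2 h h2) := by
  have h0 := S_iter_meas a (m + 1)
  unfold Psi
  exact (((hg.comp (measurable_fst.comp h0)).sub_const _).mul (hh.comp (measurable_snd.comp h0))).mul
    ((hg2.comp measurable_fst).mul (hh2.comp measurable_snd))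

theorem int_le_one {g : UnitAddCircle → ℝ} (hg : ∀ x, |g x| ≤ 1) : |∫ x, g x| ≤ 1 := by
  have := norm_integral_le_of_norm_le_const (μ := (volume : Measure UnitAddCircle)) (f := g)
    (C := 1) (Filter.Eventually.of_forall fun x => by rw [norm_eq_abs]; exact hg x)
  simpa using this

theorem Psi_le (a : ℝ) (m : ℕ) {g g2 h h2 : UnitAddCircle → ℝ} (hg : ∀ x, |g x| ≤ 1)
    (hg2 : ∀ x, |g2 x| ≤ 1) (hh : ∀ x, |h x| ≤ 1) (hh2 : ∀ x, |h2 x| ≤ 1) (p : T2) :
    |Psi a m g g2 h h2 p| ≤ 2 := by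
  unfold Psi
  have h1 := int_le_one hg
  have h2' := hg (((S a)^[m + 1] p).1)
  have h3 := abs_sub (g (((S a)^[m + 1] p).1)) (∫ x, g x)
  rw [abs_mul, abs_mul, abs_mul]
  have q1 : |g (((S a)^[m + 1] p).1) - ∫ x, g x| * |h (((S a)^[m + 1] p).2)| ≤ 2 * 1 :=
    mul_le_mul (by linarith) (hh _) (abs_nonneg _) (by norm_num)
  have q2 : |g2 p.1| * |h2 p.2| ≤ 1 * 1 :=
    mul_le_mul (hg2 _) (hh2 _) (abs_nonneg _) (by norm_num)
  calc _ ≤ 2 * 1 * (1 * 1) := mul_le_mul q1 q2 (by positivity) (by norm_num)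
    _ = 2 := by norm_num

theorem bdd_int {F : T2 → ℝ} (hF : Measurable F) {C : ℝ} (hb : ∀ p, |F p| ≤ C) : Integrable F :=
  Integrable.of_bound hF.aestronglyMeasurable C (Eventually.of_forall fun p => hb p)

theorem bdd_int1 {F : UnitAddCircle → ℝ} (hF : Measurable F) {C : ℝ} (hb : ∀ p, |F p| ≤ C) :
    Integrable F :=
  Integrable.of_bound hF.aestronglyMeasurable C (Eventually.of_forall fun p => hb p)

/-- indicator functions of arcs -/
theorem corr_ai {a l : ℝ} (hl' : l0 ≤ l) (hla : l ≤ |a|) {m : ℕ} (hm : 1 ≤ m)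
    {g g2 : UnitAddCircle → ℝ} (hg : Continuous g) (hg2 : Continuous g2)
    (hg1 : ∀ x, |g x| ≤ 1) (hg21 : ∀ x, |g2 x| ≤ 1) (c1 κ1 c2 κ2 : ℝ) :
    |∫ p : T2, Psi a m g g2 (ai c1 κ1) (ai c2 κ2) p| ≤ Bd a l m := by
  have hl : 16 ≤ l := l0_ge.trans hl'
  have hl0 : 0 < l := by linarith
  set δ : ℕ → ℝ := fun n => 1 / ((n : ℝ) + 1) with hδ
  have hδ0 : ∀ n, 0 < δ n := fun n => by rw [hδ]; positivity
  have hHc : ∀ c κ : ℝ, ∀ n, Continuous (HH c κ (δ n)) := fun c κ n =>
    continuous_iff_continuousAt.2 fun t => (HH_hasDeriv c κ (δ n) t).continuousAt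
  have hHb : ∀ c κ : ℝ, ∀ n, ∀ y, |(HH_periodic c κ (δ n)).lift y| ≤ 1 := by
    intro c κ n y
    induction y using QuotientAddGroup.induction_on with
    | H x =>
      have e : (HH_periodic c κ (δ n)).lift ((x : ℝ) : UnitAddCircle) = HH c κ (δ n) x :=
        Periodic.lift_coe _ _
      show |(HH_periodic c κ (δ n)).lift ((x : ℝ) : UnitAddCircle)| ≤ 1
      rw [e]
      exact HH_le _ _ _ _
  have hlim : Tendsto (fun n => ∫ p : T2, Psi a m g g2 ((HH_periodic c1 κ1 (δ n)).lift)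
      ((HH_periodic c2 κ2 (δ n)).lift) p) atTop
      (𝓝 (∫ p : T2, Psi a m g g2 (ai c1 κ1) (ai c2 κ2) p)) := by
    apply tendsto_integral_of_dominated_convergence (fun _ => (2:ℝ))
    · intro n
      exact (Psi_meas a m hg.measurable hg2.measurable (lift_cont _ (hHc c1 κ1 n)).measurable
        (lift_cont _ (hHc c2 κ2 n)).measurable).aestronglyMeasurable
    · exact integrable_const _
    · intro n
      exact Eventually.of_forall fun p => Psi_le a m hg1 hg21 (hHb c1 κ1 n) (hHb c2 κ2 n) p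
    · refine Eventually.of_forall fun p => ?_
      unfold Psi
      exact (tendsto_const_nhds.mul (HH_tendsto c1 κ1 _)).mul
        (tendsto_const_nhds.mul (HH_tendsto c2 κ2 _))
  refine le_of_tendsto hlim.abs (Eventually.of_forall fun n => ?_)
  have h1 := corr (a := a) hl' hla hm hg hg2 hg1 hg21 (HH_hasDeriv c1 κ1 (δ n))
    (HH'_cont c1 κ1 (δ n)) (HH_periodic c1 κ1 (δ n)) (HH'_periodic c1 κ1 (δ n))
    (HH_le c1 κ1 (δ n)) (HH_hasDeriv c2 κ2 (δ n)) (HH'_cont c2 κ2 (δ n))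
    (HH_periodic c2 κ2 (δ n)) (HH'_periodic c2 κ2 (δ n)) (HH_le c2 κ2 (δ n))
  have h2 := HH'_tv c1 κ1 (hδ0 n)
  have h3 := HH'_tv c2 κ2 (hδ0 n)
  refine h1.trans ?_
  unfold Bd
  have h4 : 4 / l * ((∫ x in (0:ℝ)..1, |HH' c1 κ1 (δ n) x|) + ∫ x in (0:ℝ)..1, |HH' c2 κ2 (δ n) x|) ≤
      4 / l * (2 + 2) := mul_le_mul_of_nonneg_left (add_le_add h2 h3) (by positivity)
  have h5 : 4 / l * (2 + 2) = 16 / l := by ring
  linarith

/-- approximation in mean by continuous functions -/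
theorem approx {g : UnitAddCircle → ℝ} (hg : Measurable g) (hg1 : ∀ x, |g x| ≤ 1) {ε : ℝ}
    (hε : 0 < ε) : ∃ g' : UnitAddCircle → ℝ, Continuous g' ∧ (∀ x, |g' x| ≤ 1) ∧
      ∫ x, |g x - g' x| ≤ ε := by
  obtain ⟨u, -, hu1, hu2, hu3⟩ :=
    (bdd_int1 hg hg1).exists_hasCompactSupport_integral_sub_le hε
  refine ⟨fun x => max (-1) (min 1 (u x)), by fun_prop, ?_, ?_⟩
  · intro x
    rw [abs_le]
    exact ⟨le_max_left _ _, max_le (by norm_num) (min_le_left _ _)⟩
  · refine le_trans (integral_mono ?_ ?_ ?_) hu1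
    · apply Integrable.abs
      apply (bdd_int1 hg hg1).sub
      apply bdd_int1 (C := 1) (by apply Continuous.measurable; fun_prop)
      intro x
      rw [abs_le]
      exact ⟨le_max_left _ _, max_le (by norm_num) (min_le_left _ _)⟩
    · exact ((bdd_int1 hg hg1).sub hu3).norm
    · intro x
      simp only
      rw [norm_eq_abs]
      have h1 := hg1 x
      rw [abs_le] at h1
      rcases le_total (u x) (-1) with h | h
      · rw [min_eq_right (by linarith), max_eq_left h, abs_of_nonneg (by linarith),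
          abs_of_nonneg (by linarith)]
        linarith
      · rcases le_total (u x) 1 with h' | h'
        · rw [min_eq_right h', max_eq_right h]
        · rw [min_eq_left h', max_eq_right (by norm_num), abs_of_nonpos (by linarith),
            abs_of_nonpos (by linarith)]
          linarith

/-- integration of a function of the first coordinate of an iterate -/
theorem int_fst_iter (a : ℝ) (n : ℕ) {f : UnitAddCircle → ℝ} (hf : Measurable f) :
    ∫ p : T2, f (((S a)^[n] p).1) = ∫ x, f x := by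
  have h7 : MeasurePreserving (Prod.fst : T2 → UnitAddCircle) volume volume :=
    measurePreserving_fst
  have h8 := h7.comp (iter_mp a n)
  have h9 := integral_map (μ := (volume : Measure T2)) (φ := Prod.fst ∘ (S a)^[n])
    h8.measurable.aemeasurable (f := f) hf.aestronglyMeasurable
  rw [h8.map_eq] at h9
  exact h9.symm

theorem int_snd_iter (a : ℝ) (n : ℕ) {f : UnitAddCircle → ℝ} (hf : Measurable f) :
    ∫ p : T2, f (((S a)^[n] p).2) = ∫ x, f x := by
  have h7 : MeasurePreserving (Prod.snd : T2 → UnitAddCircle) volume volume :=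
    measurePreserving_snd
  have h8 := h7.comp (iter_mp a n)
  have h9 := integral_map (μ := (volume : Measure T2)) (φ := Prod.snd ∘ (S a)^[n])
    h8.measurable.aemeasurable (f := f) hf.aestronglyMeasurable
  rw [h8.map_eq] at h9
  exact h9.symm

/-- **decay of correlations** for rough functions -/
theorem corr_rough {a l : ℝ} (hl' : l0 ≤ l) (hla : l ≤ |a|) {m : ℕ} (hm : 1 ≤ m)
    {g g2 : UnitAddCircle → ℝ} (hg : Measurable g) (hg2 : Measurable g2)
    (hg1 : ∀ x, |g x| ≤ 1) (hg21 : ∀ x, |g2 x| ≤ 1) (c1 κ1 c2 κ2 : ℝ) :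
    |∫ p : T2, Psi a m g g2 (ai c1 κ1) (ai c2 κ2) p| ≤ Bd a l m := by
  apply le_of_forall_pos_le_add
  intro ε hε
  obtain ⟨g', hg'c, hg'1, hg'2⟩ := approx hg hg1 (show 0 < ε / 4 by linarith)
  obtain ⟨k, hkc, hk1, hk2⟩ := approx hg2 hg21 (show 0 < ε / 4 by linarith)
  have hb := corr_ai hl' hla hm hg'c hkc hg'1 hk1 c1 κ1 c2 κ2
  have hai : ∀ c κ : ℝ, ∀ x, |ai c κ x| ≤ 1 := by
    intro c κ x
    have := ai_mem c κ x
    rw [abs_of_nonneg this.1]
    exact this.2
  have i1 : Integrable (Psi a m g g2 (ai c1 κ1) (ai c2 κ2)) :=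
    bdd_int (Psi_meas a m hg hg2 (ai_meas _ _) (ai_meas _ _))
      (Psi_le a m hg1 hg21 (hai _ _) (hai _ _))
  have i2 : Integrable (Psi a m g' k (ai c1 κ1) (ai c2 κ2)) :=
    bdd_int (Psi_meas a m hg'c.measurable hkc.measurable (ai_meas _ _) (ai_meas _ _))
      (Psi_le a m hg'1 hk1 (hai _ _) (hai _ _))
  have hdm : Measurable (fun x => |g x - g' x|) := (hg.sub hg'c.measurable).abs
  have hdm2 : Measurable (fun x => |g2 x - k x|) := (hg2.sub hkc.measurable).abs
  have hd1 : |(∫ x, g x) - ∫ x, g' x| ≤ ε / 4 := by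
    rw [← integral_sub (bdd_int1 hg hg1) (bdd_int1 hg'c.measurable hg'1)]
    exact (abs_integral_le_integral_abs).trans hg'2
  -- the pointwise bound
  have hpt : ∀ p, |Psi a m g g2 (ai c1 κ1) (ai c2 κ2) p - Psi a m g' k (ai c1 κ1) (ai c2 κ2) p| ≤
      (|g (((S a)^[m + 1] p).1) - g' (((S a)^[m + 1] p).1)| + ε / 4) + 2 * |g2 p.1 - k p.1| := by
    intro p
    unfold Psi
    set x := ((S a)^[m + 1] p).1
    set y := ((S a)^[m + 1] p).2
    have e : (g x - ∫ x, g x) * ai c1 κ1 y * (g2 p.1 * ai c2 κ2 p.2) -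
        (g' x - ∫ x, g' x) * ai c1 κ1 y * (k p.1 * ai c2 κ2 p.2) =
        (ai c1 κ1 y * ai c2 κ2 p.2) * (((g x - g' x) - ((∫ x, g x) - ∫ x, g' x)) * g2 p.1 +
          (g' x - ∫ x, g' x) * (g2 p.1 - k p.1)) := by ring
    rw [e, abs_mul, abs_mul]
    have b1 := hai c1 κ1 y
    have b2 := hai c2 κ2 p.2
    have b3 := abs_sub (g x - g' x) ((∫ x, g x) - ∫ x, g' x)
    have b4 := abs_sub (g' x) (∫ x, g' x)
    have b5 := int_le_one hg'1
    have b6 := hg'1 x
    have b7 : |((g x - g' x) - ((∫ x, g x) - ∫ x, g' x)) * g2 p.1 +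
          (g' x - ∫ x, g' x) * (g2 p.1 - k p.1)| ≤
        (|g x - g' x| + ε / 4) * 1 + 2 * |g2 p.1 - k p.1| := by
      refine (abs_add_le _ _).trans (add_le_add ?_ ?_)
      · rw [abs_mul]
        exact mul_le_mul (by linarith) (hg21 _) (abs_nonneg _) (by positivity)
      · rw [abs_mul]
        exact mul_le_mul_of_nonneg_right (by linarith) (abs_nonneg _)
    calc _ ≤ 1 * 1 * ((|g x - g' x| + ε / 4) * 1 + 2 * |g2 p.1 - k p.1|) := by
          apply mul_le_mul _ b7 (abs_nonneg _) (by norm_num)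
          exact mul_le_mul b1 b2 (abs_nonneg _) (by norm_num)
      _ = _ := by ring
  have j1 : Integrable (fun p : T2 => |g (((S a)^[m + 1] p).1) - g' (((S a)^[m + 1] p).1)|) := by
    apply bdd_int (C := 2) (hdm.comp (measurable_fst.comp (S_iter_meas a (m + 1))))
    intro p
    show |(|g (((S a)^[m + 1] p).1) - g' (((S a)^[m + 1] p).1)|)| ≤ 2
    rw [abs_abs]
    have := abs_sub (g (((S a)^[m + 1] p).1)) (g' (((S a)^[m + 1] p).1))
    have := hg1 (((S a)^[m + 1] p).1)
    have := hg'1 (((S a)^[m + 1] p).1)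
    linarith
  have j2 : Integrable (fun p : T2 => |g2 p.1 - k p.1|) := by
    apply bdd_int (C := 2) (hdm2.comp measurable_fst)
    intro p
    show |(|g2 p.1 - k p.1|)| ≤ 2
    rw [abs_abs]
    have := abs_sub (g2 p.1) (k p.1)
    have := hg21 p.1
    have := hk1 p.1
    linarith
  have hdiff : |(∫ p : T2, Psi a m g g2 (ai c1 κ1) (ai c2 κ2) p) -
      ∫ p : T2, Psi a m g' k (ai c1 κ1) (ai c2 κ2) p| ≤ ε := by
    rw [← integral_sub i1 i2]
    calc _ ≤ ∫ p : T2, |Psi a m g g2 (ai c1 κ1) (ai c2 κ2) p -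
            Psi a m g' k (ai c1 κ1) (ai c2 κ2) p| := abs_integral_le_integral_abs
      _ ≤ ∫ p : T2, ((|g (((S a)^[m + 1] p).1) - g' (((S a)^[m + 1] p).1)| + ε / 4) +
            2 * |g2 p.1 - k p.1|) := by
          apply integral_mono (i1.sub i2).abs ((j1.add (integrable_const _)).add (j2.const_mul 2)) hpt
      _ = (∫ x, |g x - g' x|) + ε / 4 + 2 * ∫ x, |g2 x - k x| := by
          rw [integral_add (f := fun p : T2 => |g (((S a)^[m + 1] p).1) -
            g' (((S a)^[m + 1] p).1)| + ε / 4) (j1.add (integrable_const _)) (j2.const_mul 2),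
            integral_add j1 (integrable_const _), integral_const_mul]
          have k1 := int_fst_iter a (m + 1) hdm
          have k2 := int_fst_iter a 0 hdm2
          simp only [iterate_zero, id] at k2
          rw [k1, k2]
          simp
      _ ≤ ε := by linarith
  have := abs_sub_abs_le_abs_sub (∫ p : T2, Psi a m g g2 (ai c1 κ1) (ai c2 κ2) p)
    (∫ p : T2, Psi a m g' k (ai c1 κ1) (ai c2 κ2) p)
  linarith

end Pool.Agent.TH705.SM
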