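import Mathlib
import Pool.Agent.TH705.SM.Rough

set_option autoImplicit false

/-!
# Mixing of rectangles
-/

namespace Pool.Agent.TH705.SM

open Real MeasureTheory Function Filter
open scoped Topology

/-- indicator function -/
noncomputable def ie (E : Set UnitAddCircle) : UnitAddCircle → ℝ := E.indicator (fun _ => 1)

theorem ie_meas {E : Set UnitAddCircle} (hE : MeasurableSet E) : Measurable (ie E) :=
  measurable_const.indicator hE

theorem ie_mem (E : Set UnitAddCircle) (x : UnitAddCircle) : 0 ≤ ie E x ∧ ie E x ≤ 1 := by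
  unfold ie
  by_cases h : x ∈ E
  · rw [Set.indicator_of_mem h]; exact ⟨zero_le_one, le_rfl⟩
  · rw [Set.indicator_of_notMem h]; exact ⟨le_rfl, zero_le_one⟩

theorem ie_le (E : Set UnitAddCircle) (x : UnitAddCircle) : |ie E x| ≤ 1 := by
  have := ie_mem E x
  rw [abs_of_nonneg this.1]
  exact this.2

theorem ie_int {E : Set UnitAddCircle} (hE : MeasurableSet E) : ∫ x, ie E x = volume.real E :=
  integral_indicator_one hE

theorem ie_prod (E F : Set UnitAddCircle) (p : T2) :
    (E ×ˢ F).indicator (fun _ => (1:ℝ)) p = ie E p.1 * ie F p.2 := by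
  classical
  unfold ie
  simp only [Set.indicator_apply, Set.mem_prod]
  by_cases h1 : p.1 ∈ E <;> by_cases h2 : p.2 ∈ F <;> simp [h1, h2]

theorem vol_prod (E F : Set UnitAddCircle) :
    volume.real (E ×ˢ F : Set T2) = volume.real E * volume.real F := by
  have := measureReal_prod_prod (μ := (volume : Measure UnitAddCircle))
    (ν := (volume : Measure UnitAddCircle)) E F
  exact this

theorem vol_le_one (s : Set T2) : volume.real s ≤ 1 := measureReal_le_one

theorem vol_le_one' (s : Set UnitAddCircle) : volume.real s ≤ 1 := measureReal_le_one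

theorem mix1 {a l : ℝ} (hl' : l0 ≤ l) (hla : l ≤ |a|) {n : ℕ} (hn : 3 ≤ n) {E E' : Set UnitAddCircle}
    (hE : MeasurableSet E) (hE' : MeasurableSet E') (c κ c' κ' : ℝ) :
    |volume.real ((S a)^[n] ⁻¹' (E ×ˢ arc c κ) ∩ (E' ×ˢ arc c' κ')) -
      volume.real (E ×ˢ arc c κ) * volume.real (E' ×ˢ arc c' κ')| ≤ 2 * Bd a l n := by
  obtain ⟨k, rfl⟩ : ∃ k, n = k + 1 + 1 := ⟨n - 2, by omega⟩
  have hk : 1 ≤ k := by omega
  have hl : 16 ≤ l := l0_ge.trans hl'
  have hl0 : 0 < l := by linarith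
  set J := arc c κ with hJ
  set J' := arc c' κ' with hJ'
  have hJm : MeasurableSet J := arc_meas c κ
  have hJ'm : MeasurableSet J' := arc_meas c' κ'
  have hW : MeasurableSet ((S a)^[k + 1 + 1] ⁻¹' (E ×ˢ J) ∩ (E' ×ˢ J')) :=
    (S_iter_meas a _ (hE.prod hJm)).inter (hE'.prod hJ'm)
  have e1 : volume.real ((S a)^[k + 1 + 1] ⁻¹' (E ×ˢ J) ∩ (E' ×ˢ J')) =
      ∫ p : T2, (ie E (((S a)^[k + 1 + 1] p).1) * ie J (((S a)^[k + 1 + 1] p).2)) *
        (ie E' p.1 * ie J' p.2) := by
    rw [← integral_indicator_one hW]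
    apply integral_congr_ae
    refine Eventually.of_forall fun p => ?_
    simp only
    rw [Set.inter_indicator_one]
    simp only [Pi.mul_apply]
    have q1 : ((S a)^[k + 1 + 1] ⁻¹' (E ×ˢ J)).indicator (1 : T2 → ℝ) p =
        ie E (((S a)^[k + 1 + 1] p).1) * ie J (((S a)^[k + 1 + 1] p).2) := by
      classical
      rw [← ie_prod]
      simp only [Set.indicator_apply, Set.mem_preimage, Pi.one_apply]
    have q2 : (E' ×ˢ J').indicator (1 : T2 → ℝ) p = ie E' p.1 * ie J' p.2 := ie_prod E' J' p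
    rw [q1, q2]
  have hai : ai c κ = ie J := rfl
  have hai' : ai c' κ' = ie J' := rfl
  have huniv : ∀ x, ai 0 (-2) x = 1 := by
    intro x
    unfold ai
    rw [arc_univ]
    simp
  have mE := ie_meas hE
  have mE' := ie_meas hE'
  have mJ := ie_meas hJm
  have mJ' := ie_meas hJ'm
  have hsnd : ∀ p, ((S a)^[k + 1 + 1] p).2 = ((S a)^[k + 1] p).1 := by
    intro p
    rw [iterate_succ_apply']
    rfl
  have e2 : ∀ p : T2, (ie E (((S a)^[k + 1 + 1] p).1) * ie J (((S a)^[k + 1 + 1] p).2)) *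
        (ie E' p.1 * ie J' p.2) =
      Psi a (k + 1) (ie E) (ie E') (ai c κ) (ai c' κ') p +
      volume.real E * Psi a k (ie J) (ie E') (ai 0 (-2)) (ai c' κ') p +
      (volume.real E * volume.real J) * (ie E' p.1 * ie J' p.2) := by
    intro p
    unfold Psi
    rw [ie_int hE, ie_int hJm, hai, hai', huniv, ← hsnd]
    ring
  have i1 : Integrable (Psi a (k + 1) (ie E) (ie E') (ai c κ) (ai c' κ')) :=
    bdd_int (Psi_meas a _ mE mE' (ai_meas _ _) (ai_meas _ _))
      (Psi_le a _ (ie_le _) (ie_le _) (by rw [hai]; exact ie_le _) (by rw [hai']; exact ie_le _))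
  have i2 : Integrable (Psi a k (ie J) (ie E') (ai 0 (-2)) (ai c' κ')) :=
    bdd_int (Psi_meas a _ mJ mE' (ai_meas _ _) (ai_meas _ _))
      (Psi_le a _ (ie_le _) (ie_le _) (by intro x; rw [huniv]; simp) (by rw [hai']; exact ie_le _))
  have i3 : Integrable (fun p : T2 => ie E' p.1 * ie J' p.2) := by
    apply bdd_int (C := 1) ((mE'.comp measurable_fst).mul (mJ'.comp measurable_snd))
    intro p
    show |ie E' p.1 * ie J' p.2| ≤ 1
    rw [abs_mul]
    exact mul_le_one₀ (ie_le _ _) (abs_nonneg _) (ie_le _ _)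
  have e3 : ∫ p : T2, ie E' p.1 * ie J' p.2 = volume.real (E' ×ˢ J') := by
    rw [← integral_indicator_one (hE'.prod hJ'm)]
    apply integral_congr_ae
    exact Eventually.of_forall fun p => (ie_prod E' J' p).symm
  rw [e1]
  simp only [e2]
  rw [integral_add (f := fun p => Psi a (k + 1) (ie E) (ie E') (ai c κ) (ai c' κ') p +
      volume.real E * Psi a k (ie J) (ie E') (ai 0 (-2)) (ai c' κ') p)
      (i1.add (i2.const_mul _)) (i3.const_mul _), integral_add i1 (i2.const_mul _),
    integral_const_mul, integral_const_mul, e3, vol_prod E J]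
  have b1 := corr_rough hl' hla (m := k + 1) (by omega) mE mE' (ie_le E) (ie_le E') c κ c' κ'
  have b2 := corr_rough hl' hla hk mJ mE' (ie_le J) (ie_le E') 0 (-2) c' κ'
  set I1 := ∫ p : T2, Psi a (k + 1) (ie E) (ie E') (ai c κ) (ai c' κ') p
  set I2 := ∫ p : T2, Psi a k (ie J) (ie E') (ai 0 (-2)) (ai c' κ') p
  have e4 : I1 + volume.real E * I2 + volume.real E * volume.real J * volume.real (E' ×ˢ J') -
      volume.real E * volume.real J * volume.real (E' ×ˢ J') = I1 + volume.real E * I2 := by ring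
  rw [e4]
  have b3 : |volume.real E * I2| ≤ Bd a l k := by
    rw [abs_mul, abs_of_nonneg measureReal_nonneg]
    have := vol_le_one' E
    calc volume.real E * |I2| ≤ 1 * |I2| := mul_le_mul_of_nonneg_right this (abs_nonneg _)
      _ = |I2| := one_mul _
      _ ≤ _ := b2
  have m1 : Bd a l (k + 1) ≤ Bd a l (k + 1 + 1) := by
    unfold Bd
    have : 0 ≤ l / |a| := by positivity
    push_cast
    nlinarith
  have m2 : Bd a l k ≤ Bd a l (k + 1 + 1) := by
    unfold Bd
    have : 0 ≤ l / |a| := by positivity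
    push_cast
    nlinarith
  have := abs_add_le I1 (volume.real E * I2)
  linarith

/-- the choice of the parameter -/
theorem Bd_opt {a : ℝ} (ha : 1 ≤ |a|) {n : ℕ} (hn : 1 ≤ n) :
    (∃ l, l0 ≤ l ∧ l ≤ |a| ∧ Bd a l n ≤ (208 * KK * π ^ 2 + 18) * √((n:ℝ) / |a|)) ∨
      1 ≤ l0 * √((n:ℝ) / |a|) := by
  have ha0 : 0 < |a| := by linarith
  have hn1 : (1:ℝ) ≤ n := by exact_mod_cast hn
  have hn0 : (0:ℝ) < n := by linarith
  have hl0 := l0_ge
  set l := √(|a| / (n:ℝ)) with hl
  set r := √((n:ℝ) / |a|) with hr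
  have hlpos : 0 < l := sqrt_pos.2 (by positivity)
  have hrpos : 0 < r := sqrt_pos.2 (by positivity)
  have hl2 : l ^ 2 = |a| / n := sq_sqrt (by positivity)
  have hr2 : r ^ 2 = n / |a| := sq_sqrt (by positivity)
  have hlr : l * r = 1 := by
    rw [hl, hr, ← sqrt_mul (by positivity)]
    have : |a| / (n:ℝ) * ((n:ℝ) / |a|) = 1 := by field_simp
    rw [this, sqrt_one]
  have e1 : 1 / l = r := by
    rw [div_eq_iff hlpos.ne']
    linarith
  have e2 : n * (l / |a|) = r := by
    have : r = r ^ 2 * l := by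
      rw [pow_two, mul_assoc, mul_comm r l, hlr, mul_one]
    rw [this, hr2]
    ring
  rcases le_or_gt l0 l with h | h
  · left
    refine ⟨l, h, ?_, ?_⟩
    · have h1 : l ^ 2 ≤ |a| ^ 2 := by
        rw [hl2]
        have h3 : |a| / n ≤ |a| := div_le_self ha0.le hn1
        nlinarith
      exact abs_le_of_sq_le_sq' h1 ha0.le |>.2
    · unfold Bd
      have e3 : 208 * KK * π ^ 2 / l = 208 * KK * π ^ 2 * r := by rw [← e1]; ring
      have e4 : 16 / l = 16 * r := by rw [← e1]; ring
      have e5 : 2 * (n:ℝ) * (l / |a|) = 2 * r := by rw [← e2]; ring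
      rw [e3, e4, e5]
      apply le_of_eq
      ring
  · right
    rw [← hlr]
    exact mul_le_mul_of_nonneg_right h.le hrpos.le

/-- the constant -/
noncomputable def CM : ℝ := 2 * (208 * KK * π ^ 2 + 18) + l0

theorem CM_pos : 0 < CM := by
  unfold CM
  have hKK := KK_one
  have hpi := pi_pos
  have := l0_ge
  positivity

/-- from a bound for all `l` -/
theorem to_opt {a : ℝ} (ha : 1 ≤ |a|) {n : ℕ} (hn : 1 ≤ n) {D : ℝ} (hD : D ≤ 1)
    (h : ∀ l, l0 ≤ l → l ≤ |a| → D ≤ 2 * Bd a l n) : D ≤ CM * √((n:ℝ) / |a|) := by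
  have hKK := KK_one
  have hpi := pi_pos
  have hl0 := l0_ge
  have hr0 : 0 ≤ √((n:ℝ) / |a|) := sqrt_nonneg _
  rcases Bd_opt ha hn with ⟨l, hl, hla, hb⟩ | hb
  · refine (h l hl hla).trans ?_
    unfold CM
    nlinarith
  · unfold CM
    have : 0 ≤ (2 * (208 * KK * π ^ 2 + 18)) * √((n:ℝ) / |a|) := by positivity
    nlinarith

theorem diff_le_one (s t u : Set T2) : |volume.real s - volume.real t * volume.real u| ≤ 1 := by
  have h1 := vol_le_one s
  have h2 := vol_le_one t
  have h3 := vol_le_one u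
  have h4 : 0 ≤ volume.real s := measureReal_nonneg
  have h5 : 0 ≤ volume.real t := measureReal_nonneg
  have h6 : 0 ≤ volume.real u := measureReal_nonneg
  have h7 : volume.real t * volume.real u ≤ 1 := mul_le_one₀ h2 h6 h3
  have h8 : 0 ≤ volume.real t * volume.real u := mul_nonneg h5 h6
  rw [abs_le]
  constructor <;> linarith

theorem exists_real (c : UnitAddCircle) : ∃ x : ℝ, c = (x : UnitAddCircle) := by
  induction c using QuotientAddGroup.induction_on with
  | H x => exact ⟨x, rfl⟩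

/-- **mixing**, for rectangles whose second side is an arc -/
theorem mix {a : ℝ} (ha : 1 ≤ |a|) {n : ℕ} (hn : 3 ≤ n) {E E' : Set UnitAddCircle}
    (hE : MeasurableSet E) (hE' : MeasurableSet E') (c c' : UnitAddCircle) (r r' : ℝ) :
    |volume.real ((S a)^[n] ⁻¹' (E ×ˢ Metric.ball c r) ∩ (E' ×ˢ Metric.ball c' r')) -
      volume.real (E ×ˢ Metric.ball c r) * volume.real (E' ×ˢ Metric.ball c' r')| ≤
      CM * √((n:ℝ) / |a|) := by
  obtain ⟨x, rfl⟩ := exists_real c
  obtain ⟨x', rfl⟩ := exists_real c'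
  obtain ⟨κ, hκ⟩ := ball_arc x r
  obtain ⟨κ', hκ'⟩ := ball_arc x' r'
  rw [hκ, hκ']
  apply to_opt ha (by omega) (diff_le_one _ _ _)
  intro l hl hla
  exact mix1 hl hla hn hE hE' x κ x' κ'

theorem swap_mp : MeasurePreserving (Prod.swap : T2 → T2) volume volume :=
  Measure.measurePreserving_swap

theorem Si_S_id (a : ℝ) : Si a ∘ S a = id := by
  funext p
  exact Si_S a p

theorem Si_iter_S_iter (a : ℝ) (n : ℕ) (p : T2) : (Si a)^[n] ((S a)^[n] p) = p := by
  induction n generalizing p with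
  | zero => rfl
  | succ n ih =>
    rw [iterate_succ_apply, iterate_succ_apply', Si_S]
    exact ih p

theorem S_swap (a : ℝ) (p : T2) : S a (Prod.swap p) = Prod.swap (Si a p) := by
  unfold S Si
  rfl

theorem S_iter_swap (a : ℝ) (n : ℕ) (p : T2) :
    (S a)^[n] (Prod.swap p) = Prod.swap ((Si a)^[n] p) := by
  induction n generalizing p with
  | zero => rfl
  | succ n ih => rw [iterate_succ_apply, iterate_succ_apply, S_swap, ih]

/-- time reversal -/
theorem reversal (a : ℝ) (n : ℕ) {Q Q' : Set T2} (hQ : MeasurableSet Q) (hQ' : MeasurableSet Q') :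
    volume.real ((S a)^[n] ⁻¹' Q ∩ Q') =
      volume.real ((S a)^[n] ⁻¹' (Prod.swap ⁻¹' Q') ∩ (Prod.swap ⁻¹' Q)) := by
  have h1 : MeasurableSet ((S a)^[n] ⁻¹' Q ∩ Q') := (S_iter_meas a n hQ).inter hQ'
  have h2 : volume.real ((S a)^[n] ⁻¹' Q ∩ Q') =
      volume.real (Prod.swap ⁻¹' ((S a)^[n] ⁻¹' Q ∩ Q')) :=
    (swap_mp.measureReal_preimage h1.nullMeasurableSet).symm
  have h3 : MeasurableSet (Prod.swap ⁻¹' ((S a)^[n] ⁻¹' Q ∩ Q')) := swap_mp.measurable h1
  have h4 : volume.real (Prod.swap ⁻¹' ((S a)^[n] ⁻¹' Q ∩ Q')) =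
      volume.real ((S a)^[n] ⁻¹' (Prod.swap ⁻¹' ((S a)^[n] ⁻¹' Q ∩ Q'))) :=
    ((iter_mp a n).measureReal_preimage h3.nullMeasurableSet).symm
  rw [h2, h4]
  congr 1
  ext p
  simp only [Set.mem_preimage, Set.mem_inter_iff]
  rw [S_iter_swap, Si_iter_S_iter]
  exact and_comm

/-- **mixing**, for rectangles whose first side is an arc -/
theorem mix' {a : ℝ} (ha : 1 ≤ |a|) {n : ℕ} (hn : 3 ≤ n) {E E' : Set UnitAddCircle}
    (hE : MeasurableSet E) (hE' : MeasurableSet E') (c c' : UnitAddCircle) (r r' : ℝ) :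
    |volume.real ((S a)^[n] ⁻¹' (Metric.ball c r ×ˢ E) ∩ (Metric.ball c' r' ×ˢ E')) -
      volume.real (Metric.ball c r ×ˢ E) * volume.real (Metric.ball c' r' ×ˢ E')| ≤
      CM * √((n:ℝ) / |a|) := by
  have hb : ∀ (c : UnitAddCircle) (r : ℝ), MeasurableSet (Metric.ball c r) := fun c r =>
    Metric.isOpen_ball.measurableSet
  rw [reversal a n ((hb c r).prod hE) ((hb c' r').prod hE')]
  have e1 : ∀ (c : UnitAddCircle) (r : ℝ) (E : Set UnitAddCircle),
      (Prod.swap ⁻¹' (Metric.ball c r ×ˢ E) : Set T2) = E ×ˢ Metric.ball c r := by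
    intro c r E
    ext p
    simp only [Set.mem_preimage, Set.mem_prod, Prod.fst_swap, Prod.snd_swap]
    exact and_comm
  rw [e1, e1, vol_prod, vol_prod]
  have h := mix ha hn hE' hE c' c r' r
  rw [vol_prod, vol_prod] at h
  have e2 : volume.real (Metric.ball c r) * volume.real E *
      (volume.real (Metric.ball c' r') * volume.real E') =
      volume.real E' * volume.real (Metric.ball c' r') *
        (volume.real E * volume.real (Metric.ball c r)) := by ring
  rw [e2]
  exact h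

end Pool.Agent.TH705.SM
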