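import Mathlib
import Pool.Agent.TH705.SM.Mix

set_option autoImplicit false

/-!
# Invariant sets and eigenfunctions
-/

namespace Pool.Agent.TH705.SM

open Real MeasureTheory Function Filter
open scoped Topology ComplexConjugate

/-- Cauchy-Schwarz -/
theorem sq_int_le {u : T2 → ℝ} (h1 : Integrable u) (h2 : Integrable (fun p => u p ^ 2)) :
    (∫ p, u p) ^ 2 ≤ ∫ p, u p ^ 2 := by
  set c := ∫ p, u p with hc
  have h3 : 0 ≤ ∫ p, (u p - c) ^ 2 := integral_nonneg fun p => sq_nonneg _
  have h4 : ∫ p, (u p - c) ^ 2 = (∫ p, u p ^ 2) - 2 * c * c + c ^ 2 := by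
    have : ∀ p, (u p - c) ^ 2 = (u p ^ 2 - 2 * c * u p) + c ^ 2 := by intro p; ring
    simp only [this]
    rw [integral_add (f := fun p => u p ^ 2 - 2 * c * u p) (h2.sub (h1.const_mul _))
      (integrable_const _), integral_sub h2 (h1.const_mul _), integral_const_mul, ← hc]
    simp
  nlinarith

/-- van der Corput type inequality -/
theorem vdc {N : ℕ} (F : ℕ → T2 → ℝ) (hF : ∀ j, Measurable (F j)) (hb : ∀ j p, |F j p| ≤ 1)
    (w : ℕ → ℂ) (hw : ∀ j, ‖w j‖ ≤ 1) {β : ℝ} (hβ : 0 ≤ β)
    (hcor : ∀ i < N, ∀ j < N, i ≠ j → |∫ p, F i p * F j p| ≤ β) :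
    (∫ p, ‖∑ j ∈ Finset.range N, w j * (F j p : ℂ)‖) ^ 2 ≤ N + N ^ 2 * β := by
  have hsq : ∀ p, ‖∑ j ∈ Finset.range N, w j * (F j p : ℂ)‖ ^ 2 =
      ∑ i ∈ Finset.range N, ∑ j ∈ Finset.range N,
        ((w i).re * (w j).re + (w i).im * (w j).im) * (F i p * F j p) := by
    intro p
    rw [← Complex.normSq_eq_norm_sq, Complex.normSq_apply, Complex.re_sum, Complex.im_sum,
      Finset.sum_mul_sum, Finset.sum_mul_sum, ← Finset.sum_add_distrib]
    apply Finset.sum_congr rfl
    intro i _
    rw [← Finset.sum_add_distrib]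
    apply Finset.sum_congr rfl
    intro j _
    simp only [Complex.mul_re, Complex.mul_im, Complex.ofReal_re, Complex.ofReal_im, mul_zero,
      sub_zero, zero_add]
    ring
  have hFi : ∀ i j, Integrable (fun p => F i p * F j p) := by
    intro i j
    apply bdd_int (C := 1) ((hF i).mul (hF j))
    intro p
    show |F i p * F j p| ≤ 1
    rw [abs_mul]
    exact mul_le_one₀ (hb _ _) (abs_nonneg _) (hb _ _)
  have hmeas : Measurable (fun p => ‖∑ j ∈ Finset.range N, w j * (F j p : ℂ)‖) := by
    apply Measurable.norm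
    apply Finset.measurable_fun_sum
    intro j _
    exact (Complex.measurable_ofReal.comp (hF j)).const_mul (w j)
  have hbd : ∀ p, ‖∑ j ∈ Finset.range N, w j * (F j p : ℂ)‖ ≤ N := by
    intro p
    refine (norm_sum_le _ _).trans ?_
    calc ∑ j ∈ Finset.range N, ‖w j * (F j p : ℂ)‖ ≤ ∑ j ∈ Finset.range N, (1:ℝ) := by
          apply Finset.sum_le_sum
          intro j _
          rw [norm_mul, Complex.norm_real, norm_eq_abs]
          exact mul_le_one₀ (hw j) (abs_nonneg _) (hb _ _)
      _ = N := by simp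
  have h1 : Integrable (fun p => ‖∑ j ∈ Finset.range N, w j * (F j p : ℂ)‖) := by
    apply bdd_int (C := N) hmeas
    intro p
    rw [abs_of_nonneg (norm_nonneg _)]
    exact hbd p
  have h2 : Integrable (fun p => ‖∑ j ∈ Finset.range N, w j * (F j p : ℂ)‖ ^ 2) := by
    simp only [hsq]
    apply integrable_finsetSum
    intro i _
    apply integrable_finsetSum
    intro j _
    exact (hFi i j).const_mul _
  refine (sq_int_le h1 h2).trans ?_
  simp only [hsq]
  rw [integral_finsetSum _ (fun i _ => integrable_finsetSum _ fun j _ => (hFi i j).const_mul _)]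
  have h3 : ∀ i ∈ Finset.range N, ∫ p, ∑ j ∈ Finset.range N,
        ((w i).re * (w j).re + (w i).im * (w j).im) * (F i p * F j p) ≤ 1 + N * β := by
    intro i hi
    rw [integral_finsetSum _ (fun j _ => (hFi i j).const_mul _)]
    simp only [integral_const_mul]
    have hc : ∀ j, |(w i).re * (w j).re + (w i).im * (w j).im| ≤ 1 := by
      intro j
      have e : (w i).re * (w j).re + (w i).im * (w j).im = (w i * conj (w j)).re := by
        simp [Complex.mul_re]
      rw [e]
      refine (Complex.abs_re_le_norm _).trans ?_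
      rw [norm_mul, Complex.norm_conj]
      exact mul_le_one₀ (hw i) (norm_nonneg _) (hw j)
    have h4 : ∀ j ∈ Finset.range N, ((w i).re * (w j).re + (w i).im * (w j).im) *
        ∫ p, F i p * F j p ≤ (if j = i then 1 else 0) + β := by
      intro j hj
      refine (le_abs_self _).trans ?_
      rw [abs_mul]
      by_cases hij : j = i
      · subst hij
        rw [if_pos rfl]
        have h5 : |∫ p, F j p * F j p| ≤ 1 := by
          have := norm_integral_le_of_norm_le_const (μ := (volume : Measure T2))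
            (f := fun p => F j p * F j p) (C := 1) (Eventually.of_forall fun p => by
              rw [norm_mul]
              exact mul_le_one₀ (hb _ _) (abs_nonneg _) (hb _ _))
          simpa using this
        have := mul_le_one₀ (hc j) (abs_nonneg _) h5
        linarith
      · rw [if_neg hij, zero_add]
        have h5 := hcor i (Finset.mem_range.1 hi) j (Finset.mem_range.1 hj) (Ne.symm hij)
        calc _ ≤ 1 * β := mul_le_mul (hc j) h5 (abs_nonneg _) zero_le_one
          _ = β := one_mul _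
    refine (Finset.sum_le_sum h4).trans ?_
    rw [Finset.sum_add_distrib, Finset.sum_ite_eq', if_pos hi, Finset.sum_const, Finset.card_range,
      nsmul_eq_mul]
  refine (Finset.sum_le_sum h3).trans ?_
  rw [Finset.sum_const, Finset.card_range, nsmul_eq_mul]
  apply le_of_eq
  ring

/-- centred indicator function -/
noncomputable def psi (Q : Set T2) (p : T2) : ℝ := Q.indicator (fun _ => (1:ℝ)) p - volume.real Q

theorem psi_meas {Q : Set T2} (hQ : MeasurableSet Q) : Measurable (psi Q) :=
  (measurable_const.indicator hQ).sub_const _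

theorem psi_le (Q : Set T2) (p : T2) : |psi Q p| ≤ 1 := by
  unfold psi
  have h1 := vol_le_one Q
  have h2 : 0 ≤ volume.real Q := measureReal_nonneg
  by_cases h : p ∈ Q
  · rw [Set.indicator_of_mem h, abs_le]
    constructor <;> linarith
  · rw [Set.indicator_of_notMem h, abs_le]
    constructor <;> linarith

theorem int_comp (a : ℝ) (n : ℕ) {F : T2 → ℝ} (hF : Measurable F) :
    ∫ p, F ((S a)^[n] p) = ∫ p, F p := by
  have h9 := integral_map (μ := (volume : Measure T2)) (φ := (S a)^[n])
    (iter_mp a n).measurable.aemeasurable (f := F) hF.aestronglyMeasurable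
  rw [(iter_mp a n).map_eq] at h9
  exact h9.symm

theorem int_comp_C (a : ℝ) (n : ℕ) {F : T2 → ℂ} (hF : Measurable F) :
    ∫ p, F ((S a)^[n] p) = ∫ p, F p := by
  have h9 := integral_map (μ := (volume : Measure T2)) (φ := (S a)^[n])
    (iter_mp a n).measurable.aemeasurable (f := F) hF.aestronglyMeasurable
  rw [(iter_mp a n).map_eq] at h9
  exact h9.symm

theorem psi_cor (a : ℝ) (n : ℕ) {Q : Set T2} (hQ : MeasurableSet Q) :
    ∫ p, psi Q ((S a)^[n] p) * psi Q p =
      volume.real ((S a)^[n] ⁻¹' Q ∩ Q) - volume.real Q * volume.real Q := by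
  have hm := S_iter_meas a n
  set q := volume.real Q with hq
  set I : T2 → ℝ := Q.indicator (fun _ => (1:ℝ)) with hI
  have hIm : Measurable I := measurable_const.indicator hQ
  have hI1 : ∀ p, |I p| ≤ 1 := by
    intro p
    rw [hI]
    by_cases h : p ∈ Q
    · rw [Set.indicator_of_mem h]; simp
    · rw [Set.indicator_of_notMem h]; simp
  have e0 : ∀ p, psi Q p = I p - q := fun p => rfl
  have e1 : ∀ p, psi Q ((S a)^[n] p) * psi Q p =
      (I ((S a)^[n] p) * I p - q * I ((S a)^[n] p)) - (q * I p - q * q) := by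
    intro p
    rw [e0, e0]
    ring
  have i1 : Integrable (fun p => I ((S a)^[n] p) * I p) := by
    apply bdd_int (C := 1) ((hIm.comp hm).mul hIm)
    intro p
    show |I ((S a)^[n] p) * I p| ≤ 1
    rw [abs_mul]
    exact mul_le_one₀ (hI1 _) (abs_nonneg _) (hI1 _)
  have i2 : Integrable (fun p => I ((S a)^[n] p)) := bdd_int (hIm.comp hm) fun p => hI1 _
  have i3 : Integrable I := bdd_int hIm hI1
  have v3 : ∫ p, I p = q := integral_indicator_one hQ
  have v2 : ∫ p, I ((S a)^[n] p) = q := by rw [int_comp a n hIm, v3]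
  have v1 : ∫ p, I ((S a)^[n] p) * I p = volume.real ((S a)^[n] ⁻¹' Q ∩ Q) := by
    rw [← integral_indicator_one ((hm hQ).inter hQ)]
    apply integral_congr_ae
    refine Eventually.of_forall fun p => ?_
    simp only
    rw [Set.inter_indicator_one]
    simp only [Pi.mul_apply]
    rfl
  simp only [e1]
  rw [integral_sub (f := fun p => I ((S a)^[n] p) * I p - q * I ((S a)^[n] p))
    (g := fun p => q * I p - q * q) (i1.sub (i2.const_mul _)) ((i3.const_mul _).sub (integrable_const _)),
    integral_sub i1 (i2.const_mul _), integral_sub (i3.const_mul _) (integrable_const _),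
    integral_const_mul, integral_const_mul, v1, v2, v3]
  simp

/-- eigenfunctions of iterates -/
theorem eig_iter {a : ℝ} {k : ℕ} {f : T2 → ℂ} {z : ℂ}
    (hinv : ∀ᵐ p : T2, f ((S a)^[k] p) = z * f p) (j : ℕ) :
    ∀ᵐ p : T2, f ((S a)^[k * j] p) = z ^ j * f p := by
  induction j with
  | zero => simp
  | succ j ih =>
    have h1 := (iter_mp a (k * j)).quasiMeasurePreserving.ae hinv
    filter_upwards [ih, h1] with p hp hp2
    rw [mul_add, mul_one, add_comm, iterate_add_apply, hp2, hp]
    ring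

theorem norm_int_le_one {f : T2 → ℂ} (hf : ∀ p, ‖f p‖ ≤ 1) : ‖∫ p, f p‖ ≤ 1 := by
  have := norm_integral_le_of_norm_le_const (μ := (volume : Measure T2)) (f := f)
    (C := 1) (Filter.Eventually.of_forall fun x => hf x)
  simpa using this

theorem int_psi {Q : Set T2} (hQ : MeasurableSet Q) {f : T2 → ℂ} (hf : Measurable f)
    (hf1 : ∀ p, ‖f p‖ ≤ 1) :
    (∫ p in Q, f p) - (volume.real Q : ℂ) * ∫ p, f p = ∫ p, f p * (psi Q p : ℂ) := by
  have i1 : Integrable f := Integrable.of_bound hf.aestronglyMeasurable 1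
    (Eventually.of_forall fun p => hf1 p)
  have e1 : ∀ p, f p * (psi Q p : ℂ) = Q.indicator f p - (volume.real Q : ℂ) * f p := by
    intro p
    unfold psi
    by_cases h : p ∈ Q
    · rw [Set.indicator_of_mem h, Set.indicator_of_mem h]
      push_cast
      ring
    · rw [Set.indicator_of_notMem h, Set.indicator_of_notMem h]
      push_cast
      ring
  simp only [e1]
  rw [integral_sub (i1.indicator hQ) (i1.const_mul _), integral_indicator hQ, integral_const_mul]

theorem eig_bound {a : ℝ} (ha : 1 ≤ |a|) {Q : Set T2} (hQ : MeasurableSet Q)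
    (hmix : ∀ n : ℕ, 3 ≤ n → |volume.real ((S a)^[n] ⁻¹' Q ∩ Q) - volume.real Q * volume.real Q| ≤
      CM * √((n:ℝ) / |a|))
    {k : ℕ} (hk : 1 ≤ k) {f : T2 → ℂ} (hf : Measurable f) (hf1 : ∀ p, ‖f p‖ ≤ 1) {z : ℂ}
    (hz : ‖z‖ = 1) (hinv : ∀ᵐ p : T2, f ((S a)^[k] p) = z * f p) {N : ℕ} (hN : 1 ≤ N) :
    ‖(∫ p in Q, f p) - (volume.real Q : ℂ) * ∫ p, f p‖ ^ 2 ≤
      1 / N + CM * √((3 * k * N : ℝ) / |a|) := by
  have ha0 : 0 < |a| := by linarith
  have hN0 : (0:ℝ) < N := by exact_mod_cast hN
  set β : ℝ := CM * √((3 * k * N : ℝ) / |a|) with hβ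
  have hCM := CM_pos
  have hβ0 : 0 ≤ β := by positivity
  rw [int_psi hQ hf hf1]
  set F : ℕ → T2 → ℝ := fun j p => psi Q ((S a)^[k * (3 * j)] p) with hF
  set w : ℕ → ℂ := fun j => z ^ (3 * j) with hw
  have hψ := psi_meas hQ
  have hFm : ∀ j, Measurable (F j) := fun j => hψ.comp (S_iter_meas a _)
  have hFb : ∀ j p, |F j p| ≤ 1 := fun j p => psi_le Q _
  have hw1 : ∀ j, ‖w j‖ ≤ 1 := by
    intro j
    rw [hw]
    simp only
    rw [norm_pow, hz, one_pow]
  have hlt : ∀ i j, i < j → j < N → |∫ p, F j p * F i p| ≤ β := by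
    intro i j hij hj
    have h1 : ∀ p, F j p * F i p = (fun q => psi Q ((S a)^[k * (3 * (j - i))] q) * psi Q q)
        ((S a)^[k * (3 * i)] p) := by
      intro p
      simp only [hF]
      rw [← iterate_add_apply]
      congr 3
      rw [← mul_add]
      congr 2
      omega
    simp only [h1]
    rw [int_comp a _ (F := fun q => psi Q ((S a)^[k * (3 * (j - i))] q) * psi Q q)
      ((hψ.comp (S_iter_meas a _)).mul hψ), psi_cor a _ hQ]
    have h3 : 3 ≤ k * (3 * (j - i)) := by
      have : 1 ≤ j - i := by omega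
      nlinarith
    refine (hmix _ h3).trans ?_
    rw [hβ]
    apply mul_le_mul_of_nonneg_left _ hCM.le
    apply sqrt_le_sqrt
    apply div_le_div_of_nonneg_right _ ha0.le
    have h4 : ((k * (3 * (j - i)) : ℕ) : ℝ) ≤ ((3 * k * N : ℕ) : ℝ) := by
      apply Nat.cast_le.2
      have : j - i ≤ N := by omega
      calc k * (3 * (j - i)) = 3 * k * (j - i) := by ring
        _ ≤ 3 * k * N := Nat.mul_le_mul_left _ this
    refine h4.trans (le_of_eq ?_)
    push_cast
    ring
  have hcor : ∀ i < N, ∀ j < N, i ≠ j → |∫ p, F i p * F j p| ≤ β := by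
    intro i hi j hj hij
    rcases lt_or_gt_of_ne hij with h | h
    · have := hlt i j h hj
      have e : (fun p => F i p * F j p) = fun p => F j p * F i p := by
        funext p; ring
      rw [e]
      exact this
    · exact hlt j i h hi
  have hv := vdc F hFm hFb w hw1 hβ0 hcor
  -- the integral against each term
  have hterm : ∀ j, ∫ p, f p * (w j * (F j p : ℂ)) = ∫ p, f p * (psi Q p : ℂ) := by
    intro j
    have h1 : Measurable (fun p => f p * (psi Q p : ℂ)) :=
      hf.mul (Complex.measurable_ofReal.comp hψ)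
    rw [← int_comp_C a (k * (3 * j)) h1]
    apply integral_congr_ae
    filter_upwards [eig_iter hinv (3 * j)] with p hp
    rw [hp, hw, hF]
    simp only
    ring
  have hfi : ∀ j, Integrable (fun p => f p * (w j * (F j p : ℂ))) := by
    intro j
    refine Integrable.of_bound (C := 1) ?_ (Eventually.of_forall fun p => ?_)
    · exact (hf.mul ((Complex.measurable_ofReal.comp (hFm j)).const_mul (w j))).aestronglyMeasurable
    · rw [norm_mul, norm_mul, Complex.norm_real, norm_eq_abs]
      exact mul_le_one₀ (hf1 p) (by positivity)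
        (mul_le_one₀ (hw1 j) (abs_nonneg _) (hFb j p))
  have hsum : (N : ℂ) * ∫ p, f p * (psi Q p : ℂ) =
      ∫ p, f p * ∑ j ∈ Finset.range N, w j * (F j p : ℂ) := by
    simp only [Finset.mul_sum]
    rw [integral_finsetSum _ (fun j _ => hfi j)]
    simp only [hterm]
    rw [Finset.sum_const, Finset.card_range, nsmul_eq_mul]
  set D := ∫ p, f p * (psi Q p : ℂ) with hD
  have hmeas : Measurable (fun p => ‖∑ j ∈ Finset.range N, w j * (F j p : ℂ)‖) := by
    apply Measurable.norm
    apply Finset.measurable_fun_sum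
    intro j _
    exact (Complex.measurable_ofReal.comp (hFm j)).const_mul (w j)
  have hbd : ∀ p, ‖∑ j ∈ Finset.range N, w j * (F j p : ℂ)‖ ≤ N := by
    intro p
    refine (norm_sum_le _ _).trans ?_
    calc ∑ j ∈ Finset.range N, ‖w j * (F j p : ℂ)‖ ≤ ∑ j ∈ Finset.range N, (1:ℝ) := by
          apply Finset.sum_le_sum
          intro j _
          rw [norm_mul, Complex.norm_real, norm_eq_abs]
          exact mul_le_one₀ (hw1 j) (abs_nonneg _) (hFb _ _)
      _ = N := by simp
  have h1 : N * ‖D‖ ≤ ∫ p, ‖∑ j ∈ Finset.range N, w j * (F j p : ℂ)‖ := by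
    have e : (N:ℝ) * ‖D‖ = ‖(N : ℂ) * D‖ := by rw [norm_mul, Complex.norm_natCast]
    rw [e, hsum]
    refine norm_integral_le_of_norm_le ?_ (Eventually.of_forall fun p => ?_)
    · apply bdd_int (C := N) hmeas
      intro p
      rw [abs_of_nonneg (norm_nonneg _)]
      exact hbd p
    · rw [norm_mul]
      calc _ ≤ 1 * _ := mul_le_mul_of_nonneg_right (hf1 p) (norm_nonneg _)
        _ = _ := one_mul _
  have h2 : (N * ‖D‖) ^ 2 ≤ N + N ^ 2 * β :=
    (pow_le_pow_left₀ (by positivity) h1 2).trans hv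
  have h3 : ‖D‖ ^ 2 * N ^ 2 ≤ (1 / N + β) * N ^ 2 := by
    have : (1 / (N:ℝ) + β) * N ^ 2 = N + N ^ 2 * β := by
      field_simp
    rw [this]
    linarith [mul_pow (N:ℝ) ‖D‖ 2]
  exact le_of_mul_le_mul_right h3 (by positivity)

/-- the constant -/
noncomputable def CF : ℝ := 1 + 3 * CM

theorem CF_pos : 0 < CF := by
  have := CM_pos
  unfold CF
  linarith

theorem eig_final {a : ℝ} (ha : 1 ≤ |a|) {Q : Set T2} (hQ : MeasurableSet Q)
    (hmix : ∀ n : ℕ, 3 ≤ n → |volume.real ((S a)^[n] ⁻¹' Q ∩ Q) - volume.real Q * volume.real Q| ≤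
      CM * √((n:ℝ) / |a|))
    {k : ℕ} (hk : 1 ≤ k) {f : T2 → ℂ} (hf : Measurable f) (hf1 : ∀ p, ‖f p‖ ≤ 1) {z : ℂ}
    (hz : ‖z‖ = 1) (hinv : ∀ᵐ p : T2, f ((S a)^[k] p) = z * f p) :
    ‖(∫ p in Q, f p) - (volume.real Q : ℂ) * ∫ p, f p‖ ≤
      CF * ((k:ℝ) / |a|) ^ ((1:ℝ) / 6) := by
  have ha0 : 0 < |a| := by linarith
  have hk1 : (1:ℝ) ≤ k := by exact_mod_cast hk
  have hk0 : (0:ℝ) < k := by linarith
  have hCM := CM_pos
  set s := ((k:ℝ) / |a|) ^ ((1:ℝ) / 6) with hs
  have hs0 : 0 < s := by positivity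
  have hs6 : s ^ 6 = (k:ℝ) / |a| := by
    rw [hs, ← rpow_natCast, ← rpow_mul (by positivity)]
    norm_num
  set D := ‖(∫ p in Q, f p) - (volume.real Q : ℂ) * ∫ p, f p‖ with hD
  have hD0 : 0 ≤ D := norm_nonneg _
  have hD1 : D ≤ 1 := by
    rw [hD, int_psi hQ hf hf1]
    apply norm_int_le_one
    intro p
    rw [norm_mul, Complex.norm_real, norm_eq_abs]
    exact mul_le_one₀ (hf1 p) (abs_nonneg _) (psi_le Q p)
  rcases le_or_gt 1 s with h1 | h1
  · have : CF = 1 + 3 * CM := rfl
    have h2 : 1 ≤ CF * s := by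
      have : 1 ≤ CF := by linarith
      nlinarith
    linarith
  · -- `y = s⁻²`
    set y := (s ^ 2)⁻¹ with hy
    have hy0 : 0 < y := by positivity
    have hy1 : 1 ≤ y := by
      rw [hy]
      apply (one_le_inv₀ (by positivity)).2
      nlinarith
    set N := ⌈y⌉₊ with hN
    have hNy : y ≤ N := Nat.le_ceil y
    have hN2 : (N:ℝ) ≤ 2 * y := by
      have := Nat.ceil_lt_add_one hy0.le
      linarith
    have hN1 : 1 ≤ N := Nat.one_le_iff_ne_zero.2 (by
      intro h0
      rw [h0] at hNy
      simp at hNy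
      linarith)
    have hN0 : (0:ℝ) < N := by exact_mod_cast hN1
    have hb := eig_bound ha hQ hmix hk hf hf1 hz hinv hN1
    have h2 : 1 / (N:ℝ) ≤ s ^ 2 := by
      have : s ^ 2 = 1 / y := by rw [hy]; simp
      rw [this]
      exact one_div_le_one_div_of_le hy0 hNy
    have h3 : √((3 * k * N : ℝ) / |a|) ≤ 3 * s ^ 2 := by
      apply sqrt_le_iff.2
      refine ⟨by positivity, ?_⟩
      have h5 : (3 * k * N : ℝ) ≤ 3 * k * (2 * y) :=
        mul_le_mul_of_nonneg_left hN2 (by positivity)
      calc (3 * k * N : ℝ) / |a| ≤ (3 * k * (2 * y)) / |a| :=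
            div_le_div_of_nonneg_right h5 ha0.le
        _ = 6 * y * ((k:ℝ) / |a|) := by ring
        _ = 6 * y * s ^ 6 := by rw [hs6]
        _ = 6 * s ^ 4 := by
            rw [hy]
            field_simp
        _ ≤ (3 * s ^ 2) ^ 2 := by
            have : 0 < s ^ 4 := by positivity
            nlinarith
    have h4 : D ^ 2 ≤ CF * s ^ 2 := by
      refine hb.trans ?_
      unfold CF
      nlinarith
    have h5 : D ^ 2 ≤ (CF * s) ^ 2 := by
      refine h4.trans ?_
      have h6 : 1 ≤ CF := by unfold CF; linarith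
      have h7 : 0 < s ^ 2 := by positivity
      rw [mul_pow]
      apply mul_le_mul_of_nonneg_right _ h7.le
      nlinarith
    exact abs_le_of_sq_le_sq' h5 (by positivity [CF_pos]) |>.2

end Pool.Agent.TH705.SM
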