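import Mathlib
import Pool.Agent.TH705.SM.Cut

set_option autoImplicit false

/-!
# Products of matrices with isolated small entries
-/

namespace Pool.Agent.TH705.SM

open Real

/-- the recursion -/
noncomputable def Dq (u : ℕ → ℝ) : ℕ → ℝ
  | 0 => 0
  | 1 => 1
  | k + 2 => u (k + 1) * Dq u (k + 1) - Dq u k

/-- regular sequences -/
structure Reg (u : ℕ → ℝ) (lam : ℝ) (N : ℕ) : Prop where
  h0 : lam < |u 1|
  h1 : ∀ k, 1 ≤ k → k ≤ N → |u k| ≤ lam → lam < |u (k + 1)|
  h3 : ∀ k, 2 ≤ k → k ≤ N → |u k| ≤ lam → 2 * |Dq u k| ≤ |u (k + 1)| * |Dq u (k + 1)|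

theorem Reg.mono {u : ℕ → ℝ} {lam : ℝ} {M N : ℕ} (h : Reg u lam N) (hMN : M ≤ N) :
    Reg u lam M :=
  ⟨h.h0, fun k h1 h2 => h.h1 k h1 (h2.trans hMN), fun k h1 h2 => h.h3 k h1 (h2.trans hMN)⟩

theorem Dq_succ (u : ℕ → ℝ) {k : ℕ} (hk : 1 ≤ k) : Dq u (k + 1) = u k * Dq u k - Dq u (k - 1) := by
  obtain ⟨k, rfl⟩ := Nat.exists_eq_add_of_le' hk
  rfl

/-- one noncritical step -/
theorem Reg.step {u : ℕ → ℝ} {lam : ℝ} (hl : 16 ≤ lam) {N : ℕ} (h : Reg u lam N) (m : ℕ) :
    1 ≤ m → m ≤ N + 1 → lam < |u m| →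
      |u m| * |Dq u m| ≤ 2 * |Dq u (m + 1)| ∧ 0 < |Dq u (m + 1)| ∧
      (2 ≤ m → |u (m - 1)| ≤ lam → |Dq u (m - 1)| ≤ |Dq u (m + 1)|) := by
  induction m using Nat.strong_induction_on with
  | _ m ih =>
    intro hm1 hmN hum
    have e : Dq u (m + 1) = u m * Dq u m - Dq u (m - 1) := Dq_succ u hm1
    have h4 : |u m| * |Dq u m| - |Dq u (m - 1)| ≤ |Dq u (m + 1)| := by
      rw [e, ← abs_mul]
      exact abs_sub_abs_le_abs_sub _ _
    rcases Nat.lt_or_ge m 2 with hm2 | hm2
    · have : m = 1 := by omega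
      subst this
      have e1 : Dq u 1 = 1 := rfl
      have e0 : Dq u (1 - 1) = 0 := rfl
      rw [e1, e0, abs_one, abs_zero] at h4
      rw [e1, abs_one]
      refine ⟨?_, ?_, by omega⟩
      · have := abs_nonneg (u 1)
        linarith
      · linarith
    · rcases le_or_gt (|u (m - 1)|) lam with hc | hc
      · -- critical
        have hm3 : 3 ≤ m := by
          by_contra hcon
          have : m = 2 := by omega
          subst this
          exact absurd h.h0 (not_lt.2 hc)
        have hn2 : lam < |u (m - 2)| := by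
          by_contra hcon
          have := h.h1 (m - 2) (by omega) (by omega) (not_lt.1 hcon)
          have e2 : m - 2 + 1 = m - 1 := by omega
          rw [e2] at this
          exact absurd this (not_lt.2 hc)
        obtain ⟨-, hpos, -⟩ := ih (m - 2) (by omega) (by omega) (by omega) hn2
        have e2 : m - 2 + 1 = m - 1 := by omega
        rw [e2] at hpos
        have h5 := h.h3 (m - 1) (by omega) (by omega) hc
        have e3 : m - 1 + 1 = m := by omega
        rw [e3] at h5
        refine ⟨by linarith, by linarith, fun _ _ => by linarith⟩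
      · obtain ⟨h5, h6, -⟩ := ih (m - 1) (by omega) (by omega) (by omega) hc
        have e3 : m - 1 + 1 = m := by omega
        rw [e3] at h5 h6
        have h7 : 16 * |Dq u (m - 1)| ≤ 2 * |Dq u m| :=
          (mul_le_mul_of_nonneg_right (hl.trans hc.le) (abs_nonneg _)).trans h5
        have h8 : 16 * |Dq u m| ≤ |u m| * |Dq u m| :=
          mul_le_mul_of_nonneg_right (hl.trans hum.le) (abs_nonneg _)
        refine ⟨by linarith, by linarith, fun _ h9 => ?_⟩
        exact absurd hc (not_lt.2 h9)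

/-- number of small entries -/
noncomputable def cnt (u : ℕ → ℝ) (c : ℝ) (n : ℕ) : ℕ :=
  ((Finset.Icc 1 n).filter (fun k => |u k| < c)).card

theorem cnt_zero (u : ℕ → ℝ) (c : ℝ) : cnt u c 0 = 0 := by simp [cnt]

theorem cnt_succ (u : ℕ → ℝ) (c : ℝ) (n : ℕ) :
    cnt u c (n + 1) = cnt u c n + if |u (n + 1)| < c then 1 else 0 := by
  unfold cnt
  have : Finset.Icc 1 (n + 1) = insert (n + 1) (Finset.Icc 1 n) := by
    ext k
    simp only [Finset.mem_insert, Finset.mem_Icc]
    omega
  rw [this, Finset.filter_insert]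
  split_ifs with h
  · rw [Finset.card_insert_of_notMem (by simp)]
  · rfl

theorem cnt_mono (u : ℕ → ℝ) (c : ℝ) {m n : ℕ} (h : m ≤ n) : cnt u c m ≤ cnt u c n := by
  unfold cnt
  apply Finset.card_le_card
  apply Finset.filter_subset_filter
  intro k
  simp only [Finset.mem_Icc]
  omega

/-- growth -/
theorem Reg.growth {u : ℕ → ℝ} {lam Q : ℝ} (hl : 16 ≤ lam) (hQ : lam < 2 * Q) {N : ℕ}
    (h : Reg u lam N) (m : ℕ) : m ≤ N → (m = 0 ∨ lam < |u m|) →
      Q ^ m ≤ |Dq u (m + 1)| * Q ^ (2 * cnt u (2 * Q) m) := by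
  have hQ1 : 1 ≤ Q := by linarith
  have hQ0 : 0 < Q := by linarith
  induction m using Nat.strong_induction_on with
  | _ m ih =>
    intro hmN hum
    match m, hmN, hum with
    | 0, _, _ =>
      have e1 : Dq u (0 + 1) = 1 := rfl
      rw [e1, cnt_zero]
      simp
    | m + 1, hmN, hum =>
      have hum : lam < |u (m + 1)| := by
        rcases hum with h | h
        · omega
        · exact h
      obtain ⟨s1, s2, s3⟩ := h.step hl (m + 1) (by omega) (by omega) hum
      rcases Classical.em (m = 0 ∨ lam < |u m|) with hc | hc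
      · have h1 := ih m (by omega) (by omega) hc
        rw [cnt_succ]
        by_cases hb : |u (m + 1)| < 2 * Q
        · rw [if_pos hb]
          have h2 : |Dq u (m + 1)| ≤ |Dq u (m + 1 + 1)| := by
            have := mul_le_mul_of_nonneg_right (hl.trans hum.le) (abs_nonneg (Dq u (m + 1)))
            have := abs_nonneg (Dq u (m + 1))
            linarith
          calc Q ^ (m + 1) = Q ^ m * Q := pow_succ _ _
            _ ≤ (|Dq u (m + 1)| * Q ^ (2 * cnt u (2 * Q) m)) * Q :=
                mul_le_mul_of_nonneg_right h1 hQ0.le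
            _ ≤ (|Dq u (m + 1 + 1)| * Q ^ (2 * cnt u (2 * Q) m)) * Q ^ 2 := by
                apply mul_le_mul _ (by nlinarith) hQ0.le (by positivity)
                exact mul_le_mul_of_nonneg_right h2 (by positivity)
            _ = _ := by rw [mul_add, pow_add]; ring
        · rw [if_neg hb, add_zero]
          rw [not_lt] at hb
          have h2 : Q * |Dq u (m + 1)| ≤ |Dq u (m + 1 + 1)| := by
            have := mul_le_mul_of_nonneg_right hb (abs_nonneg (Dq u (m + 1)))
            linarith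
          calc Q ^ (m + 1) = Q * Q ^ m := by ring
            _ ≤ Q * (|Dq u (m + 1)| * Q ^ (2 * cnt u (2 * Q) m)) :=
                mul_le_mul_of_nonneg_left h1 hQ0.le
            _ = (Q * |Dq u (m + 1)|) * Q ^ (2 * cnt u (2 * Q) m) := by ring
            _ ≤ _ := mul_le_mul_of_nonneg_right h2 (by positivity)
      · rw [not_or, not_lt] at hc
        obtain ⟨hm0, hc⟩ := hc
        obtain ⟨m, rfl⟩ := Nat.exists_eq_succ_of_ne_zero hm0
        rw [Nat.succ_eq_add_one] at *
        have h2 : |Dq u (m + 1)| ≤ |Dq u (m + 1 + 1 + 1)| := s3 (by omega) (by simpa using hc)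
        have hprev : m = 0 ∨ lam < |u m| := by
          rcases Nat.eq_zero_or_pos m with h0 | h0
          · left; exact h0
          · right
            by_contra hcon
            have := h.h1 m h0 (by omega) (not_lt.1 hcon)
            exact absurd this (not_lt.2 hc)
        have h1 := ih m (by omega) (by omega) hprev
        have h3 : cnt u (2 * Q) m + 1 ≤ cnt u (2 * Q) (m + 1 + 1) := by
          have e1 := cnt_succ u (2 * Q) m
          rw [if_pos (lt_of_le_of_lt hc hQ)] at e1
          have e2 := cnt_mono u (2 * Q) (show m + 1 ≤ m + 1 + 1 by omega)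
          omega
        calc Q ^ (m + 1 + 1) = Q ^ m * Q ^ 2 := by ring
          _ ≤ (|Dq u (m + 1)| * Q ^ (2 * cnt u (2 * Q) m)) * Q ^ 2 :=
              mul_le_mul_of_nonneg_right h1 (by positivity)
          _ = |Dq u (m + 1)| * Q ^ (2 * (cnt u (2 * Q) m + 1)) := by rw [mul_add, pow_add]; ring
          _ ≤ |Dq u (m + 1 + 1 + 1)| * Q ^ (2 * cnt u (2 * Q) (m + 1 + 1)) := by
              apply mul_le_mul h2 _ (by positivity) (by positivity)
              exact pow_le_pow_right₀ hQ1 (by omega)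

/-- growth at all times -/
theorem Reg.growth' {u : ℕ → ℝ} {lam Q : ℝ} (hl : 16 ≤ lam) (hQ : lam < 2 * Q) {N : ℕ}
    (h : Reg u lam N) {n : ℕ} (hn : 1 ≤ n) (hnN : n ≤ N) :
      Q ^ n ≤ max |Dq u (n + 1)| |Dq u n| * Q ^ (2 * cnt u (2 * Q) n) := by
  have hQ1 : 1 ≤ Q := by linarith
  have hQ0 : 0 < Q := by linarith
  rcases Classical.em (lam < |u n|) with hc | hc
  · refine (h.growth hl hQ n hnN (Or.inr hc)).trans ?_
    exact mul_le_mul_of_nonneg_right (le_max_left _ _) (by positivity)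
  · rw [not_lt] at hc
    obtain ⟨m, rfl⟩ := Nat.exists_eq_add_of_le' hn
    have hprev : m = 0 ∨ lam < |u m| := by
      rcases Nat.eq_zero_or_pos m with h0 | h0
      · left; exact h0
      · right
        by_contra hcon
        have := h.h1 m h0 (by omega) (not_lt.1 hcon)
        exact absurd this (not_lt.2 hc)
    have h1 := h.growth hl hQ m (by omega) hprev
    have e1 := cnt_succ u (2 * Q) m
    rw [if_pos (lt_of_le_of_lt hc hQ)] at e1
    rw [e1]
    calc Q ^ (m + 1) = Q ^ m * Q := pow_succ _ _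
      _ ≤ (|Dq u (m + 1)| * Q ^ (2 * cnt u (2 * Q) m)) * Q := mul_le_mul_of_nonneg_right h1 hQ0.le
      _ ≤ (|Dq u (m + 1)| * Q ^ (2 * cnt u (2 * Q) m)) * Q ^ 2 :=
          mul_le_mul_of_nonneg_left (by nlinarith) (by positivity)
      _ = |Dq u (m + 1)| * Q ^ (2 * (cnt u (2 * Q) m + 1)) := by rw [mul_add, pow_add]; ring
      _ ≤ _ := mul_le_mul_of_nonneg_right (le_max_right _ _) (by positivity)

/-- truncated inversion -/
noncomputable def hh (μ x : ℝ) : ℝ := rho (x / μ) / x

theorem hh_eq {μ x : ℝ} (hμ : 0 < μ) (hx : 2 * μ ≤ |x|) : hh μ x = 1 / x := by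
  unfold hh
  rw [rho_one]
  rw [div_pow, le_div_iff₀ (by positivity), ← sq_abs x]
  nlinarith

theorem hh_zero {μ x : ℝ} (hμ : 0 < μ) (hx : |x| < μ) : hh μ x = 0 := by
  unfold hh
  rw [rho_zero, zero_div]
  rw [abs_div, abs_of_pos hμ, div_lt_one hμ]
  exact hx

theorem hh_le {μ : ℝ} (hμ : 0 < μ) (x : ℝ) : |hh μ x| ≤ 1 / μ := by
  rcases lt_or_ge (|x|) μ with h | h
  · rw [hh_zero hμ h, abs_zero]
    positivity
  · unfold hh
    have hx : 0 < |x| := lt_of_lt_of_le hμ h
    rw [abs_div, abs_of_nonneg (rho_nonneg _)]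
    exact div_le_div₀ zero_le_one (rho_le_one _) hμ h

/-- the truncated continued fraction (backwards in time) -/
noncomputable def wf (μ : ℝ) (u : ℕ → ℝ) : ℕ → ℕ → ℝ
  | _, 0 => 0
  | k, r + 1 => hh μ (u (k - 1) - wf μ u (k - 1) r)

theorem wf_le {μ : ℝ} (hμ : 0 < μ) (u : ℕ → ℝ) (k r : ℕ) : |wf μ u k r| ≤ 1 / μ := by
  cases r with
  | zero =>
    show |(0:ℝ)| ≤ 1 / μ
    rw [abs_zero]
    positivity
  | succ r => exact hh_le hμ _

/-- accuracy of the truncated continued fraction -/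
theorem Reg.acc {μ : ℝ} (hμ : 4 ≤ μ) {u : ℕ → ℝ} (r : ℕ) : ∀ k, r + 2 ≤ k →
    Reg u (4 * μ) (k - 1) → (∀ j, k ≤ j + r + 1 → j < k → 4 * μ < |u j|) →
    |Dq u (k - 1) / Dq u k - wf μ u k r| ≤ (1 / μ) ^ (r + 1) := by
  have hμ0 : 0 < μ := by linarith
  induction r with
  | zero =>
    intro k hk hR hnc
    have h1 := hnc (k - 1) (by omega) (by omega)
    obtain ⟨s1, s2, -⟩ := hR.step (by linarith) (k - 1) (by omega) (by omega) h1
    have e1 : k - 1 + 1 = k := by omega
    rw [e1] at s1 s2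
    show |Dq u (k - 1) / Dq u k - 0| ≤ (1 / μ) ^ (0 + 1)
    rw [sub_zero, zero_add, pow_one, abs_div, div_le_div_iff₀ s2 hμ0]
    have := mul_le_mul_of_nonneg_right h1.le (abs_nonneg (Dq u (k - 1)))
    nlinarith [abs_nonneg (Dq u (k - 1))]
  | succ r ih =>
    intro k hk hR hnc
    have h1 := hnc (k - 1) (by omega) (by omega)
    have h2 := hnc (k - 2) (by omega) (by omega)
    obtain ⟨s1, s2, -⟩ := hR.step (by linarith) (k - 1) (by omega) (by omega) h1
    obtain ⟨t1, t2, -⟩ := hR.step (by linarith) (k - 2) (by omega) (by omega) h2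
    have e1 : k - 1 + 1 = k := by omega
    have e2 : k - 2 + 1 = k - 1 := by omega
    rw [e1] at s1 s2
    rw [e2] at t1 t2
    have h3 := ih (k - 1) (by omega) (hR.mono (by omega)) (fun j hj1 hj2 => hnc j (by omega)
      (by omega))
    have e3 : k - 1 - 1 = k - 2 := by omega
    rw [e3] at h3
    set ω := Dq u (k - 2) / Dq u (k - 1) with hω
    set w := wf μ u (k - 1) r with hw
    have hD : Dq u (k - 1) ≠ 0 := abs_pos.1 t2
    have hDk : Dq u k ≠ 0 := abs_pos.1 s2
    have hωb : |ω| ≤ 1 / μ := by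
      rw [hω, abs_div, div_le_div_iff₀ t2 hμ0]
      have := mul_le_mul_of_nonneg_right h2.le (abs_nonneg (Dq u (k - 2)))
      nlinarith [abs_nonneg (Dq u (k - 2))]
    have hwb : |w| ≤ 1 / μ := wf_le hμ0 u (k - 1) r
    have h1μ : 1 / μ ≤ 1 := by
      rw [div_le_one hμ0]
      linarith
    have e4 : Dq u (k - 1) / Dq u k = 1 / (u (k - 1) - ω) := by
      have e5 : Dq u k = u (k - 1) * Dq u (k - 1) - Dq u (k - 2) := by
        have := Dq_succ u (k := k - 1) (by omega)
        rw [e1, e3] at this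
        exact this
      have e6 : Dq u k = (u (k - 1) - ω) * Dq u (k - 1) := by
        rw [e5, hω]
        field_simp
      have e7 : u (k - 1) - ω ≠ 0 := by
        intro h0
        rw [h0, zero_mul] at e6
        exact hDk e6
      rw [e6]
      field_simp
    have hx : 2 * μ ≤ |u (k - 1) - ω| := by
      have := abs_sub_abs_le_abs_sub (u (k - 1)) ω
      linarith
    have hy : 2 * μ ≤ |u (k - 1) - w| := by
      have := abs_sub_abs_le_abs_sub (u (k - 1)) w
      linarith
    show |Dq u (k - 1) / Dq u k - hh μ (u (k - 1) - w)| ≤ (1 / μ) ^ (r + 1 + 1)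
    rw [e4, hh_eq hμ0 hy]
    have hx0 : u (k - 1) - ω ≠ 0 := by
      intro h0
      rw [h0, abs_zero] at hx
      linarith
    have hy0 : u (k - 1) - w ≠ 0 := by
      intro h0
      rw [h0, abs_zero] at hy
      linarith
    have e5 : 1 / (u (k - 1) - ω) - 1 / (u (k - 1) - w) =
        (ω - w) / ((u (k - 1) - ω) * (u (k - 1) - w)) := by
      field_simp
      ring
    rw [e5, abs_div, abs_mul, div_le_iff₀ (by positivity)]
    have h4 : 1 ≤ 1 / μ * (|u (k - 1) - ω| * |u (k - 1) - w|) := by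
      have : (2 * μ) * (2 * μ) ≤ |u (k - 1) - ω| * |u (k - 1) - w| :=
        mul_le_mul hx hy (by positivity) (abs_nonneg _)
      rw [div_mul_eq_mul_div, one_mul, one_le_div hμ0]
      nlinarith
    calc |ω - w| ≤ (1 / μ) ^ (r + 1) := h3
      _ = (1 / μ) ^ (r + 1) * 1 := (mul_one _).symm
      _ ≤ (1 / μ) ^ (r + 1) * (1 / μ * (|u (k - 1) - ω| * |u (k - 1) - w|)) :=
          mul_le_mul_of_nonneg_left h4 (by positivity)
      _ = _ := by ring

/-- the third condition follows from the separation -/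
theorem Reg.h3_of {μ : ℝ} (hμ : 4 ≤ μ) {u : ℕ → ℝ} {r k : ℕ} (hk : r + 2 ≤ k)
    (hR : Reg u (4 * μ) (k - 1)) (hnc : ∀ j, k ≤ j + r + 1 → j < k → 4 * μ < |u j|)
    (hk1 : 4 * μ < |u (k + 1)|)
    (hsep : 2 / |u (k + 1)| + (1 / μ) ^ (r + 1) ≤ |u k - wf μ u k r|) :
    2 * |Dq u k| ≤ |u (k + 1)| * |Dq u (k + 1)| := by
  have hμ0 : 0 < μ := by linarith
  have h1 := hnc (k - 1) (by omega) (by omega)
  obtain ⟨s1, s2, -⟩ := hR.step (by linarith) (k - 1) (by omega) (by omega) h1
  have e1 : k - 1 + 1 = k := by omega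
  rw [e1] at s1 s2
  have hDk : Dq u k ≠ 0 := abs_pos.1 s2
  have hacc := hR.acc hμ r k hk hnc
  set ω := Dq u (k - 1) / Dq u k with hω
  have e2 : Dq u (k + 1) = (u k - ω) * Dq u k := by
    rw [Dq_succ u (by omega : 1 ≤ k), hω]
    field_simp
  have h2 : 2 / |u (k + 1)| ≤ |u k - ω| := by
    have h3 : |u k - wf μ u k r| ≤ |u k - ω| + |ω - wf μ u k r| := by
      have : u k - wf μ u k r = (u k - ω) + (ω - wf μ u k r) := by ring
      rw [this]
      exact abs_add_le _ _
    linarith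
  have hpos : 0 < |u (k + 1)| := by linarith
  rw [e2, abs_mul]
  rw [div_le_iff₀ hpos] at h2
  have := mul_le_mul_of_nonneg_right h2 (abs_nonneg (Dq u k))
  linarith

end Pool.Agent.TH705.SM
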