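import Mathlib
import Pool.Agent.TH705.SM.HypA
import Pool.Agent.TH705.SM.Dens

set_option autoImplicit false

/-!
# The exceptional directions
-/

namespace Pool.Agent.TH705.SM

open Real MeasureTheory

/-- derivative of `hh` -/
noncomputable def hh' (μ x : ℝ) : ℝ := rho' (x / μ) / (μ * x) - rho (x / μ) / x ^ 2

theorem hh'_zero {μ x : ℝ} (hμ : 0 < μ) (hx : |x| < μ) : hh' μ x = 0 := by
  have h : |x / μ| < 1 := by
    rw [abs_div, abs_of_pos hμ, div_lt_one hμ]
    exact hx
  unfold hh'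
  rw [rho'_zero h, rho_zero h, zero_div, zero_div, sub_zero]

theorem hh_hasDeriv {μ : ℝ} (hμ : 0 < μ) (x : ℝ) : HasDerivAt (hh μ) (hh' μ x) x := by
  rcases lt_or_ge (|x|) μ with h | h
  · rw [hh'_zero hμ h]
    have h1 : hh μ =ᶠ[nhds x] fun _ => 0 := by
      have : ∀ᶠ y in nhds x, |y| < μ := continuous_abs.continuousAt.eventually_lt_const h
      filter_upwards [this] with y hy
      exact hh_zero hμ hy
    exact (hasDerivAt_const x 0).congr_of_eventuallyEq h1
  · have hx : x ≠ 0 := by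
      intro h0
      rw [h0, abs_zero] at h
      linarith
    have h0 : HasDerivAt (fun x : ℝ => x / μ) (1 / μ) x := (hasDerivAt_id x).div_const μ
    have h1 : HasDerivAt (rho ∘ fun x : ℝ => x / μ) (rho' (x / μ) * (1 / μ)) x :=
      HasDerivAt.comp (h₂ := rho) x (rho_hasDeriv (x / μ)) h0
    have h2 := h1.div (hasDerivAt_id x) hx
    refine HasDerivAt.congr_deriv (f := hh μ) h2 ?_
    unfold hh'
    simp only [id, Function.comp]
    field_simp

theorem hh'_le {μ : ℝ} (hμ : 0 < μ) {x : ℝ} (hx : μ ≤ |x|) : |hh' μ x| ≤ 10 * KK / x ^ 2 := by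
  have hK := KK_one
  have hx0 : 0 < |x| := by linarith
  have hx2 : 0 < x ^ 2 := by rw [← sq_abs]; positivity
  unfold hh'
  have h1 := rho'_le2 (x / μ)
  have h2 : |rho' (x / μ) / (μ * x)| ≤ 9 * KK / x ^ 2 := by
    rw [abs_div, abs_mul, abs_of_pos hμ, div_le_div_iff₀ (by positivity) hx2]
    have h3 : 9 * KK / ((x / μ) ^ 2 + 1) ≤ 9 * KK * μ ^ 2 / x ^ 2 := by
      rw [div_le_div_iff₀ (by positivity) hx2]
      have : 9 * KK * μ ^ 2 * ((x / μ) ^ 2 + 1) = 9 * KK * x ^ 2 + 9 * KK * μ ^ 2 := by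
        field_simp
      rw [this]
      have : 0 ≤ 9 * KK * μ ^ 2 := by positivity
      linarith
    have h4 := mul_le_mul_of_nonneg_right (h1.trans h3) hx2.le
    rw [div_mul_cancel₀ _ hx2.ne'] at h4
    calc |rho' (x / μ)| * x ^ 2 ≤ 9 * KK * μ ^ 2 := h4
      _ = 9 * KK * (μ * μ) := by ring
      _ ≤ 9 * KK * (μ * |x|) := by
          apply mul_le_mul_of_nonneg_left _ (by positivity)
          exact mul_le_mul_of_nonneg_left hx hμ.le
  have h3 : |rho (x / μ) / x ^ 2| ≤ KK / x ^ 2 := by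
    rw [abs_div, abs_of_nonneg (rho_nonneg _), abs_of_pos hx2]
    apply div_le_div_of_nonneg_right _ hx2.le
    exact (rho_le_one _).trans hK
  refine (abs_sub _ _).trans ((add_le_add h2 h3).trans (le_of_eq ?_))
  ring

theorem hh'_le1 {μ : ℝ} (hμ : 0 < μ) (x : ℝ) : |hh' μ x| ≤ 10 * KK / μ ^ 2 := by
  have hK := KK_one
  rcases lt_or_ge (|x|) μ with h | h
  · rw [hh'_zero hμ h, abs_zero]
    positivity
  · refine (hh'_le hμ h).trans ?_
    apply div_le_div_of_nonneg_left (by positivity) (by positivity)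
    rw [← sq_abs x]
    exact pow_le_pow_left₀ hμ.le h 2

theorem hh'_le2 {μ : ℝ} (hμ : 1 ≤ μ) (x : ℝ) : |hh' μ x| * (|x| + 2) ≤ 30 * KK / μ := by
  have hK := KK_one
  have hμ0 : 0 < μ := by linarith
  rcases lt_or_ge (|x|) μ with h | h
  · rw [hh'_zero hμ0 h, abs_zero, zero_mul]
    positivity
  · have hx0 : 0 < |x| := by linarith
    have h1 := mul_le_mul_of_nonneg_right (hh'_le hμ0 h) (by positivity : 0 ≤ |x| + 2)
    refine h1.trans ?_
    rw [← sq_abs x, div_mul_eq_mul_div, div_le_div_iff₀ (by positivity) hμ0]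
    have h2 : 10 * KK * (|x| + 2) ≤ 30 * KK * |x| := by nlinarith
    calc 10 * KK * (|x| + 2) * μ ≤ 30 * KK * |x| * |x| :=
          mul_le_mul h2 h hμ0.le (by positivity)
      _ = _ := by ring

/-- the continued fraction along the backward orbit -/
noncomputable def wb (μ : ℝ) (v : ℕ → ℝ) : ℕ → ℕ → ℝ
  | _, 0 => 0
  | j, r + 1 => hh μ (v j - wb μ v (j + 1) r)

theorem wb_le {μ : ℝ} (hμ : 0 < μ) (v : ℕ → ℝ) (j r : ℕ) : |wb μ v j r| ≤ 1 / μ := by
  cases r with
  | zero =>
    show |(0:ℝ)| ≤ 1 / μ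
    rw [abs_zero]
    positivity
  | succ r => exact hh_le hμ _

theorem wf_eq_wb (μ : ℝ) (u v : ℕ → ℝ) (k : ℕ) (h : ∀ j, 2 ≤ j → j ≤ k → v j = u (k + 1 - j))
    (r : ℕ) : ∀ i, i + r + 1 ≤ k → wf μ u (k - i) r = wb μ v (i + 2) r := by
  induction r with
  | zero => intro i _; rfl
  | succ r ih =>
    intro i hi
    show hh μ (u (k - i - 1) - wf μ u (k - i - 1) r) = hh μ (v (i + 2) - wb μ v (i + 2 + 1) r)
    have h1 := ih (i + 1) (by omega)
    have e1 : k - (i + 1) = k - i - 1 := by omega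
    have e2 : i + 1 + 2 = i + 2 + 1 := by omega
    rw [e1, e2] at h1
    rw [h1, h (i + 2) (by omega) (by omega)]
    have e3 : k + 1 - (i + 2) = k - i - 1 := by omega
    rw [e3]

/-- along the orbit -/
noncomputable def wX (μ a s : ℝ) (j r : ℕ) (t : ℝ) : ℝ := wb μ (fun i => L a (X a s i t)) j r

/-- its derivative -/
noncomputable def wd (μ a s : ℝ) : ℕ → ℕ → ℝ → ℝ
  | _, 0, _ => 0
  | j, r + 1, t => hh' μ (L a (X a s j t) - wX μ a s (j + 1) r t) *
      (-(4 * π ^ 2 * a * sin (2 * π * X a s j t)) * D a s j t - wd μ a s (j + 1) r t)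

theorem wX_hasDeriv {μ : ℝ} (hμ : 0 < μ) (a s : ℝ) (r : ℕ) : ∀ (j : ℕ) (t : ℝ),
    HasDerivAt (wX μ a s j r) (wd μ a s j r t) t := by
  induction r with
  | zero => intro j t; exact hasDerivAt_const t 0
  | succ r ih =>
    intro j t
    have h1 := (L_hasDeriv a s j t).sub (ih (j + 1) t)
    exact (hh_hasDeriv hμ (L a (X a s j t) - wX μ a s (j + 1) r t)).comp t h1

theorem wd_le {μ : ℝ} (hμ : 60 * KK ≤ μ) (a s t : ℝ) (r : ℕ) : ∀ j : ℕ, 1 ≤ j →
    |wd μ a s j r t| ≤ 80 * π ^ 2 * KK / μ ^ 2 * |a| * (|D a s j t| + |D a s (j - 1) t|) := by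
  have hK := KK_one
  have hμ1 : 60 ≤ μ := by linarith
  have hμ0 : 0 < μ := by linarith
  induction r with
  | zero =>
    intro j _
    show |(0:ℝ)| ≤ _
    rw [abs_zero]
    positivity
  | succ r ih =>
    intro j hj
    have h1 := ih (j + 1) (by omega)
    have e0 : j + 1 - 1 = j := by omega
    rw [e0] at h1
    set u := L a (X a s j t) - wX μ a s (j + 1) r t with hu
    set Nj := |D a s j t| + |D a s (j - 1) t| with hNj
    have hNj0 : 0 ≤ Nj := by positivity
    have hD : |D a s (j + 1) t| + |D a s j t| ≤ (|L a (X a s j t)| + 1) * Nj := by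
      have e : D a s (j + 1) t = L a (X a s j t) * D a s j t - D a s (j - 1) t := by
        obtain ⟨k, rfl⟩ := Nat.exists_eq_add_of_le' hj
        rfl
      have h2 : |D a s (j + 1) t| ≤ |L a (X a s j t)| * |D a s j t| + |D a s (j - 1) t| := by
        rw [e, ← abs_mul]
        exact abs_sub _ _
      have h3 := abs_nonneg (L a (X a s j t))
      have h4 := abs_nonneg (D a s (j - 1) t)
      rw [hNj]
      nlinarith
    have hLu : |L a (X a s j t)| + 1 ≤ |u| + 2 := by
      have h2 : |wX μ a s (j + 1) r t| ≤ 1 / μ := wb_le hμ0 _ _ _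
      have h3 : 1 / μ ≤ 1 := by
        rw [div_le_one hμ0]
        linarith
      have h4 : |L a (X a s j t)| ≤ |u| + |wX μ a s (j + 1) r t| := by
        have : L a (X a s j t) = u + wX μ a s (j + 1) r t := by rw [hu]; ring
        rw [this]
        exact abs_add_le _ _
      linarith
    set Bc := 80 * π ^ 2 * KK / μ ^ 2 with hBc
    have hBc0 : 0 ≤ Bc := by positivity
    show |hh' μ u * (-(4 * π ^ 2 * a * sin (2 * π * X a s j t)) * D a s j t -
      wd μ a s (j + 1) r t)| ≤ Bc * |a| * Nj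
    rw [abs_mul]
    have h5 : |-(4 * π ^ 2 * a * sin (2 * π * X a s j t)) * D a s j t - wd μ a s (j + 1) r t| ≤
        4 * π ^ 2 * |a| * Nj + Bc * |a| * ((|u| + 2) * Nj) := by
      refine (abs_sub _ _).trans (add_le_add ?_ ?_)
      · rw [abs_mul, abs_neg, abs_mul, abs_mul, abs_of_pos (by positivity : 0 < 4 * π ^ 2)]
        apply mul_le_mul _ _ (abs_nonneg _) (by positivity)
        · calc _ ≤ 4 * π ^ 2 * |a| * 1 :=
                mul_le_mul_of_nonneg_left (abs_sin_le_one _) (by positivity)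
            _ = _ := mul_one _
        · rw [hNj]
          have := abs_nonneg (D a s (j - 1) t)
          linarith
      · refine h1.trans ?_
        apply mul_le_mul_of_nonneg_left _ (by positivity)
        exact hD.trans (mul_le_mul_of_nonneg_right hLu hNj0)
    have h6 := hh'_le1 hμ0 u
    have h7 := hh'_le2 (by linarith : 1 ≤ μ) u
    have h8 : 30 * KK / μ ≤ 1 / 2 := by
      rw [div_le_div_iff₀ hμ0 (by norm_num)]
      linarith
    calc |hh' μ u| * |-(4 * π ^ 2 * a * sin (2 * π * X a s j t)) * D a s j t -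
          wd μ a s (j + 1) r t| ≤
        |hh' μ u| * (4 * π ^ 2 * |a| * Nj + Bc * |a| * ((|u| + 2) * Nj)) :=
          mul_le_mul_of_nonneg_left h5 (abs_nonneg _)
      _ = |hh' μ u| * (4 * π ^ 2 * |a| * Nj) + (|hh' μ u| * (|u| + 2)) * (Bc * |a| * Nj) := by ring
      _ ≤ 10 * KK / μ ^ 2 * (4 * π ^ 2 * |a| * Nj) + 1 / 2 * (Bc * |a| * Nj) := by
          apply add_le_add
          · exact mul_le_mul_of_nonneg_right h6 (by positivity)
          · exact mul_le_mul_of_nonneg_right (h7.trans h8) (by positivity)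
      _ = Bc * |a| * Nj := by
          rw [hBc]
          field_simp
          ring

/-- the critical function -/
noncomputable def Th (μ a s : ℝ) (r : ℕ) (t : ℝ) : ℝ := L a t - wX μ a s 2 r t

theorem Th_hasDeriv {μ : ℝ} (hμ : 0 < μ) (a s : ℝ) (r : ℕ) (t : ℝ) :
    HasDerivAt (Th μ a s r) (-(4 * π ^ 2 * a * sin (2 * π * t)) - wd μ a s 2 r t) t := by
  have h1 := L_hasDeriv a s 1 t
  have h2 := h1.sub (wX_hasDeriv hμ a s r 2 t)
  refine HasDerivAt.congr_deriv (f := Th μ a s r) h2 ?_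
  show -(4 * π ^ 2 * a * sin (2 * π * t)) * 1 - wd μ a s 2 r t = _
  rw [mul_one]

theorem wd_two_le {μ : ℝ} (hμ : 4 * l0 ≤ μ) (a s : ℝ) (r : ℕ) {t : ℝ} (ht : |L a t| ≤ 4 * μ) :
    |wd μ a s 2 r t| ≤ |a| := by
  have hK := KK_one
  have hl0 : l0 = 104 * KK * π ^ 2 := rfl
  have hpi := pi_gt_three
  have h9 : 9 ≤ π ^ 2 := by nlinarith
  have hKp : KK * 9 ≤ KK * π ^ 2 := mul_le_mul_of_nonneg_left h9 (by linarith)
  have hμ60 : 60 * KK ≤ μ := by linarith
  have hμ0 : 0 < μ := by linarith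
  have h1 := wd_le hμ60 a s t r 2 (by norm_num)
  have e1 : D a s 2 t = L a t := by
    show L a (X a s 1 t) * 1 - 0 = L a t
    rw [mul_one, sub_zero]
    rfl
  have e2 : D a s (2 - 1) t = 1 := rfl
  rw [e1, e2, abs_one] at h1
  refine h1.trans ?_
  have h2 : |L a t| + 1 ≤ 5 * μ := by linarith
  calc 80 * π ^ 2 * KK / μ ^ 2 * |a| * (|L a t| + 1) ≤ 80 * π ^ 2 * KK / μ ^ 2 * |a| * (5 * μ) :=
        mul_le_mul_of_nonneg_left h2 (by positivity)
    _ = (400 * π ^ 2 * KK / μ) * |a| := by field_simp; ring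
    _ ≤ 1 * |a| := by
        apply mul_le_mul_of_nonneg_right _ (abs_nonneg _)
        rw [div_le_one hμ0]
        nlinarith
    _ = |a| := one_mul _

/-- transversality on an interval where the sine has a sign -/
theorem transv {μ : ℝ} (hμ : 4 * l0 ≤ μ) {a : ℝ} (ha : 8 * μ ≤ |a|) (s : ℝ) (r : ℕ) {σ ς t1 t2 : ℝ}
    (hσ : |σ| = 1) (ht : t1 ≤ t2) (hsin : ∀ t ∈ Set.Icc t1 t2, 0 ≤ σ * sin (2 * π * t))
    (hL : ∀ t ∈ Set.Icc t1 t2, |L a t| ≤ 4 * μ) (h1 : |Th μ a s r t1| ≤ ς)
    (h2 : |Th μ a s r t2| ≤ ς) : t2 - t1 ≤ 2 * ς / |a| := by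
  have hK := KK_one
  have hl0 := l0_ge
  have hpi := pi_gt_three
  have hμ0 : 0 < μ := by linarith
  have ha0 : 0 < |a| := by linarith
  obtain ⟨τ, hτ1, hτ2⟩ : ∃ τ : ℝ, |τ| = 1 ∧ τ * a = |a| := by
    rcases le_total 0 a with h | h
    · exact ⟨1, by simp, by rw [abs_of_nonneg h, one_mul]⟩
    · exact ⟨-1, by simp, by rw [abs_of_nonpos h]; ring⟩
  set g : ℝ → ℝ := fun t => -(σ * τ) * Th μ a s r t with hg
  have hgd : ∀ t, HasDerivAt g (-(σ * τ) * (-(4 * π ^ 2 * a * sin (2 * π * t)) -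
      wd μ a s 2 r t)) t := fun t => (Th_hasDeriv hμ0 a s r t).const_mul _
  have hgdiff : Differentiable ℝ g := fun t => (hgd t).differentiableAt
  have hlow : ∀ t ∈ interior (Set.Icc t1 t2), |a| ≤ deriv g t := by
    intro t ht'
    have ht' := interior_subset ht'
    rw [(hgd t).deriv]
    have hLt := hL t ht'
    have hw := wd_two_le hμ a s r hLt
    have hs := hsin t ht'
    have hcos : |cos (2 * π * t)| ≤ 1 / 4 := by
      have h3 : |cos (2 * π * t)| * (2 * π * |a|) = |L a t - 2| := by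
        unfold L
        rw [add_sub_cancel_left, abs_mul, abs_mul, abs_of_pos (by positivity : 0 < 2 * π)]
        ring
      have h4 := abs_sub (L a t) 2
      rw [abs_of_pos (by norm_num : (0:ℝ) < 2)] at h4
      have h5 : |cos (2 * π * t)| * (2 * π * |a|) ≤ |a| := by linarith
      have h6 : 6 * |a| ≤ 2 * π * |a| := by nlinarith
      have h7 := mul_le_mul_of_nonneg_left h6 (abs_nonneg (cos (2 * π * t)))
      have h8 : |cos (2 * π * t)| * (6 * |a|) ≤ (1 / 6) * (6 * |a|) := by linarith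
      have := le_of_mul_le_mul_right h8 (by positivity)
      linarith
    have hsin2 : 3 / 4 ≤ σ * sin (2 * π * t) := by
      have h3 : (σ * sin (2 * π * t)) ^ 2 = 1 - cos (2 * π * t) ^ 2 := by
        rw [mul_pow, ← sq_abs σ, hσ, one_pow, one_mul, sin_sq]
      have h4 : cos (2 * π * t) ^ 2 ≤ (1 / 4) ^ 2 := by
        rw [← sq_abs]
        exact pow_le_pow_left₀ (abs_nonneg _) hcos 2
      nlinarith
    have e1 : -(σ * τ) * (-(4 * π ^ 2 * a * sin (2 * π * t)) - wd μ a s 2 r t) =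
        4 * π ^ 2 * (τ * a) * (σ * sin (2 * π * t)) + σ * τ * wd μ a s 2 r t := by ring
    rw [e1, hτ2]
    have h5 : -|a| ≤ σ * τ * wd μ a s 2 r t := by
      have : |σ * τ * wd μ a s 2 r t| ≤ |a| := by
        rw [abs_mul, abs_mul, hσ, hτ1, one_mul, one_mul]
        exact hw
      exact (abs_le.1 this).1
    have h6 : 4 * 9 * |a| * (3 / 4) ≤ 4 * π ^ 2 * |a| * (σ * sin (2 * π * t)) := by
      apply mul_le_mul _ hsin2 (by norm_num) (by positivity)
      apply mul_le_mul_of_nonneg_right _ ha0.le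
      nlinarith
    linarith
  have hmv := (convex_Icc t1 t2).mul_sub_le_image_sub_of_le_deriv hgdiff.continuous.continuousOn
    hgdiff.differentiableOn hlow t1 (Set.left_mem_Icc.2 ht) t2 (Set.right_mem_Icc.2 ht) ht
  have h3 : g t2 - g t1 ≤ 2 * ς := by
    have h4 : |g t2| ≤ ς := by
      rw [hg]
      simp only
      rw [abs_mul, abs_neg, abs_mul, hσ, hτ1, one_mul, one_mul]
      exact h2
    have h5 : |g t1| ≤ ς := by
      rw [hg]
      simp only
      rw [abs_mul, abs_neg, abs_mul, hσ, hτ1, one_mul, one_mul]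
      exact h1
    rw [abs_le] at h4 h5
    linarith
  rw [le_div_iff₀ ha0]
  linarith

/-- monotonicity of the entries -/
theorem L_between {a b t1 t2 t : ℝ} (hc : cos (2 * π * t1) ≤ cos (2 * π * t) ∧
    cos (2 * π * t) ≤ cos (2 * π * t2) ∨ cos (2 * π * t2) ≤ cos (2 * π * t) ∧
    cos (2 * π * t) ≤ cos (2 * π * t1)) (h1 : |L a t1| ≤ b) (h2 : |L a t2| ≤ b) : |L a t| ≤ b := by
  unfold L at *
  rw [abs_le] at *
  have hpi := pi_pos
  rcases le_total 0 a with ha | ha
  · have hp : 0 ≤ 2 * π * a := by positivity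
    rcases hc with ⟨c1, c2⟩ | ⟨c1, c2⟩
    · have := mul_le_mul_of_nonneg_left c1 hp
      have := mul_le_mul_of_nonneg_left c2 hp
      constructor <;> linarith
    · have := mul_le_mul_of_nonneg_left c1 hp
      have := mul_le_mul_of_nonneg_left c2 hp
      constructor <;> linarith
  · have hp : 2 * π * a ≤ 0 := mul_nonpos_of_nonneg_of_nonpos (by positivity) ha
    rcases hc with ⟨c1, c2⟩ | ⟨c1, c2⟩
    · have := mul_le_mul_of_nonpos_left c1 hp
      have := mul_le_mul_of_nonpos_left c2 hp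
      constructor <;> linarith
    · have := mul_le_mul_of_nonpos_left c1 hp
      have := mul_le_mul_of_nonpos_left c2 hp
      constructor <;> linarith

/-- the exceptional set in a fibre -/
theorem slice {μ : ℝ} (hμ : 4 * l0 ≤ μ) {a : ℝ} (ha : 8 * μ ≤ |a|) (s : ℝ) (r : ℕ) {ς : ℝ}
    (hς : 0 ≤ ς) :
    volume {t : ℝ | t ∈ Set.Ioc (0:ℝ) 1 ∧ |L a t| ≤ 4 * μ ∧ |Th μ a s r t| ≤ ς} ≤
      ENNReal.ofReal (4 * ς / |a|) := by
  have hpi := pi_pos
  set A := {t : ℝ | t ∈ Set.Icc (0:ℝ) (1 / 2) ∧ |L a t| ≤ 4 * μ ∧ |Th μ a s r t| ≤ ς} with hA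
  set B := {t : ℝ | t ∈ Set.Icc (1 / 2 : ℝ) 1 ∧ |L a t| ≤ 4 * μ ∧ |Th μ a s r t| ≤ ς} with hB
  have hsub : {t : ℝ | t ∈ Set.Ioc (0:ℝ) 1 ∧ |L a t| ≤ 4 * μ ∧ |Th μ a s r t| ≤ ς} ⊆ A ∪ B := by
    rintro t ⟨ht, h1, h2⟩
    rcases le_total t (1 / 2) with h | h
    · exact Or.inl ⟨⟨ht.1.le, h⟩, h1, h2⟩
    · exact Or.inr ⟨⟨h, ht.2⟩, h1, h2⟩
  have hAv : volume A ≤ ENNReal.ofReal (2 * ς / |a|) := by
    refine (Real.volume_le_diam A).trans (Metric.ediam_le ?_)
    have key : ∀ x ∈ A, ∀ y ∈ A, x ≤ y → y - x ≤ 2 * ς / |a| := by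
      rintro x ⟨hx, hx1, hx2⟩ y ⟨hy, hy1, hy2⟩ hxy
      apply transv hμ ha s r (σ := 1) (by simp) hxy _ _ hx2 hy2
      · intro t ht
        rw [one_mul]
        apply sin_nonneg_of_nonneg_of_le_pi
        · have := hx.1.trans ht.1
          positivity
        · have := ht.2.trans hy.2
          nlinarith
      · intro t ht
        have hmem : ∀ z, 0 ≤ z → z ≤ 1 / 2 → 2 * π * z ∈ Set.Icc 0 π := fun z h1 h2 =>
          ⟨by positivity, by nlinarith⟩
        have m0 := hmem x hx.1 hx.2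
        have m1 := hmem t (hx.1.trans ht.1) (ht.2.trans hy.2)
        have m2 := hmem y hy.1 hy.2
        apply L_between (Or.inr ⟨?_, ?_⟩) hx1 hy1
        · exact strictAntiOn_cos.antitoneOn m1 m2 (by nlinarith [ht.2])
        · exact strictAntiOn_cos.antitoneOn m0 m1 (by nlinarith [ht.1])
    intro x hx y hy
    rw [edist_dist, Real.dist_eq]
    apply ENNReal.ofReal_le_ofReal
    rcases le_total x y with h | h
    · rw [abs_sub_comm, abs_of_nonneg (by linarith)]
      exact key x hx y hy h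
    · rw [abs_of_nonneg (by linarith)]
      exact key y hy x hx h
  have hBv : volume B ≤ ENNReal.ofReal (2 * ς / |a|) := by
    refine (Real.volume_le_diam B).trans (Metric.ediam_le ?_)
    have key : ∀ x ∈ B, ∀ y ∈ B, x ≤ y → y - x ≤ 2 * ς / |a| := by
      rintro x ⟨hx, hx1, hx2⟩ y ⟨hy, hy1, hy2⟩ hxy
      apply transv hμ ha s r (σ := -1) (by simp) hxy _ _ hx2 hy2
      · intro t ht
        have e2 : sin (2 * π * t) = -sin (2 * π * t - π) := by
          rw [sin_sub_pi]
          ring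
        have : 0 ≤ sin (2 * π * t - π) := by
          apply sin_nonneg_of_nonneg_of_le_pi
          · have := hx.1.trans ht.1
            nlinarith
          · have := ht.2.trans hy.2
            nlinarith
        rw [e2]
        linarith
      · intro t ht
        have hcos : ∀ z : ℝ, cos (2 * π * z) = cos (2 * π * (1 - z)) := by
          intro z
          have : 2 * π * (1 - z) = 2 * π - 2 * π * z := by ring
          rw [this, cos_two_pi_sub]
        have hmem : ∀ z, 1 / 2 ≤ z → z ≤ 1 → 2 * π * (1 - z) ∈ Set.Icc 0 π := fun z h1 h2 =>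
          ⟨by have : 0 ≤ 1 - z := by linarith
              positivity, by nlinarith⟩
        have m0 := hmem x hx.1 hx.2
        have m1 := hmem t (hx.1.trans ht.1) (ht.2.trans hy.2)
        have m2 := hmem y hy.1 hy.2
        apply L_between (Or.inl ⟨?_, ?_⟩) hx1 hy1
        · rw [hcos x, hcos t]
          exact strictAntiOn_cos.antitoneOn m1 m0 (by nlinarith [ht.1])
        · rw [hcos y, hcos t]
          exact strictAntiOn_cos.antitoneOn m2 m1 (by nlinarith [ht.2])
    intro x hx y hy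
    rw [edist_dist, Real.dist_eq]
    apply ENNReal.ofReal_le_ofReal
    rcases le_total x y with h | h
    · rw [abs_sub_comm, abs_of_nonneg (by linarith)]
      exact key x hx y hy h
    · rw [abs_of_nonneg (by linarith)]
      exact key y hy x hx h
  have hnn : 0 ≤ 2 * ς / |a| := by positivity
  calc _ ≤ volume (A ∪ B) := measure_mono hsub
    _ ≤ volume A + volume B := measure_union_le _ _
    _ ≤ ENNReal.ofReal (2 * ς / |a|) + ENNReal.ofReal (2 * ς / |a|) := add_le_add hAv hBv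
    _ = _ := by
        rw [← ENNReal.ofReal_add hnn hnn]
        congr 1
        ring

end Pool.Agent.TH705.SM
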