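import Mathlib
import Pool.Agent.TH705.SM.HypB
import Pool.Agent.TH705.SM.Torus

set_option autoImplicit false

/-!
# The exceptional sets on the torus
-/

namespace Pool.Agent.TH705.SM

open Real MeasureTheory Function

theorem L_periodic (a : ℝ) : Periodic (L a) 1 := by
  intro x
  have := L_period a x 1
  rwa [Nat.cast_one] at this

/-- the entry on the circle -/
noncomputable def LC (a : ℝ) : UnitAddCircle → ℝ := (L_periodic a).lift

theorem LC_coe (a x : ℝ) : LC a (x : UnitAddCircle) = L a x := (L_periodic a).lift_coe x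

theorem LC_cont (a : ℝ) : Continuous (LC a) := lift_cont (L_periodic a) (L_cont a)

/-- the entries along an orbit -/
noncomputable def Lk (a : ℝ) (p : T2) (k : ℕ) : ℝ := LC a (((S a)^[k] p).2)

theorem Lk_cont (a : ℝ) (k : ℕ) : Continuous (fun p => Lk a p k) :=
  (LC_cont a).comp (continuous_snd.comp ((S_cont a).iterate k))

theorem Lk_coe (a s t : ℝ) (k : ℕ) :
    Lk a ((t : UnitAddCircle), (s : UnitAddCircle)) k = L a (X a s k t) := by
  unfold Lk
  rw [iter_coe]
  exact LC_coe a _

theorem Lk_shift (a : ℝ) (p : T2) (j k : ℕ) : Lk a ((S a)^[j] p) k = Lk a p (j + k) := by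
  unfold Lk
  rw [← iterate_add_apply, add_comm]

theorem Lk_zero (a : ℝ) (p : T2) : Lk a p 0 = LC a p.2 := rfl

theorem Lk_one (a : ℝ) (p : T2) : Lk a p 1 = LC a p.1 := rfl

theorem rho_zero' {z : ℝ} (h : |z| ≤ 1) : rho z = 0 := by
  unfold rho
  apply smoothTransition.zero_of_nonpos
  have : z ^ 2 ≤ 1 := by rwa [sq_le_one_iff_abs_le_one]
  linarith

/-- the strip -/
def strip (a m : ℝ) : Set UnitAddCircle := {x | |LC a x| ≤ m}

theorem strip_meas (a m : ℝ) : MeasurableSet (strip a m) :=
  (isClosed_le (LC_cont a).abs continuous_const).measurableSet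

theorem strip_vol {a m : ℝ} (ha : 0 < |a|) (hm : 16 ≤ m) :
    volume (strip a m) ≤ ENNReal.ofReal (m / |a|) := by
  have hm0 : 0 < m := by linarith
  have h1 : volume.real (strip a m) ≤ m / |a| := by
    rw [← integral_indicator_one (strip_meas a m)]
    have h2 := UnitAddCircle.intervalIntegral_preimage 0 ((strip a m).indicator (1 : UnitAddCircle → ℝ))
    rw [zero_add] at h2
    rw [← h2]
    refine le_trans ?_ (kappa_le (a := a) ha hm)
    have hc : Continuous (fun x => 1 - rho (L a x / m)) :=
      continuous_const.sub (rho_cont.comp ((L_cont a).div_const m))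
    apply intervalIntegral.integral_mono_on zero_le_one _ (hc.intervalIntegrable _ _)
    · intro x _
      by_cases hx : (x : UnitAddCircle) ∈ strip a m
      · rw [Set.indicator_of_mem hx]
        have : |LC a (x : UnitAddCircle)| ≤ m := hx
        rw [LC_coe] at this
        have h3 : rho (L a x / m) = 0 := by
          apply rho_zero'
          rw [abs_div, abs_of_pos hm0, div_le_one hm0]
          exact this
        rw [h3]
        simp
      · rw [Set.indicator_of_notMem hx]
        have := rho_le_one (L a x / m)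
        linarith
    · have hmeas : Measurable (fun x : ℝ => (strip a m).indicator (1 : UnitAddCircle → ℝ) (x : UnitAddCircle)) :=
        (measurable_one.indicator (strip_meas a m)).comp (AddCircle.measurable_mk')
      refine (intervalIntegrable_const (c := (1:ℝ))).mono_fun hmeas.aestronglyMeasurable ?_
      refine Filter.Eventually.of_forall fun x => ?_
      simp only
      by_cases hx : (x : UnitAddCircle) ∈ strip a m
      · rw [Set.indicator_of_mem hx]; simp
      · rw [Set.indicator_of_notMem hx]; simp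
  rw [← ENNReal.ofReal_toReal (measure_ne_top volume (strip a m))]
  exact ENNReal.ofReal_le_ofReal h1

/-- two consecutive visits -/
def G1 (a m : ℝ) : Set T2 := strip a m ×ˢ strip a m

theorem G1_vol {a m : ℝ} (ha : 0 < |a|) (hm : 16 ≤ m) :
    volume (G1 a m) ≤ ENNReal.ofReal ((m / |a|) ^ 2) := by
  have h1 : volume (G1 a m) = volume (strip a m) * volume (strip a m) := by
    unfold G1
    exact Measure.prod_prod _ _
  rw [h1, sq, ENNReal.ofReal_mul (by positivity)]
  exact mul_le_mul' (strip_vol ha hm) (strip_vol ha hm)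

/-- cutoffs on the torus -/
noncomputable def chiT (a l : ℝ) : ℕ → T2 → ℝ
  | 0, _ => 1
  | m + 1, p => chiT a l m p * rho (Lk a p (m + 1) / l)

theorem chiT_cont (a l : ℝ) (m : ℕ) : Continuous (chiT a l m) := by
  induction m with
  | zero => exact continuous_const
  | succ m ih => exact ih.mul (rho_cont.comp ((Lk_cont a (m + 1)).div_const l))

theorem chiT_coe (a l s t : ℝ) (m : ℕ) :
    chiT a l m ((t : UnitAddCircle), (s : UnitAddCircle)) = chi a l s m t := by
  induction m with
  | zero => rfl
  | succ m ih =>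
    show chiT a l m _ * rho (Lk a _ (m + 1) / l) = chi a l s m t * rho (L a (X a s (m + 1) t) / l)
    rw [ih, Lk_coe]

theorem chiT_one {a l : ℝ} (hl : 0 < l) {m : ℕ} {p : T2}
    (h : ∀ i, 1 ≤ i → i ≤ m → 2 * l < |Lk a p i|) : chiT a l m p = 1 := by
  induction m with
  | zero => rfl
  | succ m ih =>
    show chiT a l m p * rho (Lk a p (m + 1) / l) = 1
    rw [ih (fun i h1 h2 => h i h1 (by omega)), rho_one, one_mul]
    have := h (m + 1) (by omega) le_rfl
    rw [div_pow, le_div_iff₀ (by positivity), ← sq_abs (Lk a p (m + 1))]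
    nlinarith

theorem chiT_nonneg (a l : ℝ) (m : ℕ) (p : T2) : 0 ≤ chiT a l m p := by
  induction m with
  | zero => exact zero_le_one
  | succ m ih => exact mul_nonneg ih (rho_nonneg _)

/-- two visits at distance `m` with none in between -/
def G2 (a lam : ℝ) (m : ℕ) : Set T2 :=
  {p | |Lk a p 0| ≤ lam ∧ |Lk a p m| ≤ lam ∧ ∀ i, 1 ≤ i → i < m → lam < |Lk a p i|}

theorem G2_meas (a lam : ℝ) (m : ℕ) : MeasurableSet (G2 a lam m) := by
  have h1 : ∀ k, Measurable (fun p => |Lk a p k|) := fun k => (Lk_cont a k).abs.measurable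
  have e : G2 a lam m = ({p | |Lk a p 0| ≤ lam} ∩ {p | |Lk a p m| ≤ lam}) ∩
      ⋂ i : ℕ, {p | 1 ≤ i → i < m → lam < |Lk a p i|} := by
    ext p
    simp only [G2, Set.mem_ofPred_eq, Set.mem_inter_iff, Set.mem_iInter]
    tauto
  rw [e]
  refine ((measurableSet_le (h1 0) measurable_const).inter
    (measurableSet_le (h1 m) measurable_const)).inter (MeasurableSet.iInter fun i => ?_)
  by_cases h : 1 ≤ i ∧ i < m
  · have : {p | 1 ≤ i → i < m → lam < |Lk a p i|} = {p | lam < |Lk a p i|} := by
      ext p
      simp [h.1, h.2]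
    rw [this]
    exact measurableSet_lt measurable_const (h1 i)
  · have : {p : T2 | 1 ≤ i → i < m → lam < |Lk a p i|} = Set.univ := by
      ext p
      simp only [Set.mem_ofPred_eq, Set.mem_univ, iff_true]
      intro h2 h3
      exact absurd ⟨h2, h3⟩ h
    rw [this]
    exact MeasurableSet.univ

theorem G2_vol {a l : ℝ} (hl : l0 ≤ l) (hla : l ≤ |a|) {m : ℕ} (hm : 1 ≤ m) :
    volume (G2 a (2 * l) m) ≤ ENNReal.ofReal (2 * (2 * l / |a|) ^ 2) := by
  have hl16 := l0_ge.trans hl
  have hl0 : 0 < l := by linarith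
  have ha0 : 0 < |a| := by linarith
  obtain ⟨m, rfl⟩ := Nat.exists_eq_add_of_le' hm
  set f : ℝ → ℝ := fun x => 1 - rho (L a x / (2 * l)) with hf
  have hfc : Continuous f := continuous_const.sub (rho_cont.comp ((L_cont a).div_const _))
  have hfp : Periodic f 1 := by
    intro x
    rw [hf]
    simp only
    rw [L_periodic]
  have hf0 : ∀ x, 0 ≤ f x := by
    intro x
    have := rho_le_one (L a x / (2 * l))
    rw [hf]
    simp only
    linarith
  have hfint : ∫ x in (0:ℝ)..1, f x ≤ 2 * l / |a| := kappa_le ha0 (by linarith)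
  have hfi0 : 0 ≤ ∫ x in (0:ℝ)..1, f x := intervalIntegral.integral_nonneg zero_le_one fun x _ => hf0 x
  set F : T2 → ℝ := fun p => (1 - rho (Lk a p 0 / (2 * l))) *
    (chiT a l m p * (1 - rho (Lk a p (m + 1) / (2 * l)))) with hF
  have hFc : Continuous F := by
    have k1 := rho_cont.comp ((Lk_cont a 0).div_const (2 * l))
    have k2 := rho_cont.comp ((Lk_cont a (m + 1)).div_const (2 * l))
    exact (continuous_const.sub k1).mul ((chiT_cont a l m).mul (continuous_const.sub k2))
  have hF0 : ∀ p, 0 ≤ F p := by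
    intro p
    have h1 := rho_le_one (Lk a p 0 / (2 * l))
    have h2 := rho_le_one (Lk a p (m + 1) / (2 * l))
    have h3 := chiT_nonneg a l m p
    apply mul_nonneg (by linarith)
    apply mul_nonneg h3 (by linarith)
  have h1 : volume.real (G2 a (2 * l) (m + 1)) ≤ 2 * (2 * l / |a|) ^ 2 := by
    rw [← integral_indicator_one (G2_meas _ _ _)]
    have h2 : ∫ p, (G2 a (2 * l) (m + 1)).indicator (1 : T2 → ℝ) p ≤ ∫ p, F p := by
      apply integral_mono
      · exact (integrable_const (1:ℝ)).indicator (G2_meas _ _ _)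
      · exact integrable_cont hFc
      · intro p
        simp only
        by_cases hp : p ∈ G2 a (2 * l) (m + 1)
        · rw [Set.indicator_of_mem hp]
          obtain ⟨q1, q2, q3⟩ := hp
          have e1 : rho (Lk a p 0 / (2 * l)) = 0 := by
            apply rho_zero'
            rw [abs_div, abs_of_pos (by linarith : 0 < 2 * l), div_le_one (by linarith)]
            exact q1
          have e2 : rho (Lk a p (m + 1) / (2 * l)) = 0 := by
            apply rho_zero'
            rw [abs_div, abs_of_pos (by linarith : 0 < 2 * l), div_le_one (by linarith)]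
            exact q2
          have e3 : chiT a l m p = 1 := chiT_one hl0 fun i h1 h2 => q3 i h1 (by omega)
          rw [hF]
          simp only
          rw [e1, e2, e3]
          simp
        · rw [Set.indicator_of_notMem hp]
          exact hF0 p
    refine h2.trans ?_
    rw [int_T2 F (integrable_cont hFc)]
    have h3 : ∀ s t : ℝ, F ((t : UnitAddCircle), (s : UnitAddCircle)) =
        f s * (chi a l s m t * f (X a s (m + 1) t)) := by
      intro s t
      rw [hF]
      simp only
      rw [Lk_coe, Lk_coe, chiT_coe]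
      rfl
    simp only [h3]
    have h4 : ∀ s : ℝ, ∫ t in (0:ℝ)..1, f s * (chi a l s m t * f (X a s (m + 1) t)) ≤
        f s * (2 * (2 * l / |a|)) := by
      intro s
      rw [intervalIntegral.integral_const_mul]
      apply mul_le_mul_of_nonneg_left _ (hf0 s)
      have := dens hl hla s m hfc hfp hf0
      linarith
    have hcont : Continuous (fun s : ℝ => ∫ t in (0:ℝ)..1, f s * (chi a l s m t * f (X a s (m + 1) t))) := by
      apply intervalIntegral.continuous_parametric_intervalIntegral_of_continuous' (f := fun s t =>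
        f s * (chi a l s m t * f (X a s (m + 1) t)))
      have hchi : Continuous (fun p : ℝ × ℝ => chi a l p.1 m p.2) := by
        have e : (fun p : ℝ × ℝ => chi a l p.1 m p.2) =
            fun p : ℝ × ℝ => chiT a l m ((p.2 : UnitAddCircle), (p.1 : UnitAddCircle)) := by
          funext p
          rw [chiT_coe]
        rw [e]
        have hmk : Continuous (fun x : ℝ => (x : UnitAddCircle)) := AddCircle.continuous_mk' 1
        exact (chiT_cont a l m).comp ((hmk.comp continuous_snd).prodMk (hmk.comp continuous_fst))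
      exact (hfc.comp continuous_fst).mul (hchi.mul (hfc.comp (X_cont a (m + 1))))
    calc ∫ s in (0:ℝ)..1, ∫ t in (0:ℝ)..1, f s * (chi a l s m t * f (X a s (m + 1) t)) ≤
        ∫ s in (0:ℝ)..1, f s * (2 * (2 * l / |a|)) := by
          apply intervalIntegral.integral_mono_on zero_le_one (hcont.intervalIntegrable _ _)
            ((hfc.mul continuous_const).intervalIntegrable _ _)
          intro s _
          exact h4 s
      _ = (∫ s in (0:ℝ)..1, f s) * (2 * (2 * l / |a|)) := by
          rw [intervalIntegral.integral_mul_const]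
      _ ≤ (2 * l / |a|) * (2 * (2 * l / |a|)) := mul_le_mul_of_nonneg_right hfint (by positivity)
      _ = _ := by ring
  rw [← ENNReal.ofReal_toReal (measure_ne_top volume (G2 a (2 * l) (m + 1)))]
  exact ENNReal.ofReal_le_ofReal h1

/-- the continued fraction on the torus -/
noncomputable def WT (μ a : ℝ) (p : T2) (j r : ℕ) : ℝ := wb μ (fun i => Lk a p i) j r

theorem hh_cont {μ : ℝ} (hμ : 0 < μ) : Continuous (hh μ) :=
  continuous_iff_continuousAt.2 fun t => (hh_hasDeriv hμ t).continuousAt

theorem WT_cont {μ : ℝ} (hμ : 0 < μ) (a : ℝ) (r : ℕ) : ∀ j, Continuous (fun p => WT μ a p j r) := by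
  induction r with
  | zero => intro j; exact continuous_const
  | succ r ih =>
    intro j
    exact (hh_cont hμ).comp ((Lk_cont a j).sub (ih (j + 1)))

theorem WT_coe (μ a s t : ℝ) (j r : ℕ) :
    WT μ a ((t : UnitAddCircle), (s : UnitAddCircle)) j r = wX μ a s j r t := by
  unfold WT wX
  simp only [Lk_coe]

/-- bad directions -/
def G3 (μ a : ℝ) (r : ℕ) (m ς : ℝ) : Set T2 :=
  {p | |Lk a p 0| ≤ m ∧ |Lk a p 1| ≤ 4 * μ ∧ |Lk a p 1 - WT μ a p 2 r| ≤ ς}

theorem G3_meas {μ : ℝ} (hμ : 0 < μ) (a : ℝ) (r : ℕ) (m ς : ℝ) : MeasurableSet (G3 μ a r m ς) := by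
  have h1 := (Lk_cont a 0).abs.measurable
  have h2 := (Lk_cont a 1).abs.measurable
  have h3 := ((Lk_cont a 1).sub (WT_cont hμ a r 2)).abs.measurable
  exact (measurableSet_le h1 measurable_const).inter ((measurableSet_le h2 measurable_const).inter
    (measurableSet_le h3 measurable_const))

theorem vol_circle {B : Set UnitAddCircle} (hB : MeasurableSet B) :
    volume B = volume {t : ℝ | t ∈ Set.Ioc (0:ℝ) 1 ∧ (t : UnitAddCircle) ∈ B} := by
  have h1 := (UnitAddCircle.measurePreserving_mk 0).measure_preimage hB.nullMeasurableSet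
  rw [zero_add, Measure.restrict_apply' measurableSet_Ioc] at h1
  rw [← h1]
  congr 1
  ext t
  simp only [Set.mem_inter_iff, Set.mem_preimage, Set.mem_ofPred_eq]
  tauto

theorem G3_vol {μ : ℝ} (hμ : 4 * l0 ≤ μ) {a : ℝ} (ha : 8 * μ ≤ |a|) (r : ℕ) {m ς : ℝ} (hm : 16 ≤ m)
    (hς : 0 ≤ ς) : volume (G3 μ a r m ς) ≤ ENNReal.ofReal (m / |a| * (4 * ς / |a|)) := by
  have hl0 := l0_ge
  have hμ0 : 0 < μ := by linarith
  have ha0 : 0 < |a| := by linarith
  have hmeas := G3_meas hμ0 a r m ς
  have h1 : volume (G3 μ a r m ς) = ∫⁻ y : UnitAddCircle,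
      volume ((fun x => (x, y)) ⁻¹' G3 μ a r m ς) := Measure.prod_apply_symm hmeas
  rw [h1]
  have h2 : ∀ y : UnitAddCircle, volume ((fun x => (x, y)) ⁻¹' G3 μ a r m ς) ≤
      (strip a m).indicator (fun _ => ENNReal.ofReal (4 * ς / |a|)) y := by
    intro y
    by_cases hy : y ∈ strip a m
    · rw [Set.indicator_of_mem hy]
      induction y using QuotientAddGroup.induction_on with
      | H s =>
        have hpre : MeasurableSet ((fun x : UnitAddCircle => (x, (s : UnitAddCircle))) ⁻¹'
            G3 μ a r m ς) := (by fun_prop : Measurable (fun x : UnitAddCircle =>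
              (x, (s : UnitAddCircle)))) hmeas
        refine le_trans (le_of_eq (vol_circle hpre)) ?_
        refine le_trans (measure_mono ?_) (slice hμ ha s r hς)
        rintro t ⟨ht, h3⟩
        have h3 : |Lk a ((t : UnitAddCircle), (s : UnitAddCircle)) 0| ≤ m ∧
          |Lk a ((t : UnitAddCircle), (s : UnitAddCircle)) 1| ≤ 4 * μ ∧
          |Lk a ((t : UnitAddCircle), (s : UnitAddCircle)) 1 -
            WT μ a ((t : UnitAddCircle), (s : UnitAddCircle)) 2 r| ≤ ς := h3
        rw [Lk_coe, Lk_coe, WT_coe] at h3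
        exact ⟨ht, h3.2.1, h3.2.2⟩
    · rw [Set.indicator_of_notMem hy]
      have : (fun x => (x, y)) ⁻¹' G3 μ a r m ς = ∅ := by
        rw [Set.eq_empty_iff_forall_notMem]
        intro x hx
        exact hy hx.1
      rw [this, measure_empty]
  calc _ ≤ ∫⁻ y : UnitAddCircle, (strip a m).indicator (fun _ => ENNReal.ofReal (4 * ς / |a|)) y :=
        lintegral_mono h2
    _ = ENNReal.ofReal (4 * ς / |a|) * volume (strip a m) := by
        rw [lintegral_indicator (strip_meas a m), lintegral_const, Measure.restrict_apply_univ]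
    _ ≤ ENNReal.ofReal (4 * ς / |a|) * ENNReal.ofReal (m / |a|) :=
        mul_le_mul_right (strip_vol ha0 hm) _
    _ = _ := by
        rw [← ENNReal.ofReal_mul (by positivity)]
        congr 1
        ring

end Pool.Agent.TH705.SM
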