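import Mathlib
import Pool.Agent.TH705.SM.HypC
import Pool.Agent.TH705.SM.Mix

set_option autoImplicit false

/-!
# Hyperbolicity up to long times
-/

namespace Pool.Agent.TH705.SM

open Real MeasureTheory Function

/-- regularity from the absence of exceptional visits -/
theorem reg_of {μ : ℝ} (hμ : 4 ≤ μ) {u : ℕ → ℝ} {r N : ℕ}
    (b0 : ∀ k, 1 ≤ k → k ≤ r + 1 → 4 * μ < |u k|)
    (b2 : ∀ k m, k ≤ N → m ≤ r → ¬ (|u k| ≤ 4 * μ ∧ |u (k + m + 1)| ≤ 4 * μ ∧
      ∀ i, 1 ≤ i → i < m + 1 → 4 * μ < |u (k + i)|))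
    (b3 : ∀ k, 2 ≤ k → r + 2 ≤ k → k ≤ N → |u k| ≤ 4 * μ → 4 * μ < |u (k + 1)| →
      2 / |u (k + 1)| + (1 / μ) ^ (r + 1) ≤ |u k - wf μ u k r|) : Reg u (4 * μ) N := by
  have b1 : ∀ k, 1 ≤ k → k ≤ N → |u k| ≤ 4 * μ → 4 * μ < |u (k + 1)| := by
    intro k _ hk2 hk
    by_contra hcon
    exact b2 k 0 hk2 (Nat.zero_le _) ⟨hk, not_lt.1 hcon, fun i h1 h2 => by omega⟩
  have key : ∀ M, M ≤ N → Reg u (4 * μ) M := by
    intro M
    induction M with
    | zero =>
      intro _
      exact ⟨b0 1 le_rfl (by omega), fun k h1 h2 => by omega, fun k h1 h2 => by omega⟩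
    | succ M ih =>
      intro hM
      have hR := ih (by omega)
      refine ⟨hR.h0, fun k h1 h2 => b1 k h1 (h2.trans hM), fun k h1 h2 hk => ?_⟩
      rcases Nat.lt_or_ge k (M + 1) with h3 | h3
      · exact hR.h3 k h1 (by omega) hk
      · have hkM : k = M + 1 := by omega
        have hkr : r + 2 ≤ k := by
          by_contra hcon
          exact absurd (b0 k (by omega) (by omega)) (not_lt.2 hk)
        have hk1 := b1 k (by omega) (by omega) hk
        have hnc : ∀ j, k ≤ j + r + 1 → j < k → 4 * μ < |u j| := by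
          intro j hj1 hj2
          by_contra hcon
          rw [not_lt] at hcon
          classical
          have hex : ∃ m, 1 ≤ m ∧ m ≤ r + 1 ∧ |u (k - m)| ≤ 4 * μ := by
            refine ⟨k - j, by omega, by omega, ?_⟩
            have : k - (k - j) = j := by omega
            rw [this]
            exact hcon
          obtain ⟨m1, m2, m3⟩ := Nat.find_spec hex
          set m := Nat.find hex with hm
          have hmin : ∀ i, i < m → ¬ (1 ≤ i ∧ i ≤ r + 1 ∧ |u (k - i)| ≤ 4 * μ) :=
            fun i hi => Nat.find_min hex hi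
          apply b2 (k - m) (m - 1) (by omega) (by omega)
          refine ⟨m3, ?_, ?_⟩
          · have : k - m + (m - 1) + 1 = k := by omega
            rw [this]
            exact hk
          · intro i hi1 hi2
            have h5 := hmin (m - i) (by omega)
            by_contra hcon2
            apply h5
            refine ⟨by omega, by omega, ?_⟩
            have : k - (m - i) = k - m + i := by omega
            rw [this]
            exact not_lt.1 hcon2
        have hR' : Reg u (4 * μ) (k - 1) := hR.mono (by omega)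
        exact hR'.h3_of hμ hkr hnc hk1 (b3 k h1 hkr (by omega) hk hk1)
  exact key N le_rfl

theorem LC_le {a : ℝ} (ha : 2 ≤ |a|) (x : UnitAddCircle) : |LC a x| ≤ 8 * |a| := by
  obtain ⟨y, rfl⟩ := exists_real x
  rw [LC_coe]
  unfold L
  have hpi := pi_lt_d2
  have hpi0 := pi_pos
  have h1 : |2 * π * a * cos (2 * π * y)| ≤ 2 * π * |a| := by
    rw [abs_mul, abs_mul, abs_of_pos (by positivity : 0 < 2 * π)]
    calc 2 * π * |a| * |cos (2 * π * y)| ≤ 2 * π * |a| * 1 :=
          mul_le_mul_of_nonneg_left (abs_cos_le_one _) (by positivity)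
      _ = _ := mul_one _
  have h2 := abs_add_le 2 (2 * π * a * cos (2 * π * y))
  rw [abs_of_pos (by norm_num : (0:ℝ) < 2)] at h2
  nlinarith

theorem Lk_le {a : ℝ} (ha : 2 ≤ |a|) (p : T2) (k : ℕ) : |Lk a p k| ≤ 8 * |a| := LC_le ha _

theorem Lk_set_vol {a m : ℝ} (ha : 0 < |a|) (hm : 16 ≤ m) (k : ℕ) :
    volume {p : T2 | |Lk a p k| ≤ m} ≤ ENNReal.ofReal (m / |a|) := by
  have h7 : MeasurePreserving (Prod.snd : T2 → UnitAddCircle) volume volume :=
    measurePreserving_snd
  have h8 := h7.comp (iter_mp a k)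
  have h9 := h8.measure_preimage (strip_meas a m).nullMeasurableSet
  have e : {p : T2 | |Lk a p k| ≤ m} = (Prod.snd ∘ (S a)^[k]) ⁻¹' strip a m := rfl
  rw [e, h9]
  exact strip_vol ha hm

/-- the number of small entries -/
theorem cnt_vol {a c : ℝ} (ha : 0 < |a|) (hc : 16 ≤ c) (n : ℕ) {x : ℝ} (hx : 0 < x) :
    volume {p : T2 | x < (cnt (fun k => Lk a p k) c n : ℝ)} ≤
      ENNReal.ofReal (n * (c / |a|) / x) := by
  classical
  set f : T2 → ENNReal := fun p => ∑ k ∈ Finset.Icc 1 n,
    ({p : T2 | |Lk a p k| < c}.indicator (fun _ => (1 : ENNReal)) p) with hf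
  have hmk : ∀ k, MeasurableSet {p : T2 | |Lk a p k| < c} := fun k =>
    measurableSet_lt (Lk_cont a k).abs.measurable measurable_const
  have hfe : ∀ p, f p = (cnt (fun k => Lk a p k) c n : ENNReal) := by
    intro p
    rw [hf]
    simp only
    unfold cnt
    rw [Finset.card_filter, Nat.cast_sum]
    apply Finset.sum_congr rfl
    intro k _
    by_cases h : |Lk a p k| < c
    · rw [Set.indicator_of_mem (show p ∈ {p : T2 | |Lk a p k| < c} from h)]
      simp [h]
    · rw [Set.indicator_of_notMem (show p ∉ {p : T2 | |Lk a p k| < c} from h)]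
      simp [h]
  have hfm : Measurable f := by
    apply Finset.measurable_fun_sum
    intro k _
    exact measurable_const.indicator (hmk k)
  have hint : ∫⁻ p, f p ≤ ENNReal.ofReal (n * (c / |a|)) := by
    rw [hf, lintegral_finsetSum _ (fun k _ => measurable_const.indicator (hmk k))]
    calc ∑ k ∈ Finset.Icc 1 n, ∫⁻ p, {p : T2 | |Lk a p k| < c}.indicator (fun _ => 1) p ≤
        ∑ k ∈ Finset.Icc 1 n, ENNReal.ofReal (c / |a|) := by
          apply Finset.sum_le_sum
          intro k _
          rw [lintegral_indicator (hmk k), lintegral_const, one_mul, Measure.restrict_apply_univ]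
          refine (measure_mono ?_).trans (Lk_set_vol ha hc k)
          intro p hp
          have hp : |Lk a p k| < c := hp
          exact le_of_lt hp
      _ = _ := by
          rw [Finset.sum_const, Nat.card_Icc, Nat.add_sub_cancel, nsmul_eq_mul,
            ENNReal.ofReal_mul (by positivity), ENNReal.ofReal_natCast]
  have hsub : {p : T2 | x < (cnt (fun k => Lk a p k) c n : ℝ)} ⊆
      {p | ENNReal.ofReal x ≤ f p} := by
    intro p hp
    have hp : x < (cnt (fun k => Lk a p k) c n : ℝ) := hp
    show ENNReal.ofReal x ≤ f p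
    rw [hfe, ← ENNReal.ofReal_natCast]
    exact ENNReal.ofReal_le_ofReal hp.le
  refine (measure_mono hsub).trans ?_
  refine (meas_ge_le_lintegral_div hfm.aemeasurable (by simpa using hx) ENNReal.ofReal_ne_top).trans ?_
  rw [ENNReal.ofReal_div_of_pos hx]
  exact ENNReal.div_le_div_right hint _

/-- the reversed orbit -/
theorem Lk_swap (a : ℝ) (p : T2) (k i : ℕ) (hi : i ≤ k) :
    Lk a (Prod.swap ((S a)^[k] p)) i = Lk a p (k + 1 - i) := by
  unfold Lk
  rw [S_iter_swap]
  obtain ⟨j, rfl⟩ := Nat.exists_eq_add_of_le hi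
  rw [iterate_add_apply, Si_iter_S_iter, Prod.snd_swap]
  have e : i + j + 1 - i = j + 1 := by omega
  rw [e, iterate_succ_apply']
  rfl

/-- **the exceptional set** -/
theorem bad_set {μ : ℝ} (hμ : 4 * l0 ≤ μ) {a : ℝ} (ha : 8 * μ ≤ |a|) {r N J I : ℕ} {Q δ : ℝ}
    (hτ : (1 / μ) ^ (r + 1) ≤ 1 / |a|) (hQ : 2 * μ < Q) (hJ : 8 * |a| ≤ 4 * μ * 2 ^ J)
    (hJ' : ∀ j < J, 4 * μ * 2 ^ j < 8 * |a|) (hI : N < 2 ^ I) (hδ : 0 < δ) :
    ∃ B : Set T2, volume B ≤ ENNReal.ofReal ((r + 2) * (4 * μ / |a|) +
        (N + 1) * (r + 1) * (2 * (4 * μ / |a|) ^ 2) + (N + 1) * J * (80 / |a| ^ 2) +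
        I * (4 * Q / (δ * |a|))) ∧
      ∀ p ∉ B, Reg (fun k => Lk a p k) (4 * μ) N ∧
        ∀ n, 1 ≤ n → n ≤ N → (cnt (fun k => Lk a p k) (2 * Q) n : ℝ) ≤ δ * n := by
  classical
  have hl0 := l0_ge
  have hμ0 : 0 < μ := by linarith
  have ha0 : 0 < |a| := by linarith
  have ha2 : 2 ≤ |a| := by linarith
  set τ := (1 / μ) ^ (r + 1) with hτd
  have hτ0 : 0 ≤ τ := by positivity
  set mj : ℕ → ℝ := fun j => 4 * μ * 2 ^ (j + 1) with hmj
  set ςj : ℕ → ℝ := fun j => 4 / mj j + τ with hςj
  have hmj16 : ∀ j, 16 ≤ mj j := by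
    intro j
    rw [hmj]
    simp only
    have : (1:ℝ) ≤ 2 ^ (j + 1) := one_le_pow₀ (by norm_num)
    nlinarith
  have hςj0 : ∀ j, 0 ≤ ςj j := by
    intro j
    have := hmj16 j
    have : 0 < mj j := by linarith
    rw [hςj]
    positivity
  set B0 : Set T2 := ⋃ k ∈ Finset.range (r + 2), {p : T2 | |Lk a p k| ≤ 4 * μ} with hB0
  set B2 : Set T2 := ⋃ k ∈ Finset.range (N + 1), ⋃ m ∈ Finset.range (r + 1),
    (S a)^[k] ⁻¹' (G2 a (4 * μ) (m + 1)) with hB2
  set B3 : Set T2 := ⋃ k ∈ Finset.range (N + 1), ⋃ j ∈ Finset.range J,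
    (fun p => Prod.swap ((S a)^[k] p)) ⁻¹' (G3 μ a r (mj j) (ςj j)) with hB3
  set B4 : Set T2 := ⋃ i ∈ Finset.range I,
    {p : T2 | δ * 2 ^ i < (cnt (fun k => Lk a p k) (2 * Q) (2 ^ (i + 1)) : ℝ)} with hB4
  have v0 : volume B0 ≤ ENNReal.ofReal ((r + 2) * (4 * μ / |a|)) := by
    refine (measure_biUnion_finset_le _ _).trans ?_
    calc _ ≤ ∑ k ∈ Finset.range (r + 2), ENNReal.ofReal (4 * μ / |a|) :=
          Finset.sum_le_sum fun k _ => Lk_set_vol ha0 (by linarith) k
      _ = _ := by
          rw [Finset.sum_const, Finset.card_range, nsmul_eq_mul, ENNReal.ofReal_mul (by positivity)]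
          congr 1
          rw [← ENNReal.ofReal_natCast]
          push_cast
          rfl
  have v2 : volume B2 ≤ ENNReal.ofReal ((N + 1) * (r + 1) * (2 * (4 * μ / |a|) ^ 2)) := by
    have hG : ∀ k m, volume ((S a)^[k] ⁻¹' (G2 a (4 * μ) (m + 1))) ≤
        ENNReal.ofReal (2 * (4 * μ / |a|) ^ 2) := by
      intro k m
      rw [(iter_mp a k).measure_preimage (G2_meas _ _ _).nullMeasurableSet]
      have := G2_vol (a := a) (l := 2 * μ) (by linarith) (by linarith) (m := m + 1) (by omega)
      have e : 2 * (2 * μ) = 4 * μ := by ring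
      rw [e] at this
      exact this
    refine (measure_biUnion_finset_le _ _).trans ?_
    calc _ ≤ ∑ k ∈ Finset.range (N + 1), ∑ m ∈ Finset.range (r + 1),
          ENNReal.ofReal (2 * (4 * μ / |a|) ^ 2) :=
          Finset.sum_le_sum fun k _ => (measure_biUnion_finset_le _ _).trans
            (Finset.sum_le_sum fun m _ => hG k m)
      _ = _ := by
          rw [Finset.sum_const, Finset.sum_const, Finset.card_range, Finset.card_range,
            nsmul_eq_mul, nsmul_eq_mul, ← ENNReal.ofReal_natCast, ← ENNReal.ofReal_natCast,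
            ← ENNReal.ofReal_mul (by positivity), ← ENNReal.ofReal_mul (by positivity)]
          congr 1
          push_cast
          ring
  have v3 : volume B3 ≤ ENNReal.ofReal ((N + 1) * J * (80 / |a| ^ 2)) := by
    have hG : ∀ k, ∀ j ∈ Finset.range J, volume ((fun p => Prod.swap ((S a)^[k] p)) ⁻¹'
        (G3 μ a r (mj j) (ςj j))) ≤ ENNReal.ofReal (80 / |a| ^ 2) := by
      intro k j hj
      have hmp : MeasurePreserving (fun p : T2 => Prod.swap ((S a)^[k] p)) volume volume :=
        swap_mp.comp (iter_mp a k)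
      rw [hmp.measure_preimage (G3_meas hμ0 _ _ _ _).nullMeasurableSet]
      refine (G3_vol hμ ha r (hmj16 j) (hςj0 j)).trans (ENNReal.ofReal_le_ofReal ?_)
      have hj' := hJ' j (Finset.mem_range.1 hj)
      have h1 : mj j ≤ 16 * |a| := by
        rw [hmj]
        simp only
        rw [pow_succ]
        linarith
      have hmp : 0 < mj j := by
        have := hmj16 j
        linarith
      have e : mj j / |a| * (4 * ςj j / |a|) = 4 * (4 + mj j * τ) / |a| ^ 2 := by
        rw [hςj]
        simp only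
        field_simp
      rw [e]
      apply div_le_div_of_nonneg_right _ (by positivity)
      have h2 : mj j * τ ≤ 16 * |a| * (1 / |a|) := mul_le_mul h1 hτ hτ0 (by positivity)
      have h3 : 16 * |a| * (1 / |a|) = 16 := by field_simp
      linarith
    refine (measure_biUnion_finset_le _ _).trans ?_
    calc _ ≤ ∑ k ∈ Finset.range (N + 1), ∑ j ∈ Finset.range J, ENNReal.ofReal (80 / |a| ^ 2) :=
          Finset.sum_le_sum fun k _ => (measure_biUnion_finset_le _ _).trans
            (Finset.sum_le_sum fun j hj => hG k j hj)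
      _ = _ := by
          rw [Finset.sum_const, Finset.sum_const, Finset.card_range, Finset.card_range,
            nsmul_eq_mul, nsmul_eq_mul, ← ENNReal.ofReal_natCast, ← ENNReal.ofReal_natCast,
            ← ENNReal.ofReal_mul (by positivity), ← ENNReal.ofReal_mul (by positivity)]
          congr 1
          push_cast
          ring
  have v4 : volume B4 ≤ ENNReal.ofReal (I * (4 * Q / (δ * |a|))) := by
    refine (measure_biUnion_finset_le _ _).trans ?_
    calc _ ≤ ∑ i ∈ Finset.range I, ENNReal.ofReal (4 * Q / (δ * |a|)) := by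
          apply Finset.sum_le_sum
          intro i _
          refine (cnt_vol (c := 2 * Q) ha0 (by linarith) (2 ^ (i + 1)) (x := δ * 2 ^ i)
            (by positivity)).trans (le_of_eq ?_)
          congr 1
          push_cast
          rw [pow_succ]
          field_simp
          ring
      _ = _ := by
          rw [Finset.sum_const, Finset.card_range, nsmul_eq_mul, ENNReal.ofReal_mul (by positivity),
            ENNReal.ofReal_natCast]
  refine ⟨B0 ∪ B2 ∪ B3 ∪ B4, ?_, ?_⟩
  · have hQ0 : 0 < Q := by linarith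
    refine (measure_union_le _ _).trans ?_
    rw [ENNReal.ofReal_add (by positivity) (by positivity)]
    refine add_le_add ((measure_union_le _ _).trans ?_) v4
    rw [ENNReal.ofReal_add (by positivity) (by positivity)]
    refine add_le_add ((measure_union_le _ _).trans ?_) v3
    rw [ENNReal.ofReal_add (by positivity) (by positivity)]
    exact add_le_add v0 v2
  · intro p hp
    simp only [Set.mem_union, not_or] at hp
    obtain ⟨⟨⟨p0, p2⟩, p3⟩, p4⟩ := hp
    rw [hB0] at p0
    rw [hB2] at p2
    rw [hB3] at p3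
    rw [hB4] at p4
    simp only [Set.mem_iUnion, Finset.mem_range, not_exists] at p0 p2 p3 p4
    constructor
    · apply reg_of (by linarith : 4 ≤ μ) (r := r)
      · intro k _ hk2
        have := p0 k (by omega)
        exact not_le.1 this
      · intro k m hk hm hcon
        have := p2 k (by omega) m (by omega)
        apply this
        obtain ⟨c1, c2, c3⟩ := hcon
        show |Lk a ((S a)^[k] p) 0| ≤ 4 * μ ∧ |Lk a ((S a)^[k] p) (m + 1)| ≤ 4 * μ ∧
          ∀ i, 1 ≤ i → i < m + 1 → 4 * μ < |Lk a ((S a)^[k] p) i|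
        refine ⟨?_, ?_, ?_⟩
        · rw [Lk_shift]
          exact c1
        · rw [Lk_shift, ← add_assoc]
          exact c2
        · intro i hi1 hi2
          rw [Lk_shift]
          exact c3 i hi1 hi2
      · intro k hk1 hk2 hk3 hk4 hk5
        -- the dyadic scale
        have hub := Lk_le ha2 p (k + 1)
        have hex : ∃ i, |Lk a p (k + 1)| ≤ 4 * μ * 2 ^ i := ⟨J, hub.trans hJ⟩
        have hfs := Nat.find_spec hex
        set i := Nat.find hex with hi
        have hmin : ∀ j, j < i → ¬ |Lk a p (k + 1)| ≤ 4 * μ * 2 ^ j :=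
          fun j hj => Nat.find_min hex hj
        have hi0 : i ≠ 0 := by
          intro h0
          rw [h0, pow_zero, mul_one] at hfs
          exact absurd hk5 (not_lt.2 hfs)
        have hiJ : i ≤ J := Nat.find_min' hex (hub.trans hJ)
        obtain ⟨j, hj⟩ := Nat.exists_eq_succ_of_ne_zero hi0
        rw [Nat.succ_eq_add_one] at hj
        have hlow := hmin j (by omega)
        rw [not_le] at hlow
        rw [hj] at hfs
        have h3 := p3 k (by omega) j (by omega)
        have hlast : ¬ |Lk a p k - wf μ (fun k => Lk a p k) k r| ≤ ςj j := by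
          intro hcon
          apply h3
          show |Lk a (Prod.swap ((S a)^[k] p)) 0| ≤ mj j ∧
            |Lk a (Prod.swap ((S a)^[k] p)) 1| ≤ 4 * μ ∧
            |Lk a (Prod.swap ((S a)^[k] p)) 1 - WT μ a (Prod.swap ((S a)^[k] p)) 2 r| ≤ ςj j
          rw [Lk_swap a p k 0 (by omega), Lk_swap a p k 1 (by omega)]
          have e1 : k + 1 - 1 = k := by omega
          have e2 : WT μ a (Prod.swap ((S a)^[k] p)) 2 r = wf μ (fun k => Lk a p k) k r := by
            have := wf_eq_wb μ (fun k => Lk a p k) (fun i => Lk a (Prod.swap ((S a)^[k] p)) i) k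
              (fun j _ hj => Lk_swap a p k j hj) r 0 (by omega)
            rw [Nat.sub_zero, zero_add] at this
            exact this.symm
          rw [e1, e2]
          exact ⟨hfs, hk4, hcon⟩
        rw [not_le] at hlast
        refine le_trans ?_ hlast.le
        rw [hςj]
        simp only
        apply add_le_add _ le_rfl
        have hmjpos : 0 < mj j := by
          have := hmj16 j
          linarith
        have hupos : 0 < |Lk a p (k + 1)| := by linarith
        rw [div_le_div_iff₀ hupos hmjpos, hmj]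
        simp only
        rw [pow_succ]
        linarith
    · intro n hn1 hnN
      -- dyadic
      have hlog : n < 2 ^ I := lt_of_le_of_lt hnN hI
      set i := Nat.log 2 n with hi
      have hi1 : 2 ^ i ≤ n := Nat.pow_log_le_self 2 (by omega)
      have hi2 : n < 2 ^ (i + 1) := Nat.lt_pow_succ_log_self (by norm_num) n
      have hiI : i < I := by
        by_contra hcon
        have : 2 ^ I ≤ 2 ^ i := Nat.pow_le_pow_right (by norm_num) (not_lt.1 hcon)
        omega
      have h4 := p4 i hiI
      rw [Set.mem_ofPred_eq, not_lt] at h4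
      have h5 := cnt_mono (fun k => Lk a p k) (2 * Q) hi2.le
      have h6 : (cnt (fun k => Lk a p k) (2 * Q) n : ℝ) ≤
          (cnt (fun k => Lk a p k) (2 * Q) (2 ^ (i + 1)) : ℝ) := by exact_mod_cast h5
      have h7 : (2:ℝ) ^ i ≤ n := by exact_mod_cast hi1
      have h8 := mul_le_mul_of_nonneg_left h7 hδ.le
      linarith

end Pool.Agent.TH705.SM
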