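import Mathlib
import Pool.Agent.TH705.SM.HypD

set_option autoImplicit false

/-!
# Finite time hyperbolicity: final estimates
-/

namespace Pool.Agent.TH705.SM

open Real MeasureTheory Function

/-- the lift of the standard map -/
noncomputable def Fl (a : ℝ) : ℝ × ℝ → ℝ × ℝ :=
  fun q : ℝ × ℝ => (2 * q.1 - q.2 + a * Real.sin (2 * π * q.1), q.1)

theorem Fl_iter (a s t : ℝ) (n : ℕ) : (Fl a)^[n] (t, s) = (X a s (n + 1) t, X a s n t) := by
  induction n with
  | zero => rfl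
  | succ n ih =>
    rw [iterate_succ_apply', ih]
    rfl

theorem Fl_diff (a : ℝ) (n : ℕ) : Differentiable ℝ ((Fl a)^[n]) := by
  have h : Differentiable ℝ (Fl a) := by
    unfold Fl
    fun_prop
  exact h.iterate n

theorem fderiv_ge (a s t : ℝ) (n : ℕ) :
    max |D a s (n + 1) t| |D a s n t| ≤ ‖fderiv ℝ ((Fl a)^[n]) (t, s)‖ := by
  have h1 : HasDerivAt (fun t : ℝ => (t, s)) ((1:ℝ), (0:ℝ)) t :=
    (hasDerivAt_id t).prodMk (hasDerivAt_const t s)
  have h2 := ((Fl_diff a n) (t, s)).hasFDerivAt.comp_hasDerivAt t h1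
  have h3 : HasDerivAt (fun t : ℝ => (X a s (n + 1) t, X a s n t))
      (D a s (n + 1) t, D a s n t) t := (X_hasDeriv a s (n + 1) t).prodMk (X_hasDeriv a s n t)
  have e : ((Fl a)^[n] ∘ fun t : ℝ => (t, s)) = fun t : ℝ => (X a s (n + 1) t, X a s n t) := by
    funext t
    exact Fl_iter a s t n
  rw [e] at h2
  have h4 := h2.unique h3
  have h5 : ‖((1:ℝ), (0:ℝ))‖ = 1 := by
    rw [Prod.norm_def]
    simp
  have h6 := (fderiv ℝ ((Fl a)^[n]) (t, s)).le_opNorm ((1:ℝ), (0:ℝ))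
  rw [h4, h5, mul_one, Prod.norm_def, norm_eq_abs, norm_eq_abs] at h6
  exact h6

theorem Dq_eq (a s t : ℝ) (k : ℕ) :
    Dq (fun k => Lk a ((t : UnitAddCircle), (s : UnitAddCircle)) k) k = D a s k t := by
  induction k using Nat.strong_induction_on with
  | _ k ih =>
    match k with
    | 0 => rfl
    | 1 => rfl
    | k + 2 =>
      show Lk a _ (k + 1) * Dq _ (k + 1) - Dq _ k = L a (X a s (k + 1) t) * D a s (k + 1) t -
        D a s k t
      rw [Lk_coe, ih (k + 1) (by omega), ih k (by omega)]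

/-- sets of the unit square -/
theorem square_vol (B : Set T2) :
    volume {p : ℝ × ℝ | p ∈ Set.Ioc (0:ℝ) 1 ×ˢ Set.Ioc (0:ℝ) 1 ∧
      (((p.1 : UnitAddCircle), (p.2 : UnitAddCircle)) : T2) ∈ B} ≤ volume B := by
  set B' := toMeasurable volume B with hB'
  have hm : MeasurableSet B' := measurableSet_toMeasurable _ _
  have h1 : MeasurePreserving (Prod.map (fun x : ℝ => (x : UnitAddCircle))
      (fun x : ℝ => (x : UnitAddCircle)))
      ((volume.restrict (Set.Ioc (0:ℝ) (0 + 1))).prod (volume.restrict (Set.Ioc (0:ℝ) (0 + 1))))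
      ((volume : Measure UnitAddCircle).prod volume) :=
    (UnitAddCircle.measurePreserving_mk 0).prod (UnitAddCircle.measurePreserving_mk 0)
  rw [zero_add, Measure.prod_restrict] at h1
  have h2 := h1.measure_preimage hm.nullMeasurableSet
  rw [Measure.restrict_apply' (measurableSet_Ioc.prod measurableSet_Ioc)] at h2
  have h3 : volume B' = volume B := measure_toMeasurable B
  rw [← h3]
  refine le_trans (measure_mono ?_) (le_of_eq h2)
  rintro p ⟨hp1, hp2⟩
  exact ⟨subset_toMeasurable _ _ hp2, hp1⟩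

/-- numerical choice of the parameters -/
theorem final_num {ε : ℝ} (hε : 0 < ε) (hε1 : ε < 1) : ∃ C : ℝ, 0 < C ∧ ∀ a : ℝ, 1 ≤ |a| →
    ∃ B : Set T2, volume B ≤ ENNReal.ofReal (C * |a| ^ (-(ε / 8))) ∧
      ∀ p ∉ B, ∀ n : ℕ, 1 ≤ n → (n : ℝ) ≤ |a| ^ (2 - ε) →
        |a| ^ ((1 - ε) * n) ≤ max |Dq (fun k => Lk a p k) (n + 1)| |Dq (fun k => Lk a p k) n| := by
  set r : ℕ := ⌈4 / ε⌉₊ with hr
  set C' : ℝ := 4 * (r + 2) + 64 * (r + 1) + 2720 / ε + 264 / ε ^ 2 with hC'
  have hl0 := l0_ge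
  have hC'0 : 0 < C' := by positivity
  refine ⟨C' + (2 + 4 * l0), by linarith, fun a ha => ?_⟩
  have ha0 : 0 < |a| := by linarith
  set y := |a| ^ (ε / 8) with hy
  have hy1 : 1 ≤ y := one_le_rpow ha (by positivity)
  have hy0 : 0 < y := by linarith
  have hyinv : |a| ^ (-(ε / 8)) = 1 / y := by
    rw [rpow_neg ha0.le, one_div]
  rw [hyinv]
  rcases lt_or_ge y (2 + 4 * l0) with hsmall | hbig
  · refine ⟨Set.univ, ?_, fun p hp => absurd (Set.mem_univ p) hp⟩
    rw [measure_univ, ← ENNReal.ofReal_one]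
    apply ENNReal.ofReal_le_ofReal
    rw [mul_one_div, le_div_iff₀ hy0]
    linarith
  -- large parameters
  have hy8 : y ^ 8 = |a| ^ ε := by
    rw [hy, ← rpow_natCast, ← rpow_mul ha0.le]
    congr 1
    push_cast
    ring
  have hay8 : y ^ 8 ≤ |a| := by
    rw [hy8]
    calc |a| ^ ε ≤ |a| ^ (1:ℝ) := rpow_le_rpow_of_exponent_le ha hε1.le
      _ = |a| := rpow_one _
  have hy2 : 2 ≤ y := by linarith
  set μ := y ^ 2 with hμ
  set Q := |a| / (2 * y ^ 2) with hQ
  set N := ⌊|a| ^ (2 - ε)⌋₊ with hN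
  have hpow : |a| ^ (2 - ε) = |a| ^ 2 / y ^ 8 := by
    rw [rpow_sub ha0, hy8]
    norm_num
  have hyy : y ≤ y ^ 2 := by
    rw [sq]
    exact le_mul_of_one_le_left hy0.le hy1
  have hμ4 : 4 * l0 ≤ μ := by
    rw [hμ]
    linarith
  have hμ0 : 0 < μ := by positivity
  have hy6 : 8 ≤ y ^ 6 := by
    have := pow_le_pow_left₀ (by norm_num) hy2 6
    linarith
  have ha8 : 8 * μ ≤ |a| := by
    rw [hμ]
    have : y ^ 8 = y ^ 6 * y ^ 2 := by ring
    have h1 : 8 * y ^ 2 ≤ y ^ 6 * y ^ 2 := mul_le_mul_of_nonneg_right hy6 (by positivity)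
    linarith
  have hτ : (1 / μ) ^ (r + 1) ≤ 1 / |a| := by
    rw [div_pow, one_pow]
    apply one_div_le_one_div_of_le ha0
    have h1 : μ ^ (r + 1) = |a| ^ (ε / 4 * (r + 1)) := by
      rw [hμ, hy, ← rpow_natCast, ← rpow_natCast, ← rpow_mul ha0.le, ← rpow_mul ha0.le]
      congr 1
      push_cast
      ring
    rw [h1]
    have h2 : 1 ≤ ε / 4 * (r + 1) := by
      have h3 : 4 / ε ≤ r := Nat.le_ceil _
      have h4 : ε / 4 * (4 / ε) = 1 := by field_simp
      have h5 := mul_le_mul_of_nonneg_left h3 (by positivity : 0 ≤ ε / 4)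
      have h6 : ε / 4 * ((r:ℝ) + 1) = ε / 4 * r + ε / 4 := by ring
      rw [h6]
      linarith
    calc |a| = |a| ^ (1:ℝ) := (rpow_one _).symm
      _ ≤ _ := rpow_le_rpow_of_exponent_le ha h2
  have hQμ : 2 * μ < Q := by
    rw [hQ, lt_div_iff₀ (by positivity), hμ]
    have h1 : 4 < y ^ 4 := by
      have := pow_le_pow_left₀ (by norm_num) hy2 4
      linarith
    have h2 : y ^ 8 = y ^ 4 * y ^ 4 := by ring
    have h3 : 4 * y ^ 4 < y ^ 4 * y ^ 4 := mul_lt_mul_of_pos_right h1 (by positivity)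
    have h4 : 2 * y ^ 2 * (2 * y ^ 2) = 4 * y ^ 4 := by ring
    rw [h4]
    linarith
  -- dyadic scales
  have hexJ : ∃ J : ℕ, 8 * |a| ≤ 4 * μ * 2 ^ J := by
    obtain ⟨J, hJ⟩ := pow_unbounded_of_one_lt (8 * |a|) (by norm_num : (1:ℝ) < 2)
    refine ⟨J, hJ.le.trans ?_⟩
    exact le_mul_of_one_le_left (by positivity) (by linarith)
  classical
  obtain ⟨J, hJ, hJ'⟩ : ∃ J : ℕ, 8 * |a| ≤ 4 * μ * 2 ^ J ∧ ∀ j < J, 4 * μ * 2 ^ j < 8 * |a| :=
    ⟨Nat.find hexJ, Nat.find_spec hexJ, fun j hj => not_le.1 (Nat.find_min hexJ hj)⟩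
  have hlog : Real.log |a| ≤ 8 * y / ε := by
    have h1 := Real.log_le_rpow_div ha0.le (by positivity : 0 < ε / 8)
    have h2 : |a| ^ (ε / 8) / (ε / 8) = 8 * y / ε := by
      rw [← hy]
      field_simp
    linarith
  have hlog2 : (1:ℝ) / 2 < Real.log 2 := by
    have := Real.log_two_gt_d9
    linarith
  have hlog0 : 0 ≤ Real.log |a| := Real.log_nonneg ha
  have hyε : 1 ≤ y / ε := by
    rw [one_le_div hε]
    linarith
  have hJb : (J : ℝ) ≤ 17 * y / ε := by
    rcases Nat.eq_zero_or_pos J with h0 | h0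
    · rw [h0, Nat.cast_zero]
      positivity
    · have h1 := hJ' (J - 1) (by omega)
      have h2 : (2:ℝ) ^ (J - 1) ≤ |a| := by
        have h3 : (2:ℝ) ^ (J - 1) * 8 ≤ 4 * μ * 2 ^ (J - 1) := by
          rw [mul_comm (4 * μ)]
          exact mul_le_mul_of_nonneg_left (by linarith) (by positivity)
        linarith
      have h3 := Real.log_le_log (by positivity) h2
      rw [Real.log_pow, Nat.cast_sub h0, Nat.cast_one] at h3
      have h4 : (J:ℝ) - 1 ≤ 2 * Real.log |a| := by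
        have h5 : (0:ℝ) ≤ (J:ℝ) - 1 := by
          have : (1:ℝ) ≤ J := by exact_mod_cast h0
          linarith
        have h6 := mul_le_mul_of_nonneg_left hlog2.le h5
        linarith
      have h5 : 17 * y / ε = 2 * (8 * y / ε) + y / ε := by ring
      rw [h5]
      linarith
  set I := Nat.log 2 N + 1 with hI
  have hNI : N < 2 ^ I := Nat.lt_pow_succ_log_self (by norm_num) N
  have hpow0 : 0 ≤ |a| ^ (2 - ε) := rpow_nonneg ha0.le _
  have hNle : (N : ℝ) ≤ |a| ^ 2 / y ^ 8 := by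
    rw [← hpow]
    exact Nat.floor_le hpow0
  have hIb : (I : ℝ) ≤ 33 * y / ε := by
    rw [hI]
    push_cast
    have h5 : 33 * y / ε = 4 * (8 * y / ε) + y / ε := by ring
    rw [h5]
    rcases Nat.eq_zero_or_pos N with h0 | h0
    · rw [h0, Nat.log_zero_right, Nat.cast_zero]
      have : 0 ≤ 8 * y / ε := by positivity
      linarith
    · have h1 : 2 ^ Nat.log 2 N ≤ N := Nat.pow_log_le_self 2 (by omega)
      have h2 : (2:ℝ) ^ Nat.log 2 N ≤ |a| ^ 2 := by
        have h3 : ((2 ^ Nat.log 2 N : ℕ) : ℝ) ≤ N := by exact_mod_cast h1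
        push_cast at h3
        have h4 : |a| ^ 2 / y ^ 8 ≤ |a| ^ 2 := div_le_self (by positivity) (one_le_pow₀ hy1)
        linarith
      have h3 := Real.log_le_log (by positivity) h2
      rw [Real.log_pow, Real.log_pow] at h3
      have h4 : (Nat.log 2 N : ℝ) ≤ 4 * Real.log |a| := by
        have h6 : (0:ℝ) ≤ (Nat.log 2 N : ℝ) := Nat.cast_nonneg _
        push_cast at h3
        have h7 := mul_le_mul_of_nonneg_left hlog2.le h6
        linarith
      linarith
  obtain ⟨B, hB, hgood⟩ := bad_set (r := r) (N := N) (J := J) (I := I) (Q := Q) (δ := ε / 4)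
    hμ4 ha8 hτ hQμ hJ hJ' hNI (by positivity)
  refine ⟨B, hB.trans (ENNReal.ofReal_le_ofReal ?_), ?_⟩
  · -- numbers
    have hN1 : (N : ℝ) + 1 ≤ 2 * (|a| ^ 2 / y ^ 8) := by
      have h1 : 1 ≤ |a| ^ 2 / y ^ 8 := by
        rw [one_le_div (by positivity)]
        have h2 : |a| ≤ |a| ^ 2 := by
          rw [sq]
          exact le_mul_of_one_le_left ha0.le ha
        linarith
      linarith
    have hyk : ∀ k : ℕ, 1 ≤ k → 1 / y ^ k ≤ 1 / y := by
      intro k hk
      apply one_div_le_one_div_of_le hy0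
      calc y = y ^ 1 := (pow_one y).symm
        _ ≤ y ^ k := pow_le_pow_right₀ hy1 hk
    have T0 : ((r:ℝ) + 2) * (4 * μ / |a|) ≤ 4 * (r + 2) * (1 / y) := by
      have h1 : 4 * μ / |a| ≤ 4 * (1 / y) := by
        rw [div_le_iff₀ ha0, hμ]
        have h2 : y ^ 2 * y ≤ |a| := by
          have h3 : y ^ 2 * y ≤ y ^ 8 := by
            rw [← pow_succ]
            exact pow_le_pow_right₀ hy1 (by norm_num)
          linarith
        have h3 : 4 * (1 / y) * |a| = 4 * |a| / y := by ring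
        rw [h3, le_div_iff₀ hy0]
        linarith
      have := mul_le_mul_of_nonneg_left h1 (by positivity : 0 ≤ (r:ℝ) + 2)
      linarith
    have T2 : ((N:ℝ) + 1) * (r + 1) * (2 * (4 * μ / |a|) ^ 2) ≤ 64 * (r + 1) * (1 / y) := by
      calc ((N:ℝ) + 1) * (r + 1) * (2 * (4 * μ / |a|) ^ 2) ≤
          (2 * (|a| ^ 2 / y ^ 8)) * (r + 1) * (2 * (4 * μ / |a|) ^ 2) := by
            apply mul_le_mul_of_nonneg_right _ (by positivity)
            exact mul_le_mul_of_nonneg_right hN1 (by positivity)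
        _ = 64 * (r + 1) * (1 / y ^ 4) := by
            rw [hμ]
            field_simp
            ring
        _ ≤ _ := mul_le_mul_of_nonneg_left (hyk 4 (by norm_num)) (by positivity)
    have T3 : ((N:ℝ) + 1) * J * (80 / |a| ^ 2) ≤ 2720 / ε * (1 / y) := by
      calc ((N:ℝ) + 1) * J * (80 / |a| ^ 2) ≤
          (2 * (|a| ^ 2 / y ^ 8)) * (17 * y / ε) * (80 / |a| ^ 2) := by
            apply mul_le_mul_of_nonneg_right _ (by positivity)
            exact mul_le_mul hN1 hJb (Nat.cast_nonneg _) (by positivity)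
        _ = 2720 / ε * (1 / y ^ 7) := by
            field_simp
            norm_num
        _ ≤ _ := mul_le_mul_of_nonneg_left (hyk 7 (by norm_num)) (by positivity)
    have T4 : (I:ℝ) * (4 * Q / (ε / 4 * |a|)) ≤ 264 / ε ^ 2 * (1 / y) := by
      calc (I:ℝ) * (4 * Q / (ε / 4 * |a|)) ≤ (33 * y / ε) * (4 * Q / (ε / 4 * |a|)) :=
            mul_le_mul_of_nonneg_right hIb (by positivity)
        _ = 264 / ε ^ 2 * (1 / y) := by
            rw [hQ]
            field_simp
            norm_num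
    have hfin : C' * (1 / y) ≤ (C' + (2 + 4 * l0)) * (1 / y) := by
      apply mul_le_mul_of_nonneg_right _ (by positivity)
      linarith
    have hsum : C' * (1 / y) = 4 * (r + 2) * (1 / y) + 64 * (r + 1) * (1 / y) +
        2720 / ε * (1 / y) + 264 / ε ^ 2 * (1 / y) := by
      rw [hC']
      ring
    linarith
  · intro p hp n hn1 hnN
    obtain ⟨hR, hcnt⟩ := hgood p hp
    have hnN' : n ≤ N := Nat.le_floor hnN
    have h1 := hR.growth' (by linarith : 16 ≤ 4 * μ) (by linarith : 4 * μ < 2 * Q) hn1 hnN'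
    have h2 := hcnt n hn1 hnN'
    set M := max |Dq (fun k => Lk a p k) (n + 1)| |Dq (fun k => Lk a p k) n| with hM
    set c := cnt (fun k => Lk a p k) (2 * Q) n with hc
    have hQ1 : 1 ≤ Q := by linarith
    have hQ0 : 0 < Q := by linarith
    have hn0 : (0:ℝ) ≤ n := Nat.cast_nonneg n
    have h3 : Q ^ (2 * c) ≤ Q ^ (ε / 2 * n : ℝ) := by
      rw [← rpow_natCast]
      apply rpow_le_rpow_of_exponent_le hQ1
      push_cast
      linarith
    have hM0 : 0 ≤ M := (abs_nonneg _).trans (le_max_left _ _)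
    have h4 : Q ^ ((n:ℝ) - ε / 2 * n) ≤ M := by
      rw [rpow_sub hQ0, div_le_iff₀ (rpow_pos_of_pos hQ0 _), rpow_natCast]
      exact h1.trans (mul_le_mul_of_nonneg_left h3 hM0)
    have h5 : |a| ^ (1 - ε / 2) ≤ Q := by
      have e1 : |a| ^ (1 - ε / 2) = |a| / y ^ 4 := by
        rw [rpow_sub ha0, rpow_one]
        congr 1
        rw [hy, ← rpow_natCast, ← rpow_mul ha0.le]
        congr 1
        push_cast
        ring
      rw [e1, hQ]
      apply div_le_div_of_nonneg_left ha0.le (by positivity)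
      have : y ^ 4 = y ^ 2 * y ^ 2 := by ring
      rw [this]
      apply mul_le_mul_of_nonneg_right _ (by positivity)
      linarith
    have h6 : 0 ≤ (n:ℝ) - ε / 2 * n := by
      have h7 : (n:ℝ) - ε / 2 * n = (1 - ε / 2) * n := by ring
      rw [h7]
      exact mul_nonneg (by linarith) hn0
    refine le_trans ?_ h4
    calc |a| ^ ((1 - ε) * n) ≤ |a| ^ ((1 - ε / 2) * ((n:ℝ) - ε / 2 * n)) := by
          apply rpow_le_rpow_of_exponent_le ha
          have e2 : (1 - ε / 2) * ((n:ℝ) - ε / 2 * n) - (1 - ε) * n = ε ^ 2 / 4 * n := by ring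
          have : 0 ≤ ε ^ 2 / 4 * n := by positivity
          linarith
      _ = (|a| ^ (1 - ε / 2)) ^ ((n:ℝ) - ε / 2 * n) := by rw [rpow_mul ha0.le]
      _ ≤ _ := rpow_le_rpow (rpow_nonneg ha0.le _) h5 h6

end Pool.Agent.TH705.SM
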