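import Pool.Agent.TH705.SM.Corr

set_option autoImplicit false

/-!
# Characteristic functions of Birkhoff sums along horizontal lines
-/

namespace Pool.Agent.TH705.SM

open Real MeasureTheory Function

/-- the phase -/
noncomputable def Ph (a s : ℝ) (φ : ℝ → ℝ) : ℕ → ℝ → ℝ
  | 0, _ => 0
  | m + 1, t => Ph a s φ m t + φ (X a s (m + 1) t)

/-- its derivative -/
noncomputable def Ph' (a s : ℝ) (φ' : ℝ → ℝ) : ℕ → ℝ → ℝ
  | 0, _ => 0
  | m + 1, t => Ph' a s φ' m t + φ' (X a s (m + 1) t) * D a s (m + 1) t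

theorem Ph_hasDeriv (a s : ℝ) {φ φ' : ℝ → ℝ} (d : ∀ x, HasDerivAt φ (φ' x) x) (m : ℕ) (t : ℝ) :
    HasDerivAt (Ph a s φ m) (Ph' a s φ' m t) t := by
  induction m with
  | zero => exact hasDerivAt_const t 0
  | succ m ih => exact ih.add ((d _).comp t (X_hasDeriv a s (m + 1) t))

theorem Ph'_cont (a s : ℝ) {φ' : ℝ → ℝ} (c : Continuous φ') (m : ℕ) :
    Continuous (Ph' a s φ' m) := by
  induction m with
  | zero => exact continuous_const
  | succ m ih => exact ih.add ((c.comp (Xt_cont a s (m + 1))).mul (D_cont a s (m + 1)))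

theorem Ph_cont (a s : ℝ) {φ : ℝ → ℝ} (c : Continuous φ) (m : ℕ) :
    Continuous (Ph a s φ m) := by
  induction m with
  | zero => exact continuous_const
  | succ m ih => exact ih.add (c.comp (Xt_cont a s (m + 1)))

theorem Ph_period (a s : ℝ) {φ : ℝ → ℝ} (p : Periodic φ 1) (m : ℕ) (t : ℝ) :
    Ph a s φ m (t + 1) = Ph a s φ m t := by
  induction m with
  | zero => rfl
  | succ m ih =>
    show Ph a s φ m (t + 1) + φ (X a s (m + 1) (t + 1)) = Ph a s φ m t + φ (X a s (m + 1) t)
    rw [ih, X_period]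
    have := p.nat_mul (m + 1) (X a s (m + 1) t)
    rw [mul_one] at this
    rw [this]

theorem Ph'_le (a s : ℝ) {φ' : ℝ → ℝ} {v : ℝ} (hv : ∀ x, |φ' x| ≤ v) (m : ℕ) (t : ℝ) :
    |Ph' a s φ' m t| ≤ v * SD a s m t := by
  induction m with
  | zero => simp [Ph', SD]
  | succ m ih =>
    show |Ph' a s φ' m t + φ' (X a s (m + 1) t) * D a s (m + 1) t| ≤ v * SD a s (m + 1) t
    unfold SD at ih ⊢
    rw [Finset.sum_range_succ, mul_add]
    refine (abs_add_le _ _).trans (add_le_add ih ?_)
    rw [abs_mul]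
    exact mul_le_mul_of_nonneg_right (hv _) (abs_nonneg _)

theorem SD_nonneg (a s : ℝ) (m : ℕ) (t : ℝ) : 0 ≤ SD a s m t :=
  Finset.sum_nonneg fun _ _ => abs_nonneg _

/-- one step, real form -/
theorem step_real {a l : ℝ} (hl' : l0 ≤ l) (hla : l ≤ |a|) (s : ℝ) (m : ℕ) {φ φ' : ℝ → ℝ}
    (d : ∀ x, HasDerivAt φ (φ' x) x) (c : Continuous φ') (p : Periodic φ 1) {v : ℝ}
    (hv : ∀ x, |φ' x| ≤ v) {g : ℝ → ℝ} (hg : Continuous g) (pg : Periodic g 1)
    (g0 : ∫ x in (0:ℝ)..1, g x = 0) {A : ℝ} (hA : ∀ x, |g x| ≤ A) (θ : ℝ) :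
    |∫ t in (0:ℝ)..1, chi a l s m t * cos (Ph a s φ m t + θ) * g (X a s (m + 1) t)| ≤
      A * ((l0 + 4 * v) / l) := by
  have hl : 16 ≤ l := l0_ge.trans hl'
  have hl0 : 0 < l := by linarith
  have hK := KK_one
  have hv0 : 0 ≤ v := (abs_nonneg _).trans (hv 0)
  have hA0 : 0 ≤ A := (abs_nonneg _).trans (hA 0)
  rcases hA0.eq_or_lt with h0 | hApos
  · have hz : ∀ x, g x = 0 := fun x => abs_nonpos_iff.1 (by rw [h0]; exact hA x)
    simp only [hz, mul_zero, intervalIntegral.integral_zero, abs_zero]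
    rw [← h0, zero_mul]
  obtain ⟨G, hG, hGp, hG1⟩ := prim (f := fun x => 2 * g x / A) (by fun_prop)
    (fun x => by show 2 * g (x + 1) / A = 2 * g x / A; rw [pg x]) (by
      rw [intervalIntegral.integral_div, intervalIntegral.integral_const_mul, g0]; simp) (by
      intro x
      rw [abs_div, abs_mul, abs_of_pos hApos, abs_of_pos (by norm_num : (0:ℝ) < 2),
        div_le_iff₀ hApos]
      have := hA x
      linarith)
  set P : ℝ → ℝ := fun t => cos (Ph a s φ m t + θ) with hP
  set P' : ℝ → ℝ := fun t => -sin (Ph a s φ m t + θ) * Ph' a s φ' m t with hP'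
  have hφc : Continuous φ := continuous_iff_continuousAt.2 fun t => (d t).continuousAt
  have hPhc := Ph_cont a s hφc m
  have hPhc' := Ph'_cont a s c m
  have hPd : ∀ t, HasDerivAt P (P' t) t := by
    intro t
    exact ((Ph_hasDeriv a s d m t).add_const θ).cos
  have hPc : Continuous P := by rw [hP]; fun_prop
  have hP'c : Continuous P' := by rw [hP']; fun_prop
  have hP1 : ∀ t, |P t| ≤ 1 := fun t => abs_cos_le_one _
  have hPp : ∀ t, P (t + 1) = P t := by
    intro t
    rw [hP]
    simp only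
    rw [Ph_period a s p]
  have hP'b : ∀ t, chi a l s m t * |P' t| / |D a s (m + 1) t| ≤ 4 * v / l := by
    intro t
    by_cases hg' : Good a l s m t
    · have hD0 : 0 < |D a s (m + 1) t| := abs_pos.2 (D_ne hl hg')
      have h1 := (growth hl hg' m le_rfl).1
      have h2 := SD_le hl hg'
      have h4 := chi_mem a l s m t
      have h5 : |P' t| ≤ v * SD a s m t := by
        rw [hP']
        simp only
        rw [abs_mul, abs_neg]
        calc |sin (Ph a s φ m t + θ)| * |Ph' a s φ' m t| ≤ 1 * (v * SD a s m t) :=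
              mul_le_mul (abs_sin_le_one _) (Ph'_le a s hv m t) (abs_nonneg _) zero_le_one
          _ = _ := one_mul _
      rw [div_le_iff₀ hD0]
      calc chi a l s m t * |P' t| ≤ 1 * (v * SD a s m t) :=
            mul_le_mul h4.2 h5 (abs_nonneg _) zero_le_one
        _ ≤ v * (2 * |D a s m t|) := by rw [one_mul]; exact mul_le_mul_of_nonneg_left h2 hv0
        _ = 2 * v / l * (l * |D a s m t|) := by field_simp
        _ ≤ 2 * v / l * (2 * |D a s (m + 1) t|) := mul_le_mul_of_nonneg_left h1 (by positivity)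
        _ = _ := by ring
    · rw [(chi_bad hl0 hg').1, zero_mul, zero_div]
      positivity
  have hVc := VV_cont a hl0 s m
  have hibp := ibp2 (a := a) (s := s) hl m hPd hP'c hPp
    (bd := fun t => 104 * KK * π ^ 2 * VV a l s m t + 4 * v / l) (by fun_prop) (fun t =>
      (W'_le2 hl m (hP1 t)).trans (add_le_add le_rfl (hP'b t))) hG (by fun_prop) (fun u n => by
      have := hGp.nat_mul n u
      rwa [mul_one] at this) hG1
  rw [one_mul, intervalIntegral.integral_add (f := fun t => 104 * KK * π ^ 2 * VV a l s m t)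
    (g := fun _ => 4 * v / l) ((continuous_const.mul hVc).intervalIntegrable _ _)
    (continuous_const.intervalIntegrable _ _),
    intervalIntegral.integral_const_mul, intervalIntegral.integral_const, sub_zero, one_smul] at hibp
  have hVV := mul_le_mul_of_nonneg_left (VV_int hl' hla s m)
    (by positivity : 0 ≤ 104 * KK * π ^ 2)
  have hAe : ∫ t in (0:ℝ)..1, chi a l s m t * P t * (2 * g (X a s (m + 1) t) / A / 2) =
      (∫ t in (0:ℝ)..1, chi a l s m t * P t * g (X a s (m + 1) t)) / A := by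
    rw [← intervalIntegral.integral_div]
    apply intervalIntegral.integral_congr
    intro t _
    simp only
    ring
  rw [hAe, abs_div, abs_of_pos hApos, div_le_iff₀ hApos] at hibp
  refine hibp.trans ?_
  rw [mul_comm]
  apply mul_le_mul_of_nonneg_left _ hApos.le
  unfold l0
  rw [add_div]
  have e1 : 104 * KK * π ^ 2 * (1 / l) = 104 * KK * π ^ 2 / l := by ring
  rw [e1] at hVV
  linarith

end Pool.Agent.TH705.SM
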