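import Pool.Agent.TH705.SM.CltA

set_option autoImplicit false

/-!
# Characteristic functions of Birkhoff sums along horizontal lines: the recursion
-/

namespace Pool.Agent.TH705.SM

open Real MeasureTheory Function

/-- the exponential -/
noncomputable def E (x : ℝ) : ℂ := Complex.exp ((x : ℂ) * Complex.I)

theorem E_norm (x : ℝ) : ‖E x‖ = 1 := Complex.norm_exp_ofReal_mul_I x

theorem E_eq (x : ℝ) : E x = (cos x : ℂ) + (sin x : ℂ) * Complex.I := by
  unfold E
  rw [Complex.exp_mul_I, Complex.ofReal_cos, Complex.ofReal_sin]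

theorem E_add (x y : ℝ) : E (x + y) = E x * E y := by
  unfold E
  rw [← Complex.exp_add]
  congr 1
  push_cast
  ring

theorem E_cont : Continuous E := by
  unfold E
  fun_prop

/-- the mean of `exp (i φ)` -/
noncomputable def Lam (φ : ℝ → ℝ) : ℂ := ∫ x in (0:ℝ)..1, E (φ x)

theorem Lam_eq {φ : ℝ → ℝ} (c : Continuous φ) :
    Lam φ = ((∫ x in (0:ℝ)..1, cos (φ x) : ℝ) : ℂ) +
      ((∫ x in (0:ℝ)..1, sin (φ x) : ℝ) : ℂ) * Complex.I := by
  unfold Lam
  have h1 : ∀ x, E (φ x) = ((cos (φ x) : ℝ) : ℂ) + ((sin (φ x) : ℝ) : ℂ) * Complex.I :=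
    fun x => E_eq _
  simp_rw [h1]
  rw [intervalIntegral.integral_add, intervalIntegral.integral_mul_const,
    intervalIntegral.integral_ofReal, intervalIntegral.integral_ofReal]
  · exact Continuous.intervalIntegrable (by fun_prop) _ _
  · exact Continuous.intervalIntegrable (by fun_prop) _ _

theorem Lam_norm (φ : ℝ → ℝ) : ‖Lam φ‖ ≤ 1 := by
  unfold Lam
  have := intervalIntegral.norm_integral_le_of_norm_le_const (a := 0) (b := 1)
    (f := fun x => E (φ x)) (C := 1) (fun x _ => (E_norm _).le)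
  simpa using this

theorem avg_le {h : ℝ → ℝ} (hc : Continuous h) {A : ℝ} (x : ℝ) (hA : ∀ y, |h x - h y| ≤ A) :
    |h x - ∫ y in (0:ℝ)..1, h y| ≤ A := by
  have h1 : h x - ∫ y in (0:ℝ)..1, h y = ∫ y in (0:ℝ)..1, (h x - h y) := by
    rw [intervalIntegral.integral_sub (by simp) (hc.intervalIntegrable _ _),
      intervalIntegral.integral_const]
    simp
  rw [h1]
  have := intervalIntegral.norm_integral_le_of_norm_le_const (a := 0) (b := 1)
    (f := fun y => h x - h y) (C := A) (fun y _ => hA y)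
  simpa using this

theorem cos_lip (x y : ℝ) : |cos x - cos y| ≤ |x - y| := by
  have h := (Convex.norm_image_sub_le_of_norm_hasDerivWithin_le (f := cos) (f' := fun x => -sin x)
    (C := 1) (s := Set.univ) (x := y) (y := x) (fun x _ => (hasDerivAt_cos x).hasDerivWithinAt)
    (fun x _ => by rw [norm_neg, norm_eq_abs]; exact abs_sin_le_one x) convex_univ trivial trivial)
  simpa using h

theorem sin_lip (x y : ℝ) : |sin x - sin y| ≤ |x - y| := by
  have h := (Convex.norm_image_sub_le_of_norm_hasDerivWithin_le (f := sin) (f' := fun x => cos x)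
    (C := 1) (s := Set.univ) (x := y) (y := x) (fun x _ => (hasDerivAt_sin x).hasDerivWithinAt)
    (fun x _ => by rw [norm_eq_abs]; exact abs_cos_le_one x) convex_univ trivial trivial)
  simpa using h

/-- one step, complex form -/
theorem step_c {a l : ℝ} (hl' : l0 ≤ l) (hla : l ≤ |a|) (s : ℝ) (m : ℕ) {φ φ' : ℝ → ℝ}
    (d : ∀ x, HasDerivAt φ (φ' x) x) (c : Continuous φ') (p : Periodic φ 1) {v : ℝ}
    (hv : ∀ x, |φ' x| ≤ v) {A : ℝ} (hA : ∀ x y, |φ x - φ y| ≤ A) :
    ‖∫ t in (0:ℝ)..1, (chi a l s m t : ℂ) * E (Ph a s φ m t) * (E (φ (X a s (m + 1) t)) - Lam φ)‖ ≤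
      4 * (A * ((l0 + 4 * v) / l)) := by
  have hφc : Continuous φ := continuous_iff_continuousAt.2 fun t => (d t).continuousAt
  have hPc := Ph_cont a s hφc m
  have hcc := chi_cont a l s m
  have hXc := Xt_cont a s (m + 1)
  set c1 : ℝ := ∫ x in (0:ℝ)..1, cos (φ x) with hc1
  set c2 : ℝ := ∫ x in (0:ℝ)..1, sin (φ x) with hc2
  set g1 : ℝ → ℝ := fun x => cos (φ x) - c1 with hg1
  set g2 : ℝ → ℝ := fun x => sin (φ x) - c2 with hg2
  have g1c : Continuous g1 := by rw [hg1]; fun_prop
  have g2c : Continuous g2 := by rw [hg2]; fun_prop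
  have g1p : Periodic g1 1 := fun x => by
    show cos (φ (x + 1)) - c1 = cos (φ x) - c1
    rw [p x]
  have g2p : Periodic g2 1 := fun x => by
    show sin (φ (x + 1)) - c2 = sin (φ x) - c2
    rw [p x]
  have g1z : ∫ x in (0:ℝ)..1, g1 x = 0 := by
    rw [hg1, intervalIntegral.integral_sub (Continuous.intervalIntegrable (by fun_prop) _ _)
      (by simp), intervalIntegral.integral_const, ← hc1]
    simp
  have g2z : ∫ x in (0:ℝ)..1, g2 x = 0 := by
    rw [hg2, intervalIntegral.integral_sub (Continuous.intervalIntegrable (by fun_prop) _ _)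
      (by simp), intervalIntegral.integral_const, ← hc2]
    simp
  have g1A : ∀ x, |g1 x| ≤ A := fun x =>
    avg_le (h := fun x => cos (φ x)) (by fun_prop) x fun y => (cos_lip _ _).trans (hA x y)
  have g2A : ∀ x, |g2 x| ≤ A := fun x =>
    avg_le (h := fun x => sin (φ x)) (by fun_prop) x fun y => (sin_lip _ _).trans (hA x y)
  have b11 := step_real hl' hla s m d c p hv g1c g1p g1z g1A 0
  have b12 := step_real hl' hla s m d c p hv g2c g2p g2z g2A 0
  have b21 := step_real hl' hla s m d c p hv g1c g1p g1z g1A (-(π / 2))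
  have b22 := step_real hl' hla s m d c p hv g2c g2p g2z g2A (-(π / 2))
  simp only [add_zero] at b11 b12
  have hsin : ∀ t, cos (Ph a s φ m t + -(π / 2)) = sin (Ph a s φ m t) := by
    intro t
    rw [← sub_eq_add_neg, cos_sub_pi_div_two]
  simp only [hsin] at b21 b22
  set R : ℝ := A * ((l0 + 4 * v) / l) with hR
  have hint : ∀ t, (chi a l s m t : ℂ) * E (Ph a s φ m t) * (E (φ (X a s (m + 1) t)) - Lam φ) =
      ((chi a l s m t * cos (Ph a s φ m t) * g1 (X a s (m + 1) t) -
        chi a l s m t * sin (Ph a s φ m t) * g2 (X a s (m + 1) t) : ℝ) : ℂ) +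
      ((chi a l s m t * cos (Ph a s φ m t) * g2 (X a s (m + 1) t) +
        chi a l s m t * sin (Ph a s φ m t) * g1 (X a s (m + 1) t) : ℝ) : ℂ) * Complex.I := by
    intro t
    rw [Lam_eq hφc, E_eq, E_eq, ← hc1, ← hc2]
    simp only [hg1, hg2]
    push_cast
    ring_nf
    rw [Complex.I_sq]
    ring
  simp_rw [hint]
  have i11 : IntervalIntegrable (fun t => chi a l s m t * cos (Ph a s φ m t) *
      g1 (X a s (m + 1) t)) volume 0 1 := Continuous.intervalIntegrable (by fun_prop) _ _
  have i12 : IntervalIntegrable (fun t => chi a l s m t * cos (Ph a s φ m t) *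
      g2 (X a s (m + 1) t)) volume 0 1 := Continuous.intervalIntegrable (by fun_prop) _ _
  have i21 : IntervalIntegrable (fun t => chi a l s m t * sin (Ph a s φ m t) *
      g1 (X a s (m + 1) t)) volume 0 1 := Continuous.intervalIntegrable (by fun_prop) _ _
  have i22 : IntervalIntegrable (fun t => chi a l s m t * sin (Ph a s φ m t) *
      g2 (X a s (m + 1) t)) volume 0 1 := Continuous.intervalIntegrable (by fun_prop) _ _
  rw [intervalIntegral.integral_add
    (Continuous.intervalIntegrable (by fun_prop) _ _)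
    (Continuous.intervalIntegrable (by fun_prop) _ _), intervalIntegral.integral_mul_const,
    intervalIntegral.integral_ofReal, intervalIntegral.integral_ofReal,
    intervalIntegral.integral_sub i11 i22, intervalIntegral.integral_add i12 i21]
  refine (norm_add_le _ _).trans ?_
  rw [norm_mul, Complex.norm_I, mul_one, Complex.norm_real, Complex.norm_real, norm_eq_abs,
    norm_eq_abs]
  have q1 := abs_sub (∫ t in (0:ℝ)..1, chi a l s m t * cos (Ph a s φ m t) * g1 (X a s (m + 1) t))
    (∫ t in (0:ℝ)..1, chi a l s m t * sin (Ph a s φ m t) * g2 (X a s (m + 1) t))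
  have q2 := abs_add_le (∫ t in (0:ℝ)..1, chi a l s m t * cos (Ph a s φ m t) * g2 (X a s (m + 1) t))
    (∫ t in (0:ℝ)..1, chi a l s m t * sin (Ph a s φ m t) * g1 (X a s (m + 1) t))
  linarith

/-- the loss at one time -/
theorem loss {a l : ℝ} (hl' : l0 ≤ l) (hla : l ≤ |a|) (s : ℝ) (m : ℕ) :
    ∫ t in (0:ℝ)..1, chi a l s m t * (1 - rk a l s (m + 1) t) ≤ 2 * (l / |a|) := by
  have hl : 16 ≤ l := l0_ge.trans hl'
  have hl0 : 0 < l := by linarith
  have hrc : Continuous (fun x => 1 - rho (L a x / l)) :=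
    continuous_const.sub (rho_cont.comp ((L_cont a).div_const l))
  have h1 := dens hl' hla s m hrc (fun x => by
    show 1 - rho (L a (x + 1) / l) = 1 - rho (L a x / l)
    have := L_period a x 1
    rw [Nat.cast_one] at this
    rw [this]) (fun x => sub_nonneg.2 (rho_le_one _))
  have h2 := kappa_le (a := a) (l := l) (by linarith) hl
  refine h1.trans ?_
  linarith

/-- the expectations with cutoffs -/
noncomputable def Zc (a l s : ℝ) (φ : ℝ → ℝ) (m : ℕ) : ℂ :=
  ∫ t in (0:ℝ)..1, (chi a l s m t : ℂ) * E (Ph a s φ m t)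

theorem rec_step {a l : ℝ} (hl' : l0 ≤ l) (hla : l ≤ |a|) (s : ℝ) (m : ℕ) {φ φ' : ℝ → ℝ}
    (d : ∀ x, HasDerivAt φ (φ' x) x) (c : Continuous φ') (p : Periodic φ 1) {v : ℝ}
    (hv : ∀ x, |φ' x| ≤ v) {A : ℝ} (hA : ∀ x y, |φ x - φ y| ≤ A) :
    ‖Zc a l s φ (m + 1) - Lam φ * Zc a l s φ m‖ ≤ 4 * (A * ((l0 + 4 * v) / l)) + 2 * (l / |a|) := by
  have hφc : Continuous φ := continuous_iff_continuousAt.2 fun t => (d t).continuousAt
  have hPc := Ph_cont a s hφc m
  have hcc := chi_cont a l s m
  have hXc := Xt_cont a s (m + 1)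
  have hrc := rk_cont a l s (m + 1)
  have hEc := E_cont
  have e1 : Zc a l s φ (m + 1) - Lam φ * Zc a l s φ m =
      (∫ t in (0:ℝ)..1, (chi a l s m t : ℂ) * E (Ph a s φ m t) *
        (E (φ (X a s (m + 1) t)) - Lam φ)) -
      ∫ t in (0:ℝ)..1, ((chi a l s m t * (1 - rk a l s (m + 1) t) : ℝ) : ℂ) *
        (E (Ph a s φ m t) * E (φ (X a s (m + 1) t))) := by
    unfold Zc
    rw [← intervalIntegral.integral_const_mul, ← intervalIntegral.integral_sub
      (Continuous.intervalIntegrable (by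
        have h1 : Continuous (chi a l s (m + 1)) := chi_cont a l s (m + 1)
        have h2 := Ph_cont a s hφc (m + 1)
        fun_prop) _ _) (Continuous.intervalIntegrable (by fun_prop) _ _),
      ← intervalIntegral.integral_sub (Continuous.intervalIntegrable (by fun_prop) _ _)
        (Continuous.intervalIntegrable (by fun_prop) _ _)]
    apply intervalIntegral.integral_congr
    intro t _
    simp only
    have h1 : chi a l s (m + 1) t = chi a l s m t * rk a l s (m + 1) t := rfl
    have h2 : Ph a s φ (m + 1) t = Ph a s φ m t + φ (X a s (m + 1) t) := rfl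
    rw [h1, h2, E_add]
    push_cast
    ring
  rw [e1]
  refine (norm_sub_le _ _).trans (add_le_add (step_c hl' hla s m d c p hv hA) ?_)
  refine le_trans ?_ (loss hl' hla s m)
  have h3 := intervalIntegral.norm_integral_le_abs_of_norm_le (a := 0) (b := 1) (μ := volume)
    (f := fun t => ((chi a l s m t * (1 - rk a l s (m + 1) t) : ℝ) : ℂ) *
        (E (Ph a s φ m t) * E (φ (X a s (m + 1) t))))
    (g := fun t => chi a l s m t * (1 - rk a l s (m + 1) t))
    (Filter.Eventually.of_forall fun t => by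
      have hr0 : 0 ≤ 1 - rk a l s (m + 1) t := sub_nonneg.2 (rho_le_one _)
      rw [norm_mul, norm_mul, E_norm, E_norm, mul_one, mul_one, Complex.norm_real, norm_eq_abs,
        abs_of_nonneg (mul_nonneg (chi_mem a l s m t).1 hr0)])
    (Continuous.intervalIntegrable (by fun_prop) _ _)
  refine h3.trans (le_of_eq (abs_of_nonneg ?_))
  exact intervalIntegral.integral_nonneg zero_le_one fun t _ =>
    mul_nonneg (chi_mem a l s m t).1 (sub_nonneg.2 (rho_le_one _))

theorem Zc_pow {a l : ℝ} (hl' : l0 ≤ l) (hla : l ≤ |a|) (s : ℝ) {φ φ' : ℝ → ℝ}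
    (d : ∀ x, HasDerivAt φ (φ' x) x) (c : Continuous φ') (p : Periodic φ 1) {v : ℝ}
    (hv : ∀ x, |φ' x| ≤ v) {A : ℝ} (hA : ∀ x y, |φ x - φ y| ≤ A) (n : ℕ) :
    ‖Zc a l s φ n - Lam φ ^ n‖ ≤ n * (4 * (A * ((l0 + 4 * v) / l)) + 2 * (l / |a|)) := by
  induction n with
  | zero =>
    have : Zc a l s φ 0 = 1 := by
      unfold Zc
      simp [chi, Ph, E]
    rw [this]
    simp
  | succ n ih =>
    have h1 := rec_step hl' hla s n d c p hv hA
    have e1 : Zc a l s φ (n + 1) - Lam φ ^ (n + 1) =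
        (Zc a l s φ (n + 1) - Lam φ * Zc a l s φ n) + Lam φ * (Zc a l s φ n - Lam φ ^ n) := by
      ring
    rw [e1]
    refine (norm_add_le _ _).trans ?_
    rw [norm_mul]
    have h2 : ‖Lam φ‖ * ‖Zc a l s φ n - Lam φ ^ n‖ ≤ 1 * ‖Zc a l s φ n - Lam φ ^ n‖ :=
      mul_le_mul_of_nonneg_right (Lam_norm φ) (norm_nonneg _)
    push_cast
    linarith

theorem chi_loss {a l : ℝ} (hl' : l0 ≤ l) (hla : l ≤ |a|) (s : ℝ) (n : ℕ) :
    ∫ t in (0:ℝ)..1, (1 - chi a l s n t) ≤ n * (2 * (l / |a|)) := by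
  induction n with
  | zero => simp [chi]
  | succ n ih =>
    have h1 := loss hl' hla s n
    have hcc := chi_cont a l s n
    have hrc := rk_cont a l s (n + 1)
    have e1 : ∫ t in (0:ℝ)..1, (1 - chi a l s (n + 1) t) =
        (∫ t in (0:ℝ)..1, (1 - chi a l s n t)) +
          ∫ t in (0:ℝ)..1, chi a l s n t * (1 - rk a l s (n + 1) t) := by
      rw [← intervalIntegral.integral_add (Continuous.intervalIntegrable (by fun_prop) _ _)
        (Continuous.intervalIntegrable (by fun_prop) _ _)]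
      apply intervalIntegral.integral_congr
      intro t _
      show 1 - chi a l s n t * rk a l s (n + 1) t = _
      ring
    rw [e1]
    push_cast
    linarith

/-- **product formula for the characteristic function** -/
theorem product {a l : ℝ} (hl' : l0 ≤ l) (hla : l ≤ |a|) (s : ℝ) {φ φ' : ℝ → ℝ}
    (d : ∀ x, HasDerivAt φ (φ' x) x) (c : Continuous φ') (p : Periodic φ 1) {v : ℝ}
    (hv : ∀ x, |φ' x| ≤ v) {A : ℝ} (hA : ∀ x y, |φ x - φ y| ≤ A) (n : ℕ) :
    ‖(∫ t in (0:ℝ)..1, E (Ph a s φ n t)) - Lam φ ^ n‖ ≤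
      n * (4 * (A * ((l0 + 4 * v) / l)) + 4 * (l / |a|)) := by
  have hφc : Continuous φ := continuous_iff_continuousAt.2 fun t => (d t).continuousAt
  have hPc := Ph_cont a s hφc n
  have hcc := chi_cont a l s n
  have hEc := E_cont
  have h1 := Zc_pow hl' hla s d c p hv hA n
  have e1 : (∫ t in (0:ℝ)..1, E (Ph a s φ n t)) - Lam φ ^ n =
      (∫ t in (0:ℝ)..1, ((1 - chi a l s n t : ℝ) : ℂ) * E (Ph a s φ n t)) +
      (Zc a l s φ n - Lam φ ^ n) := by
    unfold Zc
    rw [← add_sub_assoc, ← intervalIntegral.integral_add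
      (Continuous.intervalIntegrable (by fun_prop) _ _)
      (Continuous.intervalIntegrable (by fun_prop) _ _)]
    congr 1
    apply intervalIntegral.integral_congr
    intro t _
    simp only
    push_cast
    ring
  rw [e1]
  refine (norm_add_le _ _).trans ?_
  have h3 := intervalIntegral.norm_integral_le_abs_of_norm_le (a := 0) (b := 1) (μ := volume)
    (f := fun t => ((1 - chi a l s n t : ℝ) : ℂ) * E (Ph a s φ n t))
    (g := fun t => 1 - chi a l s n t)
    (Filter.Eventually.of_forall fun t => by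
      rw [norm_mul, E_norm, mul_one, Complex.norm_real, norm_eq_abs,
        abs_of_nonneg (sub_nonneg.2 (chi_mem a l s n t).2)])
    (Continuous.intervalIntegrable (by fun_prop) _ _)
  rw [abs_of_nonneg (intervalIntegral.integral_nonneg zero_le_one fun t _ =>
    sub_nonneg.2 (chi_mem a l s n t).2)] at h3
  have h4 := chi_loss hl' hla s n
  have e2 : (n : ℝ) * (4 * (A * ((l0 + 4 * v) / l)) + 4 * (l / |a|)) =
    n * (2 * (l / |a|)) + n * (4 * (A * ((l0 + 4 * v) / l)) + 2 * (l / |a|)) := by ring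
  rw [e2]
  linarith

end Pool.Agent.TH705.SM
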