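import Pool.Agent.TH705.SM.CltB

set_option autoImplicit false

/-!
# The central limit theorem with a rate along horizontal lines
-/

namespace Pool.Agent.TH705.SM

open Real MeasureTheory Function

theorem E_taylor (x : ℝ) : ‖E x - (1 + (x : ℂ) * Complex.I - (x : ℂ) ^ 2 / 2)‖ ≤ 4 * |x| ^ 3 := by
  rcases le_or_gt |x| 1 with h | h
  · have h1 : ‖(x : ℂ) * Complex.I‖ ≤ 1 := by
      rw [norm_mul, Complex.norm_I, mul_one, Complex.norm_real, norm_eq_abs]
      exact h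
    have h2 := Complex.exp_bound h1 (n := 3) (by norm_num)
    have h3 : ∑ m ∈ Finset.range 3, ((x : ℂ) * Complex.I) ^ m / (m.factorial : ℂ) =
        1 + (x : ℂ) * Complex.I - (x : ℂ) ^ 2 / 2 := by
      have hI : ((x : ℂ) * Complex.I) ^ 2 = -(x : ℂ) ^ 2 := by
        rw [mul_pow, Complex.I_sq]
        ring
      simp only [Finset.sum_range_succ, Finset.sum_range_zero, Nat.factorial, hI]
      push_cast
      ring
    rw [h3, norm_mul, Complex.norm_I, mul_one, Complex.norm_real, norm_eq_abs] at h2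
    unfold E
    refine h2.trans ?_
    have h4 : 0 ≤ |x| ^ 3 := by positivity
    norm_num [Nat.factorial]
    linarith
  · have h1 : ‖(1 + (x : ℂ) * Complex.I - (x : ℂ) ^ 2 / 2)‖ ≤ 1 + |x| + |x| ^ 2 / 2 := by
      refine (norm_sub_le _ _).trans (add_le_add ((norm_add_le _ _).trans ?_) ?_)
      · rw [norm_one, norm_mul, Complex.norm_I, mul_one, Complex.norm_real, norm_eq_abs]
      · rw [norm_div, norm_pow, Complex.norm_real, norm_eq_abs]
        norm_num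
    refine (norm_sub_le _ _).trans ?_
    rw [E_norm]
    have h2 : |x| ^ 3 = |x| * |x| ^ 2 := by ring
    have h3 : |x| ≤ |x| ^ 2 := by nlinarith
    have h4 : |x| ^ 2 ≤ |x| ^ 3 := by rw [h2]; nlinarith
    linarith

theorem Lam_approx {f : ℝ → ℝ} (hf : Continuous f) (f0 : ∫ x in (0:ℝ)..1, f x = 0) {v : ℝ}
    (f2 : ∫ x in (0:ℝ)..1, f x ^ 2 = v) {M : ℝ} (hM : ∀ x, |f x| ≤ M) (κ : ℝ) :
    ‖Lam (fun x => κ * f x) - (1 - ((κ ^ 2 * v / 2 : ℝ) : ℂ))‖ ≤ 4 * (|κ| * M) ^ 3 := by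
  have hEc := E_cont
  have e1 : (1 - ((κ ^ 2 * v / 2 : ℝ) : ℂ)) = ∫ x in (0:ℝ)..1,
      (1 + ((κ * f x : ℝ) : ℂ) * Complex.I - ((κ * f x : ℝ) : ℂ) ^ 2 / 2) := by
    have e2 : ∀ x, (1 + ((κ * f x : ℝ) : ℂ) * Complex.I - ((κ * f x : ℝ) : ℂ) ^ 2 / 2) =
        ((1 - κ ^ 2 / 2 * f x ^ 2 : ℝ) : ℂ) + ((κ * f x : ℝ) : ℂ) * Complex.I := by
      intro x
      push_cast
      ring
    simp_rw [e2]
    rw [intervalIntegral.integral_add
      (Continuous.intervalIntegrable (by fun_prop) _ _)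
      (Continuous.intervalIntegrable (by fun_prop) _ _), intervalIntegral.integral_mul_const,
      intervalIntegral.integral_ofReal, intervalIntegral.integral_ofReal,
      intervalIntegral.integral_const_mul, f0, intervalIntegral.integral_sub (by simp)
      (Continuous.intervalIntegrable (by fun_prop) _ _), intervalIntegral.integral_const_mul, f2]
    simp
    ring
  rw [e1]
  unfold Lam
  rw [← intervalIntegral.integral_sub (Continuous.intervalIntegrable (by fun_prop) _ _)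
    (Continuous.intervalIntegrable (by fun_prop) _ _)]
  have h := intervalIntegral.norm_integral_le_of_norm_le_const (a := 0) (b := 1)
    (f := fun x => E (κ * f x) -
      (1 + ((κ * f x : ℝ) : ℂ) * Complex.I - ((κ * f x : ℝ) : ℂ) ^ 2 / 2))
    (C := 4 * (|κ| * M) ^ 3) (fun x _ => by
      refine (E_taylor (κ * f x)).trans ?_
      rw [abs_mul]
      have := hM x
      gcongr)
  simpa using h

theorem pow_diff {z w : ℂ} (hz : ‖z‖ ≤ 1) (hw : ‖w‖ ≤ 1) (n : ℕ) :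
    ‖z ^ n - w ^ n‖ ≤ n * ‖z - w‖ := by
  induction n with
  | zero => simp
  | succ n ih =>
    have e1 : z ^ (n + 1) - w ^ (n + 1) = z * (z ^ n - w ^ n) + (z - w) * w ^ n := by ring
    rw [e1]
    refine (norm_add_le _ _).trans ?_
    rw [norm_mul, norm_mul, norm_pow]
    have h1 : ‖z‖ * ‖z ^ n - w ^ n‖ ≤ 1 * ‖z ^ n - w ^ n‖ :=
      mul_le_mul_of_nonneg_right hz (norm_nonneg _)
    have h2 : ‖z - w‖ * ‖w‖ ^ n ≤ ‖z - w‖ * 1 :=
      mul_le_mul_of_nonneg_left (pow_le_one₀ (norm_nonneg _) hw) (norm_nonneg _)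
    push_cast
    linarith

theorem exp_approx {y : ℝ} (hy : 0 ≤ y) : |exp (-y) - (1 - y)| ≤ y ^ 2 := by
  have h1 := add_one_le_exp (-y)
  rw [abs_of_nonneg (by linarith)]
  rcases le_or_gt y 1 with h | h
  · have h2 := Real.exp_bound (x := -y) (by rw [abs_neg, abs_of_nonneg hy]; exact h) (n := 2)
      (by norm_num)
    have h3 : ∑ m ∈ Finset.range 2, (-y) ^ m / (m.factorial : ℝ) = 1 - y := by
      simp only [Finset.sum_range_succ, Finset.sum_range_zero, Nat.factorial]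
      push_cast
      ring
    rw [h3, abs_neg, abs_of_nonneg hy] at h2
    have h4 := le_abs_self (exp (-y) - (1 - y))
    refine (h4.trans h2).trans ?_
    have h5 : 0 ≤ y ^ 2 := by positivity
    norm_num [Nat.factorial]
    linarith
  · have h2 : exp (-y) ≤ 1 := exp_le_one_iff.2 (by linarith)
    nlinarith

theorem Lam_pow {f : ℝ → ℝ} (hf : Continuous f) (f0 : ∫ x in (0:ℝ)..1, f x = 0) {v : ℝ}
    (f2 : ∫ x in (0:ℝ)..1, f x ^ 2 = v) {M : ℝ} (hM : ∀ x, |f x| ≤ M) (κ : ℝ) (n : ℕ) :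
    ‖Lam (fun x => κ * f x) ^ n - ((exp (-(n * (κ ^ 2 * v / 2))) : ℝ) : ℂ)‖ ≤
      n * (4 * (|κ| * M) ^ 3 + (κ ^ 2 * v / 2) ^ 2) := by
  have hv : 0 ≤ v := by
    rw [← f2]
    exact intervalIntegral.integral_nonneg zero_le_one fun x _ => sq_nonneg _
  have hy : 0 ≤ κ ^ 2 * v / 2 := by positivity
  have e1 : ((exp (-(n * (κ ^ 2 * v / 2))) : ℝ) : ℂ) = ((exp (-(κ ^ 2 * v / 2)) : ℝ) : ℂ) ^ n := by
    rw [← Complex.ofReal_pow, ← Real.exp_nat_mul]
    congr 2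
    ring
  rw [e1]
  refine (pow_diff (Lam_norm _) ?_ n).trans ?_
  · rw [Complex.norm_real, norm_eq_abs, abs_of_pos (exp_pos _)]
    exact exp_le_one_iff.2 (by linarith)
  · apply mul_le_mul_of_nonneg_left _ (Nat.cast_nonneg n)
    have e2 : Lam (fun x => κ * f x) - ((exp (-(κ ^ 2 * v / 2)) : ℝ) : ℂ) =
        (Lam (fun x => κ * f x) - (1 - ((κ ^ 2 * v / 2 : ℝ) : ℂ))) -
        (((exp (-(κ ^ 2 * v / 2)) - (1 - κ ^ 2 * v / 2) : ℝ)) : ℂ) := by
      push_cast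
      ring
    rw [e2]
    refine (norm_sub_le _ _).trans (add_le_add (Lam_approx hf f0 f2 hM κ) ?_)
    rw [Complex.norm_real, norm_eq_abs]
    exact exp_approx hy

theorem Ph_sum (a s : ℝ) (f : ℝ → ℝ) (κ : ℝ) (n : ℕ) (t : ℝ) :
    Ph a s (fun x => κ * f x) n t = κ * ∑ k ∈ Finset.range n, f (X a s (k + 1) t) := by
  induction n with
  | zero => simp [Ph]
  | succ n ih =>
    show Ph a s (fun x => κ * f x) n t + κ * f (X a s (n + 1) t) = _
    rw [ih, Finset.sum_range_succ]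
    ring

/-- **the central limit theorem with a rate** -/
theorem clt {M : ℝ} (hM0 : 0 ≤ M) : ∃ C : ℝ, 0 < C ∧ ∀ f f' : ℝ → ℝ,
    (∀ x, HasDerivAt f (f' x) x) → Continuous f' → Periodic f 1 → (∀ x, |f x| ≤ M) →
    (∀ x, |f' x| ≤ M) → ∫ x in (0:ℝ)..1, f x = 0 → ∀ v : ℝ, ∫ x in (0:ℝ)..1, f x ^ 2 = v →
    ∀ a : ℝ, 1 ≤ |a| → ∀ n : ℕ, 1 ≤ n → ∀ s τ : ℝ,
    ‖(∫ t in (0:ℝ)..1, E (τ / √n * ∑ k ∈ Finset.range n, f (X a s (k + 1) t))) -
      ((exp (-(τ ^ 2 * v / 2)) : ℝ) : ℂ)‖ ≤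
      C * (1 + |τ|) ^ 4 * (1 / √n + (n : ℝ) ^ (3 / 4 : ℝ) / |a| ^ (1 / 2 : ℝ)) := by
  have hl0 := l0_ge
  refine ⟨8 * M * (l0 + 4 * M) + 4 + (4 * M ^ 3 + M ^ 4) + 2 * l0, by positivity, ?_⟩
  intro f f' d c p hM hM' f0 v f2 a ha n hn s τ
  have hfc : Continuous f := continuous_iff_continuousAt.2 fun t => (d t).continuousAt
  have hn1 : (1 : ℝ) ≤ n := by exact_mod_cast hn
  have hn0 : (0 : ℝ) < n := by linarith
  have ha0 : 0 < |a| := by linarith
  obtain ⟨r, hr⟩ : ∃ r : ℝ, r = (n : ℝ) ^ (1 / 4 : ℝ) := ⟨_, rfl⟩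
  have hr1 : 1 ≤ r := by rw [hr]; exact Real.one_le_rpow hn1 (by norm_num)
  have hr0 : 0 < r := by linarith
  have hr4 : (n : ℝ) = r ^ 4 := by
    rw [hr, ← Real.rpow_natCast, ← Real.rpow_mul hn0.le]
    norm_num
  have hr2 : √n = r ^ 2 := by
    rw [hr4, show r ^ 4 = (r ^ 2) ^ 2 by ring, Real.sqrt_sq (by positivity)]
  have hr3 : (n : ℝ) ^ (3 / 4 : ℝ) = r ^ 3 := by
    rw [hr, ← Real.rpow_natCast, ← Real.rpow_mul hn0.le]
    norm_num
  obtain ⟨b, hb⟩ : ∃ b : ℝ, b = |a| ^ (1 / 2 : ℝ) := ⟨_, rfl⟩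
  have hb1 : 1 ≤ b := by rw [hb]; exact Real.one_le_rpow ha (by norm_num)
  have hb0 : 0 < b := by linarith
  have hb2 : |a| = b ^ 2 := by
    rw [hb, ← Real.rpow_natCast, ← Real.rpow_mul ha0.le]
    norm_num
  rw [hr3, ← hb, hr2]
  set T : ℝ := 1 + |τ| with hT
  have hτ0 := abs_nonneg τ
  have hT1 : 1 ≤ T := by linarith
  have hT0 : 0 < T := by linarith
  have hτT : |τ| ≤ T := by linarith
  have hv0 : 0 ≤ v := by
    rw [← f2]
    exact intervalIntegral.integral_nonneg zero_le_one fun x _ => sq_nonneg _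
  have hvM : v ≤ M ^ 2 := by
    rw [← f2]
    have h1 : ∫ x in (0:ℝ)..1, f x ^ 2 ≤ ∫ x in (0:ℝ)..1, M ^ 2 := by
      apply intervalIntegral.integral_mono_on zero_le_one
        (Continuous.intervalIntegrable (by fun_prop) _ _) (by simp)
      intro x _
      rw [← sq_abs]
      exact pow_le_pow_left₀ (abs_nonneg _) (hM x) 2
    simpa using h1
  set κ : ℝ := τ / r ^ 2 with hκ
  have hκa : |κ| = |τ| / r ^ 2 := by
    rw [hκ, abs_div, abs_of_pos (by positivity : 0 < r ^ 2)]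
  -- the power against the Gaussian
  have hG := Lam_pow hfc f0 f2 hM κ n
  have hG1 : (n : ℝ) * (κ ^ 2 * v / 2) = τ ^ 2 * v / 2 := by
    rw [hr4, hκ]
    field_simp
  rw [hG1] at hG
  have hG2 : (n : ℝ) * (4 * (|κ| * M) ^ 3 + (κ ^ 2 * v / 2) ^ 2) ≤
      (4 * M ^ 3 + M ^ 4) * T ^ 4 * (1 / r ^ 2) := by
    have g1 : (n : ℝ) * (4 * (|κ| * M) ^ 3) = 4 * M ^ 3 * |τ| ^ 3 * (1 / r ^ 2) := by
      rw [hr4, hκa]
      field_simp
    have g2 : (n : ℝ) * (κ ^ 2 * v / 2) ^ 2 = v ^ 2 * |τ| ^ 4 / 4 * (1 / r ^ 4) := by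
      have : κ ^ 2 = |τ| ^ 2 / r ^ 4 := by
        rw [← sq_abs κ, hκa]
        field_simp
      rw [hr4, this]
      field_simp
      norm_num
    have g3 : |τ| ^ 3 ≤ T ^ 4 := by
      calc |τ| ^ 3 ≤ T ^ 3 := pow_le_pow_left₀ hτ0 hτT 3
        _ ≤ T ^ 4 := pow_le_pow_right₀ hT1 (by norm_num)
    have g4 : |τ| ^ 4 ≤ T ^ 4 := pow_le_pow_left₀ hτ0 hτT 4
    have g5 : 1 / r ^ 4 ≤ 1 / r ^ 2 :=
      one_div_le_one_div_of_le (by positivity) (pow_le_pow_right₀ hr1 (by norm_num))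
    have g6 : v ^ 2 ≤ M ^ 4 := by
      calc v ^ 2 ≤ (M ^ 2) ^ 2 := pow_le_pow_left₀ hv0 hvM 2
        _ = M ^ 4 := by ring
    rw [mul_add, g1, g2]
    have g7 : 4 * M ^ 3 * |τ| ^ 3 * (1 / r ^ 2) ≤ 4 * M ^ 3 * T ^ 4 * (1 / r ^ 2) := by gcongr
    have g8 : v ^ 2 * |τ| ^ 4 / 4 * (1 / r ^ 4) ≤ M ^ 4 * T ^ 4 * (1 / r ^ 2) := by
      calc v ^ 2 * |τ| ^ 4 / 4 * (1 / r ^ 4) ≤ v ^ 2 * |τ| ^ 4 / 1 * (1 / r ^ 4) := by
            gcongr
            norm_num
        _ = v ^ 2 * |τ| ^ 4 * (1 / r ^ 4) := by rw [div_one]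
        _ ≤ M ^ 4 * T ^ 4 * (1 / r ^ 2) := by gcongr
    calc _ ≤ 4 * M ^ 3 * T ^ 4 * (1 / r ^ 2) + M ^ 4 * T ^ 4 * (1 / r ^ 2) := add_le_add g7 g8
      _ = _ := by ring
  -- the product formula
  have hsum : ∀ t, E (κ * ∑ k ∈ Finset.range n, f (X a s (k + 1) t)) =
      E (Ph a s (fun x => κ * f x) n t) := by
    intro t
    rw [Ph_sum]
  simp_rw [hsum]
  have hR0 : 0 < r ^ 3 / b := by positivity
  have hprod : ‖(∫ t in (0:ℝ)..1, E (Ph a s (fun x => κ * f x) n t)) -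
      Lam (fun x => κ * f x) ^ n‖ ≤ (8 * M * (l0 + 4 * M) + 4 + 2 * l0) * T ^ 4 * (r ^ 3 / b) := by
    rcases le_or_gt l0 (b / r) with hl | hl
    · have hla : b / r ≤ |a| := by
        rw [hb2, div_le_iff₀ hr0]
        nlinarith [mul_nonneg hb0.le (sub_nonneg.2 hb1), mul_nonneg (mul_nonneg hb0.le hb0.le) (sub_nonneg.2 hr1)]
      have h1 := product (φ := fun x => κ * f x) (φ' := fun x => κ * f' x) hl hla s
        (fun x => (d x).const_mul κ) (by fun_prop) (fun x => by show κ * f (x + 1) = κ * f x; rw [p x])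
        (v := |κ| * M) (fun x => by rw [abs_mul]; exact mul_le_mul_of_nonneg_left (hM' x) (abs_nonneg _))
        (A := |κ| * (2 * M)) (fun x y => by
          rw [← mul_sub, abs_mul]
          apply mul_le_mul_of_nonneg_left _ (abs_nonneg _)
          refine (abs_sub _ _).trans ?_
          have := hM x
          have := hM y
          linarith) n
      refine h1.trans ?_
      have hκ1 : |κ| ≤ |τ| := by
        rw [hκa]
        exact div_le_self hτ0 (one_le_pow₀ hr1)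
      have k1 : (n : ℝ) * (4 * (|κ| * (2 * M) * ((l0 + 4 * (|κ| * M)) / (b / r)))) ≤
          8 * M * (l0 + 4 * M) * T ^ 4 * (r ^ 3 / b) := by
        have k2 : (n : ℝ) * (4 * (|κ| * (2 * M) * ((l0 + 4 * (|κ| * M)) / (b / r)))) =
            8 * M * (l0 + 4 * (|κ| * M)) * |τ| * (r ^ 3 / b) := by
          have : (n : ℝ) * |κ| = |τ| * r ^ 2 := by
            rw [hr4, hκa]
            field_simp
          calc _ = 8 * M * (l0 + 4 * (|κ| * M)) * ((n : ℝ) * |κ|) * (r / b) := by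
                field_simp
                ring
            _ = _ := by
                rw [this]
                field_simp
        rw [k2]
        have k3 : (l0 + 4 * (|κ| * M)) * |τ| ≤ (l0 + 4 * M) * T ^ 4 := by
          have k4 : l0 + 4 * (|κ| * M) ≤ (l0 + 4 * M) * T := by
            have : |κ| * M ≤ T * M := mul_le_mul_of_nonneg_right (hκ1.trans hτT) hM0
            nlinarith
          calc (l0 + 4 * (|κ| * M)) * |τ| ≤ ((l0 + 4 * M) * T) * T :=
                mul_le_mul k4 hτT hτ0 (by positivity)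
            _ = (l0 + 4 * M) * T ^ 2 := by ring
            _ ≤ (l0 + 4 * M) * T ^ 4 := by
                apply mul_le_mul_of_nonneg_left _ (by positivity)
                exact pow_le_pow_right₀ hT1 (by norm_num)
        calc 8 * M * (l0 + 4 * (|κ| * M)) * |τ| * (r ^ 3 / b)
            = 8 * M * ((l0 + 4 * (|κ| * M)) * |τ|) * (r ^ 3 / b) := by ring
          _ ≤ 8 * M * ((l0 + 4 * M) * T ^ 4) * (r ^ 3 / b) := by gcongr
          _ = _ := by ring
      have k5 : (n : ℝ) * (4 * (b / r / |a|)) ≤ 4 * T ^ 4 * (r ^ 3 / b) := by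
        have k6 : (n : ℝ) * (4 * (b / r / |a|)) = 4 * 1 * (r ^ 3 / b) := by
          rw [hr4, hb2]
          field_simp
        rw [k6]
        gcongr
        exact one_le_pow₀ hT1
      rw [mul_add]
      have k7 : 0 ≤ 2 * l0 * T ^ 4 * (r ^ 3 / b) := by positivity
      calc _ ≤ 8 * M * (l0 + 4 * M) * T ^ 4 * (r ^ 3 / b) + 4 * T ^ 4 * (r ^ 3 / b) :=
            add_le_add k1 k5
        _ ≤ _ := by
            have : (8 * M * (l0 + 4 * M) + 4 + 2 * l0) * T ^ 4 * (r ^ 3 / b) =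
              8 * M * (l0 + 4 * M) * T ^ 4 * (r ^ 3 / b) + 4 * T ^ 4 * (r ^ 3 / b) +
                2 * l0 * T ^ 4 * (r ^ 3 / b) := by ring
            rw [this]
            linarith
    · have h2 : ‖(∫ t in (0:ℝ)..1, E (Ph a s (fun x => κ * f x) n t)) -
          Lam (fun x => κ * f x) ^ n‖ ≤ 2 := by
        refine (norm_sub_le _ _).trans ?_
        have q1 := intervalIntegral.norm_integral_le_of_norm_le_const (a := 0) (b := 1)
          (f := fun t => E (Ph a s (fun x => κ * f x) n t)) (C := 1) (fun x _ => (E_norm _).le)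
        have q2 : ‖Lam (fun x => κ * f x) ^ n‖ ≤ 1 := by
          rw [norm_pow]
          exact pow_le_one₀ (norm_nonneg _) (Lam_norm _)
        have q3 : ‖∫ t in (0:ℝ)..1, E (Ph a s (fun x => κ * f x) n t)‖ ≤ 1 := by simpa using q1
        linarith
      refine h2.trans ?_
      have h3 : 1 ≤ l0 * (r ^ 3 / b) := by
        rw [div_lt_iff₀ hr0] at hl
        rw [← mul_div_assoc, le_div_iff₀ hb0, one_mul]
        have : l0 * r ≤ l0 * r ^ 3 := by
          apply mul_le_mul_of_nonneg_left _ (by positivity)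
          calc r = r ^ 1 := (pow_one r).symm
            _ ≤ r ^ 3 := pow_le_pow_right₀ hr1 (by norm_num)
        linarith
      have h4 : 1 ≤ T ^ 4 := one_le_pow₀ hT1
      have h5 : 0 ≤ (8 * M * (l0 + 4 * M) + 4) * T ^ 4 * (r ^ 3 / b) := by positivity
      have h6 : 1 * 1 ≤ (l0 * (r ^ 3 / b)) * T ^ 4 := mul_le_mul h3 h4 zero_le_one (by positivity)
      calc (2:ℝ) ≤ 2 * l0 * T ^ 4 * (r ^ 3 / b) := by linarith
        _ ≤ _ := by
            have : (8 * M * (l0 + 4 * M) + 4 + 2 * l0) * T ^ 4 * (r ^ 3 / b) =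
              (8 * M * (l0 + 4 * M) + 4) * T ^ 4 * (r ^ 3 / b) + 2 * l0 * T ^ 4 * (r ^ 3 / b) := by
              ring
            rw [this]
            linarith
  have etri : (∫ t in (0:ℝ)..1, E (Ph a s (fun x => κ * f x) n t)) -
      ((exp (-(τ ^ 2 * v / 2)) : ℝ) : ℂ) =
      ((∫ t in (0:ℝ)..1, E (Ph a s (fun x => κ * f x) n t)) - Lam (fun x => κ * f x) ^ n) +
      (Lam (fun x => κ * f x) ^ n - ((exp (-(τ ^ 2 * v / 2)) : ℝ) : ℂ)) := by ring
  rw [etri]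
  refine (norm_add_le _ _).trans ((add_le_add hprod (hG.trans hG2)).trans ?_)
  have z1 : 0 ≤ (8 * M * (l0 + 4 * M) + 4 + 2 * l0) * T ^ 4 * (1 / r ^ 2) := by positivity
  have z2 : 0 ≤ (4 * M ^ 3 + M ^ 4) * T ^ 4 * (r ^ 3 / b) := by positivity
  calc _ ≤ (8 * M * (l0 + 4 * M) + 4 + 2 * l0) * T ^ 4 * (r ^ 3 / b) +
        (4 * M ^ 3 + M ^ 4) * T ^ 4 * (1 / r ^ 2) +
        ((8 * M * (l0 + 4 * M) + 4 + 2 * l0) * T ^ 4 * (1 / r ^ 2) +
          (4 * M ^ 3 + M ^ 4) * T ^ 4 * (r ^ 3 / b)) := by linarith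
    _ = _ := by ring

end Pool.Agent.TH705.SM
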