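import Pool.Agent.TH705.SM.CltC

set_option autoImplicit false

/-!
# Convergence in distribution
-/

namespace Pool.Agent.TH705.SM

open Real MeasureTheory Function Filter Topology ProbabilityTheory

/-- from characteristic functions to distribution functions -/
theorem weak {S : ℕ → ℝ → ℝ} (hS : ∀ j, Continuous (S j)) {v : ℝ} (hv : 0 < v)
    (h : ∀ τ : ℝ, Tendsto (fun j => ∫ t in (0:ℝ)..1, E (τ * S j t)) atTop
      (𝓝 ((exp (-(τ ^ 2 * v / 2)) : ℝ) : ℂ))) (z : ℝ) :
    Tendsto (fun j => volume {t : ℝ | t ∈ Set.Ioc (0:ℝ) 1 ∧ S j t ≤ z}) atTop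
      (𝓝 (gaussianReal 0 v.toNNReal (Set.Iic z))) := by
  set ν : Measure ℝ := volume.restrict (Set.Ioc (0:ℝ) 1) with hν
  have hp : IsProbabilityMeasure ν := ⟨by rw [hν, Measure.restrict_apply_univ]; simp⟩
  have hm : ∀ j, IsProbabilityMeasure (ν.map (S j)) := fun j =>
    Measure.isProbabilityMeasure_map (hS j).measurable.aemeasurable
  let μ : ℕ → ProbabilityMeasure ℝ := fun j => ⟨ν.map (S j), hm j⟩
  let γ : ProbabilityMeasure ℝ := ⟨gaussianReal 0 v.toNNReal, inferInstance⟩
  have hconv : Tendsto μ atTop (𝓝 γ) := by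
    refine ProbabilityMeasure.tendsto_iff_tendsto_charFun.2 fun τ => ?_
    have e1 : ∀ j, charFun ((μ j : ProbabilityMeasure ℝ) : Measure ℝ) τ =
        ∫ t in (0:ℝ)..1, E (τ * S j t) := by
      intro j
      show charFun (ν.map (S j)) τ = _
      rw [charFun_apply_real, integral_map (hS j).measurable.aemeasurable
        (by fun_prop : AEStronglyMeasurable (fun x : ℝ => Complex.exp (τ * x * Complex.I)) _),
        intervalIntegral.integral_of_le zero_le_one]
      apply integral_congr_ae
      refine Filter.Eventually.of_forall fun t => ?_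
      show Complex.exp (τ * S j t * Complex.I) = E (τ * S j t)
      unfold E
      push_cast
      rfl
    have e2 : charFun ((γ : ProbabilityMeasure ℝ) : Measure ℝ) τ =
        ((exp (-(τ ^ 2 * v / 2)) : ℝ) : ℂ) := by
      show charFun (gaussianReal 0 v.toNNReal) τ = _
      rw [charFun_gaussianReal, Complex.ofReal_exp]
      congr 1
      have : (((v.toNNReal : NNReal) : ℝ) : ℂ) = (v : ℂ) := by
        rw [Real.coe_toNNReal v hv.le]
      have h2 : ((v.toNNReal : NNReal) : ℂ) = (v : ℂ) := this
      rw [h2]
      push_cast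
      ring
    simp_rw [e1]
    rw [e2]
    exact h τ
  have hv' : v.toNNReal ≠ 0 := by
    simp only [ne_eq, Real.toNNReal_eq_zero, not_le]
    exact hv
  have hna : (gaussianReal 0 v.toNNReal) (frontier (Set.Iic z)) = 0 := by
    rw [frontier_Iic]
    have := nullSingletonClass_gaussianReal (μ := 0) hv'
    exact measure_singleton z
  have h3 := ProbabilityMeasure.tendsto_measure_of_null_frontier_of_tendsto' hconv
    (E := Set.Iic z) hna
  refine h3.congr fun j => ?_
  show (ν.map (S j)) (Set.Iic z) = _
  rw [Measure.map_apply (hS j).measurable measurableSet_Iic, hν,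
    Measure.restrict_apply ((hS j).measurable measurableSet_Iic)]
  congr 1
  ext t
  simp only [Set.mem_inter_iff, Set.mem_preimage, Set.mem_Iic]
  exact and_comm

/-- the iterates of the map of the plane -/
theorem iter_plane (a s t : ℝ) (k : ℕ) :
    (fun p : ℝ × ℝ => (2 * p.1 - p.2 + a * sin (2 * π * p.1), p.1))^[k] (t, s) =
      (X a s (k + 1) t, X a s k t) := by
  induction k with
  | zero => rfl
  | succ k ih =>
    rw [Function.iterate_succ_apply', ih]
    rfl

/-- the momentum -/
theorem momentum (a s t : ℝ) (n : ℕ) :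
    X a s (n + 1) t - X a s n t - (t - s) =
      a * ∑ k ∈ Finset.range n, sin (2 * π * X a s (k + 1) t) := by
  induction n with
  | zero =>
    show t - s - (t - s) = _
    simp
  | succ n ih =>
    rw [Finset.sum_range_succ, mul_add, ← ih]
    show 2 * X a s (n + 1) t - X a s n t + a * sin (2 * π * X a s (n + 1) t) - X a s (n + 1) t -
      (t - s) = _
    ring

theorem sin_int : ∫ x in (0:ℝ)..1, sin (2 * π * x) = 0 := by
  have h := intervalIntegral.integral_comp_mul_left (a := 0) (b := 1) (fun x => sin x)
    (c := 2 * π) (by positivity)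
  rw [h, integral_sin]
  simp

theorem sin_sq_int : ∫ x in (0:ℝ)..1, sin (2 * π * x) ^ 2 = 1 / 2 := by
  have h := intervalIntegral.integral_comp_mul_left (a := 0) (b := 1) (fun x => sin x ^ 2)
    (c := 2 * π) (by positivity)
  rw [h, integral_sin_sq]
  simp
  field_simp

end Pool.Agent.TH705.SM
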