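import Pool.Agent.TH705.SM.CltD

set_option autoImplicit false

/-!
# Convergence in distribution: sequences of parameters
-/

namespace Pool.Agent.TH705.SM

open Real MeasureTheory Function Filter Topology ProbabilityTheory

/-- bounds for periodic functions -/
theorem per_bound {g : ℝ → ℝ} (hg : Continuous g) (hp : Periodic g 1) : ∃ M : ℝ, 0 ≤ M ∧ ∀ x, |g x| ≤ M := by
  obtain ⟨M, hM⟩ := isCompact_Icc.exists_bound_of_continuousOn (s := Set.Icc (0:ℝ) 1)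
    hg.continuousOn
  refine ⟨max M 0, le_max_right _ _, ?_⟩
  intro x
  obtain ⟨y, hy, hxy⟩ := hp.exists_mem_Ico₀ one_pos x
  rw [hxy]
  exact (hM y ⟨hy.1, hy.2.le⟩).trans (le_max_left _ _)

theorem deriv_per {f f' : ℝ → ℝ} (d : ∀ x, HasDerivAt f (f' x) x) (p : Periodic f 1) :
    Periodic f' 1 := by
  intro x
  have h1 : HasDerivAt (fun y => f (y + 1)) (f' (x + 1)) x := by
    have := (d (x + 1)).comp_add_const x 1
    exact this
  have h2 : (fun y => f (y + 1)) = f := funext p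
  rw [h2] at h1
  exact h1.unique (d x)

/-- **convergence in distribution** from a rate -/
theorem clt_seq {rate : ℝ → ℕ → ℝ}
    (hclt : ∀ M : ℝ, 0 ≤ M → ∃ C : ℝ, 0 < C ∧ ∀ f f' : ℝ → ℝ,
    (∀ x, HasDerivAt f (f' x) x) → Continuous f' → Periodic f 1 → (∀ x, |f x| ≤ M) →
    (∀ x, |f' x| ≤ M) → ∫ x in (0:ℝ)..1, f x = 0 → ∀ v : ℝ, ∫ x in (0:ℝ)..1, f x ^ 2 = v →
    ∀ a : ℝ, 1 ≤ |a| → ∀ n : ℕ, 1 ≤ n → ∀ s τ : ℝ,
    ‖(∫ t in (0:ℝ)..1, E (τ / √n * ∑ k ∈ Finset.range n, f (X a s (k + 1) t))) -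
      ((exp (-(τ ^ 2 * v / 2)) : ℝ) : ℂ)‖ ≤ C * (1 + |τ|) ^ 4 * rate a n)
    {f f' : ℝ → ℝ} (d : ∀ x, HasDerivAt f (f' x) x) (c : Continuous f') (p : Periodic f 1)
    (f0 : ∫ x in (0:ℝ)..1, f x = 0) {v : ℝ} (hv : 0 < v) (f2 : ∫ x in (0:ℝ)..1, f x ^ 2 = v)
    {a : ℕ → ℝ} {n : ℕ → ℕ} (ha : ∀ j, 1 ≤ |a j|) (hn : ∀ j, 1 ≤ n j)
    (hr : Tendsto (fun j => rate (a j) (n j)) atTop (𝓝 0)) (y : ℕ → ℝ) (z : ℝ) :
    Tendsto (fun j => volume {t : ℝ | t ∈ Set.Ioc (0:ℝ) 1 ∧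
      (∑ k ∈ Finset.range (n j), f (X (a j) (y j) (k + 1) t)) / √(n j) ≤ z}) atTop
      (𝓝 (gaussianReal 0 v.toNNReal (Set.Iic z))) := by
  have hfc : Continuous f := continuous_iff_continuousAt.2 fun t => (d t).continuousAt
  obtain ⟨M1, h10, h1⟩ := per_bound hfc p
  obtain ⟨M2, h20, h2⟩ := per_bound c (deriv_per d p)
  obtain ⟨C, hC, H⟩ := hclt (max M1 M2) (h10.trans (le_max_left _ _))
  refine weak (S := fun j t => (∑ k ∈ Finset.range (n j), f (X (a j) (y j) (k + 1) t)) / √(n j))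
    ?_ hv ?_ z
  · intro j
    apply Continuous.div_const
    apply continuous_finsetSum
    intro k _
    exact hfc.comp (Xt_cont _ _ _)
  · intro τ
    rw [tendsto_iff_norm_sub_tendsto_zero]
    have h3 : Tendsto (fun j => C * (1 + |τ|) ^ 4 * rate (a j) (n j)) atTop (𝓝 0) := by
      have := hr.const_mul (C * (1 + |τ|) ^ 4)
      rwa [mul_zero] at this
    refine squeeze_zero (fun j => norm_nonneg _) (fun j => ?_) h3
    have h4 := H f f' d c p (fun x => (h1 x).trans (le_max_left _ _))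
      (fun x => (h2 x).trans (le_max_right _ _)) f0 v f2 (a j) (ha j) (n j) (hn j) (y j) τ
    have e1 : ∀ t, E (τ * ((∑ k ∈ Finset.range (n j), f (X (a j) (y j) (k + 1) t)) / √(n j))) =
        E (τ / √(n j) * ∑ k ∈ Finset.range (n j), f (X (a j) (y j) (k + 1) t)) := by
      intro t
      congr 1
      ring
    simp_rw [e1]
    exact h4

end Pool.Agent.TH705.SM
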