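import Pool.Agent.TH705.SM.CltE

set_option autoImplicit false

/-!
# Windows: strong cutoffs at the last few times only
-/

namespace Pool.Agent.TH705.SM

open Real MeasureTheory Function

/-- the product of the cutoffs of level `l` over the window `i + 1, …, i + k` -/
noncomputable def win (a l s : ℝ) (i : ℕ) : ℕ → ℝ → ℝ
  | 0, _ => 1
  | k + 1, t => win a l s i k t * rk a l s (i + k + 1) t

/-- its derivative -/
noncomputable def win' (a l s : ℝ) (i : ℕ) : ℕ → ℝ → ℝ
  | 0, _ => 0
  | k + 1, t => win' a l s i k t * rk a l s (i + k + 1) t +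
      win a l s i k t * rk' a l s (i + k + 1) t

theorem rk_mem (a l s : ℝ) (j : ℕ) (t : ℝ) : 0 ≤ rk a l s j t ∧ rk a l s j t ≤ 1 :=
  ⟨rho_nonneg _, rho_le_one _⟩

theorem rk_far {a l s : ℝ} (hl : 0 < l) {j : ℕ} {t : ℝ} (h : ¬ l ≤ |L a (X a s j t)|) :
    rk a l s j t = 0 ∧ rk' a l s j t = 0 := by
  have h3 : |L a (X a s j t) / l| < 1 := by
    rw [abs_div, abs_of_pos hl, div_lt_one hl]
    exact not_le.1 h
  constructor
  · exact rho_zero h3
  · unfold rk'
    rw [rho'_zero h3, zero_mul]

theorem win_hasDeriv (a l s : ℝ) (i k : ℕ) (t : ℝ) :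
    HasDerivAt (win a l s i k) (win' a l s i k t) t := by
  induction k with
  | zero => exact hasDerivAt_const t 1
  | succ k ih => exact ih.mul (rk_hasDeriv a l s (i + k + 1) t)

theorem win_cont (a l s : ℝ) (i k : ℕ) : Continuous (win a l s i k) :=
  continuous_iff_continuousAt.2 fun t => (win_hasDeriv a l s i k t).continuousAt

theorem win'_cont (a l s : ℝ) (i k : ℕ) : Continuous (win' a l s i k) := by
  induction k with
  | zero => exact continuous_const
  | succ k ih => exact (ih.mul (rk_cont a l s _)).add ((win_cont a l s i k).mul (rk'_cont a l s _))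

theorem win_mem (a l s : ℝ) (i k : ℕ) (t : ℝ) : 0 ≤ win a l s i k t ∧ win a l s i k t ≤ 1 := by
  induction k with
  | zero => exact ⟨zero_le_one, le_rfl⟩
  | succ k ih =>
    have h := rk_mem a l s (i + k + 1) t
    exact ⟨mul_nonneg ih.1 h.1, mul_le_one₀ ih.2 h.1 h.2⟩

theorem win_period (a l s : ℝ) (i k : ℕ) (t : ℝ) : win a l s i k (t + 1) = win a l s i k t := by
  induction k with
  | zero => rfl
  | succ k ih =>
    show win a l s i k (t + 1) * rk a l s (i + k + 1) (t + 1) =
      win a l s i k t * rk a l s (i + k + 1) t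
    rw [ih, rk_period]

theorem ee_cmp {a l x : ℝ} (hl : 0 < l) (h : l ≤ |L a x|) : ee a l0 x ≤ 2 * ee a l x := by
  have h0 := l0_ge
  unfold ee
  rw [← mul_div_assoc, div_le_div_iff₀ (by positivity) (by positivity)]
  have h1 : l ^ 2 ≤ L a x ^ 2 := by
    rw [← sq_abs (L a x)]
    exact pow_le_pow_left₀ hl.le h 2
  have h2 : 0 ≤ l0 ^ 2 := by positivity
  have h3 := abs_nonneg a
  have h4 : L a x ^ 2 + l ^ 2 ≤ 2 * (L a x ^ 2 + l0 ^ 2) := by linarith
  calc |a| * (L a x ^ 2 + l ^ 2) ≤ |a| * (2 * (L a x ^ 2 + l0 ^ 2)) :=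
        mul_le_mul_of_nonneg_left h4 h3
    _ = _ := by ring

/-- kernels, for the distortion -/
noncomputable def VW (a l s : ℝ) (i : ℕ) : ℕ → ℝ → ℝ
  | 0, t => VV a l0 s i t
  | k + 1, t => VW a l s i k t / 2 + 2 * (chi a l0 s (i + k) t * ee a l (X a s (i + k + 1) t))

/-- kernels, for the cutoffs -/
noncomputable def VY (a l s : ℝ) (i : ℕ) : ℕ → ℝ → ℝ
  | 0, _ => 0
  | k + 1, t => VY a l s i k t / 2 + chi a l0 s (i + k) t * ee a l (X a s (i + k + 1) t)

theorem VW_nonneg (a l s : ℝ) (i k : ℕ) (t : ℝ) : 0 ≤ VW a l s i k t := by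
  induction k with
  | zero => exact VV_nonneg a l0 s i t
  | succ k ih =>
    show 0 ≤ VW a l s i k t / 2 + 2 * (chi a l0 s (i + k) t * ee a l (X a s (i + k + 1) t))
    have h1 := ee_nonneg a l (X a s (i + k + 1) t)
    have h2 := (chi_mem a l0 s (i + k) t).1
    positivity

theorem VY_nonneg (a l s : ℝ) (i k : ℕ) (t : ℝ) : 0 ≤ VY a l s i k t := by
  induction k with
  | zero => exact le_rfl
  | succ k ih =>
    show 0 ≤ VY a l s i k t / 2 + chi a l0 s (i + k) t * ee a l (X a s (i + k + 1) t)
    have h1 := ee_nonneg a l (X a s (i + k + 1) t)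
    have h2 := (chi_mem a l0 s (i + k) t).1
    positivity

theorem VW_cont (a : ℝ) {l : ℝ} (hl : 0 < l) (s : ℝ) (i k : ℕ) : Continuous (VW a l s i k) := by
  have h0 : 0 < l0 := by have := l0_ge; linarith
  induction k with
  | zero => exact VV_cont a h0 s i
  | succ k ih =>
    exact (ih.div_const 2).add (continuous_const.mul ((chi_cont a l0 s (i + k)).mul
      ((ee_cont a hl).comp (Xt_cont a s (i + k + 1)))))

theorem VY_cont (a : ℝ) {l : ℝ} (hl : 0 < l) (s : ℝ) (i k : ℕ) : Continuous (VY a l s i k) := by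
  induction k with
  | zero => exact continuous_const
  | succ k ih =>
    exact (ih.div_const 2).add ((chi_cont a l0 s (i + k)).mul
      ((ee_cont a hl).comp (Xt_cont a s (i + k + 1))))

theorem win_VV {a l s : ℝ} (hl : 0 < l) (i k : ℕ) (t : ℝ) :
    win a l s i k t * VV a l0 s (i + k) t ≤ VW a l s i k t := by
  induction k with
  | zero => show 1 * VV a l0 s i t ≤ VV a l0 s i t; rw [one_mul]
  | succ k ih =>
    have hW := VW_nonneg a l s i (k + 1) t
    have hwin : win a l s i (k + 1) t = win a l s i k t * rk a l s (i + k + 1) t := rfl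
    have hr := rk_mem a l s (i + k + 1) t
    have hw := win_mem a l s i k t
    have hc := chi_mem a l0 s (i + k) t
    have hV := VV_nonneg a l0 s (i + k) t
    by_cases h : l ≤ |L a (X a s (i + k + 1) t)|
    · have h1 := ee_cmp hl h
      have h2 := ee_nonneg a l0 (X a s (i + k + 1) t)
      show win a l s i k t * rk a l s (i + k + 1) t *
        (VV a l0 s (i + k) t / 2 + chi a l0 s (i + k) t * ee a l0 (X a s (i + k + 1) t)) ≤
        VW a l s i k t / 2 + 2 * (chi a l0 s (i + k) t * ee a l (X a s (i + k + 1) t))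
      have h3 : win a l s i k t * rk a l s (i + k + 1) t * VV a l0 s (i + k) t ≤
          win a l s i k t * VV a l0 s (i + k) t := by
        apply mul_le_mul_of_nonneg_right _ hV
        exact mul_le_of_le_one_right hw.1 hr.2
      have h4 : win a l s i k t * rk a l s (i + k + 1) t ≤ 1 := mul_le_one₀ hw.2 hr.1 hr.2
      have h5 : win a l s i k t * rk a l s (i + k + 1) t *
          (chi a l0 s (i + k) t * ee a l0 (X a s (i + k + 1) t)) ≤
          1 * (chi a l0 s (i + k) t * (2 * ee a l (X a s (i + k + 1) t))) := by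
        apply mul_le_mul h4 (mul_le_mul_of_nonneg_left h1 hc.1) (mul_nonneg hc.1 h2) zero_le_one
      linarith
    · rw [hwin, (rk_far hl h).1, mul_zero, zero_mul]
      exact hW

theorem win'_le {a l s : ℝ} (hl : 0 < l) (i k : ℕ) (t : ℝ) :
    chi a l0 s (i + k) t * |win' a l s i k t| ≤
      72 * KK * π ^ 2 * |D a s (i + k + 1) t| * VY a l s i k t := by
  have hK := KK_one
  have h16 := l0_ge
  have h00 : 0 < l0 := by linarith
  induction k with
  | zero => simp [win', VY]
  | succ k ih =>
    by_cases hg : Good a l0 s (i + k + 1) t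
    · have h1 := growth h16 hg (i + k + 1) le_rfl
      have hc := chi_mem a l0 s (i + k) t
      have hc1 := chi_mem a l0 s (i + k + 1) t
      have hcs := chi_succ_le a l0 s (i + k) t
      have hr := rk_mem a l s (i + k + 1) t
      have hw := win_mem a l s i k t
      set d := |D a s (i + k + 1) t| with hd
      set e := |D a s (i + k + 1 + 1) t| with he
      set E := ee a l (X a s (i + k + 1) t) with hE
      have hE0 : 0 ≤ E := ee_nonneg _ _ _
      have hd0 : 0 ≤ d := abs_nonneg _
      have he0 : 0 ≤ e := abs_nonneg _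
      have hV := VY_nonneg a l s i k t
      show chi a l0 s (i + k + 1) t * |win' a l s i k t * rk a l s (i + k + 1) t +
        win a l s i k t * rk' a l s (i + k + 1) t| ≤
        72 * KK * π ^ 2 * e * (VY a l s i k t / 2 + chi a l0 s (i + k) t * E)
      have h6 : d ≤ e / 2 := by
        have := h1.1
        nlinarith
      have h3 : |rk' a l s (i + k + 1) t| ≤ 72 * KK * π ^ 2 * E * e := by
        by_cases h : l ≤ |L a (X a s (i + k + 1) t)|
        · have h4 := rk'_le2 a hl s (i + k + 1) t
          have h5 : l * d ≤ 2 * e :=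
            (mul_le_mul_of_nonneg_right h hd0).trans (h1.2.1 (by omega))
          refine h4.trans ?_
          have := mul_le_mul_of_nonneg_left h5 (by positivity : 0 ≤ 36 * KK * π ^ 2 * E)
          calc 36 * KK * π ^ 2 * l * E * d = 36 * KK * π ^ 2 * E * (l * d) := by ring
            _ ≤ 36 * KK * π ^ 2 * E * (2 * e) := this
            _ = _ := by ring
        · rw [(rk_far hl h).2, abs_zero]
          positivity
      have h7 : |win' a l s i k t * rk a l s (i + k + 1) t +
          win a l s i k t * rk' a l s (i + k + 1) t| ≤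
          |win' a l s i k t| + 72 * KK * π ^ 2 * E * e := by
        refine (abs_add_le _ _).trans (add_le_add ?_ ?_)
        · rw [abs_mul, abs_of_nonneg hr.1]
          exact mul_le_of_le_one_right (abs_nonneg _) hr.2
        · rw [abs_mul, abs_of_nonneg hw.1]
          calc _ ≤ 1 * |rk' a l s (i + k + 1) t| := mul_le_mul_of_nonneg_right hw.2 (abs_nonneg _)
            _ ≤ _ := by rw [one_mul]; exact h3
      calc chi a l0 s (i + k + 1) t * |win' a l s i k t * rk a l s (i + k + 1) t +
            win a l s i k t * rk' a l s (i + k + 1) t|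
          ≤ chi a l0 s (i + k) t * (|win' a l s i k t| + 72 * KK * π ^ 2 * E * e) :=
            mul_le_mul hcs h7 (abs_nonneg _) hc.1
        _ = chi a l0 s (i + k) t * |win' a l s i k t| +
            chi a l0 s (i + k) t * (72 * KK * π ^ 2 * E * e) := by ring
        _ ≤ 72 * KK * π ^ 2 * d * VY a l s i k t +
            chi a l0 s (i + k) t * (72 * KK * π ^ 2 * E * e) := add_le_add ih le_rfl
        _ ≤ 72 * KK * π ^ 2 * (e / 2) * VY a l s i k t +
            chi a l0 s (i + k) t * (72 * KK * π ^ 2 * E * e) := by gcongr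
        _ = _ := by ring
    · have h2 : chi a l0 s (i + (k + 1)) t = 0 := (chi_bad h00 hg).1
      rw [h2, zero_mul]
      have := VY_nonneg a l s i (k + 1) t
      positivity

theorem ee_dens {a l : ℝ} (hl' : l0 ≤ l) (hla : l ≤ |a|) (s : ℝ) (m : ℕ) :
    ∫ t in (0:ℝ)..1, chi a l0 s m t * ee a l (X a s (m + 1) t) ≤ 1 / (2 * l) := by
  have h16 := l0_ge
  have hl0 : 0 < l := by linarith
  have h1 := dens (a := a) (l := l0) le_rfl (hl'.trans hla) s m (ee_cont a hl0) (fun x => by
      have := ee_period a l x 1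
      rwa [Nat.cast_one] at this) (ee_nonneg a l)
  have h2 := ee_int (h16.trans hl') hla
  refine h1.trans ?_
  have : 2 * (1 / (4 * l)) = 1 / (2 * l) := by field_simp; norm_num
  linarith

theorem VW_int {a l : ℝ} (hl' : l0 ≤ l) (hla : l ≤ |a|) (s : ℝ) (i k : ℕ) {c : ℝ}
    (hc : ∫ t in (0:ℝ)..1, VV a l0 s i t ≤ c) :
    ∫ t in (0:ℝ)..1, VW a l s i k t ≤ (1 / 2) ^ k * c + 2 / l := by
  have h16 := l0_ge
  have hl0 : 0 < l := by linarith
  induction k with
  | zero =>
    show ∫ t in (0:ℝ)..1, VV a l0 s i t ≤ _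
    have : 0 < 2 / l := by positivity
    simp only [pow_zero, one_mul]
    linarith
  | succ k ih =>
    have h2 := ee_dens hl' hla s (i + k)
    have h4 : ∫ t in (0:ℝ)..1, VW a l s i (k + 1) t = (∫ t in (0:ℝ)..1, VW a l s i k t) / 2 +
        2 * ∫ t in (0:ℝ)..1, chi a l0 s (i + k) t * ee a l (X a s (i + k + 1) t) := by
      rw [← intervalIntegral.integral_div, ← intervalIntegral.integral_const_mul,
        ← intervalIntegral.integral_add]
      · rfl
      · exact ((VW_cont a hl0 s i k).div_const 2).intervalIntegrable _ _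
      · exact (continuous_const.mul ((chi_cont a l0 s (i + k)).mul
          ((ee_cont a hl0).comp (Xt_cont a s (i + k + 1))))).intervalIntegrable _ _
    rw [h4]
    have e1 : (1 / 2 : ℝ) ^ (k + 1) * c + 2 / l = ((1 / 2) ^ k * c + 2 / l) / 2 + 2 * (1 / (2 * l)) := by
      rw [pow_succ]
      field_simp
      ring
    rw [e1]
    linarith

theorem VY_int {a l : ℝ} (hl' : l0 ≤ l) (hla : l ≤ |a|) (s : ℝ) (i k : ℕ) :
    ∫ t in (0:ℝ)..1, VY a l s i k t ≤ 1 / l := by
  have h16 := l0_ge
  have hl0 : 0 < l := by linarith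
  induction k with
  | zero =>
    show ∫ t in (0:ℝ)..1, (0:ℝ) ≤ 1 / l
    simp only [intervalIntegral.integral_zero]
    positivity
  | succ k ih =>
    have h2 := ee_dens hl' hla s (i + k)
    have h4 : ∫ t in (0:ℝ)..1, VY a l s i (k + 1) t = (∫ t in (0:ℝ)..1, VY a l s i k t) / 2 +
        ∫ t in (0:ℝ)..1, chi a l0 s (i + k) t * ee a l (X a s (i + k + 1) t) := by
      rw [← intervalIntegral.integral_div, ← intervalIntegral.integral_add]
      · rfl
      · exact ((VY_cont a hl0 s i k).div_const 2).intervalIntegrable _ _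
      · exact ((chi_cont a l0 s (i + k)).mul
          ((ee_cont a hl0).comp (Xt_cont a s (i + k + 1)))).intervalIntegrable _ _
    rw [h4]
    have e1 : 1 / l = (1 / l) / 2 + 1 / (2 * l) := by
      field_simp
      norm_num
    rw [e1]
    linarith

/-- the derivative of the weight, keeping the size of `P` -/
theorem W'_le3 {a l s : ℝ} (hl : 16 ≤ l) (m : ℕ) {P P' : ℝ → ℝ} {t : ℝ} :
    |W' a l s m P P' t| ≤ 104 * KK * π ^ 2 * (|P t| * VV a l s m t) +
      chi a l s m t * |P' t| / |D a s (m + 1) t| := by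
  have hl0 : 0 < l := by linarith
  have hK := KK_one
  have hV := VV_nonneg a l s m t
  have h4 := chi_mem a l s m t
  have hP0 := abs_nonneg (P t)
  by_cases hg : Good a l s m t
  · have hD := D_ne hl hg
    have hD0 : 0 < |D a s (m + 1) t| := abs_pos.2 hD
    have h3 := chi'_le2 (a := a) (s := s) hl m t
    have h5 := B_le2 hl m t hg
    have h6 := chi_UU a l s m t
    have h7 : |(chi' a l s m t * P t + chi a l s m t * P' t) / D a s (m + 1) t| ≤
        72 * KK * π ^ 2 * (|P t| * VV a l s m t) +
          chi a l s m t * |P' t| / |D a s (m + 1) t| := by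
      rw [abs_div, div_le_iff₀ hD0, add_mul, div_mul_cancel₀ _ hD0.ne']
      refine (abs_add_le _ _).trans (add_le_add ?_ ?_)
      · rw [abs_mul]
        calc |chi' a l s m t| * |P t| ≤
              (72 * KK * π ^ 2 * |D a s (m + 1) t| * VV a l s m t) * |P t| :=
              mul_le_mul_of_nonneg_right h3 hP0
          _ = _ := by ring
      · rw [abs_mul, abs_of_nonneg h4.1]
    have h8 : |chi a l s m t * P t * B a s (m + 1) t / D a s (m + 1) t ^ 2| ≤
        32 * π ^ 2 * (|P t| * VV a l s m t) := by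
      have hD2 : 0 < D a s (m + 1) t ^ 2 := by positivity
      rw [abs_div, abs_of_pos hD2, div_le_iff₀ hD2, abs_mul, abs_mul, abs_of_nonneg h4.1]
      calc chi a l s m t * |P t| * |B a s (m + 1) t| ≤
          chi a l s m t * |P t| * (32 * π ^ 2 * D a s (m + 1) t ^ 2 * UU a l s m t) :=
            mul_le_mul_of_nonneg_left h5 (mul_nonneg h4.1 hP0)
        _ = 32 * π ^ 2 * D a s (m + 1) t ^ 2 * |P t| * (chi a l s m t * UU a l s m t) := by ring
        _ ≤ 32 * π ^ 2 * D a s (m + 1) t ^ 2 * |P t| * VV a l s m t :=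
            mul_le_mul_of_nonneg_left h6 (by positivity)
        _ = _ := by ring
    unfold W'
    refine (abs_sub _ _).trans ((add_le_add h7 h8).trans ?_)
    have : 32 * π ^ 2 * (|P t| * VV a l s m t) ≤ 32 * KK * π ^ 2 * (|P t| * VV a l s m t) := by
      apply mul_le_mul_of_nonneg_right _ (by positivity)
      apply mul_le_mul_of_nonneg_right _ (by positivity)
      linarith
    linarith
  · obtain ⟨h1, h2⟩ := chi_bad hl0 hg
    unfold W'
    rw [h1, h2]
    simp only [zero_mul, add_zero, zero_div, sub_zero, abs_zero]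
    positivity

end Pool.Agent.TH705.SM
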