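import Pool.Agent.TH705.SM.CltH

set_option autoImplicit false

/-!
# The central limit theorem up to times `|a|^(1-ε)`
-/

namespace Pool.Agent.TH705.SM

open Real MeasureTheory Function

/-- **the central limit theorem with a rate** -/
theorem clt2 {M : ℝ} (hM0 : 0 ≤ M) : ∃ C : ℝ, 0 < C ∧ ∀ f f' : ℝ → ℝ,
    (∀ x, HasDerivAt f (f' x) x) → Continuous f' → Periodic f 1 → (∀ x, |f x| ≤ M) →
    (∀ x, |f' x| ≤ M) → ∫ x in (0:ℝ)..1, f x = 0 → ∀ v : ℝ, ∫ x in (0:ℝ)..1, f x ^ 2 = v →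
    ∀ a : ℝ, 1 ≤ |a| → ∀ n : ℕ, 1 ≤ n → ∀ s τ : ℝ,
    ‖(∫ t in (0:ℝ)..1, E (τ / √n * ∑ k ∈ Finset.range n, f (X a s (k + 1) t))) -
      ((exp (-(τ ^ 2 * v / 2)) : ℝ) : ℂ)‖ ≤
      C * (1 + |τ|) ^ 4 * (1 / √n + √(n / |a|) * (1 + log |a|)) := by
  have hl0 := l0_ge
  refine ⟨(8 * M * (4 * l0 + 4 * M + 4) + 6 * l0) + (4 * M ^ 3 + M ^ 4), by positivity, ?_⟩
  intro f f' d c p hM hM' f0 v f2 a ha n hn s τ
  have hfc : Continuous f := continuous_iff_continuousAt.2 fun t => (d t).continuousAt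
  have hn1 : (1 : ℝ) ≤ n := by exact_mod_cast hn
  have hn0 : (0 : ℝ) < n := by linarith
  have ha0 : 0 < |a| := by linarith
  obtain ⟨r, hr⟩ : ∃ r : ℝ, r = (n : ℝ) ^ (1 / 4 : ℝ) := ⟨_, rfl⟩
  have hr1 : 1 ≤ r := by rw [hr]; exact Real.one_le_rpow hn1 (by norm_num)
  have hr0 : 0 < r := by linarith
  have hr4 : (n : ℝ) = r ^ 4 := by
    rw [hr, ← Real.rpow_natCast, ← Real.rpow_mul hn0.le]
    norm_num
  have hr2 : √n = r ^ 2 := by
    rw [hr4, show r ^ 4 = (r ^ 2) ^ 2 by ring, Real.sqrt_sq (by positivity)]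
  obtain ⟨b, hb⟩ : ∃ b : ℝ, b = √|a| := ⟨_, rfl⟩
  have hb1 : 1 ≤ b := by rw [hb]; exact Real.one_le_sqrt.2 ha
  have hb0 : 0 < b := by linarith
  have hb2 : |a| = b ^ 2 := by rw [hb, Real.sq_sqrt ha0.le]
  have hrb : √((n : ℝ) / |a|) = r ^ 2 / b := by
    rw [Real.sqrt_div' _ ha0.le, hr2, ← hb]
  rw [hrb, hr2]
  obtain ⟨Lg, hLg⟩ : ∃ Lg : ℝ, Lg = 1 + log |a| := ⟨_, rfl⟩
  have hLg1 : 1 ≤ Lg := by
    rw [hLg]
    have := Real.log_nonneg ha
    linarith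
  have hLg0 : 0 < Lg := by linarith
  rw [← hLg]
  set T : ℝ := 1 + |τ| with hT
  have hτ0 := abs_nonneg τ
  have hT1 : 1 ≤ T := by linarith
  have hT0 : 0 < T := by linarith
  have hτT : |τ| ≤ T := by linarith
  have hv0 : 0 ≤ v := by
    rw [← f2]
    exact intervalIntegral.integral_nonneg zero_le_one fun x _ => sq_nonneg _
  have hvM : v ≤ M ^ 2 := by
    rw [← f2]
    have h1 : ∫ x in (0:ℝ)..1, f x ^ 2 ≤ ∫ x in (0:ℝ)..1, M ^ 2 := by
      apply intervalIntegral.integral_mono_on zero_le_one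
        (Continuous.intervalIntegrable (by fun_prop) _ _) (by simp)
      intro x _
      rw [← sq_abs]
      exact pow_le_pow_left₀ (abs_nonneg _) (hM x) 2
    simpa using h1
  set κ : ℝ := τ / r ^ 2 with hκ
  have hκa : |κ| = |τ| / r ^ 2 := by
    rw [hκ, abs_div, abs_of_pos (by positivity : 0 < r ^ 2)]
  -- the power against the Gaussian
  have hG := Lam_pow hfc f0 f2 hM κ n
  have hG1 : (n : ℝ) * (κ ^ 2 * v / 2) = τ ^ 2 * v / 2 := by
    rw [hr4, hκ]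
    field_simp
  rw [hG1] at hG
  have hG2 : (n : ℝ) * (4 * (|κ| * M) ^ 3 + (κ ^ 2 * v / 2) ^ 2) ≤
      (4 * M ^ 3 + M ^ 4) * T ^ 4 * (1 / r ^ 2) := by
    have g1 : (n : ℝ) * (4 * (|κ| * M) ^ 3) = 4 * M ^ 3 * |τ| ^ 3 * (1 / r ^ 2) := by
      rw [hr4, hκa]
      field_simp
    have g2 : (n : ℝ) * (κ ^ 2 * v / 2) ^ 2 = v ^ 2 * |τ| ^ 4 / 4 * (1 / r ^ 4) := by
      have : κ ^ 2 = |τ| ^ 2 / r ^ 4 := by
        rw [← sq_abs κ, hκa]
        field_simp
      rw [hr4, this]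
      field_simp
      norm_num
    have g3 : |τ| ^ 3 ≤ T ^ 4 := by
      calc |τ| ^ 3 ≤ T ^ 3 := pow_le_pow_left₀ hτ0 hτT 3
        _ ≤ T ^ 4 := pow_le_pow_right₀ hT1 (by norm_num)
    have g4 : |τ| ^ 4 ≤ T ^ 4 := pow_le_pow_left₀ hτ0 hτT 4
    have g5 : 1 / r ^ 4 ≤ 1 / r ^ 2 :=
      one_div_le_one_div_of_le (by positivity) (pow_le_pow_right₀ hr1 (by norm_num))
    have g6 : v ^ 2 ≤ M ^ 4 := by
      calc v ^ 2 ≤ (M ^ 2) ^ 2 := pow_le_pow_left₀ hv0 hvM 2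
        _ = M ^ 4 := by ring
    rw [mul_add, g1, g2]
    have g7 : 4 * M ^ 3 * |τ| ^ 3 * (1 / r ^ 2) ≤ 4 * M ^ 3 * T ^ 4 * (1 / r ^ 2) := by gcongr
    have g8 : v ^ 2 * |τ| ^ 4 / 4 * (1 / r ^ 4) ≤ M ^ 4 * T ^ 4 * (1 / r ^ 2) := by
      calc v ^ 2 * |τ| ^ 4 / 4 * (1 / r ^ 4) ≤ v ^ 2 * |τ| ^ 4 / 1 * (1 / r ^ 4) := by
            gcongr
            norm_num
        _ = v ^ 2 * |τ| ^ 4 * (1 / r ^ 4) := by rw [div_one]
        _ ≤ M ^ 4 * T ^ 4 * (1 / r ^ 2) := by gcongr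
    calc _ ≤ 4 * M ^ 3 * T ^ 4 * (1 / r ^ 2) + M ^ 4 * T ^ 4 * (1 / r ^ 2) := add_le_add g7 g8
      _ = _ := by ring
  -- the product formula
  have hsum : ∀ t, E (κ * ∑ k ∈ Finset.range n, f (X a s (k + 1) t)) =
      E (Ph a s (fun x => κ * f x) n t) := by
    intro t
    rw [Ph_sum]
  simp_rw [hsum]
  have hR0 : 0 < r ^ 2 / b := by positivity
  have htriv : ‖(∫ t in (0:ℝ)..1, E (Ph a s (fun x => κ * f x) n t)) -
      Lam (fun x => κ * f x) ^ n‖ ≤ 2 := by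
    refine (norm_sub_le _ _).trans ?_
    have q1 := intervalIntegral.norm_integral_le_of_norm_le_const (a := 0) (b := 1)
      (f := fun t => E (Ph a s (fun x => κ * f x) n t)) (C := 1) (fun x _ => (E_norm _).le)
    have q2 : ‖Lam (fun x => κ * f x) ^ n‖ ≤ 1 := by
      rw [norm_pow]
      exact pow_le_one₀ (norm_nonneg _) (Lam_norm _)
    have q3 : ‖∫ t in (0:ℝ)..1, E (Ph a s (fun x => κ * f x) n t)‖ ≤ 1 := by simpa using q1
    linarith
  have hT4 : 1 ≤ T ^ 4 := one_le_pow₀ hT1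
  have hprod : ‖(∫ t in (0:ℝ)..1, E (Ph a s (fun x => κ * f x) n t)) -
      Lam (fun x => κ * f x) ^ n‖ ≤
      (8 * M * (4 * l0 + 4 * M + 4) + 6 * l0) * T ^ 4 * (r ^ 2 / b * Lg) := by
    have hpos : 0 ≤ 8 * M * (4 * l0 + 4 * M + 4) * T ^ 4 * (r ^ 2 / b * Lg) := by positivity
    rcases lt_or_ge (l0 * (r ^ 2 / b)) 1 with hsm | hbig
    · -- the main case
      have hl0' : 0 < l0 := by linarith
      have hrb1 : r ^ 2 / b ≤ 1 := by
        by_contra hcon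
        push Not at hcon
        have h1 : l0 * 1 ≤ l0 * (r ^ 2 / b) := mul_le_mul_of_nonneg_left hcon.le hl0'.le
        linarith
      have hl : l0 ≤ b := by
        rw [← mul_div_assoc, div_lt_one hb0] at hsm
        have h1 : l0 * 1 ≤ l0 * r ^ 2 :=
          mul_le_mul_of_nonneg_left (one_le_pow₀ hr1) hl0'.le
        linarith
      have hla : b ≤ |a| := by
        rw [hb2]
        exact le_self_pow₀ hb1 two_ne_zero
      obtain ⟨w, hw⟩ : ∃ w : ℕ, w = ⌈log |a|⌉₊ + 1 := ⟨_, rfl⟩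
      have hw1 : 1 ≤ w := by omega
      have hlog0 : 0 ≤ log |a| := Real.log_nonneg ha
      have hwl : log |a| ≤ w := by
        rw [hw]
        push_cast
        have := Nat.le_ceil (log |a|)
        linarith
      have hwu : (w : ℝ) ≤ 2 * Lg := by
        rw [hw, hLg]
        push_cast
        have := (Nat.ceil_lt_add_one hlog0).le
        linarith
      have hlw : b ≤ 2 ^ w := by
        have h1 : log b ≤ w * log 2 := by
          have h2 : log |a| = 2 * log b := by rw [hb2, Real.log_pow]; norm_num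
          have h3 := Real.log_two_gt_d9
          have h4 : 0 ≤ (w : ℝ) := Nat.cast_nonneg w
          have h5 : (w : ℝ) * (1 / 2) ≤ w * log 2 := mul_le_mul_of_nonneg_left (by linarith) h4
          linarith
        calc b = exp (log b) := (Real.exp_log hb0).symm
          _ ≤ exp (w * log 2) := Real.exp_le_exp.2 h1
          _ = 2 ^ w := by
              rw [Real.exp_nat_mul, Real.exp_log (by norm_num)]
      have h1 := product2 (φ := fun x => κ * f x) (φ' := fun x => κ * f' x) hl hla hw1 hlw s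
        (fun x => (d x).const_mul κ) (by fun_prop) (fun x => by show κ * f (x + 1) = κ * f x; rw [p x])
        (v := |κ| * M) (fun x => by rw [abs_mul]; exact mul_le_mul_of_nonneg_left (hM' x) (abs_nonneg _))
        (A := |κ| * (2 * M)) (fun x y => by
          rw [← mul_sub, abs_mul]
          apply mul_le_mul_of_nonneg_left _ (abs_nonneg _)
          refine (abs_sub _ _).trans ?_
          have := hM x
          have := hM y
          linarith) n
      refine h1.trans ?_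
      have hκ1 : |κ| ≤ |τ| := by
        rw [hκa]
        exact div_le_self hτ0 (one_le_pow₀ hr1)
      have hnκ : (n : ℝ) * |κ| = |τ| * r ^ 2 := by
        rw [hr4, hκa]
        field_simp
      have k2 : (n : ℝ) * (4 * (|κ| * (2 * M) *
          ((4 * l0 + 4 * (|κ| * M)) / b + w * (2 * (b / |a|))))) =
          8 * M * |τ| * (4 * l0 + 4 * (|κ| * M) + 2 * w) * (r ^ 2 / b) := by
        calc _ = 8 * M * ((n : ℝ) * |κ|) *
              ((4 * l0 + 4 * (|κ| * M)) / b + w * (2 * (b / |a|))) := by ring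
          _ = _ := by
              rw [hnκ, hb2]
              field_simp
      have k3 : 4 * l0 + 4 * (|κ| * M) + 2 * w ≤ (4 * l0 + 4 * M + 4) * (T * Lg) := by
        have q1 : |κ| * M ≤ T * M := mul_le_mul_of_nonneg_right (hκ1.trans hτT) hM0
        have q2 : 1 ≤ T * Lg := one_le_mul_of_one_le_of_one_le hT1 hLg1
        have q3 : T ≤ T * Lg := le_mul_of_one_le_right hT0.le hLg1
        have q4 : Lg ≤ T * Lg := le_mul_of_one_le_left hLg0.le hT1
        have q5 : 4 * l0 * 1 ≤ 4 * l0 * (T * Lg) := mul_le_mul_of_nonneg_left q2 (by positivity)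
        have q6 : T * M ≤ T * Lg * M := mul_le_mul_of_nonneg_right q3 hM0
        have q7 : (4 * l0 + 4 * M + 4) * (T * Lg) =
            4 * l0 * (T * Lg) + 4 * (T * Lg * M) + 4 * (T * Lg) := by ring
        rw [q7]
        linarith
      have k4 : 8 * M * |τ| * (4 * l0 + 4 * (|κ| * M) + 2 * w) * (r ^ 2 / b) ≤
          8 * M * (4 * l0 + 4 * M + 4) * T ^ 4 * (r ^ 2 / b * Lg) := by
        calc _ ≤ 8 * M * T * ((4 * l0 + 4 * M + 4) * (T * Lg)) * (r ^ 2 / b) := by gcongr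
          _ = 8 * M * (4 * l0 + 4 * M + 4) * T ^ 2 * (r ^ 2 / b * Lg) := by ring
          _ ≤ _ := by
              have : T ^ 2 ≤ T ^ 4 := pow_le_pow_right₀ hT1 (by norm_num)
              gcongr
      have k5 : (n : ℝ) * (4 * (l0 / |a|)) ≤ 6 * l0 * T ^ 4 * (r ^ 2 / b * Lg) := by
        have k6 : (n : ℝ) * (4 * (l0 / |a|)) = 4 * l0 * ((r ^ 2 / b) * (r ^ 2 / b)) := by
          rw [hr4, hb2]
          field_simp
        rw [k6]
        have k7 : (r ^ 2 / b) * (r ^ 2 / b) ≤ (r ^ 2 / b) * Lg :=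
          mul_le_mul_of_nonneg_left (hrb1.trans hLg1) hR0.le
        calc 4 * l0 * ((r ^ 2 / b) * (r ^ 2 / b)) ≤ 6 * l0 * ((r ^ 2 / b) * Lg) := by gcongr; norm_num
          _ = 6 * l0 * 1 * ((r ^ 2 / b) * Lg) := by ring
          _ ≤ _ := by gcongr
      rw [mul_add, k2]
      calc _ ≤ 8 * M * (4 * l0 + 4 * M + 4) * T ^ 4 * (r ^ 2 / b * Lg) +
            6 * l0 * T ^ 4 * (r ^ 2 / b * Lg) := add_le_add k4 k5
        _ = _ := by ring
    · refine htriv.trans ?_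
      have h6 : (1 : ℝ) * 1 * 1 ≤ (l0 * (r ^ 2 / b)) * T ^ 4 * Lg := by
        apply mul_le_mul (mul_le_mul hbig hT4 zero_le_one (by positivity)) hLg1 zero_le_one
          (by positivity)
      have h7 : (8 * M * (4 * l0 + 4 * M + 4) + 6 * l0) * T ^ 4 * (r ^ 2 / b * Lg) =
          8 * M * (4 * l0 + 4 * M + 4) * T ^ 4 * (r ^ 2 / b * Lg) +
            6 * ((l0 * (r ^ 2 / b)) * T ^ 4 * Lg) := by ring
      rw [h7]
      linarith
  have etri : (∫ t in (0:ℝ)..1, E (Ph a s (fun x => κ * f x) n t)) -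
      ((exp (-(τ ^ 2 * v / 2)) : ℝ) : ℂ) =
      ((∫ t in (0:ℝ)..1, E (Ph a s (fun x => κ * f x) n t)) - Lam (fun x => κ * f x) ^ n) +
      (Lam (fun x => κ * f x) ^ n - ((exp (-(τ ^ 2 * v / 2)) : ℝ) : ℂ)) := by ring
  rw [etri]
  refine (norm_add_le _ _).trans ((add_le_add hprod (hG.trans hG2)).trans ?_)
  have z1 : 0 ≤ (8 * M * (4 * l0 + 4 * M + 4) + 6 * l0) * T ^ 4 * (1 / r ^ 2) := by positivity
  have z2 : 0 ≤ (4 * M ^ 3 + M ^ 4) * T ^ 4 * (r ^ 2 / b * Lg) := by positivity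
  calc _ ≤ (8 * M * (4 * l0 + 4 * M + 4) + 6 * l0) * T ^ 4 * (r ^ 2 / b * Lg) +
        (4 * M ^ 3 + M ^ 4) * T ^ 4 * (1 / r ^ 2) +
        ((8 * M * (4 * l0 + 4 * M + 4) + 6 * l0) * T ^ 4 * (1 / r ^ 2) +
          (4 * M ^ 3 + M ^ 4) * T ^ 4 * (r ^ 2 / b * Lg)) := by linarith
    _ = _ := by ring

end Pool.Agent.TH705.SM
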