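import Pool.Agent.TH705.SM.CltI

set_option autoImplicit false

/-!
# One step for observables with singular derivative
-/

namespace Pool.Agent.TH705.SM

open Real MeasureTheory Function

/-- the derivative of the phase for observables whose derivative is singular at the critical set -/
theorem Ph'_le2 {a s : ℝ} {φ' : ℝ → ℝ} {κ : ℝ} (hκ : 0 ≤ κ)
    (hφ' : ∀ x, |φ' x| * |L a x| ≤ κ * (4 * π ^ 2 * |a|)) (m : ℕ) (t : ℝ) :
    chi a l0 s m t * |Ph' a s φ' m t| ≤ 16 * π ^ 2 * κ * |D a s (m + 1) t| * VV a l0 s m t := by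
  have h16 := l0_ge
  have h00 : 0 < l0 := by linarith
  induction m with
  | zero => simp [Ph', VV]
  | succ m ih =>
    by_cases hg : Good a l0 s (m + 1) t
    · have h1 := growth h16 hg (m + 1) le_rfl
      have hc := chi_mem a l0 s m t
      have hcs := chi_succ_le a l0 s m t
      have hL := hg (m + 1) (by omega) le_rfl
      set d := |D a s (m + 1) t| with hd
      set e := |D a s (m + 1 + 1) t| with he
      set E' := ee a l0 (X a s (m + 1) t) with hE
      set Lm := |L a (X a s (m + 1) t)| with hLm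
      have hE0 : 0 ≤ E' := ee_nonneg _ _ _
      have hd0 : 0 ≤ d := abs_nonneg _
      have he0 : 0 ≤ e := abs_nonneg _
      have hV := VV_nonneg a l0 s m t
      have hLm0 : 0 < Lm := by linarith
      have h6 : d ≤ e / 2 := by
        have := h1.1
        nlinarith
      have h7 : Lm * d ≤ 2 * e := h1.2.1 (by omega)
      have h8 : |a| / Lm ^ 2 ≤ 2 * E' := by
        rw [hE]
        unfold ee
        rw [← mul_div_assoc, div_le_div_iff₀ (by positivity) (by positivity)]
        have q1 : L a (X a s (m + 1) t) ^ 2 = Lm ^ 2 := by rw [hLm, sq_abs]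
        rw [q1]
        have q2 : l0 ^ 2 ≤ Lm ^ 2 := pow_le_pow_left₀ h00.le hL 2
        have q3 := abs_nonneg a
        have q4 : Lm ^ 2 + l0 ^ 2 ≤ 2 * Lm ^ 2 := by linarith
        calc |a| * (Lm ^ 2 + l0 ^ 2) ≤ |a| * (2 * Lm ^ 2) := mul_le_mul_of_nonneg_left q4 q3
          _ = _ := by ring
      have h3 : |φ' (X a s (m + 1) t)| * d ≤ 16 * π ^ 2 * κ * E' * e := by
        have q1 : |φ' (X a s (m + 1) t)| ≤ κ * (4 * π ^ 2 * |a|) / Lm := by
          rw [le_div_iff₀ hLm0]
          exact hφ' _
        have q2 : d ≤ 2 * e / Lm := by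
          rw [le_div_iff₀ hLm0]
          linarith
        calc |φ' (X a s (m + 1) t)| * d ≤ (κ * (4 * π ^ 2 * |a|) / Lm) * (2 * e / Lm) :=
              mul_le_mul q1 q2 hd0 (by positivity)
          _ = 8 * π ^ 2 * κ * e * (|a| / Lm ^ 2) := by
              field_simp
              ring
          _ ≤ 8 * π ^ 2 * κ * e * (2 * E') := mul_le_mul_of_nonneg_left h8 (by positivity)
          _ = _ := by ring
      show chi a l0 s (m + 1) t * |Ph' a s φ' m t + φ' (X a s (m + 1) t) * D a s (m + 1) t| ≤
        16 * π ^ 2 * κ * e * (VV a l0 s m t / 2 + chi a l0 s m t * E')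
      have h9 : |Ph' a s φ' m t + φ' (X a s (m + 1) t) * D a s (m + 1) t| ≤
          |Ph' a s φ' m t| + 16 * π ^ 2 * κ * E' * e := by
        refine (abs_add_le _ _).trans (add_le_add le_rfl ?_)
        rw [abs_mul]
        exact h3
      calc _ ≤ chi a l0 s m t * (|Ph' a s φ' m t| + 16 * π ^ 2 * κ * E' * e) :=
            mul_le_mul hcs h9 (abs_nonneg _) hc.1
        _ = chi a l0 s m t * |Ph' a s φ' m t| + chi a l0 s m t * (16 * π ^ 2 * κ * E' * e) := by
            ring
        _ ≤ 16 * π ^ 2 * κ * d * VV a l0 s m t + chi a l0 s m t * (16 * π ^ 2 * κ * E' * e) :=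
            add_le_add ih le_rfl
        _ ≤ 16 * π ^ 2 * κ * (e / 2) * VV a l0 s m t +
            chi a l0 s m t * (16 * π ^ 2 * κ * E' * e) := by gcongr
        _ = _ := by ring
    · have h2 : chi a l0 s (m + 1) t = 0 := (chi_bad h00 hg).1
      rw [h2, zero_mul]
      have := VV_nonneg a l0 s (m + 1) t
      positivity

/-- one step with the window -/
theorem step_win3 {a l : ℝ} (hl' : l0 ≤ l) (hla : l ≤ |a|) (s : ℝ) (i k : ℕ) (hpow : i ≠ 0 → l ≤ 2 ^ k) {φ φ' : ℝ → ℝ}
    (d : ∀ x, HasDerivAt φ (φ' x) x) (c : Continuous φ') (p : Periodic φ 1) {κ : ℝ} (hκ : 0 ≤ κ)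
    (hφ' : ∀ x, |φ' x| * |L a x| ≤ κ * (4 * π ^ 2 * |a|)) {g : ℝ → ℝ} (hg : Continuous g) (pg : Periodic g 1)
    (g0 : ∫ x in (0:ℝ)..1, g x = 0) {A : ℝ} (hA : ∀ x, |g x| ≤ A) (θ : ℝ) :
    |∫ t in (0:ℝ)..1, chi a l0 s (i + k) t * (win a l s i k t * cos (Ph a s φ (i + k) t + θ)) *
      g (X a s (i + k + 1) t)| ≤ A * ((4 * l0 + 48 * π ^ 2 * κ) / l) := by
  have h16 : 16 ≤ l0 := l0_ge
  have h00 : 0 < l0 := by linarith
  have hl0 : 0 < l := by linarith
  have hK := KK_one
  have hA0 : 0 ≤ A := (abs_nonneg _).trans (hA 0)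
  rcases hA0.eq_or_lt with h0 | hApos
  · have hz : ∀ x, g x = 0 := fun x => abs_nonpos_iff.1 (by rw [h0]; exact hA x)
    simp only [hz, mul_zero, intervalIntegral.integral_zero, abs_zero]
    rw [← h0, zero_mul]
  obtain ⟨G, hG, hGp, hG1⟩ := prim (f := fun x => 2 * g x / A) (by fun_prop)
    (fun x => by show 2 * g (x + 1) / A = 2 * g x / A; rw [pg x]) (by
      rw [intervalIntegral.integral_div, intervalIntegral.integral_const_mul, g0]; simp) (by
      intro x
      rw [abs_div, abs_mul, abs_of_pos hApos, abs_of_pos (by norm_num : (0:ℝ) < 2),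
        div_le_iff₀ hApos]
      have := hA x
      linarith)
  set m : ℕ := i + k with hm
  set P : ℝ → ℝ := fun t => win a l s i k t * cos (Ph a s φ m t + θ) with hP
  set P' : ℝ → ℝ := fun t => win' a l s i k t * cos (Ph a s φ m t + θ) +
    win a l s i k t * (-sin (Ph a s φ m t + θ) * Ph' a s φ' m t) with hP'
  have hφc : Continuous φ := continuous_iff_continuousAt.2 fun t => (d t).continuousAt
  have hPhc := Ph_cont a s hφc m
  have hPhc' := Ph'_cont a s c m
  have hwc := win_cont a l s i k
  have hwc' := win'_cont a l s i k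
  have hPd : ∀ t, HasDerivAt P (P' t) t := by
    intro t
    exact (win_hasDeriv a l s i k t).mul ((Ph_hasDeriv a s d m t).add_const θ).cos
  have hPc : Continuous P := by rw [hP]; fun_prop
  have hP'c : Continuous P' := by rw [hP']; fun_prop
  have hP1 : ∀ t, |P t| ≤ win a l s i k t := by
    intro t
    have hw := win_mem a l s i k t
    rw [hP]
    simp only
    rw [abs_mul, abs_of_nonneg hw.1]
    exact mul_le_of_le_one_right hw.1 (abs_cos_le_one _)
  have hPp : ∀ t, P (t + 1) = P t := by
    intro t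
    rw [hP]
    simp only
    rw [Ph_period a s p, win_period]
  have hP'b : ∀ t, chi a l0 s m t * |P' t| / |D a s (m + 1) t| ≤
      72 * KK * π ^ 2 * VY a l s i k t + 16 * π ^ 2 * κ * VW a l s i k t := by
    intro t
    have hVY := VY_nonneg a l s i k t
    have hVW := VW_nonneg a l s i k t
    by_cases hg' : Good a l0 s m t
    · have hD0 : 0 < |D a s (m + 1) t| := abs_pos.2 (D_ne h16 hg')
      have h4 := chi_mem a l0 s m t
      have hw := win_mem a l s i k t
      have h3 := win'_le (a := a) (s := s) hl0 i k t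
      have h6 := Ph'_le2 (a := a) (s := s) hκ hφ' m t
      have h7 := win_VV (a := a) (s := s) hl0 i k t
      have h5 : |P' t| ≤ |win' a l s i k t| + win a l s i k t * |Ph' a s φ' m t| := by
        rw [hP']
        simp only
        refine (abs_add_le _ _).trans (add_le_add ?_ ?_)
        · rw [abs_mul]
          exact mul_le_of_le_one_right (abs_nonneg _) (abs_cos_le_one _)
        · rw [abs_mul, abs_of_nonneg hw.1, abs_mul, abs_neg]
          apply mul_le_mul_of_nonneg_left _ hw.1
          exact mul_le_of_le_one_left (abs_nonneg _) (abs_sin_le_one _)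
      rw [div_le_iff₀ hD0]
      calc chi a l0 s m t * |P' t| ≤
            chi a l0 s m t * (|win' a l s i k t| + win a l s i k t * |Ph' a s φ' m t|) :=
            mul_le_mul_of_nonneg_left h5 h4.1
        _ = chi a l0 s m t * |win' a l s i k t| +
            win a l s i k t * (chi a l0 s m t * |Ph' a s φ' m t|) := by ring
        _ ≤ 72 * KK * π ^ 2 * |D a s (m + 1) t| * VY a l s i k t +
            win a l s i k t * (16 * π ^ 2 * κ * |D a s (m + 1) t| * VV a l0 s m t) := by
            apply add_le_add h3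
            exact mul_le_mul_of_nonneg_left h6 hw.1
        _ = 72 * KK * π ^ 2 * |D a s (m + 1) t| * VY a l s i k t +
            16 * π ^ 2 * κ * |D a s (m + 1) t| * (win a l s i k t * VV a l0 s m t) := by ring
        _ ≤ 72 * KK * π ^ 2 * |D a s (m + 1) t| * VY a l s i k t +
            16 * π ^ 2 * κ * |D a s (m + 1) t| * VW a l s i k t := by
            apply add_le_add le_rfl
            exact mul_le_mul_of_nonneg_left h7 (by positivity)
        _ = _ := by ring
    · rw [(chi_bad h00 hg').1, zero_mul, zero_div]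
      positivity
  have hVc := VW_cont a hl0 s i k
  have hYc := VY_cont a hl0 s i k
  have hibp := ibp2 (a := a) (s := s) h16 m hPd hP'c hPp
    (bd := fun t => 104 * KK * π ^ 2 * VW a l s i k t +
      (72 * KK * π ^ 2 * VY a l s i k t + 16 * π ^ 2 * κ * VW a l s i k t)) (by fun_prop) (fun t => by
      refine (W'_le3 h16 m).trans (add_le_add ?_ (hP'b t))
      apply mul_le_mul_of_nonneg_left _ (by positivity)
      refine le_trans ?_ (win_VV (a := a) (s := s) hl0 i k t)
      exact mul_le_mul_of_nonneg_right (hP1 t) (VV_nonneg a l0 s m t)) hG (by fun_prop) (fun u n => by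
      have := hGp.nat_mul n u
      rwa [mul_one] at this) hG1
  have hVI : ∫ t in (0:ℝ)..1, VW a l s i k t ≤ 3 / l := by
    rcases Nat.eq_zero_or_pos i with hi | hi
    · have h1 := VW_int hl' hla s i k (c := 0) (by
        rw [hi]
        show ∫ t in (0:ℝ)..1, (0:ℝ) ≤ 0
        simp)
      have : 2 / l ≤ 3 / l := div_le_div_of_nonneg_right (by norm_num) hl0.le
      linarith
    · have h1 := VW_int hl' hla s i k (VV_int le_rfl (hl'.trans hla) s i)
      have h2 := hpow (by omega)
      have h3 : (1 / 2 : ℝ) ^ k * (1 / l0) ≤ 1 / l := by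
        have h4 : (1 / 2 : ℝ) ^ k ≤ 1 / l := by
          rw [one_div_pow]
          exact one_div_le_one_div_of_le hl0 h2
        have h5 : 1 / l0 ≤ 1 := by rw [div_le_one h00]; linarith
        calc (1 / 2 : ℝ) ^ k * (1 / l0) ≤ (1 / l) * 1 :=
              mul_le_mul h4 h5 (by positivity) (by positivity)
          _ = _ := mul_one _
      have : 1 / l + 2 / l = 3 / l := by rw [← add_div]; norm_num
      linarith
  have hYI := VY_int hl' hla s i k
  rw [one_mul, intervalIntegral.integral_add (f := fun t => 104 * KK * π ^ 2 * VW a l s i k t)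
    (g := fun t => 72 * KK * π ^ 2 * VY a l s i k t + 16 * π ^ 2 * κ * VW a l s i k t)
    ((continuous_const.mul hVc).intervalIntegrable _ _)
    (((continuous_const.mul hYc).add (continuous_const.mul hVc)).intervalIntegrable _ _),
    intervalIntegral.integral_add (f := fun t => 72 * KK * π ^ 2 * VY a l s i k t)
    (g := fun t => 16 * π ^ 2 * κ * VW a l s i k t)
    ((continuous_const.mul hYc).intervalIntegrable _ _)
    ((continuous_const.mul hVc).intervalIntegrable _ _),
    intervalIntegral.integral_const_mul, intervalIntegral.integral_const_mul,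
    intervalIntegral.integral_const_mul] at hibp
  have hAe : ∫ t in (0:ℝ)..1, chi a l0 s m t * P t * (2 * g (X a s (m + 1) t) / A / 2) =
      (∫ t in (0:ℝ)..1, chi a l0 s m t * P t * g (X a s (m + 1) t)) / A := by
    rw [← intervalIntegral.integral_div]
    apply intervalIntegral.integral_congr
    intro t _
    simp only
    ring
  rw [hAe, abs_div, abs_of_pos hApos, div_le_iff₀ hApos] at hibp
  refine hibp.trans ?_
  rw [mul_comm]
  apply mul_le_mul_of_nonneg_left _ hApos.le
  have z1 := mul_le_mul_of_nonneg_left hVI (by positivity : 0 ≤ 104 * KK * π ^ 2)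
  have z2 := mul_le_mul_of_nonneg_left hYI (by positivity : 0 ≤ 72 * KK * π ^ 2)
  have z3 : 104 * KK * π ^ 2 = l0 := rfl
  have z4 : 72 * KK * π ^ 2 ≤ l0 := by
    rw [← z3]
    have : 0 ≤ KK * π ^ 2 := by positivity
    nlinarith
  have z5 : 72 * KK * π ^ 2 * (1 / l) ≤ l0 * (1 / l) :=
    mul_le_mul_of_nonneg_right z4 (by positivity)
  rw [z3] at z1 ⊢
  have z7 := mul_le_mul_of_nonneg_left hVI (by positivity : 0 ≤ 16 * π ^ 2 * κ)
  have z6 : (4 * l0 + 48 * π ^ 2 * κ) / l =
      l0 * (3 / l) + l0 * (1 / l) + 16 * π ^ 2 * κ * (3 / l) := by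
    field_simp
    ring
  rw [z6]
  linarith

/-- one step, real form, weak cutoffs -/
theorem step_real3 {a l : ℝ} (hl' : l0 ≤ l) (hla : l ≤ |a|) {w : ℕ}
    (hlw : l ≤ 2 ^ w) (s : ℝ) (m : ℕ) {φ φ' : ℝ → ℝ}
    (d : ∀ x, HasDerivAt φ (φ' x) x) (c : Continuous φ') (p : Periodic φ 1) {κ : ℝ} (hκ : 0 ≤ κ)
    (hφ' : ∀ x, |φ' x| * |L a x| ≤ κ * (4 * π ^ 2 * |a|)) {g : ℝ → ℝ} (hg : Continuous g) (pg : Periodic g 1)
    (g0 : ∫ x in (0:ℝ)..1, g x = 0) {A : ℝ} (hA : ∀ x, |g x| ≤ A) (θ : ℝ) :
    |∫ t in (0:ℝ)..1, chi a l0 s m t * cos (Ph a s φ m t + θ) * g (X a s (m + 1) t)| ≤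
      A * ((4 * l0 + 48 * π ^ 2 * κ) / l + w * (2 * (l / |a|))) := by
  have h16 : 16 ≤ l0 := l0_ge
  have hl0 : 0 < l := by linarith
  have ha0 : 0 < |a| := by linarith
  have hA0 : 0 ≤ A := (abs_nonneg _).trans (hA 0)
  obtain ⟨i, k, hik, hkw, hpow⟩ : ∃ i k : ℕ, i + k = m ∧ k ≤ w ∧
      (i ≠ 0 → l ≤ 2 ^ k) := by
    rcases Nat.lt_or_ge w m with h | h
    · exact ⟨m - w, w, by omega, le_rfl, fun _ => hlw⟩
    · exact ⟨0, m, by omega, h, fun h => absurd rfl h⟩
  subst hik
  have hφc : Continuous φ := continuous_iff_continuousAt.2 fun t => (d t).continuousAt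
  have hPc := Ph_cont a s hφc (i + k)
  have hcc := chi_cont a l0 s (i + k)
  have hXc := Xt_cont a s (i + k + 1)
  have hwc := win_cont a l s i k
  have h1 := step_win3 hl' hla s i k hpow d c p hκ hφ' hg pg g0 hA θ
  have h2 := win_loss hl' hla s i k
  have e1 : ∫ t in (0:ℝ)..1, chi a l0 s (i + k) t * cos (Ph a s φ (i + k) t + θ) *
      g (X a s (i + k + 1) t) =
      (∫ t in (0:ℝ)..1, chi a l0 s (i + k) t *
        (win a l s i k t * cos (Ph a s φ (i + k) t + θ)) * g (X a s (i + k + 1) t)) +
      ∫ t in (0:ℝ)..1, (chi a l0 s (i + k) t * (1 - win a l s i k t)) *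
        (cos (Ph a s φ (i + k) t + θ) * g (X a s (i + k + 1) t)) := by
    rw [← intervalIntegral.integral_add (Continuous.intervalIntegrable (by fun_prop) _ _)
      (Continuous.intervalIntegrable (by fun_prop) _ _)]
    apply intervalIntegral.integral_congr
    intro t _
    simp only
    ring
  rw [e1]
  refine (abs_add_le _ _).trans ?_
  have h3 : |∫ t in (0:ℝ)..1, (chi a l0 s (i + k) t * (1 - win a l s i k t)) *
        (cos (Ph a s φ (i + k) t + θ) * g (X a s (i + k + 1) t))| ≤
      A * (k * (2 * (l / |a|))) := by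
    have h4 := intervalIntegral.norm_integral_le_abs_of_norm_le (a := 0) (b := 1) (μ := volume)
      (f := fun t => (chi a l0 s (i + k) t * (1 - win a l s i k t)) *
        (cos (Ph a s φ (i + k) t + θ) * g (X a s (i + k + 1) t)))
      (g := fun t => A * (chi a l0 s (i + k) t * (1 - win a l s i k t)))
      (Filter.Eventually.of_forall fun t => by
        have q1 := chi_mem a l0 s (i + k) t
        have q2 := win_mem a l s i k t
        have q3 : 0 ≤ chi a l0 s (i + k) t * (1 - win a l s i k t) :=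
          mul_nonneg q1.1 (sub_nonneg.2 q2.2)
        rw [norm_eq_abs, abs_mul, abs_of_nonneg q3, abs_mul, mul_comm A]
        apply mul_le_mul_of_nonneg_left _ q3
        calc _ ≤ 1 * A := mul_le_mul (abs_cos_le_one _) (hA _) (abs_nonneg _) zero_le_one
          _ = A := one_mul A)
      (Continuous.intervalIntegrable (by fun_prop) _ _)
    rw [norm_eq_abs, intervalIntegral.integral_const_mul, abs_of_nonneg (mul_nonneg hA0
      (intervalIntegral.integral_nonneg zero_le_one fun t _ =>
        mul_nonneg (chi_mem a l0 s (i + k) t).1 (sub_nonneg.2 (win_mem a l s i k t).2)))] at h4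
    exact h4.trans (mul_le_mul_of_nonneg_left h2 hA0)
  have h5 : (k : ℝ) * (2 * (l / |a|)) ≤ w * (2 * (l / |a|)) := by
    apply mul_le_mul_of_nonneg_right _ (by positivity)
    exact_mod_cast hkw
  have h6 := mul_le_mul_of_nonneg_left h5 hA0
  rw [mul_add]
  linarith

end Pool.Agent.TH705.SM
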