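import Pool.Agent.TH705.SM.CltJ

set_option autoImplicit false

/-!
# The product formula for observables with singular derivative
-/

namespace Pool.Agent.TH705.SM

open Real MeasureTheory Function

/-- one step, complex form -/
theorem step_c3 {a l : ℝ} (hl' : l0 ≤ l) (hla : l ≤ |a|) {w : ℕ}
    (hlw : l ≤ 2 ^ w) (s : ℝ) (m : ℕ) {φ φ' : ℝ → ℝ}
    (d : ∀ x, HasDerivAt φ (φ' x) x) (c : Continuous φ') (p : Periodic φ 1) {κ : ℝ} (hκ : 0 ≤ κ)
    (hφ' : ∀ x, |φ' x| * |L a x| ≤ κ * (4 * π ^ 2 * |a|)) {A : ℝ} (hA : ∀ x y, |φ x - φ y| ≤ A) :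
    ‖∫ t in (0:ℝ)..1, (chi a l0 s m t : ℂ) * E (Ph a s φ m t) * (E (φ (X a s (m + 1) t)) - Lam φ)‖ ≤
      4 * (A * ((4 * l0 + 48 * π ^ 2 * κ) / l + w * (2 * (l / |a|)))) := by
  have hφc : Continuous φ := continuous_iff_continuousAt.2 fun t => (d t).continuousAt
  have hPc := Ph_cont a s hφc m
  have hcc := chi_cont a l0 s m
  have hXc := Xt_cont a s (m + 1)
  set c1 : ℝ := ∫ x in (0:ℝ)..1, cos (φ x) with hc1
  set c2 : ℝ := ∫ x in (0:ℝ)..1, sin (φ x) with hc2
  set g1 : ℝ → ℝ := fun x => cos (φ x) - c1 with hg1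
  set g2 : ℝ → ℝ := fun x => sin (φ x) - c2 with hg2
  have g1c : Continuous g1 := by rw [hg1]; fun_prop
  have g2c : Continuous g2 := by rw [hg2]; fun_prop
  have g1p : Periodic g1 1 := fun x => by
    show cos (φ (x + 1)) - c1 = cos (φ x) - c1
    rw [p x]
  have g2p : Periodic g2 1 := fun x => by
    show sin (φ (x + 1)) - c2 = sin (φ x) - c2
    rw [p x]
  have g1z : ∫ x in (0:ℝ)..1, g1 x = 0 := by
    rw [hg1, intervalIntegral.integral_sub (Continuous.intervalIntegrable (by fun_prop) _ _)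
      (by simp), intervalIntegral.integral_const, ← hc1]
    simp
  have g2z : ∫ x in (0:ℝ)..1, g2 x = 0 := by
    rw [hg2, intervalIntegral.integral_sub (Continuous.intervalIntegrable (by fun_prop) _ _)
      (by simp), intervalIntegral.integral_const, ← hc2]
    simp
  have g1A : ∀ x, |g1 x| ≤ A := fun x =>
    avg_le (h := fun x => cos (φ x)) (by fun_prop) x fun y => (cos_lip _ _).trans (hA x y)
  have g2A : ∀ x, |g2 x| ≤ A := fun x =>
    avg_le (h := fun x => sin (φ x)) (by fun_prop) x fun y => (sin_lip _ _).trans (hA x y)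
  have b11 := step_real3 hl' hla hlw s m d c p hκ hφ' g1c g1p g1z g1A 0
  have b12 := step_real3 hl' hla hlw s m d c p hκ hφ' g2c g2p g2z g2A 0
  have b21 := step_real3 hl' hla hlw s m d c p hκ hφ' g1c g1p g1z g1A (-(π / 2))
  have b22 := step_real3 hl' hla hlw s m d c p hκ hφ' g2c g2p g2z g2A (-(π / 2))
  simp only [add_zero] at b11 b12
  have hsin : ∀ t, cos (Ph a s φ m t + -(π / 2)) = sin (Ph a s φ m t) := by
    intro t
    rw [← sub_eq_add_neg, cos_sub_pi_div_two]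
  simp only [hsin] at b21 b22
  set R : ℝ := A * ((4 * l0 + 48 * π ^ 2 * κ) / l + w * (2 * (l / |a|))) with hR
  have hint : ∀ t, (chi a l0 s m t : ℂ) * E (Ph a s φ m t) * (E (φ (X a s (m + 1) t)) - Lam φ) =
      ((chi a l0 s m t * cos (Ph a s φ m t) * g1 (X a s (m + 1) t) -
        chi a l0 s m t * sin (Ph a s φ m t) * g2 (X a s (m + 1) t) : ℝ) : ℂ) +
      ((chi a l0 s m t * cos (Ph a s φ m t) * g2 (X a s (m + 1) t) +
        chi a l0 s m t * sin (Ph a s φ m t) * g1 (X a s (m + 1) t) : ℝ) : ℂ) * Complex.I := by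
    intro t
    rw [Lam_eq hφc, E_eq, E_eq, ← hc1, ← hc2]
    simp only [hg1, hg2]
    push_cast
    ring_nf
    rw [Complex.I_sq]
    ring
  simp_rw [hint]
  have i11 : IntervalIntegrable (fun t => chi a l0 s m t * cos (Ph a s φ m t) *
      g1 (X a s (m + 1) t)) volume 0 1 := Continuous.intervalIntegrable (by fun_prop) _ _
  have i12 : IntervalIntegrable (fun t => chi a l0 s m t * cos (Ph a s φ m t) *
      g2 (X a s (m + 1) t)) volume 0 1 := Continuous.intervalIntegrable (by fun_prop) _ _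
  have i21 : IntervalIntegrable (fun t => chi a l0 s m t * sin (Ph a s φ m t) *
      g1 (X a s (m + 1) t)) volume 0 1 := Continuous.intervalIntegrable (by fun_prop) _ _
  have i22 : IntervalIntegrable (fun t => chi a l0 s m t * sin (Ph a s φ m t) *
      g2 (X a s (m + 1) t)) volume 0 1 := Continuous.intervalIntegrable (by fun_prop) _ _
  rw [intervalIntegral.integral_add
    (Continuous.intervalIntegrable (by fun_prop) _ _)
    (Continuous.intervalIntegrable (by fun_prop) _ _), intervalIntegral.integral_mul_const,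
    intervalIntegral.integral_ofReal, intervalIntegral.integral_ofReal,
    intervalIntegral.integral_sub i11 i22, intervalIntegral.integral_add i12 i21]
  refine (norm_add_le _ _).trans ?_
  rw [norm_mul, Complex.norm_I, mul_one, Complex.norm_real, Complex.norm_real, norm_eq_abs,
    norm_eq_abs]
  have q1 := abs_sub (∫ t in (0:ℝ)..1, chi a l0 s m t * cos (Ph a s φ m t) * g1 (X a s (m + 1) t))
    (∫ t in (0:ℝ)..1, chi a l0 s m t * sin (Ph a s φ m t) * g2 (X a s (m + 1) t))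
  have q2 := abs_add_le (∫ t in (0:ℝ)..1, chi a l0 s m t * cos (Ph a s φ m t) * g2 (X a s (m + 1) t))
    (∫ t in (0:ℝ)..1, chi a l0 s m t * sin (Ph a s φ m t) * g1 (X a s (m + 1) t))
  linarith

theorem rec_step3 {a l : ℝ} (hl' : l0 ≤ l) (hla : l ≤ |a|) {w : ℕ}
    (hlw : l ≤ 2 ^ w) (s : ℝ) (m : ℕ) {φ φ' : ℝ → ℝ}
    (d : ∀ x, HasDerivAt φ (φ' x) x) (c : Continuous φ') (p : Periodic φ 1) {κ : ℝ} (hκ : 0 ≤ κ)
    (hφ' : ∀ x, |φ' x| * |L a x| ≤ κ * (4 * π ^ 2 * |a|)) {A : ℝ} (hA : ∀ x y, |φ x - φ y| ≤ A) :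
    ‖Zc a l0 s φ (m + 1) - Lam φ * Zc a l0 s φ m‖ ≤ 4 * (A * ((4 * l0 + 48 * π ^ 2 * κ) / l + w * (2 * (l / |a|)))) + 2 * (l0 / |a|) := by
  have hφc : Continuous φ := continuous_iff_continuousAt.2 fun t => (d t).continuousAt
  have hPc := Ph_cont a s hφc m
  have hcc := chi_cont a l0 s m
  have hXc := Xt_cont a s (m + 1)
  have hrc := rk_cont a l0 s (m + 1)
  have hEc := E_cont
  have e1 : Zc a l0 s φ (m + 1) - Lam φ * Zc a l0 s φ m =
      (∫ t in (0:ℝ)..1, (chi a l0 s m t : ℂ) * E (Ph a s φ m t) *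
        (E (φ (X a s (m + 1) t)) - Lam φ)) -
      ∫ t in (0:ℝ)..1, ((chi a l0 s m t * (1 - rk a l0 s (m + 1) t) : ℝ) : ℂ) *
        (E (Ph a s φ m t) * E (φ (X a s (m + 1) t))) := by
    unfold Zc
    rw [← intervalIntegral.integral_const_mul, ← intervalIntegral.integral_sub
      (Continuous.intervalIntegrable (by
        have h1 : Continuous (chi a l0 s (m + 1)) := chi_cont a l0 s (m + 1)
        have h2 := Ph_cont a s hφc (m + 1)
        fun_prop) _ _) (Continuous.intervalIntegrable (by fun_prop) _ _),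
      ← intervalIntegral.integral_sub (Continuous.intervalIntegrable (by fun_prop) _ _)
        (Continuous.intervalIntegrable (by fun_prop) _ _)]
    apply intervalIntegral.integral_congr
    intro t _
    simp only
    have h1 : chi a l0 s (m + 1) t = chi a l0 s m t * rk a l0 s (m + 1) t := rfl
    have h2 : Ph a s φ (m + 1) t = Ph a s φ m t + φ (X a s (m + 1) t) := rfl
    rw [h1, h2, E_add]
    push_cast
    ring
  rw [e1]
  refine (norm_sub_le _ _).trans (add_le_add (step_c3 hl' hla hlw s m d c p hκ hφ' hA) ?_)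
  refine le_trans ?_ (loss le_rfl (hl'.trans hla) s m)
  have h3 := intervalIntegral.norm_integral_le_abs_of_norm_le (a := 0) (b := 1) (μ := volume)
    (f := fun t => ((chi a l0 s m t * (1 - rk a l0 s (m + 1) t) : ℝ) : ℂ) *
        (E (Ph a s φ m t) * E (φ (X a s (m + 1) t))))
    (g := fun t => chi a l0 s m t * (1 - rk a l0 s (m + 1) t))
    (Filter.Eventually.of_forall fun t => by
      have hr0 : 0 ≤ 1 - rk a l0 s (m + 1) t := sub_nonneg.2 (rho_le_one _)
      rw [norm_mul, norm_mul, E_norm, E_norm, mul_one, mul_one, Complex.norm_real, norm_eq_abs,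
        abs_of_nonneg (mul_nonneg (chi_mem a l0 s m t).1 hr0)])
    (Continuous.intervalIntegrable (by fun_prop) _ _)
  refine h3.trans (le_of_eq (abs_of_nonneg ?_))
  exact intervalIntegral.integral_nonneg zero_le_one fun t _ =>
    mul_nonneg (chi_mem a l0 s m t).1 (sub_nonneg.2 (rho_le_one _))

theorem Zc_pow3 {a l : ℝ} (hl' : l0 ≤ l) (hla : l ≤ |a|) {w : ℕ}
    (hlw : l ≤ 2 ^ w) (s : ℝ) {φ φ' : ℝ → ℝ}
    (d : ∀ x, HasDerivAt φ (φ' x) x) (c : Continuous φ') (p : Periodic φ 1) {κ : ℝ} (hκ : 0 ≤ κ)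
    (hφ' : ∀ x, |φ' x| * |L a x| ≤ κ * (4 * π ^ 2 * |a|)) {A : ℝ} (hA : ∀ x y, |φ x - φ y| ≤ A) (n : ℕ) :
    ‖Zc a l0 s φ n - Lam φ ^ n‖ ≤ n * (4 * (A * ((4 * l0 + 48 * π ^ 2 * κ) / l + w * (2 * (l / |a|)))) + 2 * (l0 / |a|)) := by
  induction n with
  | zero =>
    have : Zc a l0 s φ 0 = 1 := by
      unfold Zc
      simp [chi, Ph, E]
    rw [this]
    simp
  | succ n ih =>
    have h1 := rec_step3 hl' hla hlw s n d c p hκ hφ' hA
    have e1 : Zc a l0 s φ (n + 1) - Lam φ ^ (n + 1) =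
        (Zc a l0 s φ (n + 1) - Lam φ * Zc a l0 s φ n) + Lam φ * (Zc a l0 s φ n - Lam φ ^ n) := by
      ring
    rw [e1]
    refine (norm_add_le _ _).trans ?_
    rw [norm_mul]
    have h2 : ‖Lam φ‖ * ‖Zc a l0 s φ n - Lam φ ^ n‖ ≤ 1 * ‖Zc a l0 s φ n - Lam φ ^ n‖ :=
      mul_le_mul_of_nonneg_right (Lam_norm φ) (norm_nonneg _)
    push_cast
    linarith

/-- **product formula for the characteristic function** -/
theorem product3 {a l : ℝ} (hl' : l0 ≤ l) (hla : l ≤ |a|) {w : ℕ}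
    (hlw : l ≤ 2 ^ w) (s : ℝ) {φ φ' : ℝ → ℝ}
    (d : ∀ x, HasDerivAt φ (φ' x) x) (c : Continuous φ') (p : Periodic φ 1) {κ : ℝ} (hκ : 0 ≤ κ)
    (hφ' : ∀ x, |φ' x| * |L a x| ≤ κ * (4 * π ^ 2 * |a|)) {A : ℝ} (hA : ∀ x y, |φ x - φ y| ≤ A) (n : ℕ) :
    ‖(∫ t in (0:ℝ)..1, E (Ph a s φ n t)) - Lam φ ^ n‖ ≤
      n * (4 * (A * ((4 * l0 + 48 * π ^ 2 * κ) / l + w * (2 * (l / |a|)))) + 4 * (l0 / |a|)) := by
  have hφc : Continuous φ := continuous_iff_continuousAt.2 fun t => (d t).continuousAt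
  have hPc := Ph_cont a s hφc n
  have hcc := chi_cont a l0 s n
  have hEc := E_cont
  have h1 := Zc_pow3 hl' hla hlw s d c p hκ hφ' hA n
  have e1 : (∫ t in (0:ℝ)..1, E (Ph a s φ n t)) - Lam φ ^ n =
      (∫ t in (0:ℝ)..1, ((1 - chi a l0 s n t : ℝ) : ℂ) * E (Ph a s φ n t)) +
      (Zc a l0 s φ n - Lam φ ^ n) := by
    unfold Zc
    rw [← add_sub_assoc, ← intervalIntegral.integral_add
      (Continuous.intervalIntegrable (by fun_prop) _ _)
      (Continuous.intervalIntegrable (by fun_prop) _ _)]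
    congr 1
    apply intervalIntegral.integral_congr
    intro t _
    simp only
    push_cast
    ring
  rw [e1]
  refine (norm_add_le _ _).trans ?_
  have h3 := intervalIntegral.norm_integral_le_abs_of_norm_le (a := 0) (b := 1) (μ := volume)
    (f := fun t => ((1 - chi a l0 s n t : ℝ) : ℂ) * E (Ph a s φ n t))
    (g := fun t => 1 - chi a l0 s n t)
    (Filter.Eventually.of_forall fun t => by
      rw [norm_mul, E_norm, mul_one, Complex.norm_real, norm_eq_abs,
        abs_of_nonneg (sub_nonneg.2 (chi_mem a l0 s n t).2)])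
    (Continuous.intervalIntegrable (by fun_prop) _ _)
  rw [abs_of_nonneg (intervalIntegral.integral_nonneg zero_le_one fun t _ =>
    sub_nonneg.2 (chi_mem a l0 s n t).2)] at h3
  have h4 := chi_loss2 hl' hla s n
  have e2 : (n : ℝ) * (4 * (A * ((4 * l0 + 48 * π ^ 2 * κ) / l + w * (2 * (l / |a|)))) + 4 * (l0 / |a|)) =
    n * (2 * (l0 / |a|)) + n * (4 * (A * ((4 * l0 + 48 * π ^ 2 * κ) / l + w * (2 * (l / |a|)))) + 2 * (l0 / |a|)) := by ring
  rw [e2]
  linarith

end Pool.Agent.TH705.SM
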