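import Pool.Agent.TH705.SM.CltK

set_option autoImplicit false

/-!
# The logarithm of the derivative
-/

namespace Pool.Agent.TH705.SM

open Real MeasureTheory Function

/-- the logarithm of `√(1 + L²)` -/
noncomputable def hh (a x : ℝ) : ℝ := log (1 + L a x ^ 2) / 2

/-- its derivative -/
noncomputable def hh' (a x : ℝ) : ℝ :=
  L a x * (-(4 * π ^ 2 * a * sin (2 * π * x))) / (1 + L a x ^ 2)

theorem L_deriv (a x : ℝ) : HasDerivAt (L a) (-(4 * π ^ 2 * a * sin (2 * π * x))) x := by
  have h1 : HasDerivAt (fun x : ℝ => 2 * π * x) (2 * π) x := by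
    simpa using (hasDerivAt_id x).const_mul (2 * π)
  have h2 := (h1.cos.const_mul (2 * π * a)).const_add 2
  refine HasDerivAt.congr_deriv (f := L a) h2 ?_
  ring

theorem hh_hasDeriv (a x : ℝ) : HasDerivAt (hh a) (hh' a x) x := by
  have h1 := ((L_deriv a x).pow 2).const_add 1
  have h0 : (1 + L a x ^ 2) ≠ 0 := by positivity
  have h2 := (h1.log h0).div_const 2
  refine HasDerivAt.congr_deriv (f := hh a) h2 ?_
  unfold hh'
  simp only [Pi.pow_apply]
  field_simp
  push_cast
  ring

theorem hh'_cont (a : ℝ) : Continuous (hh' a) := by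
  have h1 := L_cont a
  unfold hh'
  apply Continuous.div (by fun_prop) (by fun_prop)
  intro x
  positivity

theorem hh_period (a : ℝ) : Periodic (hh a) 1 := by
  intro x
  unfold hh
  have := L_period a x 1
  rw [Nat.cast_one] at this
  rw [this]

theorem hh'_le (a x : ℝ) : |hh' a x| * |L a x| ≤ 4 * π ^ 2 * |a| := by
  unfold hh'
  have hpos : 0 < 1 + L a x ^ 2 := by positivity
  rw [abs_div, abs_of_pos hpos, abs_mul, abs_neg, abs_mul, abs_mul,
    abs_of_nonneg (by positivity : (0:ℝ) ≤ 4 * π ^ 2), div_mul_eq_mul_div, div_le_iff₀ hpos]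
  have h1 := abs_sin_le_one (2 * π * x)
  have h2 : |L a x| * |L a x| = L a x ^ 2 := by rw [← abs_mul, ← sq, abs_of_nonneg (sq_nonneg _)]
  have h3 : 0 ≤ 4 * π ^ 2 * |a| := by positivity
  calc |L a x| * (4 * π ^ 2 * |a| * |sin (2 * π * x)|) * |L a x|
      = 4 * π ^ 2 * |a| * |sin (2 * π * x)| * (|L a x| * |L a x|) := by ring
    _ = 4 * π ^ 2 * |a| * |sin (2 * π * x)| * L a x ^ 2 := by rw [h2]
    _ ≤ 4 * π ^ 2 * |a| * 1 * (1 + L a x ^ 2) := by
        apply mul_le_mul (mul_le_mul_of_nonneg_left h1 h3) (by linarith) (by positivity)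
          (by positivity)
    _ = _ := by ring

theorem hh_bound {a : ℝ} (ha : 1 ≤ |a|) (x : ℝ) : 0 ≤ hh a x ∧ hh a x ≤ 3 * (1 + log |a|) := by
  unfold hh
  have h0 : 0 ≤ log |a| := Real.log_nonneg ha
  constructor
  · have : 0 ≤ log (1 + L a x ^ 2) := Real.log_nonneg (by nlinarith [sq_nonneg (L a x)])
    linarith
  · have h1 : |L a x| ≤ 9 * |a| := by
      unfold L
      have h2 := abs_cos_le_one (2 * π * x)
      have h3 := pi_lt_d2
      have hpi := pi_pos
      calc |2 + 2 * π * a * cos (2 * π * x)| ≤ |2| + |2 * π * a * cos (2 * π * x)| := abs_add_le _ _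
        _ = 2 + 2 * π * |a| * |cos (2 * π * x)| := by
            rw [abs_mul, abs_mul, abs_mul, abs_of_pos hpi, abs_of_pos (by norm_num : (0:ℝ) < 2)]
        _ ≤ 2 + 2 * π * |a| * 1 := by gcongr
        _ ≤ 9 * |a| := by nlinarith
    have h2 : 1 + L a x ^ 2 ≤ (10 * |a|) ^ 2 := by
      have h3 : L a x ^ 2 ≤ (9 * |a|) ^ 2 := by
        rw [← sq_abs (L a x)]
        exact pow_le_pow_left₀ (abs_nonneg _) h1 2
      nlinarith
    have h3 : log (1 + L a x ^ 2) ≤ log ((10 * |a|) ^ 2) :=
      Real.log_le_log (by positivity) h2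
    rw [Real.log_pow, Real.log_mul (by norm_num) (by linarith)] at h3
    have h4 : log 10 ≤ 3 := by
      rw [Real.log_le_iff_le_exp (by norm_num)]
      have h5 : exp 3 = exp 1 ^ 3 := by rw [← Real.exp_nat_mul]; norm_num
      have h6 := Real.exp_one_gt_d9
      rw [h5]
      calc (10:ℝ) ≤ 2.7 ^ 3 := by norm_num
        _ ≤ exp 1 ^ 3 := by gcongr; linarith
    push_cast at h3
    linarith

/-- the sum of the logarithms -/
noncomputable def HS (a s : ℝ) (m : ℕ) (t : ℝ) : ℝ := ∑ j ∈ Finset.range m, hh a (X a s (j + 1) t)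

/-- the sum of the errors -/
noncomputable def RS (a s : ℝ) (m : ℕ) (t : ℝ) : ℝ :=
  ∑ j ∈ Finset.range m, 1 / L a (X a s (j + 1) t) ^ 2

theorem RS_nonneg (a s : ℝ) (m : ℕ) (t : ℝ) : 0 ≤ RS a s m t :=
  Finset.sum_nonneg fun _ _ => by positivity

theorem log_one_sub {u : ℝ} (hu : |u| ≤ 1 / 2) : |log (1 - u)| ≤ 2 * |u| := by
  have h1 := abs_le.1 hu
  have h0 : 0 < 1 - u := by linarith [h1.2]
  have h2 := Real.log_le_sub_one_of_pos h0
  have h3 := Real.one_sub_inv_le_log_of_pos h0
  have h4 := le_abs_self u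
  have h5 := neg_abs_le u
  rw [abs_le]
  constructor
  · have h6 : 1 - (1 - u)⁻¹ = -(u / (1 - u)) := by
      field_simp
      ring
    rw [h6] at h3
    have h7 : u / (1 - u) ≤ 2 * |u| := by
      rw [div_le_iff₀ h0]
      have h8 : 1 ≤ 2 * (1 - u) := by linarith [h1.2]
      have h9 := mul_le_mul_of_nonneg_left h8 (abs_nonneg u)
      linarith
    linarith
  · linarith [abs_nonneg u]

theorem log_L {a x : ℝ} (h : L a x ≠ 0) : |log |L a x| - hh a x| ≤ 1 / L a x ^ 2 := by
  have hL2 : 0 < L a x ^ 2 := by positivity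
  unfold hh
  have h1 : log |L a x| = log (L a x ^ 2) / 2 := by
    rw [← sq_abs, Real.log_pow]
    push_cast
    ring
  have h2 : 1 + L a x ^ 2 = L a x ^ 2 * (1 + 1 / L a x ^ 2) := by
    field_simp
    ring
  have h3 : log (1 + L a x ^ 2) = log (L a x ^ 2) + log (1 + 1 / L a x ^ 2) := by
    rw [← Real.log_mul hL2.ne' (by positivity), ← h2]
  rw [h1, h3]
  have h4 : 0 ≤ log (1 + 1 / L a x ^ 2) := Real.log_nonneg (by
    have : 0 < 1 / L a x ^ 2 := by positivity
    linarith)
  have h5 := Real.log_le_sub_one_of_pos (show 0 < 1 + 1 / L a x ^ 2 by positivity)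
  have h6 : 0 < 1 / L a x ^ 2 := by positivity
  rw [abs_le]
  constructor <;> linarith

theorem log_D {a s t : ℝ} {m : ℕ} (hg : Good a l0 s m t) :
    |log |D a s (m + 1) t| - HS a s m t| ≤ 3 * RS a s m t + 2 * RS a s (m - 1) t := by
  have h16 := l0_ge
  have h00 : 0 < l0 := by linarith
  induction m with
  | zero =>
    show |log |(1:ℝ)| - HS a s 0 t| ≤ _
    simp [HS, RS]
  | succ m ih =>
    have hg0 := hg.mono (Nat.le_succ m)
    have ih := ih hg0
    have hL := hg (m + 1) (by omega) le_rfl
    have hLpos : 0 < |L a (X a s (m + 1) t)| := by linarith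
    have hL0 : L a (X a s (m + 1) t) ≠ 0 := abs_pos.1 hLpos
    have hD := D_ne h16 hg0
    have hDpos : 0 < |D a s (m + 1) t| := abs_pos.2 hD
    have e1 : HS a s (m + 1) t = HS a s m t + hh a (X a s (m + 1) t) := by
      unfold HS
      rw [Finset.sum_range_succ]
    have e2 : RS a s (m + 1) t = RS a s m t + 1 / L a (X a s (m + 1) t) ^ 2 := by
      unfold RS
      rw [Finset.sum_range_succ]
    have hlog := log_L hL0
    obtain ⟨u, hu⟩ : ∃ u, u = D a s m t / (L a (X a s (m + 1) t) * D a s (m + 1) t) := ⟨_, rfl⟩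
    have e3 : D a s (m + 1 + 1) t = L a (X a s (m + 1) t) * D a s (m + 1) t * (1 - u) := by
      show L a (X a s (m + 1) t) * D a s (m + 1) t - D a s m t = _
      rw [hu]
      field_simp
    have hub : |u| ≤ 1 / 2 ∧ 2 * |u| ≤ 2 * (1 / L a (X a s (m + 1) t) ^ 2) +
        2 * (RS a s m t - RS a s (m - 1) t) := by
      rcases Nat.eq_zero_or_pos m with hm | hm
      · have : u = 0 := by
          rw [hu, hm]
          show (0:ℝ) / _ = 0
          simp
        rw [this, abs_zero, hm]
        constructor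
        · norm_num
        · have : 0 < 1 / L a (X a s (0 + 1) t) ^ 2 := by
            rw [hm] at hL0
            positivity
          simp only [Nat.zero_sub, sub_self, mul_zero, add_zero]
          linarith
      · obtain ⟨m', hm'⟩ : ∃ m', m = m' + 1 := ⟨m - 1, by omega⟩
        have hLm := hg m hm (Nat.le_succ m)
        have hLmpos : 0 < |L a (X a s m t)| := by linarith
        have hgr := (growth h16 hg0 m le_rfl).2.1 hm
        have e4 : RS a s m t - RS a s (m - 1) t = 1 / L a (X a s m t) ^ 2 := by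
          rw [hm']
          simp only [Nat.add_sub_cancel]
          unfold RS
          rw [Finset.sum_range_succ]
          ring
        rw [e4]
        have h1 : |u| ≤ 2 / (|L a (X a s m t)| * |L a (X a s (m + 1) t)|) := by
          rw [hu, abs_div, abs_mul, div_le_div_iff₀ (by positivity) (by positivity)]
          calc |D a s m t| * (|L a (X a s m t)| * |L a (X a s (m + 1) t)|)
              = (|L a (X a s m t)| * |D a s m t|) * |L a (X a s (m + 1) t)| := by ring
            _ ≤ (2 * |D a s (m + 1) t|) * |L a (X a s (m + 1) t)| :=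
                mul_le_mul_of_nonneg_right hgr hLpos.le
            _ = _ := by ring
        constructor
        · refine h1.trans ?_
          rw [div_le_div_iff₀ (by positivity) (by norm_num)]
          nlinarith
        · have h2 : 2 / (|L a (X a s m t)| * |L a (X a s (m + 1) t)|) ≤
              1 / L a (X a s (m + 1) t) ^ 2 + 1 / L a (X a s m t) ^ 2 := by
            rw [← sq_abs (L a (X a s (m + 1) t)), ← sq_abs (L a (X a s m t))]
            have h3 := sq_nonneg (1 / |L a (X a s (m + 1) t)| - 1 / |L a (X a s m t)|)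
            have h4 : (1 / |L a (X a s (m + 1) t)| - 1 / |L a (X a s m t)|) ^ 2 =
                1 / |L a (X a s (m + 1) t)| ^ 2 + 1 / |L a (X a s m t)| ^ 2 -
                  2 / (|L a (X a s m t)| * |L a (X a s (m + 1) t)|) := by
              field_simp
              ring
            rw [h4] at h3
            linarith
          linarith
    have e5 : log |D a s (m + 1 + 1) t| =
        log |D a s (m + 1) t| + log |L a (X a s (m + 1) t)| + log (1 - u) := by
      have hu1 := abs_le.1 hub.1
      have h0 : 0 < 1 - u := by linarith [hu1.2]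
      rw [e3, abs_mul, abs_mul, abs_of_pos h0, Real.log_mul (by positivity) h0.ne',
        Real.log_mul hLpos.ne' hDpos.ne']
      ring
    have h9 := log_one_sub hub.1
    rw [e1, e5, e2]
    have e6 : log |D a s (m + 1) t| + log |L a (X a s (m + 1) t)| + log (1 - u) -
        (HS a s m t + hh a (X a s (m + 1) t)) =
        (log |D a s (m + 1) t| - HS a s m t) +
        (log |L a (X a s (m + 1) t)| - hh a (X a s (m + 1) t)) + log (1 - u) := by ring
    rw [e6]
    have t1 := abs_add_le ((log |D a s (m + 1) t| - HS a s m t) +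
        (log |L a (X a s (m + 1) t)| - hh a (X a s (m + 1) t))) (log (1 - u))
    have t2 := abs_add_le (log |D a s (m + 1) t| - HS a s m t)
        (log |L a (X a s (m + 1) t)| - hh a (X a s (m + 1) t))
    have e7 : m + 1 - 1 = m := by omega
    rw [e7]
    linarith [hub.2]

end Pool.Agent.TH705.SM
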