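import Pool.Agent.TH705.SM.CltL

set_option autoImplicit false

/-!
# Comparison of the logarithm of the derivative with the sum of logarithms
-/

namespace Pool.Agent.TH705.SM

open Real MeasureTheory Function

theorem E_lip (x y : ℝ) : ‖E x - E y‖ ≤ |x - y| := by
  have h := (Convex.norm_image_sub_le_of_norm_hasDerivWithin_le (f := E)
    (f' := fun x => Complex.exp ((x : ℂ) * Complex.I) * (1 * Complex.I))
    (C := 1) (s := Set.univ) (x := y) (y := x)
    (fun x _ => ((((Complex.ofRealCLM.hasDerivAt (x := x)).mul_const Complex.I).cexp)).hasDerivWithinAt)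
    (fun x _ => by rw [norm_mul, Complex.norm_exp_ofReal_mul_I]; simp) convex_univ trivial trivial)
  simpa using h

theorem E_two (x y : ℝ) : ‖E x - E y‖ ≤ 2 := by
  refine (norm_sub_le _ _).trans ?_
  rw [E_norm, E_norm]
  norm_num

/-- the sum of the kernels -/
noncomputable def QS (a s : ℝ) (m : ℕ) (t : ℝ) : ℝ :=
  ∑ j ∈ Finset.range m, chi a l0 s j t * ee a l0 (X a s (j + 1) t)

theorem QS_cont (a s : ℝ) (m : ℕ) : Continuous (QS a s m) := by
  have h0 : 0 < l0 := by have := l0_ge; linarith
  unfold QS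
  apply continuous_finsetSum
  intro j _
  exact (chi_cont a l0 s j).mul ((ee_cont a h0).comp (Xt_cont a s (j + 1)))

theorem chi_anti (a l s : ℝ) {j m : ℕ} (h : j ≤ m) (t : ℝ) : chi a l s m t ≤ chi a l s j t := by
  induction h with
  | refl => exact le_rfl
  | step _ ih => exact (chi_succ_le a l s _ t).trans ih

theorem chi_RS {a s t : ℝ} (ha : 0 < |a|) {m : ℕ} (hg : Good a l0 s m t) :
    chi a l0 s m t * RS a s m t ≤ 2 / |a| * QS a s m t := by
  have h16 := l0_ge
  have h0 : 0 < l0 := by linarith
  unfold RS QS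
  rw [Finset.mul_sum, Finset.mul_sum]
  apply Finset.sum_le_sum
  intro j hj
  have hj' := Finset.mem_range.1 hj
  have hL := hg (j + 1) (by omega) (by omega)
  have h1 := chi_anti a l0 s hj'.le t
  have h2 : 1 / L a (X a s (j + 1) t) ^ 2 ≤ 2 / |a| * ee a l0 (X a s (j + 1) t) := by
    unfold ee
    have h3 : l0 ^ 2 ≤ L a (X a s (j + 1) t) ^ 2 := by
      rw [← sq_abs (L a _)]
      exact pow_le_pow_left₀ h0.le hL 2
    have h4 : 0 < l0 ^ 2 := by positivity
    have h5 : 0 < L a (X a s (j + 1) t) ^ 2 := by linarith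
    rw [div_mul_div_comm, div_le_div_iff₀ h5 (by positivity)]
    nlinarith
  calc chi a l0 s m t * (1 / L a (X a s (j + 1) t) ^ 2)
      ≤ chi a l0 s j t * (2 / |a| * ee a l0 (X a s (j + 1) t)) :=
        mul_le_mul h1 h2 (by positivity) (chi_mem a l0 s j t).1
    _ = _ := by ring

theorem QS_int {a : ℝ} (hla : l0 ≤ |a|) (s : ℝ) (m : ℕ) :
    ∫ t in (0:ℝ)..1, QS a s m t ≤ m * (1 / (2 * l0)) := by
  have h0 : 0 < l0 := by have := l0_ge; linarith
  unfold QS
  rw [intervalIntegral.integral_finsetSum]
  · calc _ ≤ ∑ j ∈ Finset.range m, 1 / (2 * l0) :=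
          Finset.sum_le_sum fun j _ => ee_dens le_rfl hla s j
      _ = _ := by simp
  · intro j _
    exact ((chi_cont a l0 s j).mul ((ee_cont a h0).comp (Xt_cont a s (j + 1)))).intervalIntegrable _ _

theorem log_meas (a s : ℝ) (m : ℕ) : Measurable (fun t => log |D a s m t|) := by
  have := (D_cont a s m).measurable
  exact (this.norm).log

theorem E_ii {g : ℝ → ℝ} (hg : Measurable g) : IntervalIntegrable (fun t => E (g t)) volume 0 1 := by
  rw [intervalIntegrable_iff]
  refine Measure.integrableOn_of_bounded (M := 1) (by simp) ?_ ?_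
  · exact (E_cont.measurable.comp hg).aestronglyMeasurable
  · exact Filter.Eventually.of_forall fun t => (E_norm _).le

theorem HS_cont (a s : ℝ) (m : ℕ) : Continuous (HS a s m) := by
  have hc : Continuous (hh a) := continuous_iff_continuousAt.2 fun t => (hh_hasDeriv a t).continuousAt
  unfold HS
  apply continuous_finsetSum
  intro j _
  exact hc.comp (Xt_cont a s (j + 1))

theorem log_err {a : ℝ} (hla : l0 ≤ |a|) (s κ c : ℝ) (n : ℕ) :
    ‖(∫ t in (0:ℝ)..1, E (κ * (log |D a s (n + 1) t| - c))) -
      ∫ t in (0:ℝ)..1, E (κ * (HS a s n t - c))‖ ≤ (5 * |κ| / l0 + 4 * l0) * (n / |a|) := by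
  have h16 := l0_ge
  have h0 : 0 < l0 := by linarith
  have ha : 0 < |a| := by linarith
  have hcc := chi_cont a l0 s n
  have hQc := QS_cont a s n
  rw [← intervalIntegral.integral_sub (E_ii (((log_meas a s (n + 1)).sub_const c).const_mul κ))
    (E_ii ((((HS_cont a s n).measurable).sub_const c).const_mul κ))]
  have hRS1 : RS a s (n - 1) ≤ RS a s n := by
    intro t
    unfold RS
    apply Finset.sum_le_sum_of_subset_of_nonneg
    · intro j hj
      rw [Finset.mem_range] at hj ⊢
      omega
    · intro j _ _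
      positivity
  have hpt : ∀ t, ‖E (κ * (log |D a s (n + 1) t| - c)) - E (κ * (HS a s n t - c))‖ ≤
      10 * |κ| / |a| * QS a s n t + 2 * (1 - chi a l0 s n t) := by
    intro t
    have hchi := chi_mem a l0 s n t
    have hQ0 : 0 ≤ QS a s n t := Finset.sum_nonneg fun j _ =>
      mul_nonneg (chi_mem a l0 s j t).1 (ee_nonneg _ _ _)
    by_cases hg : Good a l0 s n t
    · have h1 := E_lip (κ * (log |D a s (n + 1) t| - c)) (κ * (HS a s n t - c))
      have e1 : κ * (log |D a s (n + 1) t| - c) - κ * (HS a s n t - c) =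
          κ * (log |D a s (n + 1) t| - HS a s n t) := by ring
      rw [e1, abs_mul] at h1
      have h2 := log_D hg
      have h3 := hRS1 t
      have h4 : |κ| * |log |D a s (n + 1) t| - HS a s n t| ≤ |κ| * (5 * RS a s n t) :=
        mul_le_mul_of_nonneg_left (by linarith) (abs_nonneg _)
      have h5 := h1.trans h4
      have h6 := E_two (κ * (log |D a s (n + 1) t| - c)) (κ * (HS a s n t - c))
      have h7 := mul_le_mul_of_nonneg_left h5 hchi.1
      have h8 := mul_le_mul_of_nonneg_left h6 (sub_nonneg.2 hchi.2)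
      have h9 := mul_le_mul_of_nonneg_left (chi_RS ha hg) (by positivity : 0 ≤ 5 * |κ|)
      have e2 : 5 * |κ| * (2 / |a| * QS a s n t) = 10 * |κ| / |a| * QS a s n t := by
        field_simp
        ring
      rw [e2] at h9
      have e3 : chi a l0 s n t * (|κ| * (5 * RS a s n t)) =
          5 * |κ| * (chi a l0 s n t * RS a s n t) := by ring
      rw [e3] at h7
      have e4 : ‖E (κ * (log |D a s (n + 1) t| - c)) - E (κ * (HS a s n t - c))‖ =
          chi a l0 s n t * ‖E (κ * (log |D a s (n + 1) t| - c)) - E (κ * (HS a s n t - c))‖ +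
          (1 - chi a l0 s n t) *
            ‖E (κ * (log |D a s (n + 1) t| - c)) - E (κ * (HS a s n t - c))‖ := by ring
      rw [e4]
      linarith
    · have h1 := (chi_bad h0 hg).1
      rw [h1]
      have h6 := E_two (κ * (log |D a s (n + 1) t| - c)) (κ * (HS a s n t - c))
      have h7 : 0 ≤ 10 * |κ| / |a| * QS a s n t := by positivity
      linarith
  have h3 := intervalIntegral.norm_integral_le_abs_of_norm_le (a := 0) (b := 1) (μ := volume)
    (f := fun t => E (κ * (log |D a s (n + 1) t| - c)) - E (κ * (HS a s n t - c)))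
    (g := fun t => 10 * |κ| / |a| * QS a s n t + 2 * (1 - chi a l0 s n t))
    (Filter.Eventually.of_forall fun t => hpt t)
    (Continuous.intervalIntegrable (by fun_prop) _ _)
  rw [abs_of_nonneg (intervalIntegral.integral_nonneg zero_le_one fun t _ =>
    (norm_nonneg _).trans (hpt t)), intervalIntegral.integral_add
    (Continuous.intervalIntegrable (by fun_prop) _ _)
    (Continuous.intervalIntegrable (by fun_prop) _ _), intervalIntegral.integral_const_mul,
    intervalIntegral.integral_const_mul] at h3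
  refine h3.trans ?_
  have h4 := chi_loss2 le_rfl hla s n
  have h5 := mul_le_mul_of_nonneg_left (QS_int hla s n) (by positivity : 0 ≤ 10 * |κ| / |a|)
  have e5 : (5 * |κ| / l0 + 4 * l0) * (n / |a|) =
      10 * |κ| / |a| * (n * (1 / (2 * l0))) + 2 * (n * (2 * (l0 / |a|))) := by
    field_simp
    ring
  rw [e5]
  linarith

end Pool.Agent.TH705.SM
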