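import Pool.Agent.TH705.SM.CltL

set_option autoImplicit false

/-!
# Mean and variance of a cosine series
-/

namespace Pool.Agent.TH705.SM

open Real MeasureTheory Function Filter Topology

/-- the mean of `hh` -/
noncomputable def hmean (a : ℝ) : ℝ := ∫ x in (0:ℝ)..1, hh a x

/-- the variance of `hh` -/
noncomputable def hvar (a : ℝ) : ℝ := ∫ x in (0:ℝ)..1, (hh a x - hmean a) ^ 2

theorem hh_cont (a : ℝ) : Continuous (hh a) :=
  continuous_iff_continuousAt.2 fun t => (hh_hasDeriv a t).continuousAt

theorem cos_int_zero {k : ℤ} (hk : k ≠ 0) : ∫ x in (0:ℝ)..1, cos (2 * π * (k * x)) = 0 := by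
  have hk' : (2 * π * k : ℝ) ≠ 0 := by
    have : (k : ℝ) ≠ 0 := by exact_mod_cast hk
    positivity
  have h := intervalIntegral.integral_comp_mul_left (a := 0) (b := 1) (fun x => cos x) hk'
  have e : ∀ x : ℝ, cos (2 * π * (k * x)) = cos (2 * π * k * x) := fun x => by
    congr 1
    ring
  simp_rw [e]
  rw [h, integral_cos]
  have h2 : sin (2 * π * k * 1) = 0 := by
    have := sin_int_mul_pi (2 * k)
    rw [← this]
    congr 1
    push_cast
    ring
  rw [h2]
  simp

theorem cos_cos_int {n m : ℕ} (hn : n ≠ 0) :
    ∫ x in (0:ℝ)..1, cos (2 * π * (n * x)) * cos (2 * π * (m * x)) =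
      if n = m then 1 / 2 else 0 := by
  have e : ∀ x : ℝ, cos (2 * π * (n * x)) * cos (2 * π * (m * x)) =
      (1 / 2) * cos (2 * π * (((n : ℤ) - m : ℤ) * x)) +
      (1 / 2) * cos (2 * π * (((n : ℤ) + m : ℤ) * x)) := by
    intro x
    push_cast
    have h1 := cos_sub (2 * π * (n * x)) (2 * π * (m * x))
    have h2 := cos_add (2 * π * (n * x)) (2 * π * (m * x))
    have e1 : 2 * π * (((n : ℝ) - m) * x) = 2 * π * (n * x) - 2 * π * (m * x) := by ring
    have e2 : 2 * π * (((n : ℝ) + m) * x) = 2 * π * (n * x) + 2 * π * (m * x) := by ring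
    rw [e1, e2, h1, h2]
    ring
  simp_rw [e]
  rw [intervalIntegral.integral_add (Continuous.intervalIntegrable (by fun_prop) _ _)
    (Continuous.intervalIntegrable (by fun_prop) _ _), intervalIntegral.integral_const_mul,
    intervalIntegral.integral_const_mul, cos_int_zero (k := (n : ℤ) + m) (by omega)]
  split_ifs with h
  · subst h
    simp
  · rw [cos_int_zero (by omega)]
    simp

/-- an absolutely convergent cosine series -/
theorem cos_series {g : ℝ → ℝ} (gc : Continuous g) {c0 : ℝ} {c : ℕ → ℝ} (h0 : c 0 = 0)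
    (hc : Summable fun n => |c n|)
    (hg : ∀ x, HasSum (fun n : ℕ => c n * cos (2 * π * (n * x))) (c0 - g x)) :
    ∫ x in (0:ℝ)..1, g x = c0 ∧
    HasSum (fun n : ℕ => c n ^ 2 / 2) (∫ x in (0:ℝ)..1, (g x - c0) ^ 2) := by
  have key : ∀ (G : ℝ → ℝ) (B : ℝ), Continuous G → (∀ x, |G x| ≤ B) →
      HasSum (fun n : ℕ => c n * ∫ x in (0:ℝ)..1, cos (2 * π * (n * x)) * G x)
        (∫ x in (0:ℝ)..1, (c0 - g x) * G x) := by
    intro G B hG hB
    have h := intervalIntegral.hasSum_integral_of_dominated_convergence (μ := volume) (a := 0)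
      (b := 1) (F := fun (n : ℕ) (x : ℝ) => c n * cos (2 * π * (n * x)) * G x)
      (f := fun x => (c0 - g x) * G x) (fun n _ => |c n| * B)
      (fun n => (Continuous.aestronglyMeasurable (by fun_prop)))
      (fun n => Eventually.of_forall fun x _ => by
        rw [norm_mul, norm_mul, norm_eq_abs, norm_eq_abs, norm_eq_abs, mul_assoc]
        apply mul_le_mul_of_nonneg_left _ (abs_nonneg _)
        calc |cos (2 * π * (n * x))| * |G x| ≤ 1 * B :=
              mul_le_mul (abs_cos_le_one _) (hB x) (abs_nonneg _) zero_le_one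
          _ = B := one_mul B)
      (Eventually.of_forall fun x _ => hc.mul_right B)
      (by simp)
      (Eventually.of_forall fun x _ => (hg x).mul_right (G x))
    convert! h using 2 with n
    rw [← intervalIntegral.integral_const_mul]
    simp only [mul_assoc]
  have hb : ∀ x, |c0 - g x| ≤ ∑' n, |c n| := by
    intro x
    have h1 := (hg x).tsum_eq
    rw [← h1, ← norm_eq_abs]
    have hs : Summable fun n : ℕ => ‖c n * cos (2 * π * (n * x))‖ := by
      refine Summable.of_nonneg_of_le (fun n => norm_nonneg _) (fun n => ?_) hc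
      rw [norm_mul, norm_eq_abs, norm_eq_abs]
      exact mul_le_of_le_one_right (abs_nonneg _) (abs_cos_le_one _)
    refine (norm_tsum_le_tsum_norm hs).trans ?_
    apply Summable.tsum_le_tsum _ hs hc
    intro n
    rw [norm_mul, norm_eq_abs, norm_eq_abs]
    exact mul_le_of_le_one_right (abs_nonneg _) (abs_cos_le_one _)
  constructor
  · have h1 := key (fun _ => 1) 1 continuous_const (fun _ => by simp)
    have h2 : (fun n : ℕ => c n * ∫ x in (0:ℝ)..1, cos (2 * π * (n * x)) * 1) = fun _ => 0 := by
      ext n
      rcases Nat.eq_zero_or_pos n with hn | hn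
      · rw [hn, h0, zero_mul]
      · have := cos_int_zero (k := (n : ℤ)) (by omega)
        simp only [Int.cast_natCast] at this
        simp only [mul_one]
        rw [this, mul_zero]
    rw [h2] at h1
    have h3 := h1.unique hasSum_zero
    simp only [mul_one] at h3
    rw [intervalIntegral.integral_sub (by simp) (gc.intervalIntegrable _ _),
      intervalIntegral.integral_const] at h3
    simp only [sub_zero, one_smul] at h3
    linarith
  · have h2 : ∀ m : ℕ, m ≠ 0 → ∫ x in (0:ℝ)..1, (c0 - g x) * cos (2 * π * (m * x)) = c m / 2 := by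
      intro m hm
      have h1 := key (fun x => cos (2 * π * (m * x))) 1 (by fun_prop) (fun _ => abs_cos_le_one _)
      have h3 : (fun n : ℕ => c n * ∫ x in (0:ℝ)..1, cos (2 * π * (n * x)) *
          cos (2 * π * (m * x))) = fun n => if n = m then c m / 2 else 0 := by
        ext n
        rcases Nat.eq_zero_or_pos n with hn | hn
        · rw [hn, h0, zero_mul, if_neg (by omega)]
        · rw [cos_cos_int (by omega)]
          split_ifs with h
          · rw [h]
            ring
          · ring
      rw [h3] at h1
      exact h1.unique (hasSum_ite_eq m (c m / 2))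
    have h1 := key (fun x => c0 - g x) _ (by fun_prop) hb
    have h3 : (fun n : ℕ => c n * ∫ x in (0:ℝ)..1, cos (2 * π * (n * x)) * (c0 - g x)) =
        fun n => c n ^ 2 / 2 := by
      ext n
      rcases Nat.eq_zero_or_pos n with hn | hn
      · rw [hn, h0]
        ring
      · have := h2 n (by omega)
        simp_rw [mul_comm (cos _)]
        rw [this]
        ring
    rw [h3] at h1
    convert! h1 using 1
    apply intervalIntegral.integral_congr
    intro x _
    simp only
    ring

end Pool.Agent.TH705.SM
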