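import Pool.Agent.TH705.SM.CltM
import Pool.Agent.TH705.SM.CltO

set_option autoImplicit false

/-!
# The central limit theorem for the logarithm of the derivative
-/

namespace Pool.Agent.TH705.SM

open Real MeasureTheory Function

theorem hmean_mem {a : ℝ} (ha : 1 ≤ |a|) : 0 ≤ hmean a ∧ hmean a ≤ 3 * (1 + log |a|) := by
  have hc := hh_cont a
  constructor
  · exact intervalIntegral.integral_nonneg zero_le_one fun x _ => (hh_bound ha x).1
  · have h : ∫ x in (0:ℝ)..1, hh a x ≤ ∫ x in (0:ℝ)..1, (3 * (1 + log |a|)) := by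
      apply intervalIntegral.integral_mono_on zero_le_one (hc.intervalIntegrable _ _) (by simp)
      intro x _
      exact (hh_bound ha x).2
    rw [intervalIntegral.integral_const] at h
    simpa [hmean] using h

theorem ctr_int (a : ℝ) : ∫ x in (0:ℝ)..1, (hh a x - hmean a) = 0 := by
  have hc := hh_cont a
  rw [intervalIntegral.integral_sub (hc.intervalIntegrable _ _) (by simp),
    intervalIntegral.integral_const]
  unfold hmean
  simp

theorem ctr_bound {a : ℝ} (ha : 1 ≤ |a|) (x : ℝ) : |hh a x - hmean a| ≤ 3 * (1 + log |a|) := by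
  have h1 := hh_bound ha x
  have h2 := hmean_mem ha
  rw [abs_le]
  constructor <;> linarith [h1.1, h1.2, h2.1, h2.2]

/-- **the central limit theorem for the logarithm of the derivative, with a rate** -/
theorem lclt : ∃ C : ℝ, 0 < C ∧ ∀ a : ℝ, 1 ≤ |a| → ∀ n : ℕ, 1 ≤ n → ∀ s τ : ℝ,
    ‖(∫ t in (0:ℝ)..1, E (τ / √n * (log |D a s (n + 1) t| - n * hmean a))) -
      ((exp (-(τ ^ 2 * hvar a / 2)) : ℝ) : ℂ)‖ ≤
      C * ((1 + |τ|) * (1 + log |a|)) ^ 4 * (1 / √n + √(n / |a|)) := by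
  have hl0 := l0_ge
  have hl0' : 0 < l0 := by linarith
  have hpi := pi_pos
  refine ⟨(12 * (4 * l0 + 48 * π ^ 2 + 4) + 4 * l0) + (5 + 4 * l0) + 189 + 2 * l0,
    by positivity, ?_⟩
  intro a ha n hn s τ
  have hn1 : (1 : ℝ) ≤ n := by exact_mod_cast hn
  have hn0 : (0 : ℝ) < n := by linarith
  have ha0 : 0 < |a| := by linarith
  obtain ⟨r, hr⟩ : ∃ r : ℝ, r = (n : ℝ) ^ (1 / 4 : ℝ) := ⟨_, rfl⟩
  have hr1 : 1 ≤ r := by rw [hr]; exact Real.one_le_rpow hn1 (by norm_num)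
  have hr0 : 0 < r := by linarith
  have hr4 : (n : ℝ) = r ^ 4 := by
    rw [hr, ← Real.rpow_natCast, ← Real.rpow_mul hn0.le]
    norm_num
  have hr2 : √n = r ^ 2 := by
    rw [hr4, show r ^ 4 = (r ^ 2) ^ 2 by ring, Real.sqrt_sq (by positivity)]
  obtain ⟨b, hb⟩ : ∃ b : ℝ, b = √|a| := ⟨_, rfl⟩
  have hb1 : 1 ≤ b := by rw [hb]; exact Real.one_le_sqrt.2 ha
  have hb0 : 0 < b := by linarith
  have hb2 : |a| = b ^ 2 := by rw [hb, Real.sq_sqrt ha0.le]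
  have hrb : √((n : ℝ) / |a|) = r ^ 2 / b := by
    rw [Real.sqrt_div' _ ha0.le, hr2, ← hb]
  rw [hrb, hr2]
  obtain ⟨Lg, hLg⟩ : ∃ Lg : ℝ, Lg = 1 + log |a| := ⟨_, rfl⟩
  have hlog0 : 0 ≤ log |a| := Real.log_nonneg ha
  have hLg1 : 1 ≤ Lg := by rw [hLg]; linarith
  have hLg0 : 0 < Lg := by linarith
  rw [← hLg]
  obtain ⟨T, hT⟩ : ∃ T : ℝ, T = 1 + |τ| := ⟨_, rfl⟩
  rw [← hT]
  have hτ0 := abs_nonneg τ
  have hT1 : 1 ≤ T := by linarith
  have hT0 : 0 < T := by linarith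
  have hτT : |τ| ≤ T := by linarith
  have hctr := ctr_bound ha
  rw [← hLg] at hctr
  have hbd := hh_bound ha
  rw [← hLg] at hbd
  have hc := hh_cont a
  have f0 := ctr_int a
  set μ : ℝ := hmean a with hμ
  have f2 : ∫ x in (0:ℝ)..1, (hh a x - μ) ^ 2 = hvar a := rfl
  set v : ℝ := hvar a with hv
  have hv0 : 0 ≤ v := by
    rw [← f2]
    exact intervalIntegral.integral_nonneg zero_le_one fun x _ => sq_nonneg _
  have hvM : v ≤ (3 * Lg) ^ 2 := by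
    rw [← f2]
    have h1 : ∫ x in (0:ℝ)..1, (hh a x - μ) ^ 2 ≤ ∫ x in (0:ℝ)..1, (3 * Lg) ^ 2 := by
      apply intervalIntegral.integral_mono_on zero_le_one
        (Continuous.intervalIntegrable (by fun_prop) _ _) (by simp)
      intro x _
      rw [← sq_abs]
      exact pow_le_pow_left₀ (abs_nonneg _) (hctr x) 2
    simpa using h1
  set κ : ℝ := τ / r ^ 2 with hκ
  have hκa : |κ| = |τ| / r ^ 2 := by
    rw [hκ, abs_div, abs_of_pos (by positivity : 0 < r ^ 2)]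
  have hκ1 : |κ| ≤ |τ| := by
    rw [hκa]
    exact div_le_self hτ0 (one_le_pow₀ hr1)
  have hκT : |κ| ≤ T := hκ1.trans hτT
  have hR0 : 0 < r ^ 2 / b := by positivity
  have hTL : 1 ≤ T * Lg := one_le_mul_of_one_le_of_one_le hT1 hLg1
  have hTL0 : 0 < T * Lg := by positivity
  have hTL4 : 1 ≤ (T * Lg) ^ 4 := one_le_pow₀ hTL
  have hTT : T ≤ T * Lg := le_mul_of_one_le_right hT0.le hLg1
  have hLT : Lg ≤ T * Lg := le_mul_of_one_le_left hLg0.le hT1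
  have hi0 : 0 < 1 / r ^ 2 := by positivity
  rcases lt_or_ge (l0 * (r ^ 2 / b)) 1 with hsm | hbig
  swap
  · -- the trivial case
    have q1 := intervalIntegral.norm_integral_le_of_norm_le_const (a := 0) (b := 1)
      (f := fun t => E (κ * (log |D a s (n + 1) t| - n * μ))) (C := 1) (fun x _ => (E_norm _).le)
    have q3 : ‖∫ t in (0:ℝ)..1, E (κ * (log |D a s (n + 1) t| - n * μ))‖ ≤ 1 := by simpa using q1
    have q2 : ‖((exp (-(τ ^ 2 * v / 2)) : ℝ) : ℂ)‖ ≤ 1 := by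
      rw [Complex.norm_real, norm_eq_abs, abs_of_pos (exp_pos _), exp_le_one_iff]
      have : 0 ≤ τ ^ 2 * v / 2 := by positivity
      linarith
    have q4 : (2:ℝ) ≤ 2 * l0 * (T * Lg) ^ 4 * (r ^ 2 / b) := by
      calc (2:ℝ) = 2 * (1 * 1) := by norm_num
        _ ≤ 2 * ((T * Lg) ^ 4 * (l0 * (r ^ 2 / b))) := by gcongr
        _ = _ := by ring
    have q5 : 0 ≤ ((12 * (4 * l0 + 48 * π ^ 2 + 4) + 4 * l0) + (5 + 4 * l0) + 189) *
        (T * Lg) ^ 4 * (1 / r ^ 2 + r ^ 2 / b) := by positivity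
    have q6 : 0 ≤ 2 * l0 * (T * Lg) ^ 4 * (1 / r ^ 2) := by positivity
    have q7 : ((12 * (4 * l0 + 48 * π ^ 2 + 4) + 4 * l0) + (5 + 4 * l0) + 189 + 2 * l0) *
        (T * Lg) ^ 4 * (1 / r ^ 2 + r ^ 2 / b) =
        ((12 * (4 * l0 + 48 * π ^ 2 + 4) + 4 * l0) + (5 + 4 * l0) + 189) *
        (T * Lg) ^ 4 * (1 / r ^ 2 + r ^ 2 / b) + 2 * l0 * (T * Lg) ^ 4 * (1 / r ^ 2) +
        2 * l0 * (T * Lg) ^ 4 * (r ^ 2 / b) := by ring
    refine (norm_sub_le _ _).trans ?_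
    rw [q7]
    linarith
  -- the main case
  have hrb1 : r ^ 2 / b ≤ 1 := by
    by_contra hcon
    push Not at hcon
    have h1 : l0 * 1 ≤ l0 * (r ^ 2 / b) := mul_le_mul_of_nonneg_left hcon.le hl0'.le
    linarith
  have hl : l0 ≤ b := by
    rw [← mul_div_assoc, div_lt_one hb0] at hsm
    have h1 : l0 * 1 ≤ l0 * r ^ 2 := mul_le_mul_of_nonneg_left (one_le_pow₀ hr1) hl0'.le
    linarith
  have hla : b ≤ |a| := by
    rw [hb2]
    exact le_self_pow₀ hb1 two_ne_zero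
  have hsq : r ^ 4 / b ^ 2 ≤ r ^ 2 / b := by
    have e : r ^ 4 / b ^ 2 = (r ^ 2 / b) * (r ^ 2 / b) := by field_simp
    rw [e]
    calc (r ^ 2 / b) * (r ^ 2 / b) ≤ (r ^ 2 / b) * 1 := by gcongr
      _ = _ := by ring
  -- the logarithm
  have hA := log_err (hl.trans hla) s κ (n * μ) n
  have hA2 : (5 * |κ| / l0 + 4 * l0) * (n / |a|) ≤ (5 + 4 * l0) * (T * Lg) ^ 4 * (r ^ 2 / b) := by
    rw [hr4, hb2]
    have g1 : 5 * |κ| / l0 ≤ 5 * (T * Lg) ^ 4 := by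
      rw [div_le_iff₀ hl0']
      have g2 : T * Lg ≤ (T * Lg) ^ 4 := le_self_pow₀ hTL (by norm_num)
      have g3 : |κ| ≤ (T * Lg) ^ 4 := (hκT.trans hTT).trans g2
      have g4 : (T * Lg) ^ 4 * 1 ≤ (T * Lg) ^ 4 * l0 :=
        mul_le_mul_of_nonneg_left (by linarith) (by positivity)
      linarith
    have g5 : 4 * l0 ≤ 4 * l0 * (T * Lg) ^ 4 := le_mul_of_one_le_right (by positivity) hTL4
    calc (5 * |κ| / l0 + 4 * l0) * (r ^ 4 / b ^ 2)
        ≤ (5 * (T * Lg) ^ 4 + 4 * l0 * (T * Lg) ^ 4) * (r ^ 2 / b) := by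
          apply mul_le_mul (add_le_add g1 g5) hsq (by positivity) (by positivity)
      _ = _ := by ring
  -- the Gaussian
  have hG := Lam_pow (f := fun x => hh a x - μ) (by fun_prop) f0 f2 hctr κ n
  have hG1 : (n : ℝ) * (κ ^ 2 * v / 2) = τ ^ 2 * v / 2 := by
    rw [hr4, hκ]
    field_simp
  rw [hG1] at hG
  have hG2 : (n : ℝ) * (4 * (|κ| * (3 * Lg)) ^ 3 + (κ ^ 2 * v / 2) ^ 2) ≤
      189 * (T * Lg) ^ 4 * (1 / r ^ 2) := by
    have g1 : (n : ℝ) * (4 * (|κ| * (3 * Lg)) ^ 3) = 108 * (|τ| * Lg) ^ 3 * (1 / r ^ 2) := by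
      rw [hr4, hκa]
      field_simp
      ring
    have g2 : (n : ℝ) * (κ ^ 2 * v / 2) ^ 2 = v ^ 2 * |τ| ^ 4 / 4 * (1 / r ^ 4) := by
      have : κ ^ 2 = |τ| ^ 2 / r ^ 4 := by
        rw [← sq_abs κ, hκa]
        field_simp
      rw [hr4, this]
      field_simp
      norm_num
    have g3 : (|τ| * Lg) ^ 3 ≤ (T * Lg) ^ 4 := by
      calc (|τ| * Lg) ^ 3 ≤ (T * Lg) ^ 3 :=
            pow_le_pow_left₀ (by positivity) (mul_le_mul_of_nonneg_right hτT hLg0.le) 3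
        _ ≤ (T * Lg) ^ 4 := pow_le_pow_right₀ hTL (by norm_num)
    have g4 : |τ| ^ 4 ≤ T ^ 4 := pow_le_pow_left₀ hτ0 hτT 4
    have g5 : 1 / r ^ 4 ≤ 1 / r ^ 2 :=
      one_div_le_one_div_of_le (by positivity) (pow_le_pow_right₀ hr1 (by norm_num))
    have g6 : v ^ 2 ≤ 81 * Lg ^ 4 := by
      calc v ^ 2 ≤ ((3 * Lg) ^ 2) ^ 2 := pow_le_pow_left₀ hv0 hvM 2
        _ = 81 * Lg ^ 4 := by ring
    rw [mul_add, g1, g2]
    have g7 : 108 * (|τ| * Lg) ^ 3 * (1 / r ^ 2) ≤ 108 * (T * Lg) ^ 4 * (1 / r ^ 2) := by gcongr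
    have g8 : v ^ 2 * |τ| ^ 4 / 4 * (1 / r ^ 4) ≤ 81 * (T * Lg) ^ 4 * (1 / r ^ 2) := by
      calc v ^ 2 * |τ| ^ 4 / 4 * (1 / r ^ 4) ≤ v ^ 2 * |τ| ^ 4 / 1 * (1 / r ^ 4) := by
            gcongr
            norm_num
        _ = v ^ 2 * |τ| ^ 4 * (1 / r ^ 4) := by rw [div_one]
        _ ≤ 81 * Lg ^ 4 * T ^ 4 * (1 / r ^ 2) := by gcongr
        _ = _ := by ring
    calc _ ≤ 108 * (T * Lg) ^ 4 * (1 / r ^ 2) + 81 * (T * Lg) ^ 4 * (1 / r ^ 2) := add_le_add g7 g8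
      _ = _ := by ring
  -- the product formula
  obtain ⟨w, hw⟩ : ∃ w : ℕ, w = ⌈log |a|⌉₊ + 1 := ⟨_, rfl⟩
  have hwu : (w : ℝ) ≤ 2 * Lg := by
    rw [hw, hLg]
    push_cast
    have := (Nat.ceil_lt_add_one hlog0).le
    linarith
  have hwl : log |a| ≤ w := by
    rw [hw]
    push_cast
    have := Nat.le_ceil (log |a|)
    linarith
  have hlw : b ≤ 2 ^ w := by
    have h1 : log b ≤ w * log 2 := by
      have h2 : log |a| = 2 * log b := by rw [hb2, Real.log_pow]; norm_num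
      have h3 := Real.log_two_gt_d9
      have h4 : 0 ≤ (w : ℝ) := Nat.cast_nonneg w
      have h5 : (w : ℝ) * (1 / 2) ≤ w * log 2 := mul_le_mul_of_nonneg_left (by linarith) h4
      linarith
    calc b = exp (log b) := (Real.exp_log hb0).symm
      _ ≤ exp (w * log 2) := Real.exp_le_exp.2 h1
      _ = 2 ^ w := by
          rw [Real.exp_nat_mul, Real.exp_log (by norm_num)]
  have hP := product3 (φ := fun x => κ * (hh a x - μ)) (φ' := fun x => κ * hh' a x) hl hla hlw s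
    (fun x => ((hh_hasDeriv a x).sub_const μ).const_mul κ)
    ((hh'_cont a).const_mul κ)
    (fun x => by show κ * (hh a (x + 1) - μ) = κ * (hh a x - μ); rw [hh_period a x])
    (κ := |κ|) (abs_nonneg κ)
    (fun x => by
      rw [abs_mul, mul_assoc]
      exact mul_le_mul_of_nonneg_left (hh'_le a x) (abs_nonneg _))
    (A := |κ| * (3 * Lg)) (fun x y => by
      rw [← mul_sub, abs_mul]
      apply mul_le_mul_of_nonneg_left _ (abs_nonneg _)
      have e : hh a x - μ - (hh a y - μ) = hh a x - hh a y := by ring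
      rw [e, abs_le]
      have := hbd x
      have := hbd y
      constructor <;> linarith [(hbd x).1, (hbd x).2, (hbd y).1, (hbd y).2]) n
  have hnκ : (n : ℝ) * |κ| = |τ| * r ^ 2 := by
    rw [hr4, hκa]
    field_simp
  have hP2 : (n : ℝ) * (4 * (|κ| * (3 * Lg) *
      ((4 * l0 + 48 * π ^ 2 * |κ|) / b + w * (2 * (b / |a|)))) + 4 * (l0 / |a|)) ≤
      (12 * (4 * l0 + 48 * π ^ 2 + 4) + 4 * l0) * (T * Lg) ^ 4 * (r ^ 2 / b) := by
    have k2 : (n : ℝ) * (4 * (|κ| * (3 * Lg) *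
        ((4 * l0 + 48 * π ^ 2 * |κ|) / b + w * (2 * (b / |a|))))) =
        12 * (|τ| * Lg) * (4 * l0 + 48 * π ^ 2 * |κ| + 2 * w) * (r ^ 2 / b) := by
      calc _ = 12 * Lg * ((n : ℝ) * |κ|) *
            ((4 * l0 + 48 * π ^ 2 * |κ|) / b + w * (2 * (b / |a|))) := by ring
        _ = _ := by
            rw [hnκ, hb2]
            field_simp
    have k3 : 4 * l0 + 48 * π ^ 2 * |κ| + 2 * w ≤ (4 * l0 + 48 * π ^ 2 + 4) * (T * Lg) := by
      have q1 : 48 * π ^ 2 * |κ| ≤ 48 * π ^ 2 * (T * Lg) :=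
        mul_le_mul_of_nonneg_left (hκT.trans hTT) (by positivity)
      have q5 : 4 * l0 * 1 ≤ 4 * l0 * (T * Lg) := mul_le_mul_of_nonneg_left hTL (by positivity)
      have q7 : (4 * l0 + 48 * π ^ 2 + 4) * (T * Lg) =
          4 * l0 * (T * Lg) + 48 * π ^ 2 * (T * Lg) + 4 * (T * Lg) := by ring
      rw [q7]
      linarith
    have k4 : 12 * (|τ| * Lg) * (4 * l0 + 48 * π ^ 2 * |κ| + 2 * w) * (r ^ 2 / b) ≤
        12 * (4 * l0 + 48 * π ^ 2 + 4) * (T * Lg) ^ 4 * (r ^ 2 / b) := by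
      calc _ ≤ 12 * (T * Lg) * ((4 * l0 + 48 * π ^ 2 + 4) * (T * Lg)) * (r ^ 2 / b) := by gcongr
        _ = 12 * (4 * l0 + 48 * π ^ 2 + 4) * (T * Lg) ^ 2 * (r ^ 2 / b) := by ring
        _ ≤ _ := by
            have : (T * Lg) ^ 2 ≤ (T * Lg) ^ 4 := pow_le_pow_right₀ hTL (by norm_num)
            gcongr
    have k5 : (n : ℝ) * (4 * (l0 / |a|)) ≤ 4 * l0 * (T * Lg) ^ 4 * (r ^ 2 / b) := by
      calc (n : ℝ) * (4 * (l0 / |a|)) = 4 * l0 * (r ^ 4 / b ^ 2) := by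
            rw [hr4, hb2]
            ring
        _ ≤ 4 * l0 * (r ^ 2 / b) := by gcongr
        _ = 4 * l0 * 1 * (r ^ 2 / b) := by ring
        _ ≤ _ := by gcongr
    rw [mul_add, k2]
    calc _ ≤ _ := add_le_add k4 k5
      _ = _ := by ring
  have hsum : ∀ t, E (κ * (HS a s n t - n * μ)) = E (Ph a s (fun x => κ * (hh a x - μ)) n t) := by
    intro t
    rw [Ph_sum a s (fun x => hh a x - μ) κ n t]
    congr 2
    unfold HS
    rw [Finset.sum_sub_distrib]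
    simp
  simp_rw [hsum] at hA
  have etri : (∫ t in (0:ℝ)..1, E (κ * (log |D a s (n + 1) t| - n * μ))) -
      ((exp (-(τ ^ 2 * v / 2)) : ℝ) : ℂ) =
      ((∫ t in (0:ℝ)..1, E (κ * (log |D a s (n + 1) t| - n * μ))) -
        ∫ t in (0:ℝ)..1, E (Ph a s (fun x => κ * (hh a x - μ)) n t)) +
      ((∫ t in (0:ℝ)..1, E (Ph a s (fun x => κ * (hh a x - μ)) n t)) -
        Lam (fun x => κ * (hh a x - μ)) ^ n) +
      (Lam (fun x => κ * (hh a x - μ)) ^ n - ((exp (-(τ ^ 2 * v / 2)) : ℝ) : ℂ)) := by ring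
  rw [etri]
  refine (norm_add₃_le).trans ?_
  have s1 := hA.trans hA2
  have s2 := hP.trans hP2
  have s3 := hG.trans hG2
  have z1 : 0 ≤ ((12 * (4 * l0 + 48 * π ^ 2 + 4) + 4 * l0) + (5 + 4 * l0) + 2 * l0) *
      (T * Lg) ^ 4 * (1 / r ^ 2) := by positivity
  have z2 : 0 ≤ (189 + 2 * l0) * (T * Lg) ^ 4 * (r ^ 2 / b) := by positivity
  have z3 : ((12 * (4 * l0 + 48 * π ^ 2 + 4) + 4 * l0) + (5 + 4 * l0) + 189 + 2 * l0) *
      (T * Lg) ^ 4 * (1 / r ^ 2 + r ^ 2 / b) =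
      ((12 * (4 * l0 + 48 * π ^ 2 + 4) + 4 * l0) + (5 + 4 * l0) + 2 * l0) *
      (T * Lg) ^ 4 * (1 / r ^ 2) + (189 + 2 * l0) * (T * Lg) ^ 4 * (r ^ 2 / b) +
      (5 + 4 * l0) * (T * Lg) ^ 4 * (r ^ 2 / b) +
      (12 * (4 * l0 + 48 * π ^ 2 + 4) + 4 * l0) * (T * Lg) ^ 4 * (r ^ 2 / b) +
      189 * (T * Lg) ^ 4 * (1 / r ^ 2) := by ring
  rw [z3]
  linarith

end Pool.Agent.TH705.SM
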