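import Pool.Agent.TH705.SM.CltO

set_option autoImplicit false

/-!
# Mean and variance of the logarithm
-/

namespace Pool.Agent.TH705.SM

open Real MeasureTheory Function Filter Topology

/-- the shift `(2 + i) / (2 π a)` -/
noncomputable def bet (a : ℝ) : ℂ := (2 + Complex.I) / (2 * π * a : ℝ)

theorem bet_norm {a : ℝ} (ha : 1 ≤ |a|) : ‖bet a‖ ≤ 1 / (2 * |a|) := by
  unfold bet
  have hpi := pi_gt_three
  have ha0 : 0 < |a| := by linarith
  rw [norm_div, Complex.norm_real, norm_eq_abs, abs_mul, abs_of_pos (by positivity : 0 < 2 * π)]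
  have h1 : ‖(2 + Complex.I : ℂ)‖ ≤ 3 := by
    refine (norm_add_le _ _).trans ?_
    rw [Complex.norm_I]
    norm_num
  rw [div_le_div_iff₀ (by positivity) (by positivity)]
  calc ‖(2 + Complex.I : ℂ)‖ * (2 * |a|) ≤ 3 * (2 * |a|) := by gcongr
    _ ≤ π * (2 * |a|) := by gcongr
    _ = _ := by ring

theorem bet_im {a : ℝ} (ha : 1 ≤ |a|) : (bet a).im ≠ 0 := by
  have ha0 : a ≠ 0 := by
    intro h
    rw [h, abs_zero] at ha
    linarith
  have hpi := pi_pos
  unfold bet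
  rw [Complex.div_ofReal_im]
  simp only [Complex.add_im, Complex.I_im]
  have h1 : (2 : ℂ).im = 0 := rfl
  rw [h1, zero_add]
  positivity

theorem root_ex {β : ℂ} (hβ : β.im ≠ 0) : ∃ w : ℂ, 0 < ‖w‖ ∧ ‖w‖ < 1 ∧ w ^ 2 + 2 * β * w + 1 = 0 ∧
    1 / ‖w‖ ≤ 1 + 2 * ‖β‖ := by
  obtain ⟨s, hs⟩ := IsAlgClosed.exists_pow_nat_eq (β ^ 2 - 1) (n := 2) (by norm_num)
  have hsn : ‖s‖ ≤ 1 + ‖β‖ := by
    have h1 : ‖s‖ ^ 2 ≤ ‖β‖ ^ 2 + 1 := by
      rw [← norm_pow, hs]
      refine (norm_sub_le _ _).trans ?_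
      rw [norm_pow, norm_one]
    have h2 : ‖s‖ ^ 2 ≤ (1 + ‖β‖) ^ 2 := by nlinarith [norm_nonneg β]
    exact (pow_le_pow_iff_left₀ (norm_nonneg _) (by positivity) two_ne_zero).1 h2
  have hprod : (-β + s) * (-β - s) = 1 := by
    have : (-β + s) * (-β - s) = β ^ 2 - s ^ 2 := by ring
    rw [this, hs]
    ring
  have hpn : ‖-β + s‖ * ‖-β - s‖ = 1 := by rw [← norm_mul, hprod, norm_one]
  have b1 : ‖-β + s‖ ≤ 1 + 2 * ‖β‖ := by
    refine (norm_add_le _ _).trans ?_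
    rw [norm_neg]
    linarith
  have b2 : ‖-β - s‖ ≤ 1 + 2 * ‖β‖ := by
    refine (norm_sub_le _ _).trans ?_
    rw [norm_neg]
    linarith
  have p1 : 0 < ‖-β + s‖ := by
    rcases (norm_nonneg (-β + s)).lt_or_eq with h | h
    · exact h
    · rw [← h, zero_mul] at hpn
      exact absurd hpn (by norm_num)
  have p2 : 0 < ‖-β - s‖ := by
    rcases (norm_nonneg (-β - s)).lt_or_eq with h | h
    · exact h
    · rw [← h, mul_zero] at hpn
      exact absurd hpn (by norm_num)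
  have r1 : (-β + s) ^ 2 + 2 * β * (-β + s) + 1 = 0 := by
    have : (-β + s) ^ 2 + 2 * β * (-β + s) + 1 = s ^ 2 - β ^ 2 + 1 := by ring
    rw [this, hs]
    ring
  have r2 : (-β - s) ^ 2 + 2 * β * (-β - s) + 1 = 0 := by
    have : (-β - s) ^ 2 + 2 * β * (-β - s) + 1 = s ^ 2 - β ^ 2 + 1 := by ring
    rw [this, hs]
    ring
  rcases lt_trichotomy ‖-β + s‖ 1 with h | h | h
  · refine ⟨-β + s, p1, h, r1, ?_⟩
    rw [div_le_iff₀ p1]
    calc (1:ℝ) = ‖-β + s‖ * ‖-β - s‖ := hpn.symm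
      _ ≤ ‖-β + s‖ * (1 + 2 * ‖β‖) := mul_le_mul_of_nonneg_left b2 p1.le
      _ = (1 + 2 * ‖β‖) * ‖-β + s‖ := mul_comm _ _
  · exfalso
    apply hβ
    have h1 : (-β + s) * (starRingEnd ℂ) (-β + s) = 1 := by
      rw [Complex.mul_conj, Complex.normSq_eq_norm_sq, h]
      norm_num
    have hne : (-β + s) ≠ 0 := norm_pos_iff.1 p1
    have h2 : -β - s = (starRingEnd ℂ) (-β + s) := mul_left_cancel₀ hne (hprod.trans h1.symm)
    have h3 : (-β - s).im = -(-β + s).im := by rw [h2, Complex.conj_im]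
    simp only [Complex.sub_im, Complex.add_im, Complex.neg_im] at h3
    linarith
  · have h2 : ‖-β - s‖ < 1 := by
      by_contra hcon
      push Not at hcon
      have : 1 < ‖-β + s‖ * ‖-β - s‖ := by
        calc (1:ℝ) < ‖-β + s‖ := h
          _ = ‖-β + s‖ * 1 := (mul_one _).symm
          _ ≤ _ := by gcongr
      linarith
    refine ⟨-β - s, p2, h2, r2, ?_⟩
    rw [div_le_iff₀ p2]
    calc (1:ℝ) = ‖-β + s‖ * ‖-β - s‖ := hpn.symm
      _ ≤ (1 + 2 * ‖β‖) * ‖-β - s‖ := mul_le_mul_of_nonneg_right b1 p2.le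

/-- the expansion of `hh` -/
theorem hh_series {a : ℝ} (ha : 1 ≤ |a|) {w : ℂ} (w0 : 0 < ‖w‖) (w1 : ‖w‖ < 1)
    (hw : w ^ 2 + 2 * bet a * w + 1 = 0) (x : ℝ) :
    HasSum (fun n : ℕ => 2 * (w ^ n).re / n * cos (2 * π * (n * x)))
      (log (π * |a| / ‖w‖) - hh a x) := by
  have ha0 : 0 < |a| := by linarith
  have ha' : a ≠ 0 := abs_pos.1 ha0
  have hpi := pi_pos
  obtain ⟨z, hz⟩ : ∃ z : ℂ, z = Complex.exp (((2 * π * x : ℝ) : ℂ) * Complex.I) := ⟨_, rfl⟩
  obtain ⟨z', hz'⟩ : ∃ z' : ℂ, z' = Complex.exp (-((2 * π * x : ℝ) : ℂ) * Complex.I) := ⟨_, rfl⟩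
  have nz : ‖z‖ = 1 := by rw [hz]; exact Complex.norm_exp_ofReal_mul_I _
  have nz' : ‖z'‖ = 1 := by
    rw [hz', ← Complex.ofReal_neg]
    exact Complex.norm_exp_ofReal_mul_I _
  have hzz : z * z' = 1 := by
    rw [hz, hz', ← Complex.exp_add, ← Complex.exp_zero]
    congr 1
    ring
  have hsum : z + z' = 2 * (cos (2 * π * x) : ℂ) := by
    rw [hz, hz', Complex.ofReal_cos, Complex.two_cos]
  have hpow : ∀ n : ℕ, z ^ n + z' ^ n = 2 * (cos (2 * π * (n * x)) : ℂ) := by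
    intro n
    rw [hz, hz', ← Complex.exp_nat_mul, ← Complex.exp_nat_mul, Complex.ofReal_cos,
      Complex.two_cos]
    congr 2
    · push_cast
      ring
    · push_cast
      ring
  have n1 : ‖w * z‖ < 1 := by rw [norm_mul, nz, mul_one]; exact w1
  have n2 : ‖w * z'‖ < 1 := by rw [norm_mul, nz', mul_one]; exact w1
  have s1 := Complex.hasSum_re (Complex.hasSum_taylorSeries_neg_log n1)
  have s2 := Complex.hasSum_re (Complex.hasSum_taylorSeries_neg_log n2)
  have s3 := s1.add s2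
  have e1 : (-Complex.log (1 - w * z)).re + (-Complex.log (1 - w * z')).re =
      log (π * |a| / ‖w‖) - hh a x := by
    have q1 : (1 - w * z) ≠ 0 := by
      intro h0
      have : w * z = 1 := (sub_eq_zero.1 h0).symm
      rw [this, norm_one] at n1
      linarith
    have q2 : (1 - w * z') ≠ 0 := by
      intro h0
      have : w * z' = 1 := (sub_eq_zero.1 h0).symm
      rw [this, norm_one] at n2
      linarith
    have m1 : (1 - w * z) * (1 - w * z') = -w * (((L a x : ℝ) : ℂ) + Complex.I) / ((π * a : ℝ) : ℂ) := by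
      have t1 : (1 - w * z) * (1 - w * z') = 1 - w * (z + z') + w ^ 2 * (z * z') := by ring
      have t2 : w ^ 2 = -(2 * bet a * w) - 1 := by
        linear_combination hw
      rw [t1, hzz, hsum, t2]
      unfold bet L
      have hpa : ((π : ℝ) : ℂ) ≠ 0 := by exact_mod_cast hpi.ne'
      have haa : ((a : ℝ) : ℂ) ≠ 0 := by exact_mod_cast ha'
      push_cast
      field_simp
      ring
    have m2 : ‖1 - w * z‖ * ‖1 - w * z'‖ = ‖w‖ * √(1 + L a x ^ 2) / (π * |a|) := by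
      rw [← norm_mul, m1, norm_div, norm_mul, norm_neg, Complex.norm_real, norm_eq_abs, abs_mul,
        abs_of_pos hpi]
      congr 2
      rw [Complex.norm_def, Complex.normSq_apply]
      simp
      congr 1
      ring
    have m3 : log ‖1 - w * z‖ + log ‖1 - w * z'‖ = log (‖w‖ * √(1 + L a x ^ 2) / (π * |a|)) := by
      rw [← m2, Real.log_mul (norm_ne_zero_iff.2 q1) (norm_ne_zero_iff.2 q2)]
    have hL : 0 < 1 + L a x ^ 2 := by positivity
    have m4 : log (‖w‖ * √(1 + L a x ^ 2) / (π * |a|)) = hh a x - log (π * |a| / ‖w‖) := by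
      rw [Real.log_div (by positivity) (by positivity), Real.log_mul w0.ne' (by positivity),
        Real.log_div (by positivity) w0.ne', Real.log_sqrt hL.le]
      unfold hh
      ring
    rw [Complex.neg_re, Complex.neg_re, Complex.log_re, Complex.log_re]
    linarith
  rw [e1] at s3
  convert! s3 using 1
  ext n
  rcases Nat.eq_zero_or_pos n with hn | hn
  · rw [hn]
    simp
  · have hn' : (n : ℝ) ≠ 0 := by positivity
    have e2 : (((w * z) ^ n / n : ℂ)).re + (((w * z') ^ n / n : ℂ)).re =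
        (w ^ n * (z ^ n + z' ^ n) / n).re := by
      rw [← Complex.add_re]
      congr 1
      rw [mul_pow, mul_pow]
      ring
    rw [e2, hpow n]
    have e3 : w ^ n * (2 * ((cos (2 * π * (n * x)) : ℝ) : ℂ)) / (n : ℂ) =
        ((2 * cos (2 * π * (n * x)) / n : ℝ) : ℂ) * w ^ n := by
      push_cast
      ring
    rw [e3, Complex.re_ofReal_mul]
    ring

theorem pow_re_le {w : ℂ} (w1 : ‖w‖ ≤ 1) (n : ℕ) : |(w ^ n).re| ≤ 1 := by
  refine (Complex.abs_re_le_norm _).trans ?_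
  rw [norm_pow]
  exact pow_le_one₀ (norm_nonneg _) w1

/-- the mean and the variance -/
theorem mean_var {a : ℝ} (ha : 1 ≤ |a|) : ∃ w : ℂ, 0 < ‖w‖ ∧ ‖w‖ < 1 ∧
    w ^ 2 + 2 * bet a * w + 1 = 0 ∧ 1 / ‖w‖ ≤ 1 + 2 * ‖bet a‖ ∧
    hmean a = log (π * |a| / ‖w‖) ∧
    HasSum (fun n : ℕ => (((w ^ 2) ^ n).re + (‖w‖ ^ 2) ^ n) / (n : ℝ) ^ 2) (hvar a) := by
  obtain ⟨w, w0, w1, hw, wb⟩ := root_ex (bet_im ha)
  refine ⟨w, w0, w1, hw, wb, ?_⟩
  have hs : Summable fun n : ℕ => |2 * (w ^ n).re / (n : ℝ)| := by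
    have h1 : Summable fun n : ℕ => 2 * ‖w‖ ^ n :=
      (summable_geometric_of_lt_one (norm_nonneg _) w1).mul_left 2
    refine Summable.of_nonneg_of_le (fun n => abs_nonneg _) (fun n => ?_) h1
    rcases Nat.eq_zero_or_pos n with hn | hn
    · rw [hn]
      simp
    · have hn1 : (1:ℝ) ≤ n := by exact_mod_cast hn
      rw [abs_div, abs_mul, abs_of_pos (by norm_num : (0:ℝ) < 2),
        abs_of_nonneg (by positivity : (0:ℝ) ≤ n)]
      refine (div_le_self (by positivity) hn1).trans ?_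
      have := Complex.abs_re_le_norm (w ^ n)
      rw [norm_pow] at this
      linarith
  have h := cos_series (hh_cont a) (c0 := log (π * |a| / ‖w‖))
    (c := fun n : ℕ => 2 * (w ^ n).re / (n : ℝ)) (by simp) hs (hh_series ha w0 w1 hw)
  refine ⟨h.1, ?_⟩
  have h2 := h.2
  have h3 : hvar a = ∫ x in (0:ℝ)..1, (hh a x - log (π * |a| / ‖w‖)) ^ 2 := by
    have : hmean a = log (π * |a| / ‖w‖) := h.1
    unfold hvar
    rw [this]
  rw [h3]
  convert! h2 using 1
  ext n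
  have e1 : ((w ^ 2) ^ n).re + (‖w‖ ^ 2) ^ n = 2 * (w ^ n).re ^ 2 := by
    have t1 : (w ^ 2) ^ n = w ^ n * w ^ n := by rw [← pow_mul, mul_comm 2 n, pow_mul, sq]
    have t2 : (‖w‖ ^ 2) ^ n = ‖w ^ n‖ ^ 2 := by
      rw [norm_pow, ← pow_mul, ← pow_mul, mul_comm 2 n]
    rw [t1, t2, ← Complex.normSq_eq_norm_sq, Complex.normSq_apply, Complex.mul_re]
    ring
  rw [e1, div_pow, mul_pow]
  ring

theorem alt_sum : HasSum (fun n : ℕ => ((-1 : ℝ) ^ n + 1) / (n : ℝ) ^ 2) (π ^ 2 / 12) := by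
  have h1 := hasSum_zeta_two.mul_left (1 / 2)
  have he : HasSum (fun k : ℕ => ((-1 : ℝ) ^ (2 * k) + 1) / ((2 * k : ℕ) : ℝ) ^ 2) (π ^ 2 / 12) := by
    convert! h1 using 1
    · ext k
      rw [pow_mul]
      rcases Nat.eq_zero_or_pos k with hk | hk
      · rw [hk]
        simp
      · have : (k : ℝ) ≠ 0 := by positivity
        push_cast
        field_simp
        norm_num
    · ring
  have ho : HasSum (fun k : ℕ => ((-1 : ℝ) ^ (2 * k + 1) + 1) / ((2 * k + 1 : ℕ) : ℝ) ^ 2) 0 := by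
    convert! hasSum_zero using 1
    ext k
    rw [pow_succ, pow_mul]
    norm_num
  have := HasSum.even_add_odd (f := fun n : ℕ => ((-1 : ℝ) ^ n + 1) / (n : ℝ) ^ 2) he ho
  rwa [add_zero] at this

end Pool.Agent.TH705.SM
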