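import Pool.Agent.TH705.SM.CltP
import Pool.Agent.TH705.SM.CltN
import Pool.Agent.TH705.SM.CltD

set_option autoImplicit false

/-!
# Convergence in distribution of the logarithm of the derivative
-/

namespace Pool.Agent.TH705.SM

open Real MeasureTheory Function Filter Topology ProbabilityTheory

/-- from characteristic functions to distribution functions, measurable functions -/
theorem weak_meas {S : ℕ → ℝ → ℝ} (hS : ∀ j, Measurable (S j)) {v : ℝ} (hv : 0 < v)
    (h : ∀ τ : ℝ, Tendsto (fun j => ∫ t in (0:ℝ)..1, E (τ * S j t)) atTop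
      (𝓝 ((exp (-(τ ^ 2 * v / 2)) : ℝ) : ℂ))) (z : ℝ) :
    Tendsto (fun j => volume {t : ℝ | t ∈ Set.Ioc (0:ℝ) 1 ∧ S j t ≤ z}) atTop
      (𝓝 (gaussianReal 0 v.toNNReal (Set.Iic z))) := by
  set ν : Measure ℝ := volume.restrict (Set.Ioc (0:ℝ) 1) with hν
  have hp : IsProbabilityMeasure ν := ⟨by rw [hν, Measure.restrict_apply_univ]; simp⟩
  have hm : ∀ j, IsProbabilityMeasure (ν.map (S j)) := fun j =>
    Measure.isProbabilityMeasure_map (hS j).aemeasurable
  let μ : ℕ → ProbabilityMeasure ℝ := fun j => ⟨ν.map (S j), hm j⟩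
  let γ : ProbabilityMeasure ℝ := ⟨gaussianReal 0 v.toNNReal, inferInstance⟩
  have hconv : Tendsto μ atTop (𝓝 γ) := by
    refine ProbabilityMeasure.tendsto_iff_tendsto_charFun.2 fun τ => ?_
    have e1 : ∀ j, charFun ((μ j : ProbabilityMeasure ℝ) : Measure ℝ) τ =
        ∫ t in (0:ℝ)..1, E (τ * S j t) := by
      intro j
      show charFun (ν.map (S j)) τ = _
      rw [charFun_apply_real, integral_map (hS j).aemeasurable
        (by fun_prop : AEStronglyMeasurable (fun x : ℝ => Complex.exp (τ * x * Complex.I)) _),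
        intervalIntegral.integral_of_le zero_le_one]
      apply integral_congr_ae
      refine Filter.Eventually.of_forall fun t => ?_
      show Complex.exp (τ * S j t * Complex.I) = E (τ * S j t)
      unfold E
      push_cast
      rfl
    have e2 : charFun ((γ : ProbabilityMeasure ℝ) : Measure ℝ) τ =
        ((exp (-(τ ^ 2 * v / 2)) : ℝ) : ℂ) := by
      show charFun (gaussianReal 0 v.toNNReal) τ = _
      rw [charFun_gaussianReal, Complex.ofReal_exp]
      congr 1
      have : (((v.toNNReal : NNReal) : ℝ) : ℂ) = (v : ℂ) := by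
        rw [Real.coe_toNNReal v hv.le]
      have h2 : ((v.toNNReal : NNReal) : ℂ) = (v : ℂ) := this
      rw [h2]
      push_cast
      ring
    simp_rw [e1]
    rw [e2]
    exact h τ
  have hv' : v.toNNReal ≠ 0 := by
    simp only [ne_eq, Real.toNNReal_eq_zero, not_le]
    exact hv
  have hna : (gaussianReal 0 v.toNNReal) (frontier (Set.Iic z)) = 0 := by
    rw [frontier_Iic]
    have := nullSingletonClass_gaussianReal (μ := 0) hv'
    exact measure_singleton z
  have h3 := ProbabilityMeasure.tendsto_measure_of_null_frontier_of_tendsto' hconv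
    (E := Set.Iic z) hna
  refine h3.congr fun j => ?_
  show (ν.map (S j)) (Set.Iic z) = _
  rw [Measure.map_apply (hS j) measurableSet_Iic, hν,
    Measure.restrict_apply ((hS j) measurableSet_Iic)]
  congr 1
  ext t
  simp only [Set.mem_inter_iff, Set.mem_preimage, Set.mem_Iic]
  exact and_comm

/-- the mean is close to `log (π |a|)` -/
theorem hmean_near {a : ℝ} (ha : 1 ≤ |a|) :
    0 ≤ hmean a - log (π * |a|) ∧ hmean a - log (π * |a|) ≤ 1 / |a| := by
  obtain ⟨w, w0, w1, hw, wb, hm, -⟩ := mean_var ha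
  have ha0 : 0 < |a| := by linarith
  have hpi := pi_pos
  have hb := bet_norm ha
  have e : hmean a - log (π * |a|) = log (1 / ‖w‖) := by
    rw [hm, Real.log_div (by positivity) w0.ne', Real.log_div one_ne_zero w0.ne', Real.log_one]
    ring
  rw [e]
  have h1 : 1 ≤ 1 / ‖w‖ := by
    rw [le_div_iff₀ w0]
    linarith
  constructor
  · exact Real.log_nonneg h1
  · have h2 := Real.log_le_sub_one_of_pos (show 0 < 1 / ‖w‖ by positivity)
    have h3 : 2 * ‖bet a‖ ≤ 1 / |a| := by
      calc 2 * ‖bet a‖ ≤ 2 * (1 / (2 * |a|)) := by gcongr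
        _ = 1 / |a| := by field_simp
    linarith

/-- the variance tends to `π² / 12` -/
theorem hvar_lim {a : ℕ → ℝ} (ha : ∀ j, 1 ≤ |a j|) (hinf : Tendsto (fun j => |a j|) atTop atTop) :
    Tendsto (fun j => hvar (a j)) atTop (𝓝 (π ^ 2 / 12)) := by
  choose w w0 w1 hw wb hm hv using fun j => mean_var (ha j)
  have hb0 : Tendsto (fun j => ‖bet (a j)‖) atTop (𝓝 0) := by
    have h1 : Tendsto (fun j => 1 / |a j|) atTop (𝓝 0) := by
      have h0 := (tendsto_inv_atTop_zero (𝕜 := ℝ)).comp hinf
      refine h0.congr fun j => ?_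
      simp
    refine squeeze_zero (fun j => norm_nonneg _) (fun j => ?_) h1
    have ha0 : 0 < |a j| := by linarith [ha j]
    refine (bet_norm (ha j)).trans ?_
    apply one_div_le_one_div_of_le ha0
    linarith
  have hq : Tendsto (fun j => w j ^ 2) atTop (𝓝 (-1)) := by
    rw [tendsto_iff_norm_sub_tendsto_zero]
    have h1 : Tendsto (fun j => 2 * ‖bet (a j)‖) atTop (𝓝 0) := by
      simpa using hb0.const_mul 2
    refine squeeze_zero (fun j => norm_nonneg _) (fun j => ?_) h1
    have e : w j ^ 2 - -1 = -(2 * bet (a j) * w j) := by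
      linear_combination hw j
    rw [e, norm_neg, norm_mul, norm_mul]
    have h2 : ‖(2:ℂ)‖ = 2 := by norm_num
    rw [h2]
    exact mul_le_of_le_one_right (by positivity) (w1 j).le
  have hqn : Tendsto (fun j => ‖w j‖ ^ 2) atTop (𝓝 1) := by
    have h1 := hq.norm
    simp only [norm_pow, norm_neg, norm_one] at h1
    exact h1
  have e1 : ∀ j, hvar (a j) =
      ∑' n : ℕ, (((w j ^ 2) ^ n).re + (‖w j‖ ^ 2) ^ n) / (n : ℝ) ^ 2 := fun j => (hv j).tsum_eq.symm
  simp_rw [e1]
  rw [← alt_sum.tsum_eq]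
  have hsum : Summable fun n : ℕ => 2 * (1 / (n : ℝ) ^ 2) := hasSum_zeta_two.summable.mul_left 2
  refine tendsto_tsum_of_dominated_convergence hsum (fun n => ?_) ?_
  · have h1 : Tendsto (fun j => ((w j ^ 2) ^ n).re) atTop (𝓝 ((-1 : ℝ) ^ n)) := by
      have h2 := (Complex.continuous_re.tendsto _).comp (hq.pow n)
      have e2 : (((-1 : ℂ)) ^ n).re = (-1 : ℝ) ^ n := by
        have : ((-1 : ℂ)) ^ n = (((-1 : ℝ) ^ n : ℝ) : ℂ) := by push_cast; rfl
        rw [this, Complex.ofReal_re]
      rw [e2] at h2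
      exact h2
    have h3 := hqn.pow n
    rw [one_pow] at h3
    exact (h1.add h3).div_const _
  · refine Eventually.of_forall fun j n => ?_
    have h1 : |((w j ^ 2) ^ n).re| ≤ 1 := by
      refine (Complex.abs_re_le_norm _).trans ?_
      rw [norm_pow, norm_pow]
      exact pow_le_one₀ (by positivity) (pow_le_one₀ (norm_nonneg _) (w1 j).le)
    have h2 : (‖w j‖ ^ 2) ^ n ≤ 1 := pow_le_one₀ (by positivity) (pow_le_one₀ (norm_nonneg _) (w1 j).le)
    have h3 : 0 ≤ (‖w j‖ ^ 2) ^ n := by positivity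
    rw [norm_div, norm_eq_abs, norm_eq_abs, abs_of_nonneg (by positivity : 0 ≤ (n:ℝ) ^ 2),
      ← mul_one_div]
    apply mul_le_mul_of_nonneg_right _ (by positivity)
    refine (abs_add_le _ _).trans ?_
    rw [abs_of_nonneg h3]
    linarith

end Pool.Agent.TH705.SM
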