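import Pool.Agent.TH705.SM.CltQ

set_option autoImplicit false

/-!
# Convergence in distribution of the logarithm of the derivative
-/

namespace Pool.Agent.TH705.SM

open Real MeasureTheory Function Filter Topology ProbabilityTheory

/-- changing the centring -/
theorem shift_err {g : ℝ → ℝ} (hg : Measurable g) (κ c d : ℝ) :
    ‖(∫ t in (0:ℝ)..1, E (κ * (g t - c))) - ∫ t in (0:ℝ)..1, E (κ * (g t - d))‖ ≤
      |κ| * |d - c| := by
  rw [← intervalIntegral.integral_sub (E_ii ((hg.sub_const c).const_mul κ))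
    (E_ii ((hg.sub_const d).const_mul κ))]
  have h := intervalIntegral.norm_integral_le_of_norm_le_const (a := 0) (b := 1)
    (f := fun t => E (κ * (g t - c)) - E (κ * (g t - d))) (C := |κ| * |d - c|) (fun t _ => by
      refine (E_lip _ _).trans (le_of_eq ?_)
      rw [← abs_mul]
      congr 1
      ring)
  simpa using h

/-- **convergence in distribution** -/
theorem lclt_seq {a : ℕ → ℝ} {n : ℕ → ℕ} (ha : ∀ j, 1 ≤ |a j|) (hn : ∀ j, 1 ≤ n j)
    (hr : Tendsto (fun j => (1 + log |a j|) ^ 4 * (1 / √(n j) + √(n j / |a j|))) atTop (𝓝 0))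
    (s : ℕ → ℝ) (z : ℝ) :
    Tendsto (fun j => volume {t : ℝ | t ∈ Set.Ioc (0:ℝ) 1 ∧
      (log |D (a j) (s j) (n j + 1) t| - n j * log (π * |a j|)) / √(n j) ≤ z}) atTop
      (𝓝 (gaussianReal 0 (π ^ 2 / 12).toNNReal (Set.Iic z))) := by
  have hpi := pi_pos
  have hlog : ∀ j, 1 ≤ (1 + log |a j|) ^ 4 := fun j =>
    one_le_pow₀ (by linarith [Real.log_nonneg (ha j)])
  have hr1 : Tendsto (fun j => √(n j / |a j|)) atTop (𝓝 0) := by
    refine squeeze_zero (fun j => Real.sqrt_nonneg _) (fun j => ?_) hr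
    have h1 : 0 ≤ 1 / √(n j : ℝ) := by positivity
    have h2 : 0 ≤ √(n j / |a j|) := Real.sqrt_nonneg _
    calc √(n j / |a j|) = 1 * √(n j / |a j|) := (one_mul _).symm
      _ ≤ (1 + log |a j|) ^ 4 * (1 / √(n j) + √(n j / |a j|)) :=
        mul_le_mul (hlog j) (by linarith) h2 (by linarith [hlog j])
  have hinf : Tendsto (fun j => |a j|) atTop atTop := by
    have h1 : Tendsto (fun j => (|a j|)⁻¹) atTop (𝓝 0) := by
      have h2 : Tendsto (fun j => √(n j / |a j|) ^ 2) atTop (𝓝 0) := by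
        simpa using hr1.pow 2
      refine squeeze_zero (fun j => by positivity) (fun j => ?_) h2
      have ha0 : 0 < |a j| := by linarith [ha j]
      have hn1 : (1:ℝ) ≤ n j := by exact_mod_cast hn j
      rw [Real.sq_sqrt (by positivity), inv_eq_one_div]
      gcongr
    have h3 : Tendsto (fun j => (|a j|)⁻¹) atTop (𝓝[>] 0) :=
      tendsto_nhdsWithin_iff.2 ⟨h1, Eventually.of_forall fun j => by
        have ha0 : 0 < |a j| := by linarith [ha j]
        exact inv_pos.2 ha0⟩
    have h4 := h3.inv_tendsto_nhdsGT_zero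
    refine h4.congr fun j => ?_
    simp
  refine weak_meas (S := fun j t => (log |D (a j) (s j) (n j + 1) t| -
    n j * log (π * |a j|)) / √(n j)) (fun j =>
      ((log_meas (a j) (s j) (n j + 1)).sub_const _).div_const _) (by positivity) (fun τ => ?_) z
  obtain ⟨C, hC, H⟩ := lclt
  have hA : Tendsto (fun j => (∫ t in (0:ℝ)..1, E (τ / √(n j) *
      (log |D (a j) (s j) (n j + 1) t| - n j * hmean (a j)))) -
      ((exp (-(τ ^ 2 * hvar (a j) / 2)) : ℝ) : ℂ)) atTop (𝓝 0) := by
    have h1 : Tendsto (fun j => C * (1 + |τ|) ^ 4 *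
        ((1 + log |a j|) ^ 4 * (1 / √(n j) + √(n j / |a j|)))) atTop (𝓝 0) := by
      simpa using hr.const_mul (C * (1 + |τ|) ^ 4)
    refine squeeze_zero_norm (fun j => ?_) h1
    refine (H (a j) (ha j) (n j) (hn j) (s j) τ).trans (le_of_eq ?_)
    ring
  have hB : Tendsto (fun j => ((exp (-(τ ^ 2 * hvar (a j) / 2)) : ℝ) : ℂ)) atTop
      (𝓝 ((exp (-(τ ^ 2 * (π ^ 2 / 12) / 2)) : ℝ) : ℂ)) := by
    have h1 := hvar_lim ha hinf
    have h2 : Tendsto (fun j => exp (-(τ ^ 2 * hvar (a j) / 2))) atTop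
        (𝓝 (exp (-(τ ^ 2 * (π ^ 2 / 12) / 2)))) :=
      ((continuous_exp.tendsto _).comp (((h1.const_mul (τ ^ 2)).div_const 2).neg))
    exact (Complex.continuous_ofReal.tendsto _).comp h2
  have hD : Tendsto (fun j => (∫ t in (0:ℝ)..1, E (τ / √(n j) *
      (log |D (a j) (s j) (n j + 1) t| - n j * log (π * |a j|)))) -
      (∫ t in (0:ℝ)..1, E (τ / √(n j) *
      (log |D (a j) (s j) (n j + 1) t| - n j * hmean (a j))))) atTop (𝓝 0) := by
    have h1 : Tendsto (fun j => |τ| * √(n j / |a j|)) atTop (𝓝 0) := by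
      simpa using hr1.const_mul |τ|
    refine squeeze_zero_norm (fun j => ?_) h1
    refine (shift_err (log_meas (a j) (s j) (n j + 1)) _ _ _).trans ?_
    have ha0 : 0 < |a j| := by linarith [ha j]
    have hn1 : (1:ℝ) ≤ n j := by exact_mod_cast hn j
    have hn0 : (0:ℝ) < n j := by linarith
    have hs0 : 0 < √(n j : ℝ) := Real.sqrt_pos.2 hn0
    have hm := hmean_near (ha j)
    rw [← mul_sub, abs_mul, abs_div, abs_of_pos hs0, abs_of_pos hn0, abs_of_nonneg hm.1]
    have e1 : (n j : ℝ) = √(n j) * √(n j) := (Real.mul_self_sqrt hn0.le).symm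
    have e2 : |τ| / √(n j) * (n j * (hmean (a j) - log (π * |a j|))) =
        |τ| * (√(n j) * (hmean (a j) - log (π * |a j|))) := by
      have : |τ| / √(n j) * (n j * (hmean (a j) - log (π * |a j|))) =
          |τ| / √(n j) * (√(n j) * √(n j) * (hmean (a j) - log (π * |a j|))) := by rw [← e1]
      rw [this]
      field_simp
    rw [e2]
    apply mul_le_mul_of_nonneg_left _ (abs_nonneg _)
    rw [Real.sqrt_div' _ ha0.le, div_eq_mul_one_div]
    apply mul_le_mul_of_nonneg_left _ hs0.le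
    refine hm.2.trans ?_
    apply one_div_le_one_div_of_le (Real.sqrt_pos.2 ha0)
    exact Real.sqrt_le_self_iff.2 (Or.inr (ha j))
  have h := (hD.add hA).add hB
  rw [add_zero, zero_add] at h
  refine h.congr fun j => ?_
  have e : ∀ t, τ * ((log |D (a j) (s j) (n j + 1) t| - n j * log (π * |a j|)) / √(n j)) =
      τ / √(n j) * (log |D (a j) (s j) (n j + 1) t| - n j * log (π * |a j|)) := fun t => by ring
  simp_rw [e]
  ring

end Pool.Agent.TH705.SM
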